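import Pool.Agent.P.MP_de05b4_pr.Basic

/-! The shifts preserve the product law, and the horizontal shift is ergodic. -/

namespace DRW

open MeasureTheory ProbabilityTheory Set Filter

lemma Erg_mp (ν : Measure (Fin 4 → ℝ)) [IsProbabilityMeasure ν] (x : ℤ × ℤ) :
    MeasurePreserving (shift x) (Measure.infinitePi fun _ : ℤ × ℤ => ν)
      (Measure.infinitePi fun _ : ℤ × ℤ => ν) :=
  ⟨measurable_pi_lambda _ fun y => measurable_pi_apply (x + y),
    Measure.map_infinitePi_infinitePi_of_inj (P := fun _ : ℤ × ℤ => ν) (f := fun y => x + y)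
      (add_right_injective x)⟩

lemma Erg_iter {A : Set Env} (h : shift (dir 0) ⁻¹' A = A) (n : ℕ) :
    shift ((n : ℤ), 0) ⁻¹' A = A := by
  induction n with
  | zero =>
    have : shift (((0 : ℕ) : ℤ), 0) = id := by
      funext ω y
      exact congrArg ω (Prod.ext (by simp) (by simp))
    rw [this, preimage_id]
  | succ n ih =>
    have : shift (((n + 1 : ℕ) : ℤ), 0) = shift (dir 0) ∘ shift ((n : ℤ), 0) := by
      funext ω y
      refine congrArg ω (Prod.ext ?_ ?_)
      · simp [dir, add_assoc]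
      · simp [dir]
    rw [this, preimage_comp, h, ih]

lemma Erg_indep (ν : Measure (Fin 4 → ℝ)) [IsProbabilityMeasure ν] {B : Set Env}
    (hB : B ∈ measurableCylinders fun _ : ℤ × ℤ => Fin 4 → ℝ) : ∃ n : ℕ,
    (Measure.infinitePi fun _ : ℤ × ℤ => ν).real (B ∩ shift ((n : ℤ), 0) ⁻¹' B) =
      (Measure.infinitePi fun _ : ℤ × ℤ => ν).real B *
        (Measure.infinitePi fun _ : ℤ × ℤ => ν).real (shift ((n : ℤ), 0) ⁻¹' B) := by
  classical
  obtain ⟨L, S, hS, rfl⟩ := (mem_measurableCylinders B).1 hB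
  obtain ⟨R, hR⟩ : ∃ R : ℕ, ∀ z ∈ L, z.1.natAbs ≤ R :=
    ⟨L.sup fun z => z.1.natAbs, fun z hz => Finset.le_sup (f := fun z : ℤ × ℤ => z.1.natAbs) hz⟩
  refine ⟨2 * R + 1, ?_⟩
  set g : ℤ × ℤ := (((2 * R + 1 : ℕ) : ℤ), 0) with hg
  have hd : Disjoint L (L.image fun z => g + z) := by
    refine Finset.disjoint_left.2 fun z hz hz' => ?_
    obtain ⟨w, hw, rfl⟩ := Finset.mem_image.1 hz'
    have h1 := hR _ hz
    have h2 := hR _ hw
    simp only [hg, Prod.fst_add] at h1
    omega
  have h := (iIndepFun_infinitePi (P := fun _ : ℤ × ℤ => ν) (X := fun _ ω => ω)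
    (fun _ => measurable_id)).indepFun_finset L (L.image fun z => g + z) hd
      (fun i => measurable_pi_apply i)
  have h2 := h.comp (φ := id) (ψ := fun (f : (L.image fun z => g + z) → Fin 4 → ℝ) (i : L) =>
    f ⟨g + i, Finset.mem_image_of_mem _ i.2⟩) measurable_id
    (measurable_pi_lambda _ fun i => measurable_pi_apply _)
  have h3 := h2.measure_inter_preimage_eq_mul S S hS hS
  simp only [Measure.real, ← ENNReal.toReal_mul]
  exact congrArg ENNReal.toReal h3

theorem pf_Erg : StErg := by
  intro ν _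
  refine ⟨Erg_mp ν, Erg_mp ν _, ⟨fun A hA hinv => ?_⟩⟩
  set μ : Measure Env := Measure.infinitePi fun _ : ℤ × ℤ => ν with hμ
  have key : ∀ ε > 0, μ.real A ≤ μ.real A * μ.real A + 5 * ε := by
    intro ε hε
    obtain ⟨B, hB, hAB⟩ := (Measure.MeasureDense.of_generateFrom_isSetAlgebra_finite μ
      (⟨empty_mem_measurableCylinders _, fun _ h => compl_mem_measurableCylinders h,
        fun _ _ h h' => union_mem_measurableCylinders h h'⟩ :
          IsSetAlgebra (measurableCylinders fun _ : ℤ × ℤ => Fin 4 → ℝ))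
      generateFrom_measurableCylinders.symm).approx A hA (measure_ne_top _ _) _ (lt_min hε one_pos)
    have hBm := MeasurableSet.of_mem_measurableCylinders hB
    obtain ⟨n, h1⟩ := Erg_indep ν hB
    rw [← hμ] at h1
    have hmp : MeasurePreserving (shift ((n : ℤ), 0)) μ μ := Erg_mp ν _
    have h2 : μ.real (shift ((n : ℤ), 0) ⁻¹' B) = μ.real B :=
      hmp.measureReal_preimage hBm.nullMeasurableSet
    have h3 : μ.real (symmDiff A B) < min ε 1 := ENNReal.toReal_lt_of_lt_ofReal hAB
    have h4 : μ.real (shift ((n : ℤ), 0) ⁻¹' symmDiff A B) = μ.real (symmDiff A B) :=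
      hmp.measureReal_preimage (hA.symmDiff hBm).nullMeasurableSet
    have h5 : μ.real A ≤ μ.real (((B ∩ shift ((n : ℤ), 0) ⁻¹' B) ∪ symmDiff A B) ∪
        shift ((n : ℤ), 0) ⁻¹' symmDiff A B) := by
      refine measureReal_mono fun x hx => ?_
      have hx' : shift ((n : ℤ), 0) x ∈ A := by
        rw [← Erg_iter hinv n] at hx
        exact hx
      simp only [mem_union, mem_inter_iff, mem_preimage, mem_symmDiff]
      tauto
    have h6 := measureReal_union_le (μ := μ) ((B ∩ shift ((n : ℤ), 0) ⁻¹' B) ∪ symmDiff A B)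
      (shift ((n : ℤ), 0) ⁻¹' symmDiff A B)
    have h7 := measureReal_union_le (μ := μ) (B ∩ shift ((n : ℤ), 0) ⁻¹' B) (symmDiff A B)
    have h8 : μ.real B ≤ μ.real A + μ.real (symmDiff A B) := by
      refine le_trans (measureReal_mono fun x hx => ?_) (measureReal_union_le _ _)
      simp only [mem_union, mem_symmDiff]
      tauto
    have h9 : μ.real A ≤ 1 := measureReal_le_one
    have h10 : 0 ≤ μ.real A := measureReal_nonneg
    have h11 : 0 ≤ μ.real B := measureReal_nonneg
    have h12 : 0 ≤ μ.real (symmDiff A B) := measureReal_nonneg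
    have h13 := h3.trans_le (min_le_left _ _)
    have h14 := h3.trans_le (min_le_right _ _)
    have h15 : μ.real B * μ.real B ≤ (μ.real A + μ.real (symmDiff A B)) *
        (μ.real A + μ.real (symmDiff A B)) := mul_self_le_mul_self h11 h8
    rw [h2] at h1
    nlinarith
  have h1 : μ.real A ≤ μ.real A * μ.real A :=
    le_of_forall_pos_le_add fun ε hε => by linarith [key (ε / 5) (by positivity)]
  rw [eventuallyConst_set]
  rcases (measureReal_nonneg (μ := μ) (s := A)).eq_or_lt with h0 | h0
  · exact Or.inr (measure_eq_zero_iff_ae_notMem.1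
      ((measureReal_eq_zero_iff (measure_ne_top _ _)).1 h0.symm))
  · left
    have h2 : μ.real A = 1 := le_antisymm measureReal_le_one (by nlinarith)
    exact (prob_compl_eq_zero_iff hA).2 ((ENNReal.toReal_eq_one_iff _).1 h2)

end DRW
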