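import Pool.Agent.P.MP_de05b4_pr.Basic

/-! Translation invariance of the mean fluxes and the splitting identities. -/

namespace DRW

open MeasureTheory ProbabilityTheory Finset Filter
open scoped ENNReal Topology

variable {N : ℕ} [NeZero N]

theorem A0_Fx_shG {G : E N → ℝ} (hG : Pos G) {W W' I I' : Finset (T N)} (hW : W ≠ univ)
    (z : T N) (hWW : ∀ x, x ∈ W ↔ x + z ∈ W') (hI : ∀ x, x ∈ I ↔ x + z ∈ I')
    {f f' : T N → ℝ} (hf : ∀ x, f x = f' (x + z)) (i : Fin 4) :
    Fx (shG z G) (SE I i) (har W f (shG z G)) = Fx G (SE I' i) (har W' f' G) := by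
  rw [Fx_SE, Fx_SE]
  refine Finset.sum_equiv (Equiv.addRight z) (fun x => hI x) fun x _ => ?_
  rw [har_shG hG hW z hWW hf]
  simp only [shG, Equiv.coe_addRight, add_right_comm x (dr N i) z]

theorem A0_Ex {α : Fin 4 → ℝ} (hα : ∀ i, 0 < α i) {W W' I I' : Finset (T N)} (hW : W ≠ univ)
    (z : T N) (hWW : ∀ x, x ∈ W ↔ x + z ∈ W') (hI : ∀ x, x ∈ I ↔ x + z ∈ I')
    {f f' : T N → ℝ} (hf : ∀ x, f x = f' (x + z)) (i : Fin 4) :
    Ex (al N α) (fun G => Fx G (SE I' i) (har W' f' G)) =
      Ex (al N α) fun G => Fx G (SE I i) (har W f G) := by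
  rw [← Ex_shG hα z (measurable_Fx_har (SE I i) W f)]
  exact Ex_congr (pos_al hα) fun G hG => (A0_Fx_shG hG hW z hWW hI hf i).symm

theorem A0_col_add (x z : T N) :
    (col x + col z < N ∧ col (x + z) = col x + col z) ∨
      (N ≤ col x + col z ∧ col (x + z) + N = col x + col z) := by
  have hx := col_lt x
  have hz := col_lt z
  have h : col (x + z) = (col x + col z) % N := ZMod.val_add _ _
  rcases Nat.lt_or_ge (col x + col z) N with h1 | h1
  · exact Or.inl ⟨h1, by rw [h, Nat.mod_eq_of_lt h1]⟩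
  · refine Or.inr ⟨h1, ?_⟩
    rw [h, Nat.mod_eq_sub_mod h1, Nat.mod_eq_of_lt (by omega)]
    omega

theorem A0_col_vert {y y' : T N} (h : col y = col y') (x : T N) : col (x + (y' - y)) = col x := by
  have h1 : y.1 = y'.1 := ZMod.val_injective N h
  simp only [col, Prod.fst_add, Prod.fst_sub, h1, sub_self, add_zero]

omit [NeZero N] in
theorem A0_ind {S S' : Finset (T N)} {x x' : T N} (h : x ∈ S ↔ x' ∈ S') :
    ind S x = ind S' x' := by
  simp only [ind, h]

theorem pf_A0 : StA0 := by
  intro α hα N _ s j hsj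
  refine ⟨fun y hy => ?_, fun y hy y' hy' => ?_, fun y hy y' hy' => ?_⟩
  · rw [mem_Col] at hy
    refine A0_Ex hα (Wd_ne_univ 0 j) y (fun x => ?_) (fun x => ?_) (fun x => A0_ind ?_) 2
    · have := A0_col_add x y
      have := col_lt x
      rw [mem_Wd, mem_Wd]
      omega
    · have := A0_col_add x y
      have := col_lt x
      rw [mem_Col, mem_Col]
      omega
    · simp
  · rw [mem_Col] at hy hy'
    have hc := A0_col_vert (hy'.trans hy.symm)
    refine A0_Ex hα (Wd_ne_univ s (s + j)) (y - y') (fun x => ?_) (fun x => ?_)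
      (fun x => A0_ind ?_) 0
    · rw [mem_Wd, mem_Wd, hc]
    · rw [mem_Col, mem_Col, hc]
    · rw [mem_singleton, mem_singleton, ← add_sub_assoc, sub_eq_iff_eq_add, add_comm y y',
        add_left_inj]
  · rw [mem_Col] at hy hy'
    have hc := A0_col_vert (hy'.trans hy.symm)
    refine A0_Ex hα (Wd_ne_univ s (s + j)) (y - y') (fun x => ?_) (fun x => ?_)
      (fun x => A0_ind ?_) 0
    · rw [mem_Wd, mem_Wd, hc]
    · rw [mem_singleton, mem_singleton, ← add_sub_assoc, sub_eq_iff_eq_add, add_comm y y',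
        add_left_inj]
    · rw [mem_Col, mem_Col, hc]

theorem A0_comb (G : E N → ℝ) (W C : Finset (T N)) (S : Finset (E N)) (g : T N → ℝ) :
    ∑ y ∈ C, Fx G S (har W (ind {y}) G) * g y =
      Fx G S (har W (fun z => if z ∈ C then g z else 0) G) := by
  have h1 : (fun z => if z ∈ C then g z else 0) = fun z => ∑ y ∈ C, g y * ind {y} z := by
    funext z
    simp only [ind, mem_singleton, mul_ite, mul_one, mul_zero, Finset.sum_ite_eq]
  have h2 : har W (fun z => ∑ y ∈ C, g y * ind {y} z) G =
      fun x => ∑ y ∈ C, g y * har W (ind {y}) G x := by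
    funext x
    rw [har_sum]
    exact Finset.sum_congr rfl fun y _ => har_mul G W _ _ x
  rw [h1, h2, Fx_sum]
  refine Finset.sum_congr rfl fun y _ => ?_
  rw [Fx_mul, mul_comm]

theorem pf_Id : StId := by
  intro N _ s r t hsr hrt ht G hG
  refine ⟨?_, ?_, ?_⟩
  · simp only [FL]
    rw [A0_comb, ← Fx_add]
    refine Fx_congr G fun e he => ?_
    have hc := col_tg_left (by omega) Subset.rfl he
    refine eq_on_strip hG (s := s) (t := r) (by omega)
      (f := fun z => har (Wd N s r) (fun z => if z ∈ Col N r then vv s t G z else 0) G z +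
        uu s t G z) (g := uu s r G) (fun x hx => ?_) (fun x hx => ?_) (fun x hx => ?_)
      (by omega) (by omega)
    · rw [mem_Wd] at hx
      rw [lap_add, har_Wd_lap hG _ hx.1 hx.2, uu_lap hG hx.1 (by omega), uu_lap hG hx.1 hx.2,
        add_zero]
    · rw [har_Wd_off hG _ (Or.inl hx.le), if_neg (by rw [mem_Col]; omega),
        uu_left hG (by omega) hx, uu_left hG hsr hx, add_zero]
    · rw [har_Wd_off hG _ (Or.inr hx.ge), if_pos (mem_Col.2 hx), uu_right hG hx, add_comm]
      exact uu_add_vv hG (by omega) ht (by omega) (by omega)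
  · simp only [FR]
    rw [A0_comb]
    refine Fx_congr G fun e he => ?_
    have hc := col_tg_right (by omega) Subset.rfl he
    refine eq_on_strip hG (s := r) (t := t) ht
      (f := har (Wd N r t) (fun z => if z ∈ Col N r then vv s t G z else 0) G)
      (g := vv s t G) (fun x hx => ?_) (fun x hx => ?_) (fun x hx => ?_) (by omega) (by omega)
    · rw [mem_Wd] at hx
      rw [har_Wd_lap hG _ hx.1 hx.2, vv_lap hG (by omega) hx.2]
    · rw [har_Wd_off hG _ (Or.inl hx.le), if_pos (mem_Col.2 hx)]
    · rw [har_Wd_off hG _ (Or.inr hx.ge), if_neg (by rw [mem_Col]; omega),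
        vv_right hG (by omega) hx]
  · simp only [FR]
    rw [A0_comb, ← Fx_add]
    refine Fx_congr G fun e he => ?_
    have hc := col_tg_right (by omega) Subset.rfl he
    refine eq_on_strip hG (s := r) (t := t) ht
      (f := fun z => har (Wd N r t) (fun z => if z ∈ Col N r then uu s t G z else 0) G z +
        vv s t G z) (g := vv r t G) (fun x hx => ?_) (fun x hx => ?_) (fun x hx => ?_)
      (by omega) (by omega)
    · rw [mem_Wd] at hx
      rw [lap_add, har_Wd_lap hG _ hx.1 hx.2, vv_lap hG (by omega) hx.2, vv_lap hG hx.1 hx.2,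
        add_zero]
    · rw [har_Wd_off hG _ (Or.inl hx.le), if_pos (mem_Col.2 hx), vv_left hG hx]
      exact uu_add_vv hG (by omega) ht (by omega) (by omega)
    · rw [har_Wd_off hG _ (Or.inr hx.ge), if_neg (by rw [mem_Col]; omega),
        vv_right hG (by omega) hx, vv_right hG hrt hx, add_zero]

end DRW
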