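import Pool.Agent.P.MP_de05b4_pr.Basic

/-! The flux out of a box next to a window, and its exponential moment. -/

namespace DRW

open MeasureTheory ProbabilityTheory Finset
open scoped ENNReal

theorem Box_nbr {N : ℕ} [NeZero N] {r t l : ℕ} {p : ZMod N} (ht : t < N) (hl : l < N) {x : T N}
    (hx : x ∈ Box N r t p l) (i : Fin 4) (hi : x + dr N i ∉ Box N r t p l) :
    x + dr N i ∈ Win N r p l ∨ col (x + dr N i) = t ∨ x + dr N i ∈ Sep r t p l := by
  rw [mem_Box] at hx hi
  rw [mem_Win, mem_Sep]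
  rcases col_nbr (x := x) (by omega) (by omega) i with ⟨rfl, h⟩ | ⟨rfl, h⟩ | ⟨rfl | rfl, h⟩
  · rw [row_add0] at hi; omega
  · rw [row_add2] at hi ⊢; omega
  · rw [row_add1] at hi ⊢
    have h1 : x.2 + 1 - p = x.2 - p + 1 := by ring
    rw [h1, val_add_one (by omega)] at hi
    refine Or.inr (Or.inr ⟨by omega, Or.inr ?_⟩)
    have h2 : l = (x.2 - p).val + 1 := by omega
    rw [h2, Nat.cast_add, ZMod.natCast_zmod_val]
    push_cast; ring
  · rw [row_add3] at hi ⊢
    have h1 : x.2 - 1 - p = x.2 - p - 1 := by ring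
    refine Or.inr (Or.inr ⟨by omega, Or.inl ?_⟩)
    by_cases h2 : 1 ≤ (x.2 - p).val
    · rw [h1, val_sub_one h2] at hi; omega
    · rw [sub_eq_zero.1 ((ZMod.val_eq_zero (x.2 - p)).1 (by omega))]

theorem Box_not_Sep {N : ℕ} [NeZero N] {r t l : ℕ} {p : ZMod N} (hl : l < N) {x : T N}
    (hx : x ∈ Box N r t p l) : x ∉ Sep r t p l := by
  rw [mem_Box] at hx
  rw [mem_Sep]
  rintro ⟨-, h | h⟩
  · have h1 := hx.2.2
    rw [h, sub_sub_cancel_left, val_neg_one'] at h1
    omega
  · have h1 := hx.2.2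
    rw [h, add_sub_cancel_left, ZMod.val_cast_of_lt hl] at h1
    omega

theorem pf_Box : StBox := by
  intro N _ r w t l p hw ht htN hl G hG
  have hD := ne_univ_of_subset (Box_subset r (r + w) l p)
  have htg : ∀ e ∈ SE (Win N r p l) 0, tg e ∈ Box N r (r + w) p l := by
    intro e he
    have h1 := col_tg_left (by omega) (Win_subset r l p) he
    obtain ⟨h2, h3⟩ := mem_SE.1 he
    refine mem_Box.2 ⟨by omega, by omega, ?_⟩
    rw [tg, h3, row_add0]
    exact (mem_Win.1 h2).2
  have h0 := har_nonneg hG hD (f := fun z => 1 - ind (Col N r) z)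
    fun z => sub_nonneg.2 (ind_le_one _ _)
  have h1 := har_le hG hD (f := fun z => 1 - ind (Col N r) z) (c := 1)
    fun z _ => sub_le_self _ (ind_nonneg _ _)
  refine ⟨fun I _ hI => Fx_mono hG fun e he => ?_, ?_, Fx_nonneg hG fun e _ => h0 _,
    Fx_le_sum hG fun e _ => h1 _⟩
  · refine le_of_lap hG hD (f := fun z => 1 - har (Wd N r t) (ind I) G z) (fun x hx => ?_)
      (fun x hx i hi => ?_) _ (htg e he)
    · have h2 := mem_Box.1 hx
      rw [har_lap hG hD _ hx, lap_sub, lap_const, har_Wd_lap hG _ h2.1 (by omega), sub_zero]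
    · rw [har_off hG hD _ hi]
      refine sub_le_sub_left ?_ 1
      by_cases h2 : x + dr N i ∈ Col N r
      · have h3 := mem_Col.1 h2
        rcases Box_nbr (by omega) hl hx i hi with h4 | h4 | h4
        · rw [har_Wd_off hG _ (Or.inl h3.le), ind_of_mem (hI h4), ind_of_mem h2]
        · omega
        · have := (mem_Sep.1 h4).1.1
          omega
      · rw [ind_of_notMem h2]
        exact har_ind_nonneg hG (Wd_ne_univ r t) _ _
  · rw [← Fx_add]
    refine Fx_mono hG fun e he => ?_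
    have hW := Wd_sdiff_ne_univ (N := N) r (r + w) (Sep r (r + w) p l)
    refine le_of_lap hG hD (g := fun z => uu r (r + w) G z +
      har (Wd N r (r + w) \ Sep r (r + w) p l) (ind (Sep r (r + w) p l)) G z) (fun x hx => ?_)
      (fun x hx i hi => ?_) _ (htg e he)
    · have h2 := mem_Box.1 hx
      rw [har_lap hG hD _ hx, lap_add, uu_lap hG h2.1 h2.2.1,
        har_lap hG hW _ (mem_sdiff.2 ⟨Box_subset _ _ _ _ hx, Box_not_Sep hl hx⟩), add_zero]
    · have h2 := uu_nonneg hG r (r + w) (x + dr N i)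
      have h3 := har_ind_nonneg hG hW (Sep r (r + w) p l) (x + dr N i)
      have h4 := h1 (x + dr N i)
      rcases Box_nbr (by omega) hl hx i hi with h5 | h5 | h5
      · rw [har_off hG hD _ hi, ind_of_mem (Win_subset _ _ _ h5)]
        linarith
      · rw [uu_right hG h5]
        linarith
      · rw [har_off hG hW _ (fun h => (mem_sdiff.1 h).2 h5), ind_of_mem h5]
        linarith

theorem Box_exp {s X S : ℝ} (h0 : 0 < s) (h1 : s ≤ 1 / 4) (hX : 0 ≤ X) (hS : X ≤ S) :
    Real.exp (s * X) ≤ 1 + (s * X + 32 * s ^ 2 * Real.exp (1 / 2 * S)) := by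
  have hy : 0 ≤ s * X := by positivity
  have h2 : Real.exp (s * X) ≤ 1 + s * X * Real.exp (s * X) := by
    have h3 := mul_le_mul_of_nonneg_right (Real.add_one_le_exp (-(s * X)))
      (Real.exp_pos (s * X)).le
    rw [← Real.exp_add, neg_add_cancel, Real.exp_zero] at h3
    linarith
  have h3 : X ^ 2 ≤ 32 * Real.exp (X / 4) := by
    have := Real.quadratic_le_exp_of_nonneg (x := X / 4) (by positivity)
    nlinarith
  have h4 : Real.exp (s * X) ≤ Real.exp (X / 4) := Real.exp_le_exp.2 (by nlinarith)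
  have h5 : Real.exp (X / 4) * Real.exp (X / 4) ≤ Real.exp (1 / 2 * S) := by
    rw [← Real.exp_add]
    exact Real.exp_le_exp.2 (by linarith)
  have h6 : X ^ 2 * Real.exp (s * X) ≤ 32 * Real.exp (1 / 2 * S) :=
    (mul_le_mul h3 h4 (Real.exp_pos _).le (by positivity)).trans (by linarith)
  have h7 := mul_le_mul_of_nonneg_left h2 hy
  have h8 := mul_le_mul_of_nonneg_left h6 (sq_nonneg s)
  nlinarith

theorem pf_Blk (hX : StBox) (hA : StA) (h0 : StA00) (hH : StHB) (hG : StMgf) : StBlk := by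
  intro α hα θ hθ
  obtain ⟨w, hw, haa⟩ := h0 α hα (θ / 3) (by positivity)
  obtain ⟨l, hwl, hl⟩ : ∃ l : ℕ, w ≤ l ∧ 4 * w * ∑ i, α i ≤ θ / 3 * l := by
    obtain ⟨n, hn⟩ := exists_nat_ge (4 * w * (∑ i, α i) / (θ / 3))
    refine ⟨max w n, le_max_left _ _, ?_⟩
    rw [div_le_iff₀ (by positivity)] at hn
    have h1 : (n : ℝ) ≤ (max w n : ℕ) := by exact_mod_cast le_max_right w n
    nlinarith
  have hl0 : (0 : ℝ) < l := by exact_mod_cast (by omega : 0 < l)
  set M : ℝ := (1 - 1 / 2) ^ (-(l * α 0)) with hM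
  have hM0 : 0 < M := by positivity
  set s := min (1 / 4) (θ * l / (96 * M)) with hs
  have hs0 : 0 < s := by positivity
  have hs1 : 32 * s * M ≤ θ / 3 * l := by
    have h1 : s ≤ θ * l / (96 * M) := min_le_right _ _
    rw [le_div_iff₀ (by positivity)] at h1
    linarith
  refine ⟨w, l, s, hw, hwl, hs0, fun N _ r p hlN hr => ?_⟩
  have hβ : Pos (al N α) := pos_al hα.1
  have hδ : 0 < α 0 - α 2 := sub_pos.2 hα.2
  have hA0 : 0 ≤ ∑ i, α i := sum_nonneg fun i _ => (hα.1 i).le
  obtain ⟨hA1, hA2, -⟩ := hA α hα N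
  have e1 := (hA1 r (r + w) (by omega) hr).2.2 _ (Win_subset r l p)
  rw [card_Win (by omega) hlN.le, Nat.add_sub_cancel_left] at e1
  have e2 := (hH N _ hβ (Wd N r (r + w) \ Sep r (r + w) p l) (Sep r (r + w) p l)
    (SE (Win N r p l) 0) (Wd_sdiff_ne_univ _ _ _) sdiff_disjoint (fun e he => by
      have h1 := (mem_Win.1 (mem_SE.1 he).1).1
      rw [mem_sdiff, mem_Wd, mem_Sep]
      omega) fun z _ => (dv_al α z).le).2
  simp only [inw_al, sum_const, nsmul_eq_mul] at e2
  have e3 := (hG N _ hβ (SE (Win N r p l) 0)).1 (1 / 2) (by norm_num)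
  have e4 : ∑ e ∈ SE (Win N r p l) 0, al N α e = l * α 0 := by
    rw [sum_SE]
    simp [al, card_Win (show r < N by omega) hlN.le]
  rw [e4, ← hM] at e3
  have e5 : ((Sep r (r + w) p l).card : ℝ) ≤ 2 * w := by
    exact_mod_cast card_two_rows r w (p - 1) (p + (l : ZMod N))
  have e6 : Ex (al N α) (Xb r w p l) ≤ ENNReal.ofReal ((α 0 - α 2 + 2 * θ / 3) * l) := by
    refine (Ex_mono hβ fun G hG => (hX N r w (r + w) l p hw le_rfl hr hlN G hG).2.1).trans ?_
    refine (Ex_add_le _ (measurable_Fx _ (measurable_uu _ _))).trans ?_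
    have h1 := haa N w le_rfl (by omega)
    have h2 := hA2 w
    rw [e1]
    refine (add_le_add le_rfl e2).trans ?_
    rw [← ENNReal.ofReal_add (by positivity) (by positivity)]
    refine ENNReal.ofReal_le_ofReal ?_
    nlinarith
  refine (Ex_mono hβ fun G hG => Box_exp hs0 (min_le_left _ _)
    (hX N r w (r + w) l p hw le_rfl hr hlN G hG).2.2.1
    (hX N r w (r + w) l p hw le_rfl hr hlN G hG).2.2.2).trans ?_
  refine (Ex_add_le _ measurable_const).trans ?_
  refine (add_le_add le_rfl (Ex_add_le _ ((measurable_Xb r w l p).const_mul s))).trans ?_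
  rw [Ex_const hβ, Ex_const_mul _ hs0.le, Ex_const_mul _ (by positivity), e3]
  refine (add_le_add le_rfl (add_le_add (mul_le_mul' le_rfl e6) le_rfl)).trans ?_
  rw [← ENNReal.ofReal_mul hs0.le, ← ENNReal.ofReal_mul (by positivity),
    ← ENNReal.ofReal_add (by positivity) (by positivity),
    ← ENNReal.ofReal_add zero_le_one (by positivity)]
  refine ENNReal.ofReal_le_ofReal (le_trans ?_ (Real.add_one_le_exp _))
  nlinarith

end DRW
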