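import Pool.Agent.P.MP_de05b4_pr.Basic

/-! The backtracking flux is small on the event that a vertical conductance is small. -/

namespace DRW

open MeasureTheory ProbabilityTheory Finset Filter
open scoped ENNReal Topology

theorem Cond_asy {c₁ c₂ C : ℝ} (h₁ : 0 < c₁) (h₂ : 0 < c₂) (hC : 0 < C) :
    ∃ (c : ℝ) (K₀ : ℕ), 0 < c ∧ ∀ K : ℕ, K₀ ≤ K →
      (K : ℝ) ^ (-c₁) + C * ((K : ℝ) ^ (-(1 / 4 : ℝ))) ^ c₂ ≤ (K : ℝ) ^ (-c) := by
  set c : ℝ := min c₁ (c₂ / 4) / 2 with hc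
  have hm : 0 < min c₁ (c₂ / 4) := lt_min h₁ (by linarith)
  have hc0 : 0 < c := by linarith
  have hc1 : 2 * c ≤ c₁ := by have := min_le_left c₁ (c₂ / 4); linarith
  have hc2 : 2 * c ≤ c₂ / 4 := by have := min_le_right c₁ (c₂ / 4); linarith
  have ht : Tendsto (fun K : ℕ => (K : ℝ) ^ c) atTop atTop :=
    (tendsto_rpow_atTop hc0).comp tendsto_natCast_atTop_atTop
  obtain ⟨K₀, hK₀⟩ := eventually_atTop.mp (ht.eventually_ge_atTop (1 + C))
  refine ⟨c, max K₀ 1, hc0, fun K hK => ?_⟩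
  have hK1 : (1 : ℝ) ≤ K := by exact_mod_cast le_of_max_le_right hK
  have hK0 : (0 : ℝ) < K := by linarith
  have h3 := hK₀ K (le_of_max_le_left hK)
  have e1 : (K : ℝ) ^ (-c₁) ≤ (K : ℝ) ^ (-(2 * c)) :=
    Real.rpow_le_rpow_of_exponent_le hK1 (by linarith)
  have e2 : ((K : ℝ) ^ (-(1 / 4 : ℝ))) ^ c₂ ≤ (K : ℝ) ^ (-(2 * c)) := by
    rw [← Real.rpow_mul hK0.le]
    exact Real.rpow_le_rpow_of_exponent_le hK1 (by linarith)
  have e3 : (K : ℝ) ^ (-c) = (K : ℝ) ^ c * (K : ℝ) ^ (-(2 * c)) := by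
    rw [← Real.rpow_add hK0]; congr 1; ring
  have e4 : 0 < (K : ℝ) ^ (-(2 * c)) := Real.rpow_pos_of_pos hK0 _
  rw [e3]
  nlinarith [mul_le_mul_of_nonneg_left e2 hC.le, mul_le_mul_of_nonneg_right h3 e4.le]

theorem pf_Cond (hS : StSBB) (hH : StHlow) (hO : StOmT) (hN : StInd) (hA : StA) : StCond := by
  intro α hα
  obtain ⟨c₁, C₀, K₁, hc₁, hH'⟩ := hH α hα
  obtain ⟨C, c₂, hC, hc₂, hO'⟩ := hO α hα.1
  obtain ⟨c, K₂, hc, hasy⟩ := Cond_asy hc₁ hc₂ hC
  refine ⟨c, C₀, max K₁ K₂, hc, fun N _ K r hK hCN hKN hr hrK y hy y' hy' => ?_⟩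
  have hβ : Pos (al N α) := pos_al hα.1
  have hK0 : (0 : ℝ) < K := by exact_mod_cast (by omega : 0 < K)
  set q : ℝ := (K : ℝ) ^ (-(1 / 4 : ℝ)) with hq
  have hq0 : 0 < q := Real.rpow_pos_of_pos hK0 _
  have hqq : q * q = (K : ℝ) ^ (-(1 / 2 : ℝ)) := by
    rw [hq, ← Real.rpow_add hK0]; norm_num
  have hyr := mem_Col.mp hy
  have hyW : y ∈ Wd N 0 K := mem_Wd.mpr ⟨by omega, by omega⟩
  set D₁ : Set (E N → ℝ) := {G | HH 0 K y G ≤ q} with hD₁
  set D₂ : Set (E N → ℝ) := {G | om G (y, 1) < q} with hD₂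
  have m₁ : MeasurableSet D₁ := measurableSet_le (measurable_HH 0 K y) measurable_const
  have m₂ : MeasurableSet D₂ := measurableSet_lt (measurable_om _) measurable_const
  have mB : Measurable fun G : E N → ℝ => ENNReal.ofReal (FR r K {y'} G) :=
    (measurable_FR r K {y'}).ennreal_ofReal
  have i₁ : Measurable (D₁.indicator (1 : (E N → ℝ) → ℝ≥0∞)) := measurable_one.indicator m₁
  have i₂ : Measurable (D₂.indicator (1 : (E N → ℝ) → ℝ≥0∞)) := measurable_one.indicator m₂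
  obtain ⟨hA1, ha0, -, -⟩ := hA α hα N
  have hB : Ex (al N α) (FR r K {y'}) = ENNReal.ofReal (aa α N (K - r)) := by
    have := (hA1 r K hrK hKN).1 {y'} (singleton_subset_iff.mpr hy')
    simpa using this
  have e1 : ∫⁻ G, ENNReal.ofReal (FR r K {y'} G) * D₁.indicator 1 G ∂mu (al N α) ≤
      ENNReal.ofReal ((K : ℝ) ^ (-c₁)) * ENNReal.ofReal (aa α N (K - r)) := by
    refine hS α hα N r K hrK hKN _ i₁ (fun x hx c' hc' G hG => ?_) _ (fun β hCl => ?_) y' hy'
    · have hx' : x ∈ Wd N 0 K := by rw [mem_Wd] at hx ⊢; omega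
      have h := HH_scl hG y hx' hc'
      simp only [hD₁, Set.indicator, Set.mem_ofPred_eq, h, Pi.one_apply]
    · rw [lintegral_indicator_one m₁]
      obtain ⟨h1, -, z₀, hz₀, y₀, -, h3⟩ := hCl
      refine hH' N K (le_of_max_le_left hK) hCN hKN y hyW β h1 fun z hz => ?_
      rw [h3, ind_of_notMem (S := {z₀}) (by
        rw [mem_singleton]; rintro rfl
        have := mem_Col.mp hz₀; have := mem_Wd.mp hz; omega), sub_zero]
      exact ind_nonneg _ _
  have e2 : ∫⁻ G, D₂.indicator 1 G * ENNReal.ofReal (FR r K {y'} G) ∂mu (al N α) ≤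
      ENNReal.ofReal (C * q ^ c₂) * ENNReal.ofReal (aa α N (K - r)) := by
    rw [hN N _ hβ {e | col e.1 ≤ r} _ _ i₂ mB ?_ ?_, lintegral_indicator_one m₂]
    · exact mul_le_mul' (hO' N (y, 1) q hq0) (le_of_eq hB)
    · intro G G' h
      have h1 : om G (y, 1) = om G' (y, 1) := by
        unfold om Zs
        rw [h (y, 1) hyr.le]
        congr 1
        exact Finset.sum_congr rfl fun i _ => h (y, i) hyr.le
      simp only [hD₂, Set.indicator, Set.mem_ofPred_eq, h1, Pi.one_apply]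
    · intro G G' h
      change ENNReal.ofReal (FR r K {y'} G) = ENNReal.ofReal (FR r K {y'} G')
      rw [FR_dep hrK {y'} fun e he => h e (by simpa using he)]
  calc Ex (al N α) (fun G => if HH 0 K y G * om G (y, 1) < (K : ℝ) ^ (-(1 / 2 : ℝ))
        then FR r K {y'} G else 0)
      ≤ ∫⁻ G, (ENNReal.ofReal (FR r K {y'} G) * D₁.indicator 1 G +
          D₂.indicator 1 G * ENNReal.ofReal (FR r K {y'} G)) ∂mu (al N α) := by
        refine lintegral_mono_ae ((ae_pos hβ).mono fun G hG => ?_)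
        beta_reduce
        split_ifs with h
        · by_cases h1 : G ∈ D₁
          · rw [Set.indicator_of_mem h1, Pi.one_apply, mul_one]; exact le_self_add
          · have h2 : G ∈ D₂ := by
              by_contra h2
              simp only [hD₁, hD₂, Set.mem_ofPred_eq, not_le, not_lt] at h1 h2
              rw [← hqq] at h
              nlinarith
            rw [Set.indicator_of_mem h2, Pi.one_apply, one_mul]; exact le_add_self
        · simp
    _ ≤ ENNReal.ofReal ((K : ℝ) ^ (-c₁)) * ENNReal.ofReal (aa α N (K - r)) +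
          ENNReal.ofReal (C * q ^ c₂) * ENNReal.ofReal (aa α N (K - r)) := by
        exact (lintegral_add_left (mB.mul i₁) _).trans_le (add_le_add e1 e2)
    _ ≤ _ := by
        rw [← add_mul, ← ENNReal.ofReal_add (by positivity) (by positivity),
          ← ENNReal.ofReal_mul (by positivity)]
        exact ENNReal.ofReal_le_ofReal
          (mul_le_mul_of_nonneg_right (hasy K (le_of_max_le_right hK)) (ha0 _))

end DRW
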