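import Pool.Agent.P.MP_de05b4_pr.Basic

/-! The core inequality summed over the columns, and polynomial decay of the mean flux. -/

namespace DRW

open MeasureTheory ProbabilityTheory Finset Filter
open scoped ENNReal Topology

theorem Core_meas {N : ℕ} [NeZero N] (K : ℕ) (S : Finset (T N)) :
    Measurable fun G : E N → ℝ => ∑ x ∈ S,
      HH 0 K x G * om G (x, 1) * (vv 0 K G (x + dr N 1) - vv 0 K G x) ^ 2 :=
  Finset.measurable_sum _ fun x _ =>
    ((measurable_HH 0 K x).mul (measurable_om _)).mul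
      (((measurable_vv 0 K _).sub (measurable_vv 0 K _)).pow_const 2)

theorem Core_nonneg {N : ℕ} [NeZero N] (K : ℕ) (S : Finset (T N)) (G : E N → ℝ) (hG : Pos G) :
    0 ≤ ∑ x ∈ S, HH 0 K x G * om G (x, 1) * (vv 0 K G (x + dr N 1) - vv 0 K G x) ^ 2 :=
  Finset.sum_nonneg fun x _ =>
    mul_nonneg (mul_nonneg (HH_nonneg hG 0 K x) (om_pos hG _).le) (sq_nonneg _)

theorem pf_Core (h1 : StCore1) (hE : StEn) (hA : StA) : StCore := by
  intro α hα N _ r₁ r₂ K l hr₁ hr hrK hKN hl hlN U Λ η ρ₁ ρ₂ ρ₃ a hU hΛ hη hρ₁ hρ₂ hρ₃ ha₁ ha₂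
    H1 H2 H3
  obtain ⟨-, hA0, -, hAm⟩ := hA α hα N
  have hδ : 0 < α 0 - α 2 := sub_pos.mpr hα.2
  have ha : 0 ≤ a := (hA0 _).trans ha₁
  have hlr : (0 : ℝ) < l := by exact_mod_cast hl
  have hNr : (0 : ℝ) < N := by exact_mod_cast (show 0 < N by omega)
  set B : ℝ := a * (ρ₁ + l * ρ₃ + η + 4 * U / ((α 0 - α 2) * l)) + ρ₂ / l with hB
  have hB0 : 0 ≤ B := by rw [hB]; positivity
  set c : ℝ := U * l * Λ / η * l with hc
  have hc0 : 0 ≤ c := by rw [hc]; positivity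
  set en : ℕ → ℝ≥0∞ := fun r => Ex (al N α) fun G => ∑ x ∈ Col N r,
      HH 0 K x G * om G (x, 1) * (vv 0 K G (x + dr N 1) - vv 0 K G x) ^ 2 with hen
  have hcol : ∀ r ∈ Finset.Icc r₁ r₂, ENNReal.ofReal (l * N * aa α N K) ≤
      ENNReal.ofReal (l * N * B) + ENNReal.ofReal c * en r := by
    intro r hrr
    obtain ⟨h2, h3⟩ := mem_Icc.mp hrr
    exact h1 α hα N r K l (by omega) (by omega) hKN hl hlN U Λ η ρ₁ ρ₂ ρ₃ a hU hΛ hη hρ₁ hρ₂ hρ₃
      ((hAm r₁ r hr₁ h2 (by omega)).trans ha₁)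
      ((hAm (K - r₂) (K - r) (by omega) (by omega) (by omega)).trans ha₂)
      (H1 r h2 h3) (H2 r h2 h3) (H3 r h2 h3)
  have hsum : ∑ r ∈ Finset.Icc r₁ r₂, en r ≤ ENNReal.ofReal (N * (2 * a)) := by
    have h2 := hE α hα N r₁ r₂ K hr₁ hr hrK hKN
    simp only [sum_Cols] at h2
    rw [Ex_sum (pos_al hα.1) _ (fun r _ => Core_meas K _) fun r _ => Core_nonneg K _] at h2
    exact h2.trans (ENNReal.ofReal_le_ofReal
      (mul_le_mul_of_nonneg_left (by linarith) hNr.le))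
  set R : ℕ := r₂ - r₁ + 1 with hR
  have hRr : (0 : ℝ) < R := by exact_mod_cast (show 0 < R by omega)
  have hcard : (Finset.Icc r₁ r₂).card = R := by rw [Nat.card_Icc]; omega
  have hall := Finset.sum_le_sum hcol
  rw [Finset.sum_add_distrib, Finset.sum_const, Finset.sum_const, hcard, ← Finset.mul_sum,
    nsmul_eq_mul, nsmul_eq_mul] at hall
  have hall2 := hall.trans (add_le_add le_rfl (mul_le_mul_right hsum _))
  rw [← ENNReal.ofReal_natCast R, ← ENNReal.ofReal_mul hRr.le, ← ENNReal.ofReal_mul hRr.le,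
    ← ENNReal.ofReal_mul hc0, ← ENNReal.ofReal_add (by positivity) (by positivity),
    ENNReal.ofReal_le_ofReal_iff (by positivity)] at hall2
  have hpos : (0 : ℝ) < R * (l * N) := by positivity
  have hfin : aa α N K ≤ B + a * (2 * U * l * Λ / (η * R)) := by
    refine le_of_mul_le_mul_left ?_ hpos
    have e : (R : ℝ) * (l * N) * (B + a * (2 * U * l * Λ / (η * R))) =
        R * (l * N * B) + c * (N * (2 * a)) := by
      rw [hc]; field_simp
    rw [e, ← mul_assoc] at *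
    linarith
  rw [hB] at hfin
  linarith

theorem pf_S3 (h2 : StS2) (hA : StA) : StS3 := by
  intro α hα M
  have h8 : (0 : ℝ) < 8 ^ M := by positivity
  obtain ⟨C₀, K₀, hS⟩ := h2 α hα (1 / (2 * 8 ^ M)) M (by positivity)
  set K₁ : ℕ := max K₀ 4 with hK₁
  set C : ℝ := max 2 (α 2 * (K₁ : ℝ) ^ M) with hC
  have hC2 : 2 ≤ C := le_max_left _ _
  refine ⟨C, max C₀ 2, by linarith, fun N _ K => ?_⟩
  obtain ⟨-, hA0, hA1, -⟩ := hA α hα N
  induction K using Nat.strong_induction_on with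
  | _ K ih =>
    intro hK hN
    have hKr : (0 : ℝ) < K := by exact_mod_cast hK
    have hKM : (0 : ℝ) < (K : ℝ) ^ M := by positivity
    have h2K : 2 * K ≤ N := (Nat.mul_le_mul_right K (le_max_right C₀ 2)).trans hN
    by_cases hlt : K < K₁
    · refine (hA1 K hK (by omega)).trans ?_
      rw [← div_eq_mul_inv, le_div_iff₀ hKM]
      refine le_trans ?_ (le_max_right _ _)
      refine mul_le_mul_of_nonneg_left ?_ (hα.1 2).le
      exact pow_le_pow_left₀ hKr.le (by exact_mod_cast hlt.le) M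
    · have hK0 : K₀ ≤ K := (le_max_left _ _).trans (not_lt.mp hlt)
      have hK4 : 4 ≤ K := (le_max_right _ _).trans (not_lt.mp hlt)
      have h3 := hS N K hK0 ((Nat.mul_le_mul_right K (le_max_left C₀ 2)).trans hN)
      have h4 := ih (K / 4) (by omega) (by omega)
        ((Nat.mul_le_mul_left _ (Nat.div_le_self K 4)).trans hN)
      have hq : (0 : ℝ) < ((K / 4 : ℕ) : ℝ) := by exact_mod_cast (show 0 < K / 4 by omega)
      have h5 : (K : ℝ) ^ M ≤ 8 ^ M * ((K / 4 : ℕ) : ℝ) ^ M := by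
        rw [← mul_pow]
        exact pow_le_pow_left₀ hKr.le (by exact_mod_cast (show K ≤ 8 * (K / 4) by omega)) M
      have h6 : (((K / 4 : ℕ) : ℝ) ^ M)⁻¹ ≤ 8 ^ M * ((K : ℝ) ^ M)⁻¹ := by
        rw [← div_eq_mul_inv, le_div_iff₀ hKM, inv_mul_le_iff₀ (by positivity)]
        linarith
      have h7 : 1 / (2 * 8 ^ M) * aa α N (K / 4) ≤ C / 2 * ((K : ℝ) ^ M)⁻¹ := by
        have h9 : aa α N (K / 4) ≤ C * (8 ^ M * ((K : ℝ) ^ M)⁻¹) :=
          h4.trans (mul_le_mul_of_nonneg_left h6 (by linarith))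
        calc 1 / (2 * 8 ^ M) * aa α N (K / 4)
            ≤ 1 / (2 * 8 ^ M) * (C * (8 ^ M * ((K : ℝ) ^ M)⁻¹)) :=
              mul_le_mul_of_nonneg_left h9 (by positivity)
          _ = C / 2 * ((K : ℝ) ^ M)⁻¹ := by field_simp
      have h10 : (0 : ℝ) < ((K : ℝ) ^ M)⁻¹ := by positivity
      nlinarith

end DRW
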