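import Pool.Agent.P.MP_de05b4_pr.Basic

/-! One column of the core inequality, summed over the windows. -/

namespace DRW

open MeasureTheory ProbabilityTheory Finset Filter
open scoped ENNReal Topology

variable {N : ℕ} [NeZero N]

/-- the pointwise inequality on one window -/
theorem Core1_point (hC : StCp) {r K l : ℕ} (hr : r < N) (hl : l ≤ N) (p : ZMod N)
    {G : E N → ℝ} (hG : Pos G) {d U Λ η : ℝ} (hd : 0 < d) (hU : 0 < U) (hΛ : 0 < Λ)
    (hη : 0 < η) :
    ∑ y ∈ Win N r p l, FR r K {y} G * vv 0 K G y ≤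
      (if FL 0 r (Win N r p l) G < d then FR r K (Win N r p l) G else 0)
      + (if U < FR r K (Win N r p l) G then FR r K (Win N r p l) G else 0)
      + (∑ y' ∈ Win N r p l, ∑ y ∈ Win N r p l,
          if HH 0 K y G * om G (y, 1) < Λ⁻¹ then FR r K {y'} G else 0)
      + U / d * (∑ y ∈ Win N r p l, FL 0 r {y} G * vv 0 K G y)
      + η * FR r K (Win N r p l) G
      + U * l * Λ / η * ∑ y ∈ Win N r p l,
          HH 0 K y G * om G (y, 1) * (vv 0 K G (y + dr N 1) - vv 0 K G y) ^ 2 := by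
  have h := hC l (fun k => vv 0 K G ((r : ZMod N), p + (k : ZMod N)))
    (fun k => FR r K {((r : ZMod N), p + (k : ZMod N))} G)
    (fun k => FL 0 r {((r : ZMod N), p + (k : ZMod N))} G)
    (fun k => HH 0 K ((r : ZMod N), p + (k : ZMod N)) G *
      om G (((r : ZMod N), p + (k : ZMod N)), 1)) d U Λ η
    (fun k => vv_nonneg hG _ _ _) (fun k => vv_le_one hG _ _ _) (fun k => FR_nonneg hG _ _ _)
    (fun k => FL_nonneg hG _ _ _)
    (fun k => mul_nonneg (HH_nonneg hG _ _ _) (om_pos hG _).le) hd hU hΛ hη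
  have hs : ∀ k : ℕ, (((r : ZMod N), p + (k : ZMod N)) : T N) + dr N 1 =
      ((r : ZMod N), p + ((k + 1 : ℕ) : ZMod N)) := by
    intro k
    simp [dr1, add_assoc]
  rw [FL_eq_sum G 0 r (Win N r p l), FR_eq_sum G r K (Win N r p l)]
  simp only [sum_Win hr hl p, hs]
  exact h

omit [NeZero N] in
theorem Core1_ite_meas {X Y Z : (E N → ℝ) → ℝ} (hX : Measurable X) (hY : Measurable Y)
    (hZ : Measurable Z) : Measurable fun G => if X G < Y G then Z G else 0 :=
  Measurable.ite (measurableSet_lt hX hY) hZ measurable_const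

/-- the expectation of the pointwise inequality -/
theorem Core1_ex (hC : StCp) {β : E N → ℝ} (hβ : Pos β) {r K l : ℕ} (hr : r < N) (hl : l ≤ N)
    (p : ZMod N) {d U Λ η : ℝ} (hd : 0 < d) (hU : 0 < U) (hΛ : 0 < Λ) (hη : 0 < η) :
    ∑ y ∈ Win N r p l, Ex β (fun G => FR r K {y} G * vv 0 K G y) ≤
      Ex β (fun G => if FL 0 r (Win N r p l) G < d then FR r K (Win N r p l) G else 0)
      + Ex β (fun G => if U < FR r K (Win N r p l) G then FR r K (Win N r p l) G else 0)
      + (∑ y' ∈ Win N r p l, ∑ y ∈ Win N r p l, Ex β fun G =>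
          if HH 0 K y G * om G (y, 1) < Λ⁻¹ then FR r K {y'} G else 0)
      + ENNReal.ofReal (U / d) *
          (∑ y ∈ Win N r p l, Ex β fun G => FL 0 r {y} G * vv 0 K G y)
      + ENNReal.ofReal η * Ex β (FR r K (Win N r p l))
      + ENNReal.ofReal (U * l * Λ / η) * ∑ y ∈ Win N r p l, Ex β fun G =>
          HH 0 K y G * om G (y, 1) * (vv 0 K G (y + dr N 1) - vv 0 K G y) ^ 2 := by
  have m1 : Measurable fun G : E N → ℝ =>
      if FL 0 r (Win N r p l) G < d then FR r K (Win N r p l) G else 0 :=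
    Core1_ite_meas (measurable_FL _ _ _) measurable_const (measurable_FR _ _ _)
  have m2 : Measurable fun G : E N → ℝ =>
      if U < FR r K (Win N r p l) G then FR r K (Win N r p l) G else 0 :=
    Core1_ite_meas measurable_const (measurable_FR _ _ _) (measurable_FR _ _ _)
  have m3 : ∀ y' y : T N, Measurable fun G : E N → ℝ =>
      if HH 0 K y G * om G (y, 1) < Λ⁻¹ then FR r K {y'} G else 0 := fun y' y =>
    Core1_ite_meas ((measurable_HH _ _ _).mul (measurable_om _)) measurable_const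
      (measurable_FR _ _ _)
  have n3 : ∀ y' y : T N, ∀ G : E N → ℝ, Pos G →
      0 ≤ if HH 0 K y G * om G (y, 1) < Λ⁻¹ then FR r K {y'} G else 0 := by
    intro y' y G hG
    split_ifs
    · exact FR_nonneg hG _ _ _
    · exact le_rfl
  have m3' : Measurable fun G : E N → ℝ => ∑ y' ∈ Win N r p l, ∑ y ∈ Win N r p l,
      if HH 0 K y G * om G (y, 1) < Λ⁻¹ then FR r K {y'} G else 0 :=
    Finset.measurable_sum _ fun y' _ => Finset.measurable_sum _ fun y _ => m3 y' y
  have m4 : ∀ y : T N, Measurable fun G : E N → ℝ => FL 0 r {y} G * vv 0 K G y := fun y =>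
    (measurable_FL _ _ _).mul (measurable_vv _ _ _)
  have m4' : Measurable fun G : E N → ℝ =>
      U / d * ∑ y ∈ Win N r p l, FL 0 r {y} G * vv 0 K G y :=
    (Finset.measurable_sum _ fun y _ => m4 y).const_mul _
  have m5 : Measurable fun G : E N → ℝ => η * FR r K (Win N r p l) G :=
    (measurable_FR _ _ _).const_mul _
  have m6 : ∀ y : T N, Measurable fun G : E N → ℝ =>
      HH 0 K y G * om G (y, 1) * (vv 0 K G (y + dr N 1) - vv 0 K G y) ^ 2 := fun y =>
    ((measurable_HH _ _ _).mul (measurable_om _)).mul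
      (((measurable_vv _ _ _).sub (measurable_vv _ _ _)).pow_const 2)
  rw [← Ex_sum hβ _ (X := fun y G => FR r K {y} G * vv 0 K G y)
    (fun y _ => (measurable_FR _ _ _).mul (measurable_vv _ _ _))
    (fun y _ G hG => mul_nonneg (FR_nonneg hG _ _ _) (vv_nonneg hG _ _ _))]
  refine (Ex_mono hβ fun G hG => Core1_point hC hr hl p hG hd hU hΛ hη).trans ?_
  refine (Ex_add_le β ((((m1.add m2).add m3').add m4').add m5)).trans (add_le_add ?_ ?_)
  · refine (Ex_add_le β (((m1.add m2).add m3').add m4')).trans (add_le_add ?_ ?_)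
    · refine (Ex_add_le β ((m1.add m2).add m3')).trans (add_le_add ?_ ?_)
      · refine (Ex_add_le β (m1.add m2)).trans (add_le_add (Ex_add_le β m1) ?_)
        rw [Ex_sum hβ _ (fun y' _ => Finset.measurable_sum _ fun y _ => m3 y' y)
          (fun y' _ G hG => Finset.sum_nonneg fun y _ => n3 y' y G hG)]
        refine le_of_eq (Finset.sum_congr rfl fun y' _ => ?_)
        exact Ex_sum hβ _ (fun y _ => m3 y' y) (fun y _ G hG => n3 y' y G hG)
      · rw [Ex_const_mul β (div_pos hU hd).le, Ex_sum hβ _ (fun y _ => m4 y)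
          (fun y _ G hG => mul_nonneg (FL_nonneg hG _ _ _) (vv_nonneg hG _ _ _))]
    · exact le_of_eq (Ex_const_mul β hη.le)
  · rw [Ex_const_mul β (by positivity), Ex_sum hβ _ (fun y _ => m6 y)
      (fun y _ G hG => mul_nonneg (mul_nonneg (HH_nonneg hG _ _ _) (om_pos hG _).le)
        (sq_nonneg _))]

/-- the first term factorises by independence -/
theorem Core1_ind (hN : StInd) {β : E N → ℝ} (hβ : Pos β) {r K : ℕ} (h0 : 0 < r) (hrK : r < K)
    (I : Finset (T N)) (d : ℝ) :
    Ex β (fun G => if FL 0 r I G < d then FR r K I G else 0) =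
      mu β {G | FL 0 r I G < d} * Ex β (FR r K I) := by
  have hD : MeasurableSet {G : E N → ℝ | FL 0 r I G < d} :=
    measurableSet_lt (measurable_FL _ _ _) measurable_const
  have h := hN N β hβ {e | col e.1 < r} (Set.indicator {G | FL 0 r I G < d} 1)
    (fun G => ENNReal.ofReal (FR r K I G)) (measurable_one.indicator hD)
    (measurable_FR r K I).ennreal_ofReal
    (by
      intro G G' hGG
      have : FL 0 r I G = FL 0 r I G' := FL_dep h0 I fun e he => hGG e he
      simp only [Set.indicator, Set.mem_ofPred_eq, this, Pi.one_apply])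
    (by
      intro G G' hGG
      have : FR r K I G = FR r K I G' := FR_dep hrK I fun e he => hGG e (by
        simp only [Set.mem_compl_iff, Set.mem_ofPred_eq]; omega)
      simp only [this])
  rw [lintegral_indicator_one hD] at h
  rw [Ex, Ex, ← h]
  refine lintegral_congr fun G => ?_
  by_cases hG : FL 0 r I G < d <;> simp [Set.indicator, hG]

theorem Core1_lhs (hI : StId) (hA : StA) {α : Fin 4 → ℝ} (hα : Adm α) {r K : ℕ} (h0 : 0 < r)
    (hrK : r < K) (hK : K < N) :
    ∑ y ∈ Col N r, Ex (al N α) (fun G => FR r K {y} G * vv 0 K G y) =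
      ENNReal.ofReal (N * aa α N K) := by
  have hβ : Pos (al N α) := pos_al hα.1
  rw [← Ex_sum hβ _ (X := fun y G => FR r K {y} G * vv 0 K G y)
    (fun y _ => (measurable_FR _ _ _).mul (measurable_vv _ _ _))
    (fun y _ G hG => mul_nonneg (FR_nonneg hG _ _ _) (vv_nonneg hG _ _ _)),
    Ex_congr hβ (fun G hG => (hI N 0 r K h0 hrK hK G hG).2.1)]
  have h := ((hA α hα N).1 0 K (by omega) hK).1 (Col N 0) Subset.rfl
  rw [card_Col (by omega), Nat.sub_zero] at h
  exact h

theorem Core1_four (hI : StId) (hA : StA) {α : Fin 4 → ℝ} (hα : Adm α) {r K : ℕ} (h0 : 0 < r)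
    (hrK : r < K) (hK : K < N) {a : ℝ} (ha : aa α N r ≤ a) :
    ∑ y ∈ Col N r, Ex (al N α) (fun G => FL 0 r {y} G * vv 0 K G y) ≤
      ENNReal.ofReal (N * a) := by
  have hβ : Pos (al N α) := pos_al hα.1
  have hm : ∀ y ∈ Col N r, Measurable fun G : E N → ℝ => FL 0 r {y} G * vv 0 K G y :=
    fun y _ => (measurable_FL _ _ _).mul (measurable_vv _ _ _)
  have hn : ∀ y ∈ Col N r, ∀ G : E N → ℝ, Pos G → 0 ≤ FL 0 r {y} G * vv 0 K G y :=
    fun y _ G hG => mul_nonneg (FL_nonneg hG _ _ _) (vv_nonneg hG _ _ _)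
  rw [← Ex_sum hβ _ hm hn]
  have h1 := Ex_add hβ (X := fun G => ∑ y ∈ Col N r, FL 0 r {y} G * vv 0 K G y)
    (Y := FL 0 K (Col N K)) (Finset.measurable_sum _ hm)
    (fun G hG => Finset.sum_nonneg fun y hy => hn y hy G hG) (fun G hG => FL_nonneg hG _ _ _)
  rw [Ex_congr hβ (fun G hG => (hI N 0 r K h0 hrK hK G hG).1)] at h1
  have h2 := ((hA α hα N).1 0 K (by omega) hK).2.1 (Col N K) Subset.rfl
  have h3 := ((hA α hα N).1 0 r h0 (by omega)).2.1 (Col N r) Subset.rfl
  rw [card_Col hK, Nat.sub_zero] at h2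
  rw [card_Col (by omega), Nat.sub_zero] at h3
  have h3' : Ex (al N α) (fun G => FL 0 r (Col N r) G) =
      ENNReal.ofReal (N * (α 0 - α 2 + aa α N r)) := h3
  rw [h3', h2] at h1
  have hδ : 0 < α 0 - α 2 := sub_pos.2 hα.2
  have hK0 := (hA α hα N).2.1 K
  have hr0 := (hA α hα N).2.1 r
  have hN0 : (0 : ℝ) ≤ N := Nat.cast_nonneg N
  refine (ENNReal.add_le_add_iff_right
    (a := ENNReal.ofReal (N * (α 0 - α 2 + aa α N K))) ENNReal.ofReal_ne_top).1 ?_
  rw [← h1, ← ENNReal.ofReal_add (mul_nonneg hN0 (hr0.trans ha)) (by positivity)]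
  refine ENNReal.ofReal_le_ofReal ?_
  nlinarith [mul_nonneg hN0 hK0, mul_le_mul_of_nonneg_left ha hN0]

theorem pf_Core1 (hC : StCp) (hI : StId) (hA : StA) (hN : StInd) : StCore1 := by
  intro α hα N _ r K l h0 hrK hK hl1 hl U Λ η ρ₁ ρ₂ ρ₃ a hU hΛ hη h1 h2 h3 ha ha' H1 H2 H3
  have hβ : Pos (al N α) := pos_al hα.1
  have hδ : 0 < α 0 - α 2 := sub_pos.2 hα.2
  have hl0 : (0 : ℝ) < l := by exact_mod_cast hl1
  have hN0 : (0 : ℝ) ≤ N := Nat.cast_nonneg N
  have hrN : r < N := by omega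
  have hd : 0 < (α 0 - α 2) * l / 4 := by positivity
  have ha0 : 0 ≤ a := ((hA α hα N).2.1 r).trans ha
  have hW : ∀ p : ZMod N, Ex (al N α) (FR r K (Win N r p l)) ≤ ENNReal.ofReal (l * a) := by
    intro p
    rw [((hA α hα N).1 r K hrK hK).1 _ (Win_subset r l p), card_Win hrN hl.le]
    exact ENNReal.ofReal_le_ofReal (mul_le_mul_of_nonneg_left ha' hl0.le)
  have hcard : ∀ c : ℝ≥0∞, ∑ _p : ZMod N, c = ENNReal.ofReal N * c := by
    intro c
    rw [Finset.sum_const, Finset.card_univ, ZMod.card, nsmul_eq_mul, ENNReal.ofReal_natCast]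
  have hsm : ∀ c : ℝ≥0∞, l • c = ENNReal.ofReal l * c := by
    intro c
    rw [nsmul_eq_mul, ENNReal.ofReal_natCast]
  have key := Finset.sum_le_sum fun p (_ : p ∈ (univ : Finset (ZMod N))) =>
    Core1_ex (K := K) hC hβ hrN hl.le p hd hU hΛ hη
  simp only [Finset.sum_add_distrib, ← Finset.mul_sum] at key
  rw [sum_sum_Win hrN hl.le, sum_sum_Win hrN hl.le (fun y => Ex (al N α) fun G =>
      FL 0 r {y} G * vv 0 K G y), sum_sum_Win hrN hl.le (fun y => Ex (al N α) fun G =>
      HH 0 K y G * om G (y, 1) * (vv 0 K G (y + dr N 1) - vv 0 K G y) ^ 2),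
    Core1_lhs hI hA hα h0 hrK hK, hsm, hsm, hsm,
    ← Ex_sum hβ (Col N r) (X := fun y G =>
      HH 0 K y G * om G (y, 1) * (vv 0 K G (y + dr N 1) - vv 0 K G y) ^ 2)
      (fun y _ => ((measurable_HH _ _ _).mul (measurable_om _)).mul
        (((measurable_vv _ _ _).sub (measurable_vv _ _ _)).pow_const 2))
      (fun y _ G hG => mul_nonneg (mul_nonneg (HH_nonneg hG _ _ _) (om_pos hG _).le)
        (sq_nonneg _)), ← ENNReal.ofReal_mul hl0.le, ← mul_assoc (l : ℝ)] at key
  refine key.trans (add_le_add ?_ ?_)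
  · have t1 : ∑ p : ZMod N, Ex (al N α) (fun G =>
        if FL 0 r (Win N r p l) G < (α 0 - α 2) * l / 4 then FR r K (Win N r p l) G else 0) ≤
        ENNReal.ofReal (N * ρ₁ * (l * a)) := by
      rw [ENNReal.ofReal_mul (by positivity)]
      refine le_trans ?_ (mul_le_mul_left H1 _)
      rw [Finset.sum_mul]
      refine Finset.sum_le_sum fun p _ => ?_
      rw [Core1_ind hN hβ h0 hrK]
      exact mul_le_mul_right (hW p) _
    have t2 : ∑ p : ZMod N, Ex (al N α) (fun G =>
        if U < FR r K (Win N r p l) G then FR r K (Win N r p l) G else 0) ≤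
        ENNReal.ofReal (N * ρ₂) := by
      rw [ENNReal.ofReal_mul hN0, ← hcard]
      exact Finset.sum_le_sum fun p _ => H2 p
    have t3 : ∑ p : ZMod N, ∑ y' ∈ Win N r p l, ∑ y ∈ Win N r p l, Ex (al N α) (fun G =>
        if HH 0 K y G * om G (y, 1) < Λ⁻¹ then FR r K {y'} G else 0) ≤
        ENNReal.ofReal (N * (l * (l * (ρ₃ * a)))) := by
      rw [ENNReal.ofReal_mul hN0, ← hcard]
      refine Finset.sum_le_sum fun p _ => ?_
      rw [ENNReal.ofReal_mul hl0.le, ← hsm]
      conv_rhs => rw [← card_Win hrN hl.le p]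
      refine Finset.sum_le_card_nsmul _ _ _ fun y' hy' => ?_
      rw [ENNReal.ofReal_mul (Nat.cast_nonneg _), ENNReal.ofReal_natCast, ← nsmul_eq_mul]
      exact Finset.sum_le_card_nsmul _ _ _ fun y hy =>
        H3 y (Win_subset r l p hy) y' (Win_subset r l p hy')
    have t4 : ENNReal.ofReal (U / ((α 0 - α 2) * l / 4)) * (ENNReal.ofReal l *
        ∑ y ∈ Col N r, Ex (al N α) (fun G => FL 0 r {y} G * vv 0 K G y)) ≤
        ENNReal.ofReal (U / ((α 0 - α 2) * l / 4) * (l * (N * a))) := by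
      rw [ENNReal.ofReal_mul (div_pos hU hd).le, ENNReal.ofReal_mul hl0.le]
      exact mul_le_mul_right (mul_le_mul_right (Core1_four hI hA hα h0 hrK hK ha) _) _
    have t5 : ENNReal.ofReal η * ∑ p : ZMod N, Ex (al N α) (FR r K (Win N r p l)) ≤
        ENNReal.ofReal (η * (N * (l * a))) := by
      rw [ENNReal.ofReal_mul hη.le, ENNReal.ofReal_mul hN0, ← hcard]
      exact mul_le_mul_right (Finset.sum_le_sum fun p _ => hW p) _
    refine (add_le_add (add_le_add (add_le_add (add_le_add t1 t2) t3) t4) t5).trans ?_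
    rw [← ENNReal.ofReal_add (by positivity) (by positivity),
      ← ENNReal.ofReal_add (by positivity) (by positivity),
      ← ENNReal.ofReal_add (by positivity) (by positivity),
      ← ENNReal.ofReal_add (by positivity) (by positivity)]
    refine ENNReal.ofReal_le_ofReal (le_of_eq ?_)
    field_simp
    ring
  · rw [ENNReal.ofReal_mul (p := U * l * Λ / η) (by positivity)]
    exact le_of_eq (mul_assoc _ _ _).symm

end DRW
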