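import Pool.Agent.P.MP_de05b4_pr.Basic

/-! The cost of tilting the parameter of a Gamma law. -/

namespace DRW

open Finset Filter
open scoped Topology

theorem Cost_term {X e θ τ : ℝ} (he : 0 < e) (h0 : 0 < τ) (h1 : τ ≤ 1) (hθ : 0 ≤ θ)
    (hX : τ * θ + e ≤ X) :
    (1 + τ) * Real.log X - Real.log (X - τ * θ) - τ * Real.log (X + θ)
      ≤ 2 * θ ^ 2 * (1 / e ^ 2) := by
  have hτθ : 0 ≤ τ * θ := mul_nonneg h0.le hθ
  have hU : e ≤ X - τ * θ := by linarith
  have hV : e ≤ X + θ := by linarith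
  have hU0 : 0 < X - τ * θ := by linarith
  have hV0 : 0 < X + θ := by linarith
  have hX0 : 0 < X := by linarith
  have a1 := Real.log_le_sub_one_of_pos (div_pos hX0 hU0)
  have a2 := Real.log_le_sub_one_of_pos (div_pos hX0 hV0)
  rw [Real.log_div hX0.ne' hU0.ne'] at a1
  rw [Real.log_div hX0.ne' hV0.ne'] at a2
  have a3 := mul_le_mul_of_nonneg_left a2 h0.le
  have e1 : X / (X - τ * θ) - 1 + τ * (X / (X + θ) - 1)
      = τ * (1 + τ) * θ ^ 2 * (1 / ((X - τ * θ) * (X + θ))) := by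
    field_simp
    ring
  have b1 : 1 / ((X - τ * θ) * (X + θ)) ≤ 1 / e ^ 2 := by
    refine one_div_le_one_div_of_le (by positivity) ?_
    rw [sq]
    exact mul_le_mul hU hV he.le hU0.le
  have b2 : τ * (1 + τ) * θ ^ 2 ≤ 2 * θ ^ 2 :=
    mul_le_mul_of_nonneg_right (by nlinarith) (sq_nonneg θ)
  have b3 : τ * (1 + τ) * θ ^ 2 * (1 / ((X - τ * θ) * (X + θ))) ≤ 2 * θ ^ 2 * (1 / e ^ 2) :=
    mul_le_mul b2 b1 (by positivity) (by positivity)
  linarith

theorem Cost_sum {η : ℝ} (hη : 0 < η) (n : ℕ) :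
    ∑ m ∈ range (n + 1), 1 / (η + m) ^ 2 ≤ 1 / η ^ 2 + 2 - 2 / ((n : ℝ) + 1) := by
  induction n with
  | zero => simp
  | succ n ih =>
    rw [sum_range_succ]
    have hn : (0 : ℝ) ≤ n := Nat.cast_nonneg n
    have h1 : 1 / (η + ((n + 1 : ℕ) : ℝ)) ^ 2 ≤ 2 / ((n : ℝ) + 1) - 2 / (((n + 1 : ℕ) : ℝ) + 1) := by
      push_cast
      have e : 2 / ((n : ℝ) + 1) - 2 / ((n : ℝ) + 1 + 1) = 1 / ((n + 1) * (n + 2) / 2) := by
        field_simp
        ring
      rw [e]
      refine one_div_le_one_div_of_le (by positivity) ?_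
      nlinarith
    linarith

theorem pf_Cost : StCost := by
  intro η hη
  refine ⟨2 * (1 / η ^ 2 + 2), by positivity, fun b θ τ h0 h1 hθ hb => ?_⟩
  have hτθ : 0 ≤ τ * θ := mul_nonneg h0.le hθ
  have t1 := Real.BohrMollerup.tendsto_log_gamma (x := b - τ * θ) (by linarith)
  have t2 := Real.BohrMollerup.tendsto_log_gamma (x := b + θ) (by linarith)
  have t3 := Real.BohrMollerup.tendsto_log_gamma (x := b) (by linarith)
  refine le_of_tendsto' ((t1.add (t2.const_mul τ)).sub (t3.const_mul (1 + τ))) fun n => ?_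
  have e : Real.BohrMollerup.logGammaSeq (b - τ * θ) n
      + τ * Real.BohrMollerup.logGammaSeq (b + θ) n
      - (1 + τ) * Real.BohrMollerup.logGammaSeq b n
      = ∑ m ∈ range (n + 1), ((1 + τ) * Real.log (b + m) - Real.log (b + m - τ * θ)
        - τ * Real.log (b + m + θ)) := by
    unfold Real.BohrMollerup.logGammaSeq
    have s1 : ∑ m ∈ range (n + 1), Real.log (b - τ * θ + m)
        = ∑ m ∈ range (n + 1), Real.log (b + m - τ * θ) :=
      sum_congr rfl fun m _ => by congr 1; ring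
    have s2 : ∑ m ∈ range (n + 1), Real.log (b + θ + m)
        = ∑ m ∈ range (n + 1), Real.log (b + m + θ) :=
      sum_congr rfl fun m _ => by congr 1; ring
    rw [s1, s2, sum_sub_distrib, sum_sub_distrib, ← mul_sum, ← mul_sum]
    ring
  rw [e]
  have hs : ∑ m ∈ range (n + 1), ((1 + τ) * Real.log (b + m) - Real.log (b + m - τ * θ)
        - τ * Real.log (b + m + θ)) ≤ ∑ m ∈ range (n + 1), 2 * θ ^ 2 * (1 / (η + m) ^ 2) := by
    refine sum_le_sum fun m _ => ?_
    have hm : (0 : ℝ) ≤ m := Nat.cast_nonneg m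
    exact Cost_term (by linarith) h0 h1 hθ (by linarith)
  refine hs.trans ?_
  rw [← mul_sum]
  have h2 := Cost_sum hη n
  have h3 : 0 ≤ 2 / ((n : ℝ) + 1) := by positivity
  have h4 : ∑ m ∈ range (n + 1), 1 / (η + m) ^ 2 ≤ 1 / η ^ 2 + 2 := by linarith
  have h5 := mul_le_mul_of_nonneg_left h4 (show 0 ≤ 2 * θ ^ 2 by positivity)
  linarith

end DRW
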