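import Pool.Agent.P.MP_de05b4_pr.Basic

/-! A deterministic inequality on a window and an elementary asymptotic fact. -/

namespace DRW

open MeasureTheory ProbabilityTheory Finset Filter
open scoped ENNReal Topology

theorem Cp_tele (v : ℕ → ℝ) {a b : ℕ} (h : a ≤ b) :
    |v b - v a| ≤ ∑ j ∈ range b, |v (j + 1) - v j| - ∑ j ∈ range a, |v (j + 1) - v j| := by
  induction b, h using Nat.le_induction with
  | base => simp
  | succ b _ ih =>
    rw [Finset.sum_range_succ]
    have := abs_sub_le (v (b + 1)) (v b) (v a)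
    linarith

theorem Cp_osc (v : ℕ → ℝ) {l a b : ℕ} (ha : a < l) (hb : b < l) :
    v b ≤ v a + ∑ j ∈ range l, |v (j + 1) - v j| := by
  have hm : ∀ k < l, ∑ j ∈ range k, |v (j + 1) - v j| ≤ ∑ j ∈ range l, |v (j + 1) - v j| :=
    fun k hk => Finset.sum_le_sum_of_subset_of_nonneg (Finset.range_subset_range.mpr hk.le)
      fun _ _ _ => abs_nonneg _
  have h0 : ∀ k, 0 ≤ ∑ j ∈ range k, |v (j + 1) - v j| :=
    fun k => Finset.sum_nonneg fun _ _ => abs_nonneg _
  rcases le_total a b with h | h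
  · have := (le_abs_self _).trans (Cp_tele v h)
    linarith [hm b hb, h0 a]
  · have := neg_abs_le (v a - v b)
    linarith [hm a ha, h0 b, Cp_tele v h]

theorem pf_Cp : StCp := by
  intro l v b f c d U Λ η v0 v1 b0 f0 c0 hd hU hΛ hη
  set B := ∑ k ∈ range l, b k with hB
  have B0 : 0 ≤ B := Finset.sum_nonneg fun k _ => b0 k
  have L1 : ∑ k ∈ range l, b k * v k ≤ B :=
    Finset.sum_le_sum fun k _ => mul_le_of_le_one_right (b0 k) (v1 k)
  have t1 : 0 ≤ (if ∑ k ∈ range l, f k < d then B else 0) := by split_ifs <;> linarith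
  have t2 : 0 ≤ (if U < B then B else 0) := by split_ifs <;> linarith
  have t3' : ∀ k' k, 0 ≤ (if c k < Λ⁻¹ then b k' else 0) := fun k' k => by
    have := b0 k'
    split_ifs <;> linarith
  have t3 : 0 ≤ ∑ k' ∈ range l, ∑ k ∈ range l, if c k < Λ⁻¹ then b k' else 0 :=
    Finset.sum_nonneg fun k' _ => Finset.sum_nonneg fun k _ => t3' k' k
  have s4 : 0 ≤ ∑ k ∈ range l, f k * v k := Finset.sum_nonneg fun k _ => mul_nonneg (f0 k) (v0 k)
  have t4 : 0 ≤ U / d * ∑ k ∈ range l, f k * v k := by positivity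
  have t5 : 0 ≤ η * B := by positivity
  have s6 : 0 ≤ ∑ k ∈ range l, c k * (v (k + 1) - v k) ^ 2 :=
    Finset.sum_nonneg fun k _ => mul_nonneg (c0 k) (sq_nonneg _)
  have t6 : 0 ≤ U * l * Λ / η * ∑ k ∈ range l, c k * (v (k + 1) - v k) ^ 2 := by positivity
  by_cases h1 : ∑ k ∈ range l, f k < d
  · rw [if_pos h1]; linarith
  by_cases h2 : U < B
  · rw [if_pos h2]; linarith
  by_cases h3 : ∃ k ∈ range l, c k < Λ⁻¹
  · obtain ⟨k, hk, hc⟩ := h3
    have : B ≤ ∑ k' ∈ range l, ∑ k ∈ range l, if c k < Λ⁻¹ then b k' else 0 := by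
      refine Finset.sum_le_sum fun k' _ => ?_
      have := Finset.single_le_sum (f := fun k => if c k < Λ⁻¹ then b k' else 0)
        (fun k _ => t3' k' k) hk
      simpa only [if_pos hc] using this
    linarith
  push Not at h1 h2 h3
  have hl : (range l).Nonempty := by
    by_contra hn
    rw [Finset.not_nonempty_iff_eq_empty] at hn
    rw [hn, Finset.sum_empty] at h1
    linarith
  obtain ⟨k₀, hk₀, hmin⟩ := Finset.exists_min_image (range l) v hl
  set o := ∑ j ∈ range l, |v (j + 1) - v j| with ho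
  have o0 : 0 ≤ o := Finset.sum_nonneg fun _ _ => abs_nonneg _
  have a1 : ∑ k ∈ range l, b k * v k ≤ B * (v k₀ + o) := by
    rw [hB, Finset.sum_mul]
    exact Finset.sum_le_sum fun k hk => mul_le_mul_of_nonneg_left
      (Cp_osc v (mem_range.mp hk₀) (mem_range.mp hk)) (b0 k)
  have a2 : d * v k₀ ≤ ∑ k ∈ range l, f k * v k := by
    refine (mul_le_mul_of_nonneg_right h1 (v0 k₀)).trans ?_
    rw [Finset.sum_mul]
    exact Finset.sum_le_sum fun k hk => mul_le_mul_of_nonneg_left (hmin k hk) (f0 k)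
  have a3 : B * v k₀ ≤ U / d * ∑ k ∈ range l, f k * v k := by
    calc B * v k₀ ≤ U * v k₀ := mul_le_mul_of_nonneg_right h2 (v0 k₀)
      _ = U / d * (d * v k₀) := by field_simp
      _ ≤ _ := mul_le_mul_of_nonneg_left a2 (by positivity)
  have a4 : o ^ 2 ≤ l * ∑ j ∈ range l, |v (j + 1) - v j| ^ 2 := by
    have := sq_sum_le_card_mul_sum_sq (s := range l) (f := fun j => |v (j + 1) - v j|)
    rwa [card_range] at this
  have a5 : ∑ j ∈ range l, |v (j + 1) - v j| ^ 2
      ≤ Λ * ∑ k ∈ range l, c k * (v (k + 1) - v k) ^ 2 := by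
    rw [Finset.mul_sum]
    refine Finset.sum_le_sum fun k hk => ?_
    have h4 : 1 ≤ Λ * c k := by
      have := mul_le_mul_of_nonneg_left (h3 k hk) hΛ.le
      rwa [mul_inv_cancel₀ hΛ.ne'] at this
    rw [sq_abs, ← mul_assoc]
    exact le_mul_of_one_le_left (sq_nonneg _) h4
  have a6 : U / η * o ^ 2 ≤ U * l * Λ / η * ∑ k ∈ range l, c k * (v (k + 1) - v k) ^ 2 := by
    calc U / η * o ^ 2 ≤ U / η * (l * (Λ * ∑ k ∈ range l, c k * (v (k + 1) - v k) ^ 2)) :=
          mul_le_mul_of_nonneg_left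
            (a4.trans (mul_le_mul_of_nonneg_left a5 (Nat.cast_nonneg l))) (by positivity)
      _ = _ := by ring
  have a7 : B * o ≤ η * B + U / η * o ^ 2 := by
    rcases le_total o η with h | h
    · have := mul_le_mul_of_nonneg_left h B0
      have : 0 ≤ U / η * o ^ 2 := by positivity
      linarith
    · have e : U / η * o ^ 2 = U * o * (o / η) := by field_simp
      have g1 : 1 ≤ o / η := (one_le_div hη).mpr h
      have g2 : U * o ≤ U * o * (o / η) := le_mul_of_one_le_right (by positivity) g1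
      have g3 := mul_le_mul_of_nonneg_right h2 o0
      linarith
  linarith

theorem pf_Asy : StAsy := by
  intro c ε M n₀ hc hε
  set A : ℝ := 2 * M / c + 1 with hA
  have A0 : 0 ≤ 2 * (M : ℝ) / c := by positivity
  have A1 : 1 ≤ A := by linarith
  have h1 : ∀ᶠ x : ℝ in atTop, x ^ (2 : ℝ) * Real.exp (-(c / 2) * x) ≤ ε :=
    (tendsto_rpow_mul_exp_neg_mul_atTop_nhds_zero 2 (c / 2) (by positivity)).eventually
      (ge_mem_nhds hε)
  obtain ⟨x₀, hx₀⟩ := eventually_atTop.mp h1
  have hδ : 0 < Real.sqrt ε / (A + 1) := by positivity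
  have h2 := (isLittleO_log_rpow_atTop (show 0 < c / 2 by positivity)).bound hδ
  have h3 : ∀ᶠ x : ℝ in atTop, max 1 (max x₀ (n₀ : ℝ)) ≤ Real.log x :=
    Real.tendsto_log_atTop.eventually (eventually_ge_atTop _)
  have h4 := (tendsto_natCast_atTop_atTop (R := ℝ)).eventually
    (h2.and (h3.and (eventually_gt_atTop (0 : ℝ))))
  obtain ⟨K₀, hK₀⟩ := eventually_atTop.mp h4
  refine ⟨K₀, fun K hK => ?_⟩
  obtain ⟨k1, k2, k3⟩ := hK₀ K hK
  have l1 : 1 ≤ Real.log K := (le_max_left _ _).trans k2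
  have l2 : x₀ ≤ Real.log K := ((le_max_left _ _).trans (le_max_right _ _)).trans k2
  have l3 : (n₀ : ℝ) ≤ Real.log K := ((le_max_right _ _).trans (le_max_right _ _)).trans k2
  have l4 : Real.log K ≤ A * Real.log K := le_mul_of_one_le_left (by linarith) A1
  have n1 : A * Real.log K ≤ (⌈A * Real.log K⌉₊ : ℝ) := Nat.le_ceil _
  have n2 : (⌈A * Real.log K⌉₊ : ℝ) < A * Real.log K + 1 := Nat.ceil_lt_add_one (by linarith)
  generalize ⌈A * Real.log K⌉₊ = n at n1 n2
  have p1 : 0 < (K : ℝ) ^ (c / 2) := Real.rpow_pos_of_pos k3 _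
  rw [Real.norm_of_nonneg (by linarith), Real.norm_of_nonneg p1.le] at k1
  refine ⟨n, ?_, ?_, ?_⟩
  · have : (n₀ : ℝ) ≤ n := by linarith
    exact_mod_cast this
  · have e1 : (n : ℝ) ≤ Real.sqrt ε * (K : ℝ) ^ (c / 2) := by
      calc (n : ℝ) ≤ (A + 1) * Real.log K := by linarith
        _ ≤ (A + 1) * (Real.sqrt ε / (A + 1) * (K : ℝ) ^ (c / 2)) :=
          mul_le_mul_of_nonneg_left k1 (by linarith)
        _ = _ := by field_simp
    calc (n : ℝ) ^ 2 ≤ (Real.sqrt ε * (K : ℝ) ^ (c / 2)) ^ 2 :=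
          pow_le_pow_left₀ (Nat.cast_nonneg n) e1 2
      _ = ε * (K : ℝ) ^ c := by
          rw [mul_pow, Real.sq_sqrt hε.le, ← Real.rpow_natCast, ← Real.rpow_mul k3.le]
          congr 2
          push_cast
          ring
  · have e1 := hx₀ n (by linarith)
    rw [Real.rpow_two] at e1
    have e2 : Real.exp (-(c / 2) * n) ≤ ((K : ℝ) ^ M)⁻¹ := by
      have e3 : ((K : ℝ) ^ M)⁻¹ = Real.exp (-(M * Real.log K)) := by
        rw [Real.exp_neg, Real.exp_nat_mul, Real.exp_log k3]
      rw [e3, Real.exp_le_exp]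
      have e4 : (M : ℝ) * Real.log K = c / 2 * (2 * M / c * Real.log K) := by field_simp
      have e5 : 2 * M / c * Real.log K ≤ n := by
        have : A * Real.log K = 2 * M / c * Real.log K + Real.log K := by rw [hA]; ring
        linarith
      have e6 := mul_le_mul_of_nonneg_left e5 (show 0 ≤ c / 2 by positivity)
      linarith
    have e7 : Real.exp (-c * n) = Real.exp (-(c / 2) * n) * Real.exp (-(c / 2) * n) := by
      rw [← Real.exp_add]; congr 1; ring
    rw [e7, ← mul_assoc]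
    exact mul_le_mul e1 e2 (Real.exp_pos _).le hε.le

end DRW
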