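import Pool.Agent.P.MP_de05b4_pr.Basic

/-! Limit of uniformly integrable densities along an ultrafilter. -/

namespace DRW

open MeasureTheory ProbabilityTheory Finset Filter
open scoped ENNReal Topology

theorem EX1_lim (u : ℕ → ℝ≥0∞) : ∃ l, Tendsto u (hyperfilter ℕ : Filter ℕ) (𝓝 l) := by
  obtain ⟨l, -, hl⟩ := isCompact_univ.ultrafilter_le_nhds ((hyperfilter ℕ).map u) (by simp)
  exact ⟨l, hl⟩

theorem EX1_holder {Ω : Type*} [MeasurableSpace Ω] (P : Measure Ω) {f : Ω → ℝ≥0∞} {s q : ℝ}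
    (h : s.HolderConjugate q) (hf : Measurable f) {A : Set Ω} (hA : MeasurableSet A) :
    P.withDensity f A ≤ (∫⁻ γ, f γ ^ s ∂P) ^ (1 / s) * P A ^ (1 / q) := by
  have hg : Measurable (A.indicator (1 : Ω → ℝ≥0∞)) := measurable_const.indicator hA
  have h1 := ENNReal.lintegral_mul_le_Lp_mul_Lq P h hf.aemeasurable hg.aemeasurable
  have h2 : ∫⁻ γ, A.indicator (1 : Ω → ℝ≥0∞) γ ^ q ∂P = P A := by
    rw [← lintegral_indicator_one hA]
    refine lintegral_congr fun γ => ?_
    by_cases hγ : γ ∈ A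
    · simp [hγ]
    · simp [hγ, h.symm.pos]
  rw [h2] at h1
  refine le_trans (le_of_eq ?_) h1
  rw [withDensity_apply _ hA, ← lintegral_indicator hA]
  refine lintegral_congr fun γ => ?_
  by_cases hγ : γ ∈ A <;> simp [hγ]

theorem EX1_meas {Ω : Type*} [MeasurableSpace Ω] (P : Measure Ω) [IsFiniteMeasure P]
    (Q : ℕ → Measure Ω) {D : ℝ≥0∞} (hD : D ≠ ⊤) {r : ℝ} (hr : 0 < r)
    (h : ∀ k A, MeasurableSet A → Q k A ≤ D * P A ^ r) :
    ∃ M : Measure Ω, ∀ A, MeasurableSet A →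
      Tendsto (fun k => Q k A) (hyperfilter ℕ : Filter ℕ) (𝓝 (M A)) := by
  choose m hm using fun A : Set Ω => EX1_lim fun k => Q k A
  have hb : ∀ A, MeasurableSet A → m A ≤ D * P A ^ r := fun A hA =>
    le_of_tendsto' (hm A) fun k => h k A hA
  refine ⟨Measure.ofMeasurable (fun A _ => m A) ?_ ?_, fun A hA => ?_⟩
  · have := hb ∅ MeasurableSet.empty
    simpa [hr] using this
  · intro A hA hd
    have hd' : ∀ n, Pairwise (Function.onFun Disjoint fun i => A (i + n)) := fun n i j hij =>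
      hd (by omega : i + n ≠ j + n)
    have e1 : ∀ n, m (⋃ i, A i) = ∑ i ∈ range n, m (A i) + m (⋃ i, A (i + n)) := by
      intro n
      refine tendsto_nhds_unique (hm _) ?_
      have : (fun k => Q k (⋃ i, A i)) =
          fun k => ∑ i ∈ range n, Q k (A i) + Q k (⋃ i, A (i + n)) := by
        funext k
        rw [measure_iUnion hd hA, measure_iUnion (hd' n) fun i => hA _,
          ENNReal.summable.sum_add_tsum_nat_add']
      rw [this]
      exact (tendsto_finsetSum _ fun i _ => hm _).add (hm _)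
    have e2 : Tendsto (fun n => P (⋃ i, A (i + n))) atTop (𝓝 0) := by
      have : (fun n => P (⋃ i, A (i + n))) = fun n => ∑' i, P (A (i + n)) :=
        funext fun n => measure_iUnion (hd' n) fun i => hA _
      rw [this]
      refine ENNReal.tendsto_sum_nat_add (fun i => P (A i)) ?_
      rw [← measure_iUnion hd hA]
      exact measure_ne_top _ _
    have e3 : Tendsto (fun n => D * P (⋃ i, A (i + n)) ^ r) atTop (𝓝 0) := by
      have h1 := (ENNReal.continuous_rpow_const (y := r)).continuousAt.tendsto.comp e2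
      rw [ENNReal.zero_rpow_of_pos hr] at h1
      have h2 := ENNReal.Tendsto.const_mul (a := D) h1 (Or.inr hD)
      rwa [mul_zero] at h2
    have e4 : Tendsto (fun n => m (⋃ i, A (i + n))) atTop (𝓝 0) :=
      tendsto_of_tendsto_of_tendsto_of_le_of_le tendsto_const_nhds e3 (fun _ => zero_le)
        fun n => hb _ (MeasurableSet.iUnion fun i => hA _)
    have e5 := (ENNReal.tendsto_nat_tsum fun i => m (A i)).add e4
    rw [add_zero] at e5
    refine tendsto_nhds_unique tendsto_const_nhds (e5.congr fun n => (e1 n).symm)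
  · rw [Measure.ofMeasurable_apply A hA]
    exact hm A

theorem EX1_le {Ω : Type*} [MeasurableSpace Ω] {Q : ℕ → Measure Ω} {M : Measure Ω}
    (h : ∀ A, MeasurableSet A → Tendsto (fun k => Q k A) (hyperfilter ℕ : Filter ℕ) (𝓝 (M A)))
    {φ : Ω → ℝ≥0∞} (h1 : ∀ γ, φ γ ≤ 1) {l : ℝ≥0∞}
    (hl : Tendsto (fun k => ∫⁻ γ, φ γ ∂Q k) (hyperfilter ℕ : Filter ℕ) (𝓝 l)) :
    ∫⁻ γ, φ γ ∂M ≤ l := by
  rw [lintegral_def]
  refine iSup₂_le fun g hg => ?_
  have ht : Tendsto (fun k => g.lintegral (Q k)) (hyperfilter ℕ : Filter ℕ)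
      (𝓝 (g.lintegral M)) := by
    unfold SimpleFunc.lintegral
    refine tendsto_finsetSum _ fun x hx => ENNReal.Tendsto.const_mul
      (h _ (g.measurableSet_fiber x)) (Or.inr ?_)
    obtain ⟨γ, rfl⟩ := SimpleFunc.mem_range.1 hx
    exact ne_top_of_le_ne_top ENNReal.one_ne_top ((hg γ).trans (h1 γ))
  refine le_of_tendsto_of_tendsto' ht hl fun k => ?_
  rw [← g.lintegral_eq_lintegral]
  exact lintegral_mono hg

theorem pf_EX1 : StEX1 := by
  intro P _ f s C hs hC hf h1 h2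
  have hq := Real.HolderConjugate.conjExponent hs
  have hr : 0 < 1 / Real.conjExponent s := one_div_pos.2 hq.symm.pos
  have hD : C ^ (1 / s) ≠ ⊤ := ENNReal.rpow_ne_top_of_nonneg (one_div_pos.2 hq.pos).le hC
  have hb : ∀ k A, MeasurableSet A →
      P.withDensity (f k) A ≤ C ^ (1 / s) * P A ^ (1 / Real.conjExponent s) := fun k A hA =>
    (EX1_holder P hq (hf k) hA).trans
      (mul_le_mul_left (ENNReal.rpow_le_rpow (h2 k) (one_div_pos.2 hq.pos).le) _)
  obtain ⟨Q, hQ⟩ := EX1_meas P (fun k => P.withDensity (f k)) hD hr hb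
  have hp : ∀ k, IsProbabilityMeasure (P.withDensity (f k)) := fun k =>
    ⟨by rw [withDensity_apply _ MeasurableSet.univ, Measure.restrict_univ, h1]⟩
  have hP : IsProbabilityMeasure Q := by
    refine ⟨tendsto_nhds_unique (hQ _ MeasurableSet.univ) ?_⟩
    simp only [measure_univ]
    exact tendsto_const_nhds
  have hac : Q ≪ P := by
    refine Measure.AbsolutelyContinuous.mk fun A hA h0 => ?_
    have := le_of_tendsto' (hQ A hA) fun k => hb k A hA
    rwa [h0, ENNReal.zero_rpow_of_pos hr, mul_zero, nonpos_iff_eq_zero] at this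
  refine ⟨Q, hP, hac, fun φ hφ hφ1 => ?_⟩
  have hψ : Measurable fun γ => min (φ γ) 1 := hφ.min measurable_const
  have hae : ∀ᵐ γ ∂P, φ γ = min (φ γ) 1 := hφ1.mono fun γ hγ => (min_eq_left hγ).symm
  have e1 : ∀ k, ∫⁻ γ, f k γ * φ γ ∂P = ∫⁻ γ, min (φ γ) 1 ∂P.withDensity (f k) := by
    intro k
    rw [lintegral_withDensity_eq_lintegral_mul _ (hf k) hψ]
    exact lintegral_congr_ae (hae.mono fun γ hγ => by simp only [Pi.mul_apply]; rw [← hγ])
  have e2 : ∫⁻ γ, φ γ ∂Q = ∫⁻ γ, min (φ γ) 1 ∂Q := lintegral_congr_ae (hac.ae_le hae)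
  have e3 : ∀ (M : Measure Env) [IsProbabilityMeasure M],
      ∫⁻ γ, min (φ γ) 1 ∂M + ∫⁻ γ, 1 - min (φ γ) 1 ∂M = 1 := by
    intro M _
    rw [← lintegral_add_left hψ]
    simp only [add_tsub_cancel_of_le (min_le_right _ _), lintegral_const, measure_univ, mul_one]
  obtain ⟨l₁, hl₁⟩ := EX1_lim fun k => ∫⁻ γ, min (φ γ) 1 ∂P.withDensity (f k)
  obtain ⟨l₂, hl₂⟩ := EX1_lim fun k => ∫⁻ γ, 1 - min (φ γ) 1 ∂P.withDensity (f k)
  have e4 : l₁ + l₂ = 1 := by
    refine tendsto_nhds_unique (hl₁.add hl₂) ?_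
    simp only [e3]
    exact tendsto_const_nhds
  have a1 := EX1_le hQ (fun γ => min_le_right _ _) hl₁
  have a2 := EX1_le hQ (fun γ => tsub_le_self) hl₂
  have hl : l₂ ≠ ⊤ := ne_top_of_le_ne_top ENNReal.one_ne_top (e4 ▸ le_add_self)
  have e5 : l₁ = ∫⁻ γ, min (φ γ) 1 ∂Q := by
    refine le_antisymm ((ENNReal.add_le_add_iff_right hl).1 ?_) a1
    exact (e4.trans (e3 Q).symm).le.trans (add_le_add le_rfl a2)
  simp only [e1, e2]
  exact e5 ▸ hl₁

end DRW
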