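import Pool.Agent.P.MP_de05b4_pr.Basic

/-! The energy estimate for the harmonic measure of the left wall. -/

namespace DRW

open MeasureTheory ProbabilityTheory Finset Filter
open scoped ENNReal Topology

variable {N : ℕ} [NeZero N]

/-- the local vertical energy -/
noncomputable def En_q (K : ℕ) (G : E N → ℝ) (x : T N) : ℝ :=
  om G (x, 1) * (vv 0 K G (x + dr N 1) - vv 0 K G x) ^ 2

/-- its potential -/
noncomputable def En_P (r₁ r₂ K : ℕ) (G : E N → ℝ) (z : T N) : ℝ :=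
  ∑ x ∈ Cols N r₁ r₂, En_q K G x * gx 0 K x G z

theorem En_q_nonneg {G : E N → ℝ} (hG : Pos G) (K : ℕ) (x : T N) : 0 ≤ En_q K G x :=
  mul_nonneg (om_pos hG _).le (sq_nonneg _)

theorem En_lap {G : E N → ℝ} (hG : Pos G) (r₁ r₂ K : ℕ) {y : T N} (hy : y ∈ Wd N 0 K) :
    lap G (En_P r₁ r₂ K G) y =
      if y ∈ Cols N r₁ r₂ then -(En_q K G y * (Zs G y * esc 0 K y G)) else 0 := by
  unfold En_P
  rw [lap_sum (Cols N r₁ r₂) G (fun x z => En_q K G x * gx 0 K x G z) y]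
  have : ∀ x ∈ Cols N r₁ r₂, lap G (fun z => En_q K G x * gx 0 K x G z) y =
      if y = x then -(En_q K G x * (Zs G x * esc 0 K x G)) else 0 := by
    intro x _
    rw [lap_mul, gx_lap hG x hy]
    split_ifs <;> ring
  rw [Finset.sum_congr rfl this, Finset.sum_ite_eq]

theorem En_off {G : E N → ℝ} (hG : Pos G) {r₁ r₂ K : ℕ} (h1 : 0 < r₁) (h2 : r₂ < K) {z : T N}
    (hz : z ∉ Wd N 0 K) : En_P r₁ r₂ K G z = 0 := by
  refine Finset.sum_eq_zero fun x hx => ?_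
  rw [mem_Cols] at hx
  rw [gx_off hG (mem_Wd.mpr ⟨by omega, by omega⟩) hz, mul_zero]

theorem En_sq {G : E N → ℝ} (hG : Pos G) (K : ℕ) {y : T N} (hy : y ∈ Wd N 0 K) :
    lap G (fun z => vv 0 K G z - vv 0 K G z ^ 2) y ≤ -(En_q K G y * Zs G y) := by
  have h0 := vv_lap hG (mem_Wd.mp hy).1 (mem_Wd.mp hy).2
  have hZ := Zs_pos hG y
  have e1 : En_q K G y * Zs G y = G (y, 1) * (vv 0 K G (y + dr N 1) - vv 0 K G y) ^ 2 := by
    unfold En_q
    change G (y, 1) / Zs G y * _ * _ = _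
    field_simp
  have e2 : lap G (fun z => vv 0 K G z - vv 0 K G z ^ 2) y =
      (1 - 2 * vv 0 K G y) * lap G (vv 0 K G) y
        - ∑ i, G (y, i) * (vv 0 K G (y + dr N i) - vv 0 K G y) ^ 2 := by
    unfold lap
    rw [Finset.mul_sum, ← Finset.sum_sub_distrib]
    exact Finset.sum_congr rfl fun i _ => by ring
  have e3 := Finset.single_le_sum
    (f := fun i => G (y, i) * (vv 0 K G (y + dr N i) - vv 0 K G y) ^ 2)
    (fun i _ => mul_nonneg (hG _).le (sq_nonneg _)) (mem_univ (1 : Fin 4))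
  rw [e1, e2, h0]
  linarith

theorem En_le {G : E N → ℝ} (hG : Pos G) {r₁ r₂ K : ℕ} (h1 : 0 < r₁) (h12 : r₁ ≤ r₂)
    (h2 : r₂ < K) (hK : K < N) {z : T N} (hz : col z ≤ K) : En_P r₁ r₂ K G z ≤ vv 0 K G z := by
  have h := le_on_strip hG (s := 0) hK (f := En_P r₁ r₂ K G)
    (g := fun z => vv 0 K G z - vv 0 K G z ^ 2) (fun y hy => ?_) (fun y hy => ?_)
    (fun y hy => ?_) (Nat.zero_le _) hz
  · have := sq_nonneg (vv 0 K G z)
    linarith
  · have a1 := En_sq hG K hy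
    have a2 : 0 ≤ En_q K G y * Zs G y := mul_nonneg (En_q_nonneg hG K y) (Zs_pos hG y).le
    have a3 := mul_le_of_le_one_right a2 (esc_le_one hG 0 K y)
    rw [En_lap hG r₁ r₂ K hy]
    split_ifs <;> linarith
  · rw [En_off hG h1 h2 (by rw [mem_Wd]; omega), vv_left hG hy]
    norm_num
  · rw [En_off hG h1 h2 (by rw [mem_Wd]; omega), vv_right hG (by omega) hy]
    norm_num

theorem En_left {G : E N → ℝ} (hG : Pos G) {r₁ r₂ K : ℕ} (h1 : 0 < r₁) (h12 : r₁ ≤ r₂)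
    (h2 : r₂ < K) (hK : K < N) {z : T N} (hz : col z ≤ r₁) :
    En_P r₁ r₂ K G z + uu 0 K G z ≤ uu 0 r₁ G z := by
  refine le_on_strip hG (s := 0) (t := r₁) (by omega)
    (f := fun z => En_P r₁ r₂ K G z + uu 0 K G z) (g := uu 0 r₁ G) (fun y hy => ?_)
    (fun y hy => ?_) (fun y hy => ?_) (Nat.zero_le _) hz
  · rw [mem_Wd] at hy
    rw [lap_add, En_lap hG r₁ r₂ K (mem_Wd.mpr ⟨hy.1, by omega⟩),
      if_neg (by rw [mem_Cols]; omega), uu_lap hG hy.1 hy.2, uu_lap hG hy.1 (by omega), add_zero]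
  · rw [En_off hG h1 h2 (by rw [mem_Wd]; omega), uu_left hG (by omega) hy, uu_left hG h1 hy,
      add_zero]
  · have a1 := En_le hG h1 h12 h2 hK (z := y) (by omega)
    have a2 := uu_add_vv hG (s := 0) (t := K) (by omega) hK (x := y) (Nat.zero_le _) (by omega)
    rw [uu_right hG hy]
    linarith

theorem En_right {G : E N → ℝ} (hG : Pos G) {r₁ r₂ K : ℕ} (h1 : 0 < r₁) (h12 : r₁ ≤ r₂)
    (h2 : r₂ < K) (hK : K < N) {z : T N} (hz : r₂ ≤ col z) (hz' : col z ≤ K) :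
    En_P r₁ r₂ K G z ≤ vv r₂ K G z := by
  refine le_on_strip hG (s := r₂) (t := K) hK (f := En_P r₁ r₂ K G) (g := vv r₂ K G)
    (fun y hy => ?_) (fun y hy => ?_) (fun y hy => ?_) hz hz'
  · rw [mem_Wd] at hy
    rw [En_lap hG r₁ r₂ K (mem_Wd.mpr ⟨by omega, hy.2⟩),
      if_neg (by rw [mem_Cols]; omega), vv_lap hG hy.1 hy.2]
  · rw [vv_left hG hy]
    exact (En_le hG h1 h12 h2 hK (by omega)).trans (vv_le_one hG _ _ _)
  · rw [En_off hG h1 h2 (by rw [mem_Wd]; omega), vv_right hG h2 hy]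

theorem En_main {G : E N → ℝ} (hG : Pos G) {r₁ r₂ K : ℕ} (h1 : 0 < r₁) (h12 : r₁ ≤ r₂)
    (h2 : r₂ < K) (hK : K < N) :
    Fx G (SE (Col N 0) 0) (uu 0 K G) + ∑ x ∈ Cols N r₁ r₂,
        HH 0 K x G * om G (x, 1) * (vv 0 K G (x + dr N 1) - vv 0 K G x) ^ 2
      ≤ Fx G (SE (Col N 0) 0) (uu 0 r₁ G) + FR r₂ K (Col N r₂) G := by
  have e1 : ∑ x ∈ Cols N r₁ r₂,
      HH 0 K x G * om G (x, 1) * (vv 0 K G (x + dr N 1) - vv 0 K G x) ^ 2
      = Fx G (Src N 0 K) (En_P r₁ r₂ K G) := by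
    unfold En_P
    rw [Fx_sum (Cols N r₁ r₂) G (Src N 0 K) fun x z => En_q K G x * gx 0 K x G z]
    refine Finset.sum_congr rfl fun x _ => ?_
    rw [Fx_mul]
    unfold HH En_q
    ring
  have a1 : Fx G (SE (Col N 0) 0) (fun z => En_P r₁ r₂ K G z + uu 0 K G z)
      ≤ Fx G (SE (Col N 0) 0) (uu 0 r₁ G) := by
    refine Fx_mono hG fun e he => En_left hG h1 h12 h2 hK ?_
    rw [col_tg_left (s := 0) (by omega) Subset.rfl he]
    omega
  have a2 : Fx G (SE (Col N K) 2) (En_P r₁ r₂ K G) ≤ FR r₂ K (Col N r₂) G := by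
    refine Fx_mono hG fun e he => ?_
    have := col_tg_right (t := K) (by omega) Subset.rfl he
    exact En_right hG h1 h12 h2 hK (by omega) (by omega)
  rw [Fx_add] at a1
  rw [e1, Fx_Src]
  linarith

theorem pf_En (hA : StA) : StEn := by
  intro α hα N _ r₁ r₂ K h1 h12 h2 hK
  obtain ⟨hS, h0, -, -⟩ := hA α hα N
  have hβ : Pos (al N α) := pos_al hα.1
  have s1 := (hS 0 K (by omega) hK).2.2 _ Subset.rfl
  have s2 := (hS 0 r₁ h1 (by omega)).2.2 _ Subset.rfl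
  have s3 := (hS r₂ K h2 hK).1 _ Subset.rfl
  rw [card_Col (by omega), Nat.sub_zero] at s1 s2
  rw [card_Col (by omega)] at s3
  have m1 : ∀ t : ℕ, Measurable fun G : E N → ℝ => Fx G (SE (Col N 0) 0) (uu 0 t G) :=
    fun t => measurable_Fx _ (measurable_uu 0 t)
  have k1 := Ex_mono hβ fun G hG => En_main hG h1 h12 h2 hK
  rw [Ex_add hβ (m1 K) (fun G hG => Fx_nonneg hG fun e _ => uu_nonneg hG _ _ _)
    (fun G hG => Finset.sum_nonneg fun x _ => mul_nonneg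
      (mul_nonneg (HH_nonneg hG _ _ _) (om_pos hG _).le) (sq_nonneg _)), s1] at k1
  have k2 := k1.trans (Ex_add_le _ (m1 r₁))
  rw [s2, s3] at k2
  have hd : 0 < α 0 - α 2 := sub_pos.mpr hα.2
  have hN : (0 : ℝ) ≤ N := Nat.cast_nonneg N
  have b1 := h0 r₁
  have b2 := h0 (K - r₂)
  have b3 := h0 K
  have k3 : ENNReal.ofReal (N * (α 0 - α 2 + aa α N r₁)) + ENNReal.ofReal (N * aa α N (K - r₂))
      ≤ ENNReal.ofReal (N * (α 0 - α 2 + aa α N K))
        + ENNReal.ofReal (N * (aa α N r₁ + aa α N (K - r₂))) := by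
    rw [← ENNReal.ofReal_add (by positivity) (by positivity),
      ← ENNReal.ofReal_add (by positivity) (by positivity)]
    refine ENNReal.ofReal_le_ofReal ?_
    have := mul_nonneg hN b3
    linarith
  exact (ENNReal.add_le_add_iff_left ENNReal.ofReal_ne_top).mp (k2.trans k3)

end DRW
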