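import Pool.Agent.P.MP_de05b4_pr.Basic

/-! The Pólya flow from the origin to the uniform measure on a diagonal. -/

namespace DRW

open MeasureTheory ProbabilityTheory Finset Filter
open scoped ENNReal Topology

noncomputable def F1_w (L : ℕ) (z : ℤ × ℤ) : ℝ :=
  if 0 ≤ z.1 ∧ 0 ≤ z.2 ∧ z.1 + z.2 < L then
    1 / ((((z.1 : ℝ) + z.2) + 1) * (((z.1 : ℝ) + z.2) + 2)) else 0

noncomputable def F1_th (L : ℕ) (z : ℤ × ℤ) : Fin 4 → ℝ :=
  ![((z.1 : ℝ) + 1) * F1_w L z, ((z.2 : ℝ) + 1) * F1_w L z, 0, 0]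

theorem F1_nonneg (L : ℕ) (z : ℤ × ℤ) (i : Fin 4) : 0 ≤ F1_th L z i := by
  by_cases h : 0 ≤ z.1 ∧ 0 ≤ z.2 ∧ z.1 + z.2 < L
  · have h1 : (0 : ℝ) ≤ z.1 := by exact_mod_cast h.1
    have h2 : (0 : ℝ) ≤ z.2 := by exact_mod_cast h.2.1
    have hw : 0 ≤ F1_w L z := by
      unfold F1_w; rw [if_pos h]; positivity
    fin_cases i
    · show 0 ≤ ((z.1 : ℝ) + 1) * F1_w L z; positivity
    · show 0 ≤ ((z.2 : ℝ) + 1) * F1_w L z; positivity
    · exact le_rfl
    · exact le_rfl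
  · have hw : F1_w L z = 0 := by unfold F1_w; rw [if_neg h]
    fin_cases i
    · show 0 ≤ ((z.1 : ℝ) + 1) * F1_w L z; rw [hw, mul_zero]
    · show 0 ≤ ((z.2 : ℝ) + 1) * F1_w L z; rw [hw, mul_zero]
    · exact le_rfl
    · exact le_rfl

theorem F1_zero (L : ℕ) (z : ℤ × ℤ) (h : ¬ (0 ≤ z.1 ∧ 0 ≤ z.2 ∧ z.1 + z.2 < L)) (i : Fin 4) :
    F1_th L z i = 0 := by
  have hw : F1_w L z = 0 := by unfold F1_w; rw [if_neg h]
  fin_cases i
  · show ((z.1 : ℝ) + 1) * F1_w L z = 0; rw [hw, mul_zero]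
  · show ((z.2 : ℝ) + 1) * F1_w L z = 0; rw [hw, mul_zero]
  · rfl
  · rfl

theorem F1_supp (L : ℕ) : SuppZ (F1_th L) L := by
  intro z i hne
  by_cases h : 0 ≤ z.1 ∧ 0 ≤ z.2 ∧ z.1 + z.2 < L
  · obtain ⟨h1, h2, h3⟩ := h
    rw [abs_of_nonneg h1, abs_of_nonneg h2]
    constructor <;> omega
  · exact absurd (F1_zero L z h i) hne

theorem F1_site (L : ℕ) (n k : ℕ) (hk : k ≤ n) :
    ∑ i, F1_th L ((k : ℤ), (n : ℤ) - k) i ^ 2 ≤ 1 / ((n : ℝ) + 1) ^ 2 := by
  by_cases h : 0 ≤ (k : ℤ) ∧ 0 ≤ (n : ℤ) - k ∧ (k : ℤ) + ((n : ℤ) - k) < L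
  · have hw : F1_w L ((k : ℤ), (n : ℤ) - k) = 1 / (((n : ℝ) + 1) * ((n : ℝ) + 2)) := by
      unfold F1_w
      rw [if_pos h]
      push_cast
      congr 2 <;> ring
    rw [Fin.sum_univ_four]
    simp only [F1_th, Matrix.cons_val_zero, Matrix.cons_val_one, Matrix.cons_val, hw]
    push_cast
    have hk' : (k : ℝ) ≤ n := by exact_mod_cast hk
    have hk0 : (0 : ℝ) ≤ k := by positivity
    have hn0 : (0 : ℝ) ≤ n := by positivity
    have key : ((k : ℝ) + 1) ^ 2 + ((n : ℝ) - k + 1) ^ 2 ≤ ((n : ℝ) + 2) ^ 2 := by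
      nlinarith [mul_nonneg (show (0 : ℝ) ≤ k + 1 by linarith)
        (show (0 : ℝ) ≤ n - k + 1 by linarith)]
    have e1 : (((k : ℝ) + 1) * (1 / (((n : ℝ) + 1) * ((n : ℝ) + 2)))) ^ 2 +
        (((n : ℝ) - k + 1) * (1 / (((n : ℝ) + 1) * ((n : ℝ) + 2)))) ^ 2 + 0 ^ 2 + 0 ^ 2 =
        (((k : ℝ) + 1) ^ 2 + ((n : ℝ) - k + 1) ^ 2) / (((n : ℝ) + 1) * ((n : ℝ) + 2)) ^ 2 := by
      field_simp
      ring
    have e2 : 1 / ((n : ℝ) + 1) ^ 2 =
        ((n : ℝ) + 2) ^ 2 / (((n : ℝ) + 1) * ((n : ℝ) + 2)) ^ 2 := by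
      field_simp
    rw [e1, e2]
    exact div_le_div_of_nonneg_right key (by positivity)
  · rw [Finset.sum_eq_zero fun i _ => by rw [F1_zero L _ h i]; simp]
    positivity

theorem F1_en (L : ℕ) : EnZ (F1_th L) (1 + Real.log (L + 1)) := by
  intro S
  classical
  set P : Finset (Σ _ : ℕ, ℕ) := (range L).sigma fun n => range (n + 1) with hP
  set B : Finset (ℤ × ℤ) := P.image fun p => ((p.2 : ℤ), (p.1 : ℤ) - p.2) with hB
  have hmem : ∀ z : ℤ × ℤ, (0 ≤ z.1 ∧ 0 ≤ z.2 ∧ z.1 + z.2 < L) → z ∈ B := by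
    rintro ⟨a, b⟩ ⟨h1, h2, h3⟩
    simp only at h1 h2 h3
    refine mem_image.mpr ⟨⟨(a + b).toNat, a.toNat⟩, ?_, ?_⟩
    · simp only [hP, mem_sigma, mem_range]
      constructor <;> omega
    · simp only [Prod.mk.injEq]
      constructor <;> omega
  have h1 : ∑ e ∈ S, F1_th L e.1 e.2 ^ 2 ≤ ∑ e ∈ B ×ˢ (univ : Finset (Fin 4)),
      F1_th L e.1 e.2 ^ 2 := by
    rw [← Finset.sum_filter_ne_zero S]
    refine Finset.sum_le_sum_of_subset_of_nonneg ?_ fun _ _ _ => sq_nonneg _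
    intro e he
    have hne := (mem_filter.mp he).2
    refine mem_product.mpr ⟨hmem _ ?_, mem_univ _⟩
    by_contra hc
    exact hne (by rw [F1_zero L _ hc]; simp)
  have h2 : ∑ e ∈ B ×ˢ (univ : Finset (Fin 4)), F1_th L e.1 e.2 ^ 2 ≤
      ∑ p ∈ P, ∑ i, F1_th L ((p.2 : ℤ), (p.1 : ℤ) - p.2) i ^ 2 := by
    rw [Finset.sum_product]
    exact Finset.sum_image_le_of_nonneg fun z _ => Finset.sum_nonneg fun i _ => sq_nonneg _
  have h3 : ∑ p ∈ P, ∑ i, F1_th L ((p.2 : ℤ), (p.1 : ℤ) - p.2) i ^ 2 ≤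
      ∑ n ∈ range L, 1 / ((n : ℝ) + 1) := by
    rw [hP, Finset.sum_sigma]
    refine Finset.sum_le_sum fun n _ => ?_
    calc ∑ k ∈ range (n + 1), ∑ i, F1_th L ((k : ℤ), (n : ℤ) - k) i ^ 2
        ≤ ∑ k ∈ range (n + 1), 1 / ((n : ℝ) + 1) ^ 2 :=
          Finset.sum_le_sum fun k hk => F1_site L n k (Nat.lt_succ_iff.mp (mem_range.mp hk))
      _ = 1 / ((n : ℝ) + 1) := by
          rw [Finset.sum_const, card_range, nsmul_eq_mul]
          push_cast
          field_simp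
  have h4 : ∑ n ∈ range L, 1 / ((n : ℝ) + 1) = (harmonic L : ℝ) := by
    simp [harmonic]
  have h5 : Real.log L ≤ Real.log (L + 1) := by
    rcases Nat.eq_zero_or_pos L with h | h
    · subst h; simp
    · exact Real.log_le_log (by exact_mod_cast h) (by linarith)
  have h6 := harmonic_le_one_add_log L
  linarith

theorem F1_dv (L : ℕ) (z : ℤ × ℤ) :
    dvZ (F1_th L) z = diagZ L z - if z = 0 then 1 else 0 := by
  obtain ⟨a, b⟩ := z
  unfold dvZ diagZ
  rw [Fin.sum_univ_four]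
  simp only [F1_th, dir, Matrix.cons_val_zero, Matrix.cons_val_one, Matrix.cons_val,
    Prod.mk_sub_mk, sub_zero, Prod.mk_eq_zero, sub_self, add_zero]
  push_cast
  simp only [sub_add_cancel]
  by_cases ha : 0 ≤ a
  swap
  · have e1 : F1_w L (a - 1, b) = 0 := by unfold F1_w; rw [if_neg]; simp only; omega
    have e2 : F1_w L (a, b - 1) = 0 := by unfold F1_w; rw [if_neg]; simp only; omega
    have e3 : F1_w L (a, b) = 0 := by unfold F1_w; rw [if_neg]; simp only; omega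
    rw [e1, e2, e3, if_neg (by omega), if_neg (by omega)]
    simp
  by_cases hb : 0 ≤ b
  swap
  · have e1 : F1_w L (a - 1, b) = 0 := by unfold F1_w; rw [if_neg]; simp only; omega
    have e2 : F1_w L (a, b - 1) = 0 := by unfold F1_w; rw [if_neg]; simp only; omega
    have e3 : F1_w L (a, b) = 0 := by unfold F1_w; rw [if_neg]; simp only; omega
    rw [e1, e2, e3, if_neg (by omega), if_neg (by omega)]
    simp
  have ha' : (0 : ℝ) ≤ a := by exact_mod_cast ha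
  have hb' : (0 : ℝ) ≤ b := by exact_mod_cast hb
  -- in-flow
  have hin : (a : ℝ) * F1_w L (a - 1, b) + (b : ℝ) * F1_w L (a, b - 1) =
      if 1 ≤ a + b ∧ a + b ≤ L then 1 / ((a : ℝ) + b + 1) else 0 := by
    by_cases hc : 1 ≤ a + b ∧ a + b ≤ L
    · rw [if_pos hc]
      have hs : (1 : ℝ) ≤ a + b := by exact_mod_cast hc.1
      have e1 : (a : ℝ) * F1_w L (a - 1, b) = a / (((a : ℝ) + b) * (a + b + 1)) := by
        rcases eq_or_lt_of_le ha with h0 | h0
        · subst h0; simp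
        · unfold F1_w
          rw [if_pos (by simp only; omega)]
          push_cast
          rw [show (a : ℝ) - 1 + b + 1 = a + b by ring, show (a : ℝ) - 1 + b + 2 = a + b + 1 by ring]
          ring
      have e2 : (b : ℝ) * F1_w L (a, b - 1) = b / (((a : ℝ) + b) * (a + b + 1)) := by
        rcases eq_or_lt_of_le hb with h0 | h0
        · subst h0; simp
        · unfold F1_w
          rw [if_pos (by simp only; omega)]
          push_cast
          rw [show (a : ℝ) + (b - 1) + 1 = a + b by ring,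
            show (a : ℝ) + (b - 1) + 2 = a + b + 1 by ring]
          ring
      rw [e1, e2]
      have : (a : ℝ) + b ≠ 0 := by linarith
      field_simp
    · rw [if_neg hc]
      have e1 : F1_w L (a - 1, b) = 0 := by unfold F1_w; rw [if_neg]; simp only; omega
      have e2 : F1_w L (a, b - 1) = 0 := by unfold F1_w; rw [if_neg]; simp only; omega
      rw [e1, e2]; simp
  have hout : ((a : ℝ) + 1) * F1_w L (a, b) + ((b : ℝ) + 1) * F1_w L (a, b) =
      if a + b < L then 1 / ((a : ℝ) + b + 1) else 0 := by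
    by_cases hc : a + b < L
    · rw [if_pos hc]
      unfold F1_w
      rw [if_pos ⟨ha, hb, hc⟩]
      simp only
      field_simp
      ring
    · rw [if_neg hc]
      have e3 : F1_w L (a, b) = 0 := by unfold F1_w; rw [if_neg]; simp only; omega
      rw [e3]; simp
  have hre : (a : ℝ) * F1_w L (a - 1, b) - ((a : ℝ) + 1) * F1_w L (a, b) +
      ((b : ℝ) * F1_w L (a, b - 1) - ((b : ℝ) + 1) * F1_w L (a, b)) =
      ((a : ℝ) * F1_w L (a - 1, b) + (b : ℝ) * F1_w L (a, b - 1)) -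
      (((a : ℝ) + 1) * F1_w L (a, b) + ((b : ℝ) + 1) * F1_w L (a, b)) := by ring
  rw [hre, hin, hout]
  by_cases h0 : a = 0 ∧ b = 0
  · obtain ⟨rfl, rfl⟩ := h0
    rcases Nat.eq_zero_or_pos L with h | h
    · subst h; simp
    · rw [if_neg (by omega), if_pos (by omega), if_neg (by omega), if_pos ⟨rfl, rfl⟩]
      simp
  · rw [if_neg h0]
    rcases lt_trichotomy (a + b) L with h | h | h
    · rw [if_pos (by omega), if_pos h, if_neg (by omega)]; simp
    · rw [if_pos (by omega), if_neg (by omega), if_pos ⟨ha, hb, h⟩]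
      have : (a : ℝ) + b = L := by exact_mod_cast h
      rw [this]
    · rw [if_neg (by omega), if_neg (by omega), if_neg (by omega)]

theorem pf_F1 : StF1 := fun L => ⟨F1_th L, F1_nonneg L, F1_supp L, F1_en L, F1_dv L⟩

end DRW
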