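import Pool.Agent.P.MP_de05b4_pr.Basic

/-! Translating the uniform measure on a diagonal by a flow along straight segments. -/

namespace DRW

open Finset

def F2_P (L a b : ℤ) (z : ℤ × ℤ) (i : Fin 4) : Prop :=
  (i.val = 0 ∧ 0 ≤ z.2 ∧ z.2 ≤ L ∧ L - z.2 ≤ z.1 ∧ z.1 < L - z.2 + a) ∨
  (i.val = 1 ∧ 0 ≤ z.1 - a ∧ z.1 - a ≤ L ∧ L - (z.1 - a) ≤ z.2 ∧ z.2 < L - (z.1 - a) + b) ∨
  (i.val = 2 ∧ 0 ≤ z.2 ∧ z.2 ≤ L ∧ L - z.2 + a < z.1 ∧ z.1 ≤ L - z.2) ∨
  (i.val = 3 ∧ 0 ≤ z.1 - a ∧ z.1 - a ≤ L ∧ L - (z.1 - a) + b < z.2 ∧ z.2 ≤ L - (z.1 - a))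

instance F2_dec (L a b : ℤ) (z : ℤ × ℤ) (i : Fin 4) : Decidable (F2_P L a b z i) := by
  unfold F2_P; infer_instance

def F2_code (L a : ℤ) (e : (ℤ × ℤ) × Fin 4) : ℤ × ℤ :=
  if e.2.val = 0 then (e.1.2, e.1.1 - (L - e.1.2))
  else if e.2.val = 2 then (e.1.2, (L - e.1.2) - e.1.1)
  else if e.2.val = 1 then (e.1.1 - a, |a| + e.1.2 - (L - (e.1.1 - a)))
  else (e.1.1 - a, |a| + (L - (e.1.1 - a)) - e.1.2)

theorem F2_card (L : ℕ) (a b : ℤ) (S : Finset ((ℤ × ℤ) × Fin 4)) :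
    ((S.filter fun e => F2_P L a b e.1 e.2).card : ℝ) ≤
      ((L : ℝ) + 1) * (|(a : ℝ)| + |(b : ℝ)|) := by
  have ha := abs_nonneg a
  have hb := abs_nonneg b
  have ha1 := le_abs_self a
  have ha2 := neg_abs_le a
  have hb1 := le_abs_self b
  have hb2 := neg_abs_le b
  have h1 : (S.filter fun e => F2_P L a b e.1 e.2).card ≤
      ((Finset.Icc (0 : ℤ) L) ×ˢ (Finset.Ico (0 : ℤ) (|a| + |b|))).card := by
    refine Finset.card_le_card_of_injOn (F2_code L a) ?_ ?_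
    · intro e he
      have hP := (mem_filter.mp (mem_coe.mp he)).2
      obtain ⟨⟨x, y⟩, i⟩ := e
      simp only [F2_P] at hP
      simp only [coe_product, Set.mem_prod, coe_Icc, coe_Ico, Set.mem_Icc, Set.mem_Ico, F2_code]
      split_ifs <;> simp only [] <;> omega
    · intro e he e' he' hee
      have hP := (mem_filter.mp (mem_coe.mp he)).2
      have hP' := (mem_filter.mp (mem_coe.mp he')).2
      obtain ⟨⟨x, y⟩, i⟩ := e
      obtain ⟨⟨x', y'⟩, i'⟩ := e'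
      simp only [F2_P] at hP hP'
      simp only [F2_code] at hee
      have : x = x' ∧ y = y' ∧ i.val = i'.val := by
        split_ifs at hee <;> simp only [Prod.mk.injEq] at hee <;> omega
      obtain ⟨h1, h2, h3⟩ := this
      rw [h1, h2, Fin.ext h3]
  rw [card_product, Int.card_Icc, Int.card_Ico] at h1
  have h2 : (((L : ℤ) + 1 - 0).toNat : ℤ) = L + 1 := by omega
  have h3 : ((|a| + |b| - 0).toNat : ℤ) = |a| + |b| := by omega
  have h4 : (((S.filter fun e => F2_P L a b e.1 e.2).card : ℤ)) ≤ ((L : ℤ) + 1) * (|a| + |b|) := by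
    rw [← h2, ← h3]; exact_mod_cast h1
  exact_mod_cast h4

theorem F2_P0 (L a b x y : ℤ) :
    F2_P L a b (x, y) 0 ↔ 0 ≤ y ∧ y ≤ L ∧ L - y ≤ x ∧ x < L - y + a := by simp [F2_P]

theorem F2_P1 (L a b x y : ℤ) : F2_P L a b (x, y) 1 ↔
    0 ≤ x - a ∧ x - a ≤ L ∧ L - (x - a) ≤ y ∧ y < L - (x - a) + b := by simp [F2_P]

theorem F2_P2 (L a b x y : ℤ) :
    F2_P L a b (x, y) 2 ↔ 0 ≤ y ∧ y ≤ L ∧ L - y + a < x ∧ x ≤ L - y := by simp [F2_P]

theorem F2_P3 (L a b x y : ℤ) : F2_P L a b (x, y) 3 ↔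
    0 ≤ x - a ∧ x - a ≤ L ∧ L - (x - a) + b < y ∧ y ≤ L - (x - a) := by
  simp [F2_P]

theorem F2_div (L : ℕ) (a b : ℤ) (q : ℝ) (x y : ℤ) :
    ∑ i : Fin 4, ((if F2_P L a b ((x, y) - dir i) i then q else 0) -
      (if F2_P L a b (x, y) i then q else 0)) =
      (if 0 ≤ x - a ∧ 0 ≤ y - b ∧ (x - a) + (y - b) = L then q else 0) -
      (if 0 ≤ x ∧ 0 ≤ y ∧ x + y = L then q else 0) := by
  have e0 : ((if F2_P L a b ((x, y) - dir 0) 0 then q else 0) -
      (if F2_P L a b (x, y) 0 then q else 0)) +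
      ((if F2_P L a b ((x, y) - dir 2) 2 then q else 0) -
      (if F2_P L a b (x, y) 2 then q else 0)) =
      (if 0 ≤ x - a ∧ 0 ≤ y ∧ (x - a) + y = L then q else 0) -
      (if 0 ≤ x ∧ 0 ≤ y ∧ x + y = L then q else 0) := by
    have d0 : ((x, y) - dir 0 : ℤ × ℤ) = (x - 1, y) := by simp [dir]
    have d2 : ((x, y) - dir 2 : ℤ × ℤ) = (x + 1, y) := by simp [dir]
    rw [d0, d2]
    simp only [F2_P0, F2_P2]
    split_ifs <;> first | ring1 | (exfalso; omega)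
  have e1 : ((if F2_P L a b ((x, y) - dir 1) 1 then q else 0) -
      (if F2_P L a b (x, y) 1 then q else 0)) +
      ((if F2_P L a b ((x, y) - dir 3) 3 then q else 0) -
      (if F2_P L a b (x, y) 3 then q else 0)) =
      (if 0 ≤ x - a ∧ 0 ≤ y - b ∧ (x - a) + (y - b) = L then q else 0) -
      (if 0 ≤ x - a ∧ 0 ≤ y ∧ (x - a) + y = L then q else 0) := by
    have d1 : ((x, y) - dir 1 : ℤ × ℤ) = (x, y - 1) := by simp [dir]
    have d3 : ((x, y) - dir 3 : ℤ × ℤ) = (x, y + 1) := by simp [dir]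
    rw [d1, d3]
    simp only [F2_P1, F2_P3]
    split_ifs <;> first | ring1 | (exfalso; omega)
  rw [Fin.sum_univ_four]
  linarith

theorem pf_F2 : StF2 := by
  intro L a b
  have hq : (0 : ℝ) < (L : ℝ) + 1 := by positivity
  have hq' : (0 : ℝ) ≤ 1 / ((L : ℝ) + 1) := by positivity
  refine ⟨fun z i => if F2_P L a b z i then 1 / ((L : ℝ) + 1) else 0, ?_, ?_, ?_, ?_, ?_⟩
  · intro z i
    simp only []
    split_ifs
    · exact hq'
    · exact le_rfl
  · intro z i h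
    have hP : F2_P L a b z i := by
      by_contra hn
      exact h (if_neg hn)
    have ha := abs_nonneg a
    have hb := abs_nonneg b
    have ha1 := le_abs_self a
    have ha2 := neg_abs_le a
    have hb1 := le_abs_self b
    have hb2 := neg_abs_le b
    simp only [F2_P] at hP
    constructor <;> rw [abs_le] <;> omega
  · intro z i
    simp only []
    split_ifs
    · exact le_rfl
    · exact hq'
  · intro S
    have h1 : ∑ e ∈ S, (if F2_P L a b e.1 e.2 then 1 / ((L : ℝ) + 1) else 0) ^ 2 =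
        ((S.filter fun e => F2_P L a b e.1 e.2).card : ℝ) * (1 / ((L : ℝ) + 1)) ^ 2 := by
      rw [← nsmul_eq_mul, ← Finset.sum_const, Finset.sum_filter]
      refine Finset.sum_congr rfl fun e _ => ?_
      split_ifs <;> simp
    simp only []
    rw [h1]
    calc _ ≤ (((L : ℝ) + 1) * (|(a : ℝ)| + |(b : ℝ)|)) * (1 / ((L : ℝ) + 1)) ^ 2 :=
          mul_le_mul_of_nonneg_right (F2_card L a b S) (by positivity)
      _ = _ := by field_simp
  · rintro ⟨x, y⟩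
    have := F2_div L a b (1 / ((L : ℝ) + 1)) x y
    simpa only [dvZ, diagZ, Prod.fst_sub, Prod.snd_sub] using this

end DRW
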