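import Pool.Agent.P.MP_de05b4_pr.Basic

namespace DRW

open Finset

/-- nonnegative flow with support radius `R`, energy at most `c` and divergence `g` -/
def F3_Fl (θ : ℤ × ℤ → Fin 4 → ℝ) (R : ℤ) (c : ℝ) (g : ℤ × ℤ → ℝ) : Prop :=
  (∀ z k, 0 ≤ θ z k) ∧ SuppZ θ R ∧ EnZ θ c ∧ ∀ z, dvZ θ z = g z

theorem F3_mono {θ : ℤ × ℤ → Fin 4 → ℝ} {R R' : ℤ} {c c' : ℝ} {g : ℤ × ℤ → ℝ}
    (h : F3_Fl θ R c g) (hR : R ≤ R') (hc : c ≤ c') : F3_Fl θ R' c' g :=
  ⟨h.1, fun z i hz => ⟨(h.2.1 z i hz).1.trans hR, (h.2.1 z i hz).2.trans hR⟩,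
    fun S => (h.2.2.1 S).trans hc, h.2.2.2⟩

theorem F3_en_comp {θ : ℤ × ℤ → Fin 4 → ℝ} {c : ℝ} (h : EnZ θ c) {ι : Type*} (S : Finset ι)
    (φ : ι → (ℤ × ℤ) × Fin 4) (hφ : Function.Injective φ) :
    ∑ e ∈ S, θ (φ e).1 (φ e).2 ^ 2 ≤ c := by
  have := h (S.map ⟨φ, hφ⟩)
  rwa [Finset.sum_map] at this

theorem F3_tr {θ : ℤ × ℤ → Fin 4 → ℝ} {R r : ℤ} {c : ℝ} {g : ℤ × ℤ → ℝ}
    (h : F3_Fl θ R c g) (w : ℤ × ℤ) (h1 : |w.1| ≤ r) (h2 : |w.2| ≤ r) :
    F3_Fl (fun z k => θ (z - w) k) (R + r) c (fun z => g (z - w)) := by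
  refine ⟨fun z k => h.1 _ _, fun z i hz => ?_, fun S => ?_, fun z => ?_⟩
  · have := h.2.1 _ _ hz
    simp only [Prod.fst_sub, Prod.snd_sub, abs_le] at this h1 h2 ⊢
    omega
  · refine F3_en_comp h.2.2.1 S (fun e => (e.1 - w, e.2)) fun a b hab => ?_
    simp only [Prod.mk.injEq, sub_left_inj] at hab
    exact Prod.ext hab.1 hab.2
  · beta_reduce
    rw [← h.2.2.2]
    simp only [dvZ]
    refine Finset.sum_congr rfl fun i _ => ?_
    rw [sub_right_comm]

theorem F3_dir_abs (k : Fin 4) : |(dir k).1| ≤ 1 ∧ |(dir k).2| ≤ 1 := by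
  fin_cases k <;> simp [dir]

theorem F3_rev {θ : ℤ × ℤ → Fin 4 → ℝ} {R : ℤ} {c : ℝ} {g : ℤ × ℤ → ℝ}
    (h : F3_Fl θ R c g) :
    F3_Fl (fun z k => θ (-z - dir k) k) (R + 1) c (fun z => -g (-z)) := by
  refine ⟨fun z k => h.1 _ _, fun z i hz => ?_, fun S => ?_, fun z => ?_⟩
  · have := h.2.1 _ _ hz
    have h1 := F3_dir_abs i
    simp only [Prod.fst_sub, Prod.snd_sub, Prod.fst_neg, Prod.snd_neg, abs_le] at this h1 ⊢
    omega
  · refine F3_en_comp h.2.2.1 S (fun e => (-e.1 - dir e.2, e.2)) fun a b hab => ?_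
    simp only [Prod.mk.injEq] at hab
    obtain ⟨h1, h2⟩ := hab
    rw [h2, sub_left_inj, neg_inj] at h1
    exact Prod.ext h1 h2
  · beta_reduce
    rw [← h.2.2.2]
    simp only [dvZ]
    rw [← Finset.sum_neg_distrib]
    refine Finset.sum_congr rfl fun i _ => ?_
    rw [show -(z - dir i) - dir i = -z by abel]
    ring

theorem F3_add {θ θ' : ℤ × ℤ → Fin 4 → ℝ} {R : ℤ} {c c' : ℝ} {g g' : ℤ × ℤ → ℝ}
    (h : F3_Fl θ R c g) (h' : F3_Fl θ' R c' g') :
    F3_Fl (fun z k => θ z k + θ' z k) R (2 * c + 2 * c') (fun z => g z + g' z) := by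
  refine ⟨fun z k => add_nonneg (h.1 _ _) (h'.1 _ _), fun z i hz => ?_, fun S => ?_, fun z => ?_⟩
  · by_cases h0 : θ z i = 0
    · refine h'.2.1 z i fun h1 => hz ?_
      simp only [h0, h1, add_zero]
    · exact h.2.1 z i h0
  · have a1 := h.2.2.1 S
    have a2 := h'.2.2.1 S
    calc ∑ e ∈ S, (θ e.1 e.2 + θ' e.1 e.2) ^ 2
        ≤ ∑ e ∈ S, (2 * θ e.1 e.2 ^ 2 + 2 * θ' e.1 e.2 ^ 2) :=
          Finset.sum_le_sum fun e _ => by nlinarith [sq_nonneg (θ e.1 e.2 - θ' e.1 e.2)]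
      _ = 2 * ∑ e ∈ S, θ e.1 e.2 ^ 2 + 2 * ∑ e ∈ S, θ' e.1 e.2 ^ 2 := by
          rw [Finset.sum_add_distrib, Finset.mul_sum, Finset.mul_sum]
      _ ≤ _ := by linarith
  · beta_reduce
    rw [← h.2.2.2, ← h'.2.2.2]
    simp only [dvZ]
    rw [← Finset.sum_add_distrib]
    exact Finset.sum_congr rfl fun i _ => by ring

theorem F3_avg {ι : Type*} (I : Finset ι) (hI : I.Nonempty) {θ : ι → ℤ × ℤ → Fin 4 → ℝ} {R : ℤ}
    {c : ℝ} {g : ℤ × ℤ → ℝ} (h : ∀ t ∈ I, F3_Fl (θ t) R c g) :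
    F3_Fl (fun z k => (∑ t ∈ I, θ t z k) / I.card) R c g := by
  have hc : (0 : ℝ) < I.card := by exact_mod_cast hI.card_pos
  refine ⟨fun z k => div_nonneg (Finset.sum_nonneg fun t ht => (h t ht).1 _ _) hc.le,
    fun z i hz => ?_, fun S => ?_, fun z => ?_⟩
  · have : ∑ t ∈ I, θ t z i ≠ 0 := fun h0 => hz (by simp only [h0, zero_div])
    obtain ⟨t, ht, h1⟩ := Finset.exists_ne_zero_of_sum_ne_zero this
    exact (h t ht).2.1 z i h1
  · calc ∑ e ∈ S, ((∑ t ∈ I, θ t e.1 e.2) / I.card) ^ 2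
        ≤ ∑ e ∈ S, (∑ t ∈ I, θ t e.1 e.2 ^ 2) / I.card := by
          refine Finset.sum_le_sum fun e _ => ?_
          rw [div_pow, div_le_div_iff₀ (by positivity) hc]
          have := sq_sum_le_card_mul_sum_sq (s := I) (f := fun t => θ t e.1 e.2)
          nlinarith
      _ = (∑ t ∈ I, ∑ e ∈ S, θ t e.1 e.2 ^ 2) / I.card := by
          rw [← Finset.sum_div, Finset.sum_comm]
      _ ≤ (∑ t ∈ I, c) / I.card := by
          gcongr with t ht
          exact (h t ht).2.2.1 S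
      _ = c := by
          rw [Finset.sum_const, nsmul_eq_mul]; field_simp
  · calc dvZ (fun z k => (∑ t ∈ I, θ t z k) / I.card) z
        = (∑ t ∈ I, dvZ (θ t) z) / I.card := by
          simp only [dvZ]
          rw [Finset.sum_comm, Finset.sum_div]
          refine Finset.sum_congr rfl fun i _ => ?_
          rw [Finset.sum_sub_distrib, sub_div]
      _ = (∑ t ∈ I, g z) / I.card := by
          rw [Finset.sum_congr rfl fun t ht => (h t ht).2.2.2 z]
      _ = g z := by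
          rw [Finset.sum_const, nsmul_eq_mul]; field_simp

theorem F3_inj (i : Fin 4) {r s : ℕ} (h : (r : ℤ) • dir i = (s : ℤ) • dir i) : r = s := by
  fin_cases i <;> simp [dir] at h <;> omega

theorem F3_smul_abs (i : Fin 4) (r : ℕ) :
    |((r : ℤ) • dir i).1| ≤ r ∧ |((r : ℤ) • dir i).2| ≤ r := by
  fin_cases i <;> simp [dir]

/-- the straight path with `n` steps in direction `i` from the origin -/
def F3_P (i : Fin 4) (n : ℕ) (z : ℤ × ℤ) (k : Fin 4) : ℝ :=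
  ∑ r ∈ range n, if (z, k) = ((r : ℤ) • dir i, i) then 1 else 0

theorem F3_P_le (i : Fin 4) (n : ℕ) (z : ℤ × ℤ) (k : Fin 4) :
    F3_P i n z k ≤ if LineZ 0 i z k then 1 else 0 := by
  unfold F3_P
  rw [Finset.sum_boole]
  split_ifs with hl
  · have : ((range n).filter fun r : ℕ => (z, k) = ((r : ℤ) • dir i, i)).card ≤ 1 := by
      refine Finset.card_le_one.2 fun a ha b hb => F3_inj i ?_
      have h1 := (Finset.mem_filter.1 ha).2
      have h2 := (Finset.mem_filter.1 hb).2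
      exact (Prod.ext_iff.1 (h1.symm.trans h2)).1
    exact_mod_cast this
  · have : ((range n).filter fun r : ℕ => (z, k) = ((r : ℤ) • dir i, i)) = ∅ := by
      refine Finset.filter_eq_empty_iff.2 fun r _ hr => hl ?_
      obtain ⟨rfl, rfl⟩ := Prod.mk.inj hr
      refine ⟨rfl, ?_⟩
      fin_cases k <;> simp [dir]
    rw [this]; simp

theorem F3_P_fl (i : Fin 4) (n : ℕ) : F3_Fl (F3_P i n) n n
    (fun z => (if z = (n : ℤ) • dir i then 1 else 0) - if z = 0 then 1 else 0) := by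
  have h0 : ∀ z k, 0 ≤ F3_P i n z k := fun z k =>
    Finset.sum_nonneg fun r _ => by split_ifs <;> norm_num
  refine ⟨h0, fun z k hz => ?_, fun S => ?_, fun z => ?_⟩
  · obtain ⟨r, hr, h1⟩ := Finset.exists_ne_zero_of_sum_ne_zero hz
    have h2 : (z, k) = ((r : ℤ) • dir i, i) := by
      by_contra h; exact h1 (if_neg h)
    obtain ⟨rfl, rfl⟩ := Prod.mk.inj h2
    have h3 := F3_smul_abs k r
    have h4 : (r : ℤ) ≤ n := by exact_mod_cast (Finset.mem_range.1 hr).le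
    exact ⟨h3.1.trans h4, h3.2.trans h4⟩
  · calc ∑ e ∈ S, F3_P i n e.1 e.2 ^ 2 ≤ ∑ e ∈ S, F3_P i n e.1 e.2 := by
          refine Finset.sum_le_sum fun e _ => ?_
          have a := h0 e.1 e.2
          have b : F3_P i n e.1 e.2 ≤ 1 :=
            (F3_P_le i n e.1 e.2).trans (by split_ifs <;> norm_num)
          nlinarith
      _ = ∑ r ∈ range n, ∑ e ∈ S, if e = ((r : ℤ) • dir i, i) then (1 : ℝ) else 0 := by
          unfold F3_P; rw [Finset.sum_comm]
      _ ≤ ∑ r ∈ range n, (1 : ℝ) := by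
          refine Finset.sum_le_sum fun r _ => ?_
          rw [Finset.sum_ite_eq']
          split_ifs <;> norm_num
      _ = n := by simp
  · have key : dvZ (F3_P i n) z = ∑ r ∈ range n,
        ((if z = ((r + 1 : ℕ) : ℤ) • dir i then (1 : ℝ) else 0) -
          if z = ((r : ℕ) : ℤ) • dir i then 1 else 0) := by
      simp only [dvZ, F3_P, ← Finset.sum_sub_distrib]
      rw [Finset.sum_comm]
      refine Finset.sum_congr rfl fun r _ => ?_
      rw [Finset.sum_eq_single i]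
      · simp only [Prod.mk.injEq, and_true, sub_eq_iff_eq_add, Nat.cast_succ, add_smul, one_smul]
      · intro k _ hk
        simp [hk]
      · simp
    rw [key, Finset.sum_range_sub fun r : ℕ => if z = ((r : ℕ) : ℤ) • dir i then (1 : ℝ) else 0]
    simp

theorem F3_cs {θ : ℤ × ℤ → Fin 4 → ℝ} {c δ : ℝ} (h : EnZ θ c) (D : ℕ) (hδ : 0 ≤ δ)
    (hD : c ≤ D * δ ^ 2) (w : ℕ → ℤ × ℤ) (hw : Function.Injective w) (k : Fin 4) :
    ∑ t ∈ range D, θ (w t) k ≤ D * δ := by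
  have h1 := F3_en_comp h (range D) (fun t => (w t, k)) fun a b hab => hw (Prod.ext_iff.1 hab).1
  have h2 := sq_sum_le_card_mul_sum_sq (s := range D) (f := fun t => θ (w t) k)
  rw [Finset.card_range] at h2
  have hD0 : (0 : ℝ) ≤ D := Nat.cast_nonneg D
  refine le_of_sq_le_sq ?_ (by positivity)
  calc _ ≤ _ := h2
    _ ≤ D * (D * δ ^ 2) := mul_le_mul_of_nonneg_left (h1.trans hD) hD0
    _ = _ := by ring

theorem F3_diag (L : ℕ) (y : ℤ × ℤ) : diagZ L (y + ((L : ℤ), (L : ℤ))) = diagZ L (-y) := by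
  unfold diagZ
  refine if_congr ?_ rfl rfl
  simp only [Prod.fst_add, Prod.snd_add, Prod.fst_neg, Prod.snd_neg]
  omega

theorem F3_line (q : ℤ × ℤ) (j : Fin 4) (s : ℕ) (z : ℤ × ℤ) (k : Fin 4)
    (h : LineZ 0 j (z - (q - (s : ℤ) • dir j)) k) : LineZ q j z k := by
  refine ⟨h.1, ?_⟩
  have := h.2
  fin_cases j <;> simp [dir] at this ⊢ <;> omega

theorem F3_main (h1 : StF1) (h2 : StF2) {δ K : ℝ} (hδ : 0 ≤ δ) (L D m : ℕ) (hD : 0 < D)
    (hL : 1 / ((L : ℝ) + 1) ≤ δ) (hE : 1 + Real.log (L + 1) ≤ D * δ ^ 2)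
    (k1 : 1 + Real.log (L + 1) ≤ K) (k2 : (D : ℝ) ≤ K)
    (k3 : 2 * ((m : ℝ) + 2 * D + L) ≤ K * ((L : ℝ) + 1)) (q : ℤ × ℤ) (ha : |q.1| ≤ m)
    (hb : |q.2| ≤ m) (i j : Fin 4) :
    ∃ θ : ℤ × ℤ → Fin 4 → ℝ, F3_Fl θ (3 * L + 2 * m + 5 * D + 1) (46 * K)
      (fun z => (if z = q then 1 else 0) - if z = 0 then 1 else 0) ∧
      ∀ z k, θ z k ≤ (if LineZ 0 i z k then 1 else 0) + (if LineZ q j z k then 1 else 0) + 3 * δ := by
  obtain ⟨O, o1, o2, o3, o4⟩ := h1 L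
  have hO : F3_Fl O L (1 + Real.log (L + 1)) _ := ⟨o1, o2, o3, o4⟩
  have hI := F3_rev hO
  choose M m1 m2 m3 m4 m5 using h2 L
  set u : ℕ × ℕ → ℤ × ℤ := fun p =>
    q - (p.2 : ℤ) • dir j - ((L : ℤ), (L : ℤ)) - (p.1 : ℤ) • dir i with hu
  set Θ : ℕ × ℕ → ℤ × ℤ → Fin 4 → ℝ := fun p z k =>
    F3_P i p.1 z k + O (z - (p.1 : ℤ) • dir i) k + M (u p).1 (u p).2 (z - (p.1 : ℤ) • dir i) k +
      O (-(z - (q - (p.2 : ℤ) • dir j)) - dir k) k + F3_P j p.2 (z - (q - (p.2 : ℤ) • dir j)) k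
    with hΘ
  have hne : (range D ×ˢ range D).Nonempty :=
    ⟨(0, 0), Finset.mem_product.2 ⟨Finset.mem_range.2 hD, Finset.mem_range.2 hD⟩⟩
  refine ⟨fun z k => (∑ p ∈ range D ×ˢ range D, Θ p z k) / (range D ×ˢ range D).card,
    F3_avg _ hne fun p hp => ?_, fun z k => ?_⟩
  · obtain ⟨t, s⟩ := p
    have ht : t < D := Finset.mem_range.1 (Finset.mem_product.1 hp).1
    have hs : s < D := Finset.mem_range.1 (Finset.mem_product.1 hp).2
    have a1 := F3_smul_abs i t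
    have a2 := F3_smul_abs j s
    have b1 : |(q - (s : ℤ) • dir j).1| ≤ m + s := by
      rw [Prod.fst_sub]; exact (abs_sub _ _).trans (add_le_add ha a2.1)
    have b2 : |(q - (s : ℤ) • dir j).2| ≤ m + s := by
      rw [Prod.snd_sub]; exact (abs_sub _ _).trans (add_le_add hb a2.2)
    have c1 : |(u (t, s)).1| ≤ m + 2 * D + L := by
      have e : (u (t, s)).1 = (q - (s : ℤ) • dir j).1 - L - ((t : ℤ) • dir i).1 := rfl
      rw [e]
      have := a1.1
      rw [abs_le] at this b1 ⊢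
      omega
    have c2 : |(u (t, s)).2| ≤ m + 2 * D + L := by
      have e : (u (t, s)).2 = (q - (s : ℤ) • dir j).2 - L - ((t : ℤ) • dir i).2 := rfl
      rw [e]
      have := a1.2
      rw [abs_le] at this b2 ⊢
      omega
    have tK : (t : ℝ) ≤ K := le_trans (by exact_mod_cast ht.le) k2
    have sK : (s : ℝ) ≤ K := le_trans (by exact_mod_cast hs.le) k2
    have mK : (|((u (t, s)).1 : ℝ)| + |((u (t, s)).2 : ℝ)|) / ((L : ℝ) + 1) ≤ K := by
      rw [div_le_iff₀ (by positivity)]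
      have d1 : |((u (t, s)).1 : ℝ)| ≤ m + 2 * D + L := by exact_mod_cast c1
      have d2 : |((u (t, s)).2 : ℝ)| ≤ m + 2 * D + L := by exact_mod_cast c2
      linarith
    have hM : F3_Fl (M (u (t, s)).1 (u (t, s)).2) _ _ _ := ⟨m1 _ _, m2 _ _, m4 _ _, m5 _ _⟩
    have f1 := F3_mono (R' := 3 * L + 2 * m + 5 * D + 1) (F3_P_fl i t) (by omega) tK
    have f2 := F3_mono (R' := 3 * L + 2 * m + 5 * D + 1) (F3_tr hO _ a1.1 a1.2) (by omega) k1
    have f3 := F3_mono (R' := 3 * L + 2 * m + 5 * D + 1) (F3_tr hM _ a1.1 a1.2) (by omega) mK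
    have f4 := F3_mono (R' := 3 * L + 2 * m + 5 * D + 1) (F3_tr hI _ b1 b2) (by omega) k1
    have f5 := F3_mono (R' := 3 * L + 2 * m + 5 * D + 1) (F3_tr (F3_P_fl j s) _ b1 b2)
      (by omega) sK
    have f := F3_add (F3_add (F3_add (F3_add f1 f2) f3) f4) f5
    refine ⟨f.1, f.2.1, fun S => (f.2.2.1 S).trans (le_of_eq (by ring)), fun z => ?_⟩
    refine (f.2.2.2 z).trans ?_
    have e1 : z - (t : ℤ) • dir i - ((u (t, s)).1, (u (t, s)).2) =
        (z - (q - (s : ℤ) • dir j)) + ((L : ℤ), (L : ℤ)) := by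
      show z - (t : ℤ) • dir i - u (t, s) = _
      simp only [hu]; abel
    have e2 : (z - (q - (s : ℤ) • dir j) = (s : ℤ) • dir j) ↔ z = q := by
      rw [sub_eq_iff_eq_add, add_sub_cancel]
    simp only [e1, F3_diag, e2, sub_eq_zero, neg_eq_zero]
    ring
  · have hD' : (0 : ℝ) < D := by exact_mod_cast hD
    rw [Finset.card_product, Finset.card_range, div_le_iff₀ (by push_cast; positivity)]
    have s1 := F3_cs o3 D hδ hE (fun t => z - (t : ℤ) • dir i)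
      (fun a b hab => F3_inj i (sub_right_injective hab)) k
    have s2 := F3_cs o3 D hδ hE (fun s => -(z - (q - (s : ℤ) • dir j)) - dir k)
      (fun a b hab => F3_inj j (by
        simp only [sub_left_inj, neg_inj, sub_right_inj] at hab; exact hab)) k
    set A : ℝ := if LineZ 0 i z k then 1 else 0
    set B : ℝ := if LineZ q j z k then 1 else 0 with hB
    calc ∑ p ∈ range D ×ˢ range D, Θ p z k
        ≤ ∑ p ∈ range D ×ˢ range D, ((A + B + δ) + O (z - (p.1 : ℤ) • dir i) k +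
            O (-(z - (q - (p.2 : ℤ) • dir j)) - dir k) k) := by
          refine Finset.sum_le_sum fun p _ => ?_
          have b1 : F3_P i p.1 z k ≤ A := F3_P_le i p.1 z k
          have b2 := (m3 (u p).1 (u p).2 (z - (p.1 : ℤ) • dir i) k).trans hL
          have b3 : F3_P j p.2 (z - (q - (p.2 : ℤ) • dir j)) k ≤ B := by
            refine (F3_P_le _ _ _ _).trans ?_
            rw [hB]
            split_ifs with g1 g2 g2
            · exact le_rfl
            · exact absurd (F3_line q j p.2 z k g1) g2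
            · norm_num
            · exact le_rfl
          simp only [hΘ]
          linarith
      _ = D * D * (A + B + δ) + D * ∑ t ∈ range D, O (z - (t : ℤ) • dir i) k +
            D * ∑ s ∈ range D, O (-(z - (q - (s : ℤ) • dir j)) - dir k) k := by
          rw [Finset.sum_add_distrib, Finset.sum_add_distrib, Finset.sum_const, Finset.sum_product,
            Finset.sum_product, Finset.card_product, Finset.card_range]
          simp only [Finset.sum_const, Finset.card_range, nsmul_eq_mul, ← Finset.mul_sum]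
          push_cast; ring
      _ ≤ D * D * (A + B + δ) + D * (D * δ) + D * (D * δ) := by gcongr
      _ = _ := by push_cast; ring

theorem pf_F3 (h1 : StF1) (h2 : StF2) : StF3 := by
  intro ε hε
  obtain ⟨C1, hC1⟩ := exists_nat_ge (3 / ε)
  have hC1p : (0 : ℝ) < C1 := lt_of_lt_of_le (by positivity) hC1
  have hC11 : (1 : ℝ) ≤ C1 := by
    have : 0 < C1 := by exact_mod_cast hC1p
    exact_mod_cast this
  have hεC : 3 ≤ ε * C1 := by rw [div_le_iff₀ hε] at hC1; linarith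
  obtain ⟨C3, hC3⟩ : ∃ C3 : ℕ, C3 = C1 ^ 2 * (3 + 2 * C1) + 4 := ⟨_, rfl⟩
  have hC3' : (C3 : ℝ) = C1 ^ 2 * (3 + 2 * C1) + 4 := by rw [hC3]; push_cast; ring
  refine ⟨46 * (4 + 8 * C3 + 4 * C1), fun m hm a b ha hb i j => ?_⟩
  have hm2 : (2 : ℝ) ≤ m := by exact_mod_cast hm
  have hlog : 1 / 2 ≤ Real.log m := by
    have := Real.log_two_gt_d9
    have := Real.log_le_log (by norm_num) hm2
    linarith
  have hlogm : Real.log m ≤ m := (Real.log_le_sub_one_of_pos (by linarith)).trans (by linarith)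
  obtain ⟨L, hL⟩ : ∃ L : ℕ, L = C1 * m := ⟨_, rfl⟩
  have hL' : (L : ℝ) = C1 * m := by rw [hL]; push_cast; ring
  have hEn : 1 + Real.log (L + 1) ≤ (3 + 2 * C1) * Real.log m := by
    have a1 : Real.log (L + 1) ≤ Real.log ((C1 + 1) * m) :=
      Real.log_le_log (by positivity) (by rw [hL']; nlinarith)
    rw [Real.log_mul (by positivity) (by positivity)] at a1
    have a2 := Real.log_le_sub_one_of_pos (show (0 : ℝ) < C1 + 1 by positivity)
    nlinarith
  have hEn0 : 0 ≤ 1 + Real.log (L + 1) := by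
    have := Real.log_nonneg (show (1 : ℝ) ≤ L + 1 by linarith [Nat.cast_nonneg (α := ℝ) L])
    linarith
  obtain ⟨D, hD⟩ : ∃ D : ℕ, D = ⌈(C1 : ℝ) ^ 2 * (1 + Real.log (L + 1))⌉₊ + 1 := ⟨_, rfl⟩
  have d1 : (C1 : ℝ) ^ 2 * (1 + Real.log (L + 1)) ≤ D := by
    rw [hD]; push_cast; linarith [Nat.le_ceil ((C1 : ℝ) ^ 2 * (1 + Real.log (L + 1)))]
  have d2 : (D : ℝ) ≤ C3 * Real.log m := by
    have a1 := Nat.ceil_lt_add_one (show 0 ≤ (C1 : ℝ) ^ 2 * (1 + Real.log (L + 1)) by positivity)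
    have a2 := mul_le_mul_of_nonneg_left hEn (show (0 : ℝ) ≤ C1 ^ 2 by positivity)
    rw [hD, hC3']; push_cast; nlinarith
  have hC30 : (0 : ℝ) ≤ C3 := Nat.cast_nonneg _
  have d3 : (D : ℝ) ≤ C3 * m := d2.trans (mul_le_mul_of_nonneg_left hlogm hC30)
  have hC23 : (3 + 2 * C1 : ℝ) ≤ C3 := by rw [hC3']; nlinarith
  obtain ⟨θ, ⟨t1, t2, t3, t4⟩, t5⟩ := F3_main h1 h2 (δ := ε / 3)
    (K := (4 + 8 * C3 + 4 * C1) * Real.log m) (by positivity) L D m (by omega)
    (by rw [div_le_iff₀ (by positivity), hL']; nlinarith)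
    (by
      have a1 : (1 : ℝ) ≤ C1 ^ 2 * (ε / 3) ^ 2 := by nlinarith
      calc 1 + Real.log (L + 1) ≤ (C1 ^ 2 * (ε / 3) ^ 2) * (1 + Real.log (L + 1)) :=
            le_mul_of_one_le_left hEn0 a1
        _ = (C1 ^ 2 * (1 + Real.log (L + 1))) * (ε / 3) ^ 2 := by ring
        _ ≤ _ := by gcongr)
    (hEn.trans (mul_le_mul_of_nonneg_right (by linarith) (by linarith)))
    (d2.trans (mul_le_mul_of_nonneg_right (by linarith) (by linarith)))
    (by
      have a1 : (m : ℝ) ≤ L + 1 := by rw [hL']; nlinarith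
      have a2 : (2 + 4 * C3 + 2 * C1 : ℝ) ≤ (4 + 8 * C3 + 4 * C1) * Real.log m := by nlinarith
      calc 2 * ((m : ℝ) + 2 * D + L) ≤ (2 + 4 * C3 + 2 * C1) * m := by rw [hL']; nlinarith
        _ ≤ _ := mul_le_mul a2 a1 (by positivity) (by positivity))
    (a, b) ha hb i j
  refine ⟨θ, t1, fun z k hz => ?_, fun S => (t3 S).trans (le_of_eq (by push_cast; ring)), t4,
    fun z k => (t5 z k).trans (le_of_eq (by ring))⟩
  have hR : (3 * L + 2 * m + 5 * D + 1 : ℤ) ≤ ((46 * (4 + 8 * C3 + 4 * C1) : ℕ) : ℤ) * m := by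
    have : (3 * L + 2 * m + 5 * D + 1 : ℝ) ≤ ((46 * (4 + 8 * C3 + 4 * C1) : ℕ) : ℝ) * m := by
      push_cast; rw [hL']; nlinarith
    exact_mod_cast this
  exact ⟨(t2 z k hz).1.trans hR, (t2 z k hz).2.trans hR⟩

end DRW
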