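import Pool.Agent.P.MP_de05b4_pr.Basic

/-! Push forward of a finitely supported lattice flow to the torus. -/

namespace DRW

open MeasureTheory ProbabilityTheory Finset Filter
open scoped ENNReal Topology

noncomputable def Flow_box (R : ℤ) : Finset (ℤ × ℤ) := Icc (-R) R ×ˢ Icc (-R) R

theorem Flow_mem {R : ℤ} {z : ℤ × ℤ} : z ∈ Flow_box R ↔ |z.1| ≤ R ∧ |z.2| ≤ R := by
  unfold Flow_box
  rw [Finset.mem_product, Finset.mem_Icc, Finset.mem_Icc, abs_le, abs_le]

theorem Flow_dir_abs (i : Fin 4) : |(dir i).1| ≤ 1 ∧ |(dir i).2| ≤ 1 := by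
  fin_cases i <;> simp [dir]

theorem Flow_cast_inj {N : ℕ} {R u v : ℤ} (hR : 2 * R < N) (hu : |u| ≤ R) (hv : |v| ≤ R)
    (h : (u : ZMod N) = (v : ZMod N)) : u = v := by
  rw [ZMod.intCast_eq_intCast_iff_dvd_sub] at h
  have h0 : v - u = 0 := by
    refine Int.eq_zero_of_abs_lt_dvd h ?_
    rw [abs_le] at hu hv
    rw [abs_lt]
    constructor <;> linarith [hu.1, hu.2, hv.1, hv.2]
  linarith

theorem Flow_inj {N : ℕ} {R : ℤ} (hR : 2 * R < N) (p : T N) {z w : ℤ × ℤ}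
    (hz : z ∈ Flow_box R) (hw : w ∈ Flow_box R)
    (h : p + cz N z.1 z.2 = p + cz N w.1 w.2) : z = w := by
  rw [Flow_mem] at hz hw
  have h' := add_left_cancel h
  unfold cz at h'
  rw [Prod.mk.injEq] at h'
  exact Prod.ext (Flow_cast_inj hR hz.1 hw.1 h'.1) (Flow_cast_inj hR hz.2 hw.2 h'.2)

/-- summation by parts on the lattice -/
theorem Flow_parts {θ : ℤ × ℤ → Fin 4 → ℝ} {R R' : ℤ} (hs : SuppZ θ R) (hR : R + 1 ≤ R')
    (g : ℤ × ℤ → ℝ) :
    ∑ i, ∑ z ∈ Flow_box R, (g (z + dir i) * θ z i - g z * θ z i)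
      = ∑ z ∈ Flow_box R', g z * dvZ θ z := by
  have hz0 : ∀ z i, z ∉ Flow_box R → θ z i = 0 := fun z i hz => by
    by_contra h
    exact hz (Flow_mem.mpr (hs z i h))
  unfold dvZ
  simp only [Finset.mul_sum]
  rw [Finset.sum_comm (s := Flow_box R')]
  refine Finset.sum_congr rfl fun i _ => ?_
  simp only [mul_sub]
  rw [Finset.sum_sub_distrib, Finset.sum_sub_distrib]
  have h1 : ∑ z ∈ Flow_box R, g z * θ z i = ∑ z ∈ Flow_box R', g z * θ z i := by
    refine Finset.sum_subset (fun z hz => ?_) fun z _ hz => by rw [hz0 z i hz, mul_zero]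
    rw [Flow_mem] at hz ⊢
    exact ⟨by linarith [hz.1], by linarith [hz.2]⟩
  have h2 : ∑ z ∈ Flow_box R, g (z + dir i) * θ z i
      = ∑ z ∈ (Flow_box R).map (Equiv.addRight (dir i)).toEmbedding, g z * θ (z - dir i) i := by
    rw [Finset.sum_map]
    refine Finset.sum_congr rfl fun z _ => ?_
    simp
  rw [h1, h2]
  congr 1
  refine Finset.sum_subset (fun z hz => ?_) fun z _ hz => ?_
  · rw [Finset.mem_map] at hz
    obtain ⟨w, hw, rfl⟩ := hz
    rw [Flow_mem] at hw ⊢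
    have hd := Flow_dir_abs i
    have e1 : ((Equiv.addRight (dir i)).toEmbedding w).1 = w.1 + (dir i).1 := rfl
    have e2 : ((Equiv.addRight (dir i)).toEmbedding w).2 = w.2 + (dir i).2 := rfl
    rw [e1, e2]
    exact ⟨by linarith [abs_add_le w.1 (dir i).1, hw.1, hd.1],
      by linarith [abs_add_le w.2 (dir i).2, hw.2, hd.2]⟩
  · have : z - dir i ∉ Flow_box R := fun h => hz (Finset.mem_map.mpr ⟨z - dir i, h, by simp⟩)
    rw [hz0 _ i this, mul_zero]

/-- the push forward -/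
noncomputable def Flow_push (N : ℕ) (p : T N) (R : ℤ) (θ : ℤ × ℤ → Fin 4 → ℝ) : E N → ℝ :=
  fun e => ∑ z ∈ Flow_box R, if p + cz N z.1 z.2 = e.1 then θ z e.2 else 0

theorem Flow_push_at {N : ℕ} {R : ℤ} (hR : 2 * R < N) (p : T N) (θ : ℤ × ℤ → Fin 4 → ℝ)
    {z : ℤ × ℤ} (hz : z ∈ Flow_box R) (k : Fin 4) :
    Flow_push N p R θ (p + cz N z.1 z.2, k) = θ z k := by
  unfold Flow_push
  rw [Finset.sum_eq_single_of_mem z hz]
  · rw [if_pos rfl]
  · intro w hw hne
    rw [if_neg]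
    exact fun h => hne (Flow_inj hR p hw hz h)

theorem Flow_push_off {N : ℕ} {R : ℤ} (p : T N) (θ : ℤ × ℤ → Fin 4 → ℝ) {e : E N}
    (h : ∀ z ∈ Flow_box R, p + cz N z.1 z.2 ≠ e.1) : Flow_push N p R θ e = 0 := by
  unfold Flow_push
  exact Finset.sum_eq_zero fun z hz => if_neg (h z hz)

theorem Flow_push_sq {N : ℕ} {R : ℤ} (hR : 2 * R < N) (p : T N) (θ : ℤ × ℤ → Fin 4 → ℝ)
    (e : E N) : Flow_push N p R θ e ^ 2 = Flow_push N p R (fun z k => θ z k ^ 2) e := by
  by_cases h : ∃ z ∈ Flow_box R, p + cz N z.1 z.2 = e.1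
  · obtain ⟨z, hz, he⟩ := h
    have : e = (p + cz N z.1 z.2, e.2) := Prod.ext he.symm rfl
    rw [this, Flow_push_at hR p θ hz, Flow_push_at hR p _ hz]
  · have h' : ∀ z ∈ Flow_box R, p + cz N z.1 z.2 ≠ e.1 := fun z hz he => h ⟨z, hz, he⟩
    rw [Flow_push_off p θ h', Flow_push_off p _ h']
    norm_num

theorem Flow_push_sum {N : ℕ} [NeZero N] {R : ℤ} (p : T N) (θ : ℤ × ℤ → Fin 4 → ℝ) :
    ∑ e, Flow_push N p R θ e = ∑ e ∈ Flow_box R ×ˢ (univ : Finset (Fin 4)), θ e.1 e.2 := by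
  unfold Flow_push
  rw [Finset.sum_comm, Finset.sum_product]
  refine Finset.sum_congr rfl fun z _ => ?_
  rw [Fintype.sum_prod_type_right]
  refine Finset.sum_congr rfl fun k _ => ?_
  simp

theorem Flow_push_dv {N : ℕ} {R R' : ℤ} (p : T N) {θ : ℤ × ℤ → Fin 4 → ℝ} (hs : SuppZ θ R)
    (hR : R + 1 ≤ R') (y : T N) :
    dv (Flow_push N p R θ) y
      = ∑ z ∈ Flow_box R', (if p + cz N z.1 z.2 = y then (1 : ℝ) else 0) * dvZ θ z := by
  rw [← Flow_parts hs hR]
  unfold dv inw Zs Flow_push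
  rw [← Finset.sum_sub_distrib]
  refine Finset.sum_congr rfl fun i _ => ?_
  rw [← Finset.sum_sub_distrib]
  refine Finset.sum_congr rfl fun z _ => ?_
  have e1 : cz N (z + dir i).1 (z + dir i).2 = cz N z.1 z.2 + dr N i := by
    rw [← cz_dir, ← cz_add]; rfl
  have e2 : (p + cz N z.1 z.2 = y - dr N i) ↔ (p + (cz N z.1 z.2 + dr N i) = y) := by
    rw [eq_sub_iff_add_eq, add_assoc]
  simp only [e1, e2, ite_mul, one_mul, zero_mul]

theorem Flow_line {N : ℕ} (p : T N) {q z : ℤ × ℤ} {i k : Fin 4} (h : LineZ q i z k) :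
    Line (p + cz N q.1 q.2) i (p + cz N z.1 z.2, k) := by
  unfold LineZ at h
  unfold Line
  refine ⟨h.1, ?_⟩
  have h2 := h.2
  split_ifs at h2 ⊢ with hi
  · simp [cz, h2]
  · simp [cz, h2]

theorem Flow_ite_le {P Q : Prop} [Decidable P] [Decidable Q] (h : P → Q) :
    (if P then (1 : ℝ) else 0) ≤ if Q then 1 else 0 := by
  by_cases hP : P
  · rw [if_pos hP, if_pos (h hP)]
  · rw [if_neg hP]; split_ifs <;> norm_num

theorem pf_Flow (h : StF3) : StFlow := by
  intro ε hε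
  obtain ⟨C, hC⟩ := h ε hε
  refine ⟨2 * C + 1, fun N _ m hm hN p a b ha hb i j => ?_⟩
  obtain ⟨θ, h0, hs, hE, hd, hb'⟩ := hC m hm a b ha hb i j
  have hR : 2 * ((C : ℤ) * m) < N := by
    have h1 : (((2 * C + 1) * m : ℕ) : ℤ) ≤ N := by exact_mod_cast hN
    have h2 : (2 : ℤ) ≤ m := by exact_mod_cast hm
    push_cast at h1
    nlinarith
  have hCm : (0 : ℤ) ≤ (C : ℤ) * m := by positivity
  have hm0 : (0 : ℤ) ≤ m := by positivity
  have hp0 : p + cz N 0 0 = p := by simp [cz]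
  refine ⟨Flow_push N p (C * m) θ, fun e => ?_, ?_, fun y => ?_, fun e => ?_⟩
  · unfold Flow_push
    refine Finset.sum_nonneg fun z _ => ?_
    split_ifs
    · exact h0 _ _
    · exact le_rfl
  · simp only [Flow_push_sq hR]
    rw [Flow_push_sum]
    refine (hE _).trans ?_
    have hl : 0 ≤ Real.log m := Real.log_natCast_nonneg m
    have hc : (0 : ℝ) ≤ C := by positivity
    push_cast
    nlinarith
  · rw [Flow_push_dv p hs (R' := C * m + m + 1) (by linarith) y]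
    simp only [hd, mul_sub, Finset.sum_sub_distrib, mul_ite, mul_one, mul_zero]
    have m1 : ((a, b) : ℤ × ℤ) ∈ Flow_box (C * m + m + 1) :=
      Flow_mem.mpr ⟨by linarith, by linarith⟩
    have m2 : (0 : ℤ × ℤ) ∈ Flow_box (C * m + m + 1) :=
      Flow_mem.mpr ⟨by simp; linarith, by simp; linarith⟩
    rw [Finset.sum_ite_eq' _ ((a, b) : ℤ × ℤ), Finset.sum_ite_eq' _ (0 : ℤ × ℤ), if_pos m1,
      if_pos m2]
    unfold ind
    simp only [Finset.mem_singleton, Prod.fst_zero, Prod.snd_zero, hp0, eq_comm (a := y)]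
  · by_cases hz : ∃ z ∈ Flow_box (C * m), p + cz N z.1 z.2 = e.1
    · obtain ⟨z, hz, he⟩ := hz
      have : e = (p + cz N z.1 z.2, e.2) := Prod.ext he.symm rfl
      rw [this, Flow_push_at hR p θ hz]
      refine (hb' z e.2).trans ?_
      have l1 : LineZ 0 i z e.2 → Line p i (p + cz N z.1 z.2, e.2) := fun hl => by
        have := Flow_line p hl
        rwa [Prod.fst_zero, Prod.snd_zero, hp0] at this
      have l2 : LineZ (a, b) j z e.2 → Line (p + cz N a b) j (p + cz N z.1 z.2, e.2) :=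
        fun hl => Flow_line p hl
      linarith [Flow_ite_le l1, Flow_ite_le l2]
    · rw [Flow_push_off p θ fun z hz' he => hz ⟨z, hz', he⟩]
      have : ∀ (P : Prop) [Decidable P], (0 : ℝ) ≤ if P then 1 else 0 := fun P _ => by
        split_ifs <;> norm_num
      linarith [this (Line p i e), this (Line (p + cz N a b) j e)]

end DRW
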