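import Pool.Agent.P.MP_de05b4_pr.Basic

/-! The escape bound with `k` sinks at polynomial cost in the scale. -/

namespace DRW

open MeasureTheory ProbabilityTheory Finset Filter
open scoped ENNReal Topology

theorem Gt0_meas {N : ℕ} [NeZero N] (K : ℕ) (x : T N) {k : ℕ} (z : Fin k → T N) (c₁ lam : ℝ) :
    MeasurableSet {G : E N → ℝ | esc 0 K x G ≤ lam ∧ ∀ l, c₁ ≤ 1 - gx 0 K x G (z l)} := by
  have h1 : MeasurableSet {G : E N → ℝ | esc 0 K x G ≤ lam} :=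
    measurableSet_le (measurable_esc 0 K x) measurable_const
  have h2 : MeasurableSet {G : E N → ℝ | ∀ l, c₁ ≤ 1 - gx 0 K x G (z l)} := by
    rw [Set.ofPred_forall]
    exact MeasurableSet.iInter fun l =>
      measurableSet_le measurable_const (measurable_const.sub (measurable_gx 0 K x _))
  exact h1.inter h2

theorem Gt0_scale {N : ℕ} [NeZero N] (K : ℕ) (x y : T N) {k : ℕ} (z : Fin k → T N)
    (c₁ lam : ℝ) : ScaleInv y
      (({G : E N → ℝ | esc 0 K x G ≤ lam ∧ ∀ l, c₁ ≤ 1 - gx 0 K x G (z l)}).indicator 1) := by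
  intro c hc G hG
  have h : scl y c G ∈ {G : E N → ℝ | esc 0 K x G ≤ lam ∧ ∀ l, c₁ ≤ 1 - gx 0 K x G (z l)} ↔
      G ∈ {G : E N → ℝ | esc 0 K x G ≤ lam ∧ ∀ l, c₁ ≤ 1 - gx 0 K x G (z l)} := by
    simp only [Set.mem_ofPred_eq, esc_scl hG 0 K x y hc, gx_scl hG 0 K x y hc]
  by_cases hD : G ∈ {G : E N → ℝ | esc 0 K x G ≤ lam ∧ ∀ l, c₁ ≤ 1 - gx 0 K x G (z l)}
  · rw [Set.indicator_of_mem hD, Set.indicator_of_mem (h.mpr hD)]; rfl
  · rw [Set.indicator_of_notMem hD, Set.indicator_of_notMem (fun h' => hD (h.mp h'))]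

theorem Gt0_cover {N : ℕ} [NeZero N] {β : E N → ℝ} (hβ : Pos β) (x : T N)
    (D : Set (E N → ℝ)) :
    mu β D ≤ ∑ i : Fin 4, mu β (D ∩ {G | 1 / 4 ≤ om G (x, i)}) := by
  refine le_trans (mu_mono hβ (D' := ⋃ i : Fin 4, D ∩ {G | 1 / 4 ≤ om G (x, i)}) ?_)
    (measure_iUnion_fintype_le _ _)
  intro G hG hD
  by_contra hcon
  have h : ∀ i, om G (x, i) < 1 / 4 := fun i => by
    by_contra h'
    exact hcon (Set.mem_iUnion.mpr ⟨i, hD, not_lt.mp h'⟩)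
  have h1 := sum_om hG x
  rw [Fin.sum_univ_four] at h1
  linarith [h 0, h 1, h 2, h 3]

/-- the bound for one direction -/
theorem Gt0_dir (hB : StGtB) (hO : StBoost) {α : Fin 4 → ℝ} (hα : ∀ i, 0 < α i)
    {σ τ η CH : ℝ} (hτ : 0 < τ) (hτ1 : τ ≤ 1) (hη : 0 < η) (hCH : 0 ≤ CH)
    (hH : ∀ (N : ℕ) [NeZero N] (β θ : E N → ℝ) (τ : ℝ), 0 < τ → τ ≤ 1 → (∀ e, 0 ≤ θ e) →
      (∀ e, τ * θ e + η ≤ β e) → ∀ D : Set (E N → ℝ), MeasurableSet D →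
      mu β D ≤ ENNReal.ofReal (Real.exp (CH * ∑ e, θ e ^ 2)) * mu (β + θ) D ^ (τ / (1 + τ)))
    {N : ℕ} [NeZero N] {K : ℕ} (hK : K < N) {x : T N} (hx : x ∈ Wd N 0 K) {k : ℕ} (hk : 1 ≤ k)
    (z : Fin k → T N) {c₁ lam : ℝ} (hc : 0 < c₁) (hc1 : c₁ ≤ 1) (hl : 0 < lam) (hl1 : lam ≤ 1)
    (i : Fin 4) {θ : E N → ℝ} {g₀ g₁ En : ℝ} (hg₀ : 0 ≤ g₀) (hg₁ : 0 ≤ g₁) (hσ : g₀ + g₁ = σ)
    (hθ : ∀ e, 0 ≤ θ e) (hθα : ∀ e, θ e + η ≤ α e.2) (hEn : ∑ e, θ e ^ 2 ≤ En)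
    (hdv : ∀ y, dv θ y = (∑ l, σ / k * ind {z l} y) - g₀ * ind {x} y - g₁ * ind {x + dr N i} y) :
    mu (al N α) ({G | esc 0 K x G ≤ lam ∧ ∀ l, c₁ ≤ 1 - gx 0 K x G (z l)} ∩
        {G | 1 / 4 ≤ om G (x, i)}) ≤
      ENNReal.ofReal ((4 : ℝ) ^ ⌊σ / τ⌋₊ * Real.exp (CH * (En / τ ^ 2)) *
        (((2 : ℝ) ^ ((∑ j, α j) + σ / τ + (∑ j, α j) / τ) * c₁ ^ (-(σ / τ))) ^ (τ / (1 + τ)) *
          lam ^ ((σ - τ) / (1 + τ)))) := by
  set D : Set (E N → ℝ) := {G | esc 0 K x G ≤ lam ∧ ∀ l, c₁ ≤ 1 - gx 0 K x G (z l)} with hD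
  have hDm : MeasurableSet D := Gt0_meas K x z c₁ lam
  set n : ℕ := ⌊g₁ / τ⌋₊ with hn
  have hσ0 : 0 ≤ σ := by linarith
  have hn1 : (n : ℝ) ≤ g₁ / τ := Nat.floor_le (div_nonneg hg₁ hτ.le)
  have hn2 : g₁ / τ < n + 1 := Nat.lt_floor_add_one _
  have hgσ : g₁ / τ ≤ σ / τ := div_le_div_of_nonneg_right (by linarith) hτ.le
  have hn3 : n ≤ ⌊σ / τ⌋₊ := Nat.floor_le_floor hgσ
  have hk0 : (0 : ℝ) < k := by exact_mod_cast hk
  set b0 : E N → ℝ := fun e' => al N α e' + if e' = (x, i) then (n : ℝ) else 0 with hb0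
  set θ' : E N → ℝ := fun e => τ⁻¹ * θ e with hθ'
  have hθ'0 : ∀ e, 0 ≤ θ' e := fun e => mul_nonneg (inv_nonneg.mpr hτ.le) (hθ e)
  have hb0α : ∀ e, α e.2 ≤ b0 e := fun e => by
    have : (0 : ℝ) ≤ if e = (x, i) then (n : ℝ) else 0 := by split_ifs <;> positivity
    simp only [hb0, al]; linarith
  have h1 := hO N (al N α) (pos_al hα) (x, i) n D hDm (Gt0_scale K x x z c₁ lam)
  have h2 := hH N b0 θ' τ hτ hτ1 hθ'0 (fun e => by
    have : τ * θ' e = θ e := by simp only [hθ']; field_simp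
    rw [this]; exact (hθα e).trans (hb0α e)) D hDm
  have hpos : Pos (b0 + θ') := fun e => by
    have := hb0α e; have := hα e.2; have := hθ'0 e
    simp only [Pi.add_apply]; linarith
  have hdv' : ∀ y, dv (b0 + θ') y ≤
      (∑ l, σ / (k * τ) * ind {z l} y) - ((n : ℝ) + g₀ / τ) * ind {x} y := fun y => by
    have e1 : b0 = al N α + fun e' => if e' = (x, i) then (n : ℝ) else 0 := rfl
    have e2 : (∑ l, σ / (k * τ) * ind {z l} y) = τ⁻¹ * ∑ l, σ / k * ind {z l} y := by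
      rw [Finset.mul_sum]
      refine Finset.sum_congr rfl fun l _ => ?_
      field_simp
    rw [dv_add, e1, dv_add, dv_al, dv_single, hθ', dv_mul, hdv, e2]
    have e3 : tg ((x, i) : E N) = x + dr N i := rfl
    rw [e3]
    have h4 := ind_nonneg {x + dr N i} y
    have h5 : ((n : ℝ) - g₁ / τ) * ind {x + dr N i} y ≤ 0 :=
      mul_nonpos_of_nonpos_of_nonneg (by linarith) h4
    simp only [div_eq_mul_inv] at h5 ⊢
    nlinarith [h5]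
  have h3 := hB N K hK x hx (b0 + θ') hpos k z (σ / (k * τ)) ((n : ℝ) + g₀ / τ) c₁ lam
    (by positivity) hc hc1 hl hl1 hdv'
  have hr0 : 0 < τ / (1 + τ) := by positivity
  -- the real estimates
  have hZ : Zs (b0 + θ') x ≤ (∑ j, α j) + σ / τ + (∑ j, α j) / τ := by
    have e1 : Zs (b0 + θ') x = (∑ j, α j) + n + τ⁻¹ * ∑ j, θ (x, j) := by
      simp only [Zs, Pi.add_apply, hb0, hθ', al, Finset.sum_add_distrib, Finset.mul_sum,
        Prod.mk.injEq, true_and, Finset.sum_ite_eq', mem_univ, if_true]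
    have e2 : ∑ j, θ (x, j) ≤ ∑ j, α j := Finset.sum_le_sum fun j _ => by
      have := hθα (x, j); simp only at this; linarith
    have e3 : τ⁻¹ * ∑ j, θ (x, j) ≤ (∑ j, α j) / τ := by
      rw [div_eq_inv_mul]; exact mul_le_mul_of_nonneg_left e2 (inv_nonneg.mpr hτ.le)
    rw [e1]; linarith
  have hgk : σ / (k * τ) * k = σ / τ := by field_simp
  have hγ : (σ - τ) / (1 + τ) ≤ ((n : ℝ) + g₀ / τ) * (τ / (1 + τ)) := by
    have e1 : σ / τ - 1 ≤ (n : ℝ) + g₀ / τ := by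
      have : σ / τ = g₀ / τ + g₁ / τ := by rw [← hσ, add_div]
      linarith
    have e2 : (σ - τ) / (1 + τ) = (σ / τ - 1) * (τ / (1 + τ)) := by field_simp
    rw [e2]; exact mul_le_mul_of_nonneg_right e1 hr0.le
  have hB1 : (2 : ℝ) ^ Zs (b0 + θ') x * c₁ ^ (-(σ / (k * τ) * k)) * lam ^ ((n : ℝ) + g₀ / τ) ≤
      ((2 : ℝ) ^ ((∑ j, α j) + σ / τ + (∑ j, α j) / τ) * c₁ ^ (-(σ / τ))) *
        lam ^ ((n : ℝ) + g₀ / τ) := by
    rw [hgk]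
    have := Real.rpow_le_rpow_of_exponent_le (by norm_num : (1 : ℝ) ≤ 2) hZ
    gcongr
  have h4 : mu (b0 + θ') D ^ (τ / (1 + τ)) ≤ ENNReal.ofReal
      (((2 : ℝ) ^ ((∑ j, α j) + σ / τ + (∑ j, α j) / τ) * c₁ ^ (-(σ / τ))) ^ (τ / (1 + τ)) *
        lam ^ ((σ - τ) / (1 + τ))) := by
    refine le_trans (ENNReal.rpow_le_rpow (h3.trans (ENNReal.ofReal_le_ofReal hB1)) hr0.le) ?_
    rw [ENNReal.ofReal_rpow_of_nonneg (by positivity) hr0.le]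
    refine ENNReal.ofReal_le_ofReal ?_
    rw [Real.mul_rpow (by positivity) (by positivity), ← Real.rpow_mul hl.le]
    exact mul_le_mul_of_nonneg_left (Real.rpow_le_rpow_of_exponent_ge hl hl1 hγ) (by positivity)
  have h5 : Real.exp (CH * ∑ e, θ' e ^ 2) ≤ Real.exp (CH * (En / τ ^ 2)) := by
    refine Real.exp_le_exp.mpr (mul_le_mul_of_nonneg_left ?_ hCH)
    have e1 : ∑ e, θ' e ^ 2 = (∑ e, θ e ^ 2) / τ ^ 2 := by
      rw [Finset.sum_div]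
      refine Finset.sum_congr rfl fun e _ => ?_
      simp only [hθ']; field_simp
    rw [e1]; exact div_le_div_of_nonneg_right hEn (by positivity)
  have h6 : (4 : ℝ≥0∞) ^ n ≤ ENNReal.ofReal ((4 : ℝ) ^ ⌊σ / τ⌋₊) := by
    rw [ENNReal.ofReal_pow (by norm_num), ENNReal.ofReal_ofNat]
    exact pow_le_pow_right₀ (by norm_num) hn3
  calc mu (al N α) (D ∩ {G | 1 / 4 ≤ om G (x, i)}) ≤ 4 ^ n * mu b0 D := h1
    _ ≤ ENNReal.ofReal ((4 : ℝ) ^ ⌊σ / τ⌋₊) *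
        (ENNReal.ofReal (Real.exp (CH * (En / τ ^ 2))) * ENNReal.ofReal
          (((2 : ℝ) ^ ((∑ j, α j) + σ / τ + (∑ j, α j) / τ) * c₁ ^ (-(σ / τ))) ^ (τ / (1 + τ)) *
            lam ^ ((σ - τ) / (1 + τ)))) :=
      mul_le_mul' h6 (h2.trans (mul_le_mul' (ENNReal.ofReal_le_ofReal h5) h4))
    _ = _ := by
      rw [← ENNReal.ofReal_mul (by positivity), ← ENNReal.ofReal_mul (by positivity), mul_assoc]

theorem pf_Gt0 (hA : StGtA) (hB : StGtB) (hO : StBoost) (hH : StHold) : StGt0 := by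
  intro α hα hκ
  unfold Kap at hκ
  set κ : ℝ := 2 * ∑ i, α i - max (α 0 + α 2) (α 1 + α 3) with hκdef
  set σ : ℝ := (1 + κ) / 2 with hσ
  have hσ1 : 1 < σ := by rw [hσ]; linarith
  have hσκ : σ < κ := by rw [hσ]; linarith
  set τ : ℝ := min 1 ((σ - 1) / 4) with hτdef
  have hτ : 0 < τ := lt_min one_pos (by linarith)
  have hτ1 : τ ≤ 1 := min_le_left _ _
  have hτ2 : τ ≤ (σ - 1) / 4 := min_le_right _ _
  obtain ⟨η, k, CA, hη, hk, hA'⟩ := hA α hα σ (by linarith) hσκ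
  obtain ⟨CH, hCH, hH'⟩ := hH η hη
  refine ⟨(σ - τ) / (1 + τ), k, ?_, hk, fun c₁ hc hc1 => ?_⟩
  · rw [one_lt_div (by linarith)]; linarith
  set Bc : ℝ := ((2 : ℝ) ^ ((∑ j, α j) + σ / τ + (∑ j, α j) / τ) * c₁ ^ (-(σ / τ))) ^
    (τ / (1 + τ)) with hBc
  have hBc0 : 0 ≤ Bc := by positivity
  set P : ℝ := CH * (CA / τ ^ 2) with hP
  set C : ℕ := ⌈max (4 * (4 : ℝ) ^ ⌊σ / τ⌋₊ * Bc) P⌉₊ with hC
  have hC1 : 4 * (4 : ℝ) ^ ⌊σ / τ⌋₊ * Bc ≤ C := (le_max_left _ _).trans (Nat.le_ceil _)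
  have hC2 : P ≤ C := (le_max_right _ _).trans (Nat.le_ceil _)
  refine ⟨C, CA, fun N _ K m hK hm hN x hx a b hab hinj lam hl hl1 => ?_⟩
  have hm1 : (1 : ℝ) ≤ m := by exact_mod_cast (by omega : 1 ≤ m)
  have hm0 : (0 : ℝ) < m := by linarith
  have hexp : Real.exp (CH * (CA * Real.log m / τ ^ 2)) ≤ (m : ℝ) ^ C := by
    have e1 : CH * (CA * Real.log m / τ ^ 2) = Real.log m * P := by rw [hP]; ring
    rw [e1, ← Real.rpow_def_of_pos hm0, ← Real.rpow_natCast]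
    exact Real.rpow_le_rpow_of_exponent_le hm1 hC2
  have key : ∀ i : Fin 4, mu (al N α)
      ({G | esc 0 K x G ≤ lam ∧ ∀ l, c₁ ≤ 1 - gx 0 K x G (x + cz N (a l) (b l))} ∩
        {G | 1 / 4 ≤ om G (x, i)}) ≤
      ENNReal.ofReal ((4 : ℝ) ^ ⌊σ / τ⌋₊ * (m : ℝ) ^ C * (Bc * lam ^ ((σ - τ) / (1 + τ)))) := by
    intro i
    obtain ⟨θ, g₀, g₁, hg₀, hg₁, hg, hθ, hθα, hEn, hdv⟩ := hA' N m hm hN x i a b hab hinj
    refine (Gt0_dir hB hO hα hτ hτ1 hη hCH hH' hK hx hk (fun l => x + cz N (a l) (b l))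
      hc hc1 hl hl1 i hg₀ hg₁ hg hθ hθα hEn hdv).trans (ENNReal.ofReal_le_ofReal ?_)
    gcongr
  refine (Gt0_cover (pos_al hα) x _).trans ((Finset.sum_le_sum fun i _ => key i).trans ?_)
  rw [← ENNReal.ofReal_sum_of_nonneg (fun _ _ => by positivity)]
  refine ENNReal.ofReal_le_ofReal ?_
  rw [Finset.sum_const, Finset.card_univ, Fintype.card_fin, nsmul_eq_mul]
  have e : ((4 : ℕ) : ℝ) * ((4 : ℝ) ^ ⌊σ / τ⌋₊ * (m : ℝ) ^ C * (Bc * lam ^ ((σ - τ) / (1 + τ)))) =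
      (4 * (4 : ℝ) ^ ⌊σ / τ⌋₊ * Bc) * (m : ℝ) ^ C * lam ^ ((σ - τ) / (1 + τ)) := by
    push_cast; ring
  rw [e]
  gcongr

end DRW
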