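import Pool.Agent.P.MP_de05b4_pr.Basic

/-! The tail of the escape probability. -/

namespace DRW

open MeasureTheory ProbabilityTheory Finset Filter
open scoped ENNReal Topology

theorem Gt1_uu_le {N : ℕ} [NeZero N] {G : E N → ℝ} (hG : Pos G) {s K : ℕ} (hsK : s < K)
    (hK : K < N) {x : T N} (hx : x ∈ Wd N 0 K) (hxs : col x ≤ s) {z : T N} (h1 : s ≤ col z)
    (h2 : col z ≤ K) : uu s K G z ≤ 1 - gx 0 K x G z := by
  refine le_on_strip hG hK (f := uu s K G) (g := fun z => 1 - gx 0 K x G z)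
    (fun y hy => ?_) (fun y hy => ?_) (fun y hy => ?_) h1 h2
  · rw [mem_Wd] at hy
    have hyx : y ≠ x := by
      rintro rfl
      omega
    rw [lap_sub, lap_const, gx_lap hG x (mem_Wd.2 ⟨by omega, hy.2⟩), if_neg hyx,
      uu_lap hG hy.1 hy.2, sub_zero]
  · rw [uu_left hG hsK hy]
    exact sub_nonneg.2 (gx_le_one hG _ _ _ _)
  · rw [uu_right hG hy, gx_off hG hx (by rw [mem_Wd]; omega), sub_zero]

theorem Gt1_win {N : ℕ} [NeZero N] {x y : T N} {m b : ℕ} (hm : 1 ≤ m)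
    (hy : col y = col x + m - 1) :
    y + dr N 0 = x + cz N (m : ℕ) ((b + (y.2 - (x.2 + (b : ZMod N))).val : ℕ) : ℤ) := by
  have h1 : y.1 = ((col x + m - 1 : ℕ) : ZMod N) := by
    rw [← hy]
    exact (ZMod.natCast_zmod_val _).symm
  have h2 : x.1 = ((col x : ℕ) : ZMod N) := (ZMod.natCast_zmod_val _).symm
  have h3 : ((col x + m - 1 : ℕ) : ZMod N) + 1 = (col x : ZMod N) + (m : ZMod N) := by
    have : col x + m - 1 + 1 = col x + m := by omega
    rw [← Nat.cast_succ, ← Nat.cast_add]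
    exact congrArg _ this
  refine Prod.ext ?_ ?_
  · rw [dr0]
    simp only [cz, Prod.fst_add, Int.cast_natCast]
    rw [h1, h3, ← h2]
  · rw [row_add0]
    simp only [cz, Prod.snd_add, Int.cast_natCast, Nat.cast_add, ZMod.natCast_zmod_val,
      Int.cast_add]
    ring

theorem Gt1_inj {N k : ℕ} [NeZero N] (b : Fin k → ℕ) (hb : ∀ l, b l < N)
    (hi : Function.Injective b) : Function.Injective fun l => (((b l : ℕ) : ℤ) : ZMod N) := by
  intro l l' h
  simp only [Int.cast_natCast] at h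
  have h1 := congrArg ZMod.val h
  rw [ZMod.val_cast_of_lt (hb l), ZMod.val_cast_of_lt (hb l')] at h1
  exact hi h1

theorem pf_Gt1 (h0 : StGt0) (hS : StSink) : StGt1 := by
  intro α hα hκ
  obtain ⟨s, k, hs, hk, h0⟩ := h0 α hα.1 hκ
  obtain ⟨c₁, hc0, hc1, hS⟩ := hS α hα
  obtain ⟨C, C₀, h0⟩ := h0 c₁ hc0 hc1
  refine ⟨s, hs, C + k, fun M => ?_⟩
  obtain ⟨Cs, Cs₀, hCs, hS⟩ := hS M
  refine ⟨k * Cs + C * ((k : ℝ) + 2) ^ C + 1, Cs₀ + (k + 2) * C₀ + k + 2, k + 2,
    by positivity, ?_⟩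
  intro N _ K m hK hN hm x hx lam hl0 hl1
  have hβ : Pos (al N α) := pos_al hα.1
  have hx' := mem_Wd.1 hx
  have hN1 : Cs₀ * K ≤ N := le_trans (Nat.mul_le_mul_right _ (by omega)) hN
  have hN2 : (k + 2) * C₀ * K ≤ N := le_trans (Nat.mul_le_mul_right _ (by omega)) hN
  have hN3 : (k + 2) * K ≤ N := le_trans (Nat.mul_le_mul_right _ (by omega)) hN
  have hKN : K < N := by nlinarith
  have hm0 : (1 : ℝ) ≤ m := by exact_mod_cast hm
  have hls : 0 < lam ^ s := Real.rpow_pos_of_pos hl0 s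
  have hA : (0 : ℝ) ≤ ((m : ℝ) ^ M)⁻¹ := by positivity
  have hB : (0 : ℝ) ≤ (m : ℝ) ^ (C + k) * lam ^ s := by positivity
  have hfin : k * (Cs * ((m : ℝ) ^ M)⁻¹) +
      (m : ℝ) ^ k * (C * (((k + 2) * m : ℕ) : ℝ) ^ C * lam ^ s) ≤
      (k * Cs + C * ((k : ℝ) + 2) ^ C + 1) *
        (((m : ℝ) ^ M)⁻¹ + (m : ℝ) ^ (C + k) * lam ^ s) := by
    have e1 : (m : ℝ) ^ k * (C * (((k + 2) * m : ℕ) : ℝ) ^ C * lam ^ s) =
        C * ((k : ℝ) + 2) ^ C * ((m : ℝ) ^ (C + k) * lam ^ s) := by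
      push_cast
      rw [mul_pow, pow_add]
      ring
    have h1 : (0 : ℝ) ≤ k * Cs := by positivity
    have h2 : (0 : ℝ) ≤ C * ((k : ℝ) + 2) ^ C := by positivity
    rw [e1]
    nlinarith [mul_nonneg h1 hB, mul_nonneg h2 hA]
  refine le_trans ?_ (ENNReal.ofReal_le_ofReal hfin)
  rcases le_or_gt (col x + 2 * m) K with hc | hc
  · have hmK : m ≤ K := by omega
    have hkm : (k + 2) * m ≤ N := le_trans (Nat.mul_le_mul_left _ hmK) hN3
    set B : Fin k → Set (E N → ℝ) := fun l =>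
      {G | ∀ y ∈ Win N (col x + m - 1) (x.2 + ((l * m : ℕ) : ZMod N)) m,
        uu (col x + m - 1) K G (y + dr N 0) < c₁} with hBdef
    set D : (Fin k → Fin m) → Set (E N → ℝ) := fun j =>
      {G | esc 0 K x G ≤ lam ∧ ∀ l : Fin k, c₁ ≤ 1 - gx 0 K x G
        (x + cz N ((m : ℕ) : ℤ) (((l * m + j l : ℕ) : ℕ) : ℤ))} with hDdef
    have hsub : mu (al N α) {G | esc 0 K x G ≤ lam} ≤
        mu (al N α) ((⋃ l, B l) ∪ ⋃ j, D j) := by
      refine mu_mono hβ fun G hG hE => ?_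
      by_cases hb : ∃ l, G ∈ B l
      · exact Or.inl (Set.mem_iUnion.2 hb)
      · refine Or.inr (Set.mem_iUnion.2 ?_)
        have hb' : ∀ l : Fin k, ∃ j : Fin m, c₁ ≤ 1 - gx 0 K x G
            (x + cz N ((m : ℕ) : ℤ) (((l * m + j : ℕ) : ℕ) : ℤ)) := by
          intro l
          have h1 : G ∉ B l := fun h => hb ⟨l, h⟩
          simp only [hBdef, Set.mem_ofPred_eq, not_forall, not_lt] at h1
          obtain ⟨y, hy, hcy⟩ := h1
          rw [mem_Win] at hy
          refine ⟨⟨_, hy.2⟩, ?_⟩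
          have hcol : col (y + dr N 0) = col y + 1 := col_add0 (by omega)
          have h2 := Gt1_uu_le hG (s := col x + m - 1) (by omega) hKN hx (by omega)
            (z := y + dr N 0) (by omega) (by omega)
          rw [← Gt1_win hm hy.1]
          exact hcy.trans h2
        choose j hj using hb'
        exact ⟨j, hE, hj⟩
    have hBl : ∀ l, mu (al N α) (B l) ≤ ENNReal.ofReal (Cs * ((m : ℝ) ^ M)⁻¹) := fun l =>
      hS N _ K m _ hm (by omega) hN1
    have hDj : ∀ j, mu (al N α) (D j) ≤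
        ENNReal.ofReal (C * (((k + 2) * m : ℕ) : ℝ) ^ C * lam ^ s) := by
      intro j
      have hlt : ∀ l : Fin k, (l * m + j l : ℕ) < k * m := by
        intro l
        have h1 : (l : ℕ) + 1 ≤ k := l.2
        have h2 := (j l).2
        nlinarith [Nat.mul_le_mul_right m h1]
      refine h0 N K ((k + 2) * m) hKN (by nlinarith) ?_ x hx (fun _ => ((m : ℕ) : ℤ))
        (fun l => (((l * m + j l : ℕ) : ℕ) : ℤ)) (fun l => ⟨?_, ?_⟩) ?_ lam hl0 hl1
      · calc C₀ * ((k + 2) * m) = (k + 2) * C₀ * m := by ring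
          _ ≤ (k + 2) * C₀ * K := Nat.mul_le_mul_left _ hmK
          _ ≤ N := hN2
      · rw [abs_of_nonneg (Int.natCast_nonneg _)]
        exact Int.ofNat_le.2 (by nlinarith)
      · rw [abs_of_nonneg (Int.natCast_nonneg _)]
        have := hlt l
        exact Int.ofNat_le.2 (by nlinarith)
      · refine Gt1_inj (fun l => l * m + j l) (fun l => ?_) fun l l' h => ?_
        · have := hlt l
          nlinarith
        · have h1 : ((l : ℕ) * m + j l) / m = ((l' : ℕ) * m + j l') / m := congrArg (· / m) h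
          rw [add_comm, add_comm ((l' : ℕ) * m), Nat.add_mul_div_right _ _ (by omega),
            Nat.add_mul_div_right _ _ (by omega), Nat.div_eq_of_lt (j l).2,
            Nat.div_eq_of_lt (j l').2] at h1
          exact Fin.ext (by omega)
    calc mu (al N α) {G | esc 0 K x G ≤ lam} ≤ mu (al N α) ((⋃ l, B l) ∪ ⋃ j, D j) := hsub
      _ ≤ mu (al N α) (⋃ l, B l) + mu (al N α) (⋃ j, D j) := measure_union_le _ _
      _ ≤ (∑ l, mu (al N α) (B l)) + ∑ j, mu (al N α) (D j) :=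
        add_le_add (measure_iUnion_fintype_le _ _) (measure_iUnion_fintype_le _ _)
      _ ≤ (∑ _l : Fin k, ENNReal.ofReal (Cs * ((m : ℝ) ^ M)⁻¹)) +
          ∑ _j : Fin k → Fin m, ENNReal.ofReal (C * (((k + 2) * m : ℕ) : ℝ) ^ C * lam ^ s) :=
        add_le_add (Finset.sum_le_sum fun l _ => hBl l) (Finset.sum_le_sum fun j _ => hDj j)
      _ = _ := by
        rw [ENNReal.ofReal_add (by positivity) (by positivity),
          ENNReal.ofReal_mul (p := (k : ℝ)) (by positivity),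
          ENNReal.ofReal_mul (p := (m : ℝ) ^ k) (by positivity), ENNReal.ofReal_natCast,
          ENNReal.ofReal_pow (by positivity), ENNReal.ofReal_natCast]
        simp only [Finset.sum_const, Finset.card_univ, Fintype.card_fin, Fintype.card_fun,
          nsmul_eq_mul, Nat.cast_pow]
  · have hm' : min K ((k + 2) * m) ≤ (k + 2) * m := min_le_right _ _
    have hm'' : min K ((k + 2) * m) ≤ K := min_le_left _ _
    have hkm : k + 2 ≤ (k + 2) * m := Nat.le_mul_of_pos_right _ hm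
    have h2m : 2 * m ≤ (k + 2) * m := Nat.mul_le_mul_right _ (by omega)
    have h1 := h0 N K (min K ((k + 2) * m)) hKN (by omega)
      (le_trans (Nat.mul_le_mul (Nat.le_mul_of_pos_left _ (by omega)) hm'') hN2) x hx
      (fun _ => ((K - col x : ℕ) : ℤ)) (fun l => ((l : ℕ) : ℤ)) (fun l => ⟨by
        rw [abs_of_nonneg (Int.natCast_nonneg _)]
        exact Int.ofNat_le.2 (by omega), by
        rw [abs_of_nonneg (Int.natCast_nonneg _)]
        have := l.2
        exact Int.ofNat_le.2 (by omega)⟩)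
      (Gt1_inj (fun l : Fin k => (l : ℕ)) (fun l => by have := l.2; omega) Fin.val_injective)
      lam hl0 hl1
    refine le_trans (le_trans (mu_mono hβ fun G hG hE => ?_) h1) ?_
    · refine ⟨hE, fun l => ?_⟩
      have hcol := col_add_cz x (K - col x) ((l : ℕ) : ℤ) (by omega)
      rw [gx_off hG hx (by rw [mem_Wd]; omega), sub_zero]
      exact hc1
    · refine ENNReal.ofReal_le_ofReal ?_
      have h3 : ((min K ((k + 2) * m) : ℕ) : ℝ) ^ C ≤ (((k + 2) * m : ℕ) : ℝ) ^ C :=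
        pow_le_pow_left₀ (Nat.cast_nonneg _) (Nat.cast_le.2 hm') C
      have h4 : (1 : ℝ) ≤ (m : ℝ) ^ k := one_le_pow₀ hm0
      have h5 : (C : ℝ) * ((min K ((k + 2) * m) : ℕ) : ℝ) ^ C * lam ^ s ≤
          C * (((k + 2) * m : ℕ) : ℝ) ^ C * lam ^ s := by gcongr
      have h6 : (0 : ℝ) ≤ C * (((k + 2) * m : ℕ) : ℝ) ^ C * lam ^ s := by positivity
      have h7 : (0 : ℝ) ≤ k * (Cs * ((m : ℝ) ^ M)⁻¹) := by positivity
      nlinarith [mul_le_mul_of_nonneg_right h4 h6]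

theorem pf_Gt (h1 : StGt1) : StGt := by
  intro α hα hκ
  obtain ⟨s, hs, C, h1⟩ := h1 α hα hκ
  set b : ℝ := (s - 1) / (2 * ((C : ℝ) + 1)) with hb
  have hC : (0 : ℝ) ≤ C := Nat.cast_nonneg C
  have hb0 : 0 < b := div_pos (by linarith) (by positivity)
  have hbC : b * C ≤ (s - 1) / 2 := by
    rw [hb, div_mul_eq_mul_div, div_le_div_iff₀ (by positivity) (by positivity)]
    nlinarith
  obtain ⟨C', C₀, K₀, hC', h1⟩ := h1 ⌈(1 + s) / 2 / b⌉₊
  refine ⟨(1 + s) / 2, C' * (1 + 2 ^ C) + 1, C₀, K₀, by linarith, by positivity, ?_⟩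
  intro N _ K hK hN x hx lam hl0
  have hls : 0 < lam ^ ((1 + s) / 2) := Real.rpow_pos_of_pos hl0 _
  have hpos : 0 < C' * (1 + 2 ^ C) := by positivity
  rcases le_total lam 1 with hl1 | hl1
  · have hu1 : 1 ≤ lam ^ (-b) := Real.one_le_rpow_of_pos_of_le_one_of_nonpos hl0 hl1 (by linarith)
    have hm1 : lam ^ (-b) ≤ (⌈lam ^ (-b)⌉₊ : ℝ) := Nat.le_ceil _
    have hm2 : (⌈lam ^ (-b)⌉₊ : ℝ) ≤ 2 * lam ^ (-b) := by
      have := Nat.ceil_lt_add_one (le_trans zero_le_one hu1)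
      linarith
    have hm : 1 ≤ ⌈lam ^ (-b)⌉₊ := by
      have : (1 : ℝ) ≤ (⌈lam ^ (-b)⌉₊ : ℝ) := hu1.trans hm1
      exact_mod_cast this
    refine (h1 N K _ hK hN hm x hx lam hl0 hl1).trans (ENNReal.ofReal_le_ofReal ?_)
    set m : ℝ := (⌈lam ^ (-b)⌉₊ : ℝ)
    set M : ℕ := ⌈(1 + s) / 2 / b⌉₊ with hM
    have hbM : (1 + s) / 2 ≤ b * M := by
      have h2 : (1 + s) / 2 / b ≤ M := Nat.le_ceil _
      rw [div_le_iff₀ hb0] at h2
      linarith
    have e1 : (m ^ M)⁻¹ ≤ lam ^ ((1 + s) / 2) := by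
      have h2 : (lam ^ (-b)) ^ M ≤ m ^ M := pow_le_pow_left₀ (by linarith) hm1 M
      have h3 : (m ^ M)⁻¹ ≤ ((lam ^ (-b)) ^ M)⁻¹ := inv_anti₀ (by positivity) h2
      refine h3.trans ?_
      rw [← Real.rpow_natCast, ← Real.rpow_mul hl0.le, ← Real.rpow_neg hl0.le]
      exact Real.rpow_le_rpow_of_exponent_ge hl0 hl1 (by linarith)
    have e2 : m ^ C * lam ^ s ≤ 2 ^ C * lam ^ ((1 + s) / 2) := by
      have h2 : m ^ C ≤ (2 * lam ^ (-b)) ^ C := pow_le_pow_left₀ (by linarith) hm2 C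
      have h3 : (lam ^ (-b)) ^ C * lam ^ s ≤ lam ^ ((1 + s) / 2) := by
        rw [← Real.rpow_natCast, ← Real.rpow_mul hl0.le, ← Real.rpow_add hl0]
        exact Real.rpow_le_rpow_of_exponent_ge hl0 hl1 (by linarith)
      calc m ^ C * lam ^ s ≤ (2 * lam ^ (-b)) ^ C * lam ^ s :=
            mul_le_mul_of_nonneg_right h2 (Real.rpow_pos_of_pos hl0 s).le
        _ = 2 ^ C * ((lam ^ (-b)) ^ C * lam ^ s) := by rw [mul_pow, mul_assoc]
        _ ≤ _ := mul_le_mul_of_nonneg_left h3 (by positivity)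
    have e3 : (m ^ M)⁻¹ + m ^ C * lam ^ s ≤ (1 + 2 ^ C) * lam ^ ((1 + s) / 2) := by linarith
    nlinarith [mul_le_mul_of_nonneg_left e3 hC'.le]
  · have := prob_mu (N := N) (pos_al hα.1)
    refine prob_le_one.trans ?_
    rw [← ENNReal.ofReal_one]
    refine ENNReal.ofReal_le_ofReal ?_
    have h2 : 1 ≤ lam ^ ((1 + s) / 2) := Real.one_le_rpow hl1 (by linarith)
    nlinarith

end DRW
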