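import Pool.Agent.P.MP_de05b4_pr.Basic

/-! The combined flow out of an edge into several sinks. -/

namespace DRW

open Finset

theorem GtA_energy {ι κ : Type*} [Fintype ι] [Fintype κ] (c : ι → ℝ) (f : ι → κ → ℝ) (B : ℝ)
    (hc : ∀ s, 0 ≤ c s) (hf : ∀ s, ∑ e, f s e ^ 2 ≤ B) :
    ∑ e, (∑ s, c s * f s e) ^ 2 ≤ (∑ s, c s) ^ 2 * B := by
  have h1 : ∀ e, (∑ s, c s * f s e) ^ 2 ≤ (∑ s, c s) * ∑ s, c s * f s e ^ 2 := fun e =>
    Finset.sum_sq_le_sum_mul_sum_of_sq_le_mul univ (fun s _ => hc s)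
      (fun s _ => mul_nonneg (hc s) (sq_nonneg _)) fun s _ => le_of_eq (by ring)
  have hs : 0 ≤ ∑ s, c s := Finset.sum_nonneg fun s _ => hc s
  calc ∑ e, (∑ s, c s * f s e) ^ 2 ≤ ∑ e, (∑ s, c s) * ∑ s, c s * f s e ^ 2 :=
        Finset.sum_le_sum fun e _ => h1 e
    _ = (∑ s, c s) * ∑ s, c s * ∑ e, f s e ^ 2 := by
        rw [← Finset.mul_sum, Finset.sum_comm]
        simp only [Finset.mul_sum]
    _ ≤ (∑ s, c s) * ∑ s, c s * B := by
        gcongr with s
        · exact hc s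
        · exact hf s
    _ = (∑ s, c s) ^ 2 * B := by rw [← Finset.sum_mul]; ring

theorem GtA_disj {N : ℕ} (hN : 2 ≤ N) (x : T N) {i j : Fin 4} (h1 : j ≠ i) (h2 : j ≠ i + 2)
    {e : E N} (ha : Line x j e) (hb : Line (x + dr N i) j e) : False := by
  have : Fact (1 < N) := ⟨hN⟩
  have ha2 := ha.2
  have hb2 := hb.2
  fin_cases i <;> fin_cases j <;> simp [dr] at h1 h2 ha2 hb2 <;>
    · rw [ha2] at hb2
      simp at hb2

theorem GtA_sinks {N k : ℕ} (x : T N) (a b : Fin k → ℤ)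
    (hb : Function.Injective (fun l => ((b l : ℤ) : ZMod N))) (e : E N) :
    (∑ l, if Line (x + cz N (a l) (b l)) 0 e then (1 : ℝ) else 0) ≤ 1 := by
  rw [Finset.sum_boole]
  have : (univ.filter fun l => Line (x + cz N (a l) (b l)) 0 e).card ≤ 1 := by
    refine Finset.card_le_one.2 fun l hl l' hl' => hb ?_
    have h1 := (mem_filter.1 hl).2.2
    have h2 := (mem_filter.1 hl').2.2
    simp only [true_or, if_true, cz, Prod.snd_add] at h1 h2
    exact add_left_cancel (h1.symm.trans h2)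
  exact_mod_cast this

theorem GtA_kap (α : Fin 4 → ℝ) (i : Fin 4) :
    α i + α (i + 2) ≤ max (α 0 + α 2) (α 1 + α 3) := by
  have h1 := le_max_left (α 0 + α 2) (α 1 + α 3)
  have h2 := le_max_right (α 0 + α 2) (α 1 + α 3)
  fin_cases i
  · exact h1
  · exact h2
  · exact (add_comm _ _).le.trans h1
  · exact (add_comm _ _).le.trans h2

theorem GtA_dir (i : Fin 4) : |(dir i).1| ≤ 1 ∧ |(dir i).2| ≤ 1 := by
  fin_cases i <;> simp [dir]

theorem GtA_erase (α : Fin 4 → ℝ) (ρ : ℝ) (i : Fin 4) :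
    (∑ j, if j = i then 0 else ρ * α j) = ρ * (∑ j, α j - α i) := by
  have : ∀ j, (if j = i then 0 else ρ * α j) = ρ * α j - if j = i then ρ * α i else 0 := by
    intro j
    split_ifs with h
    · rw [h, sub_self]
    · rw [sub_zero]
  simp only [this, Finset.sum_sub_distrib, Finset.sum_ite_eq', mem_univ, if_true, mul_sub,
    Finset.mul_sum]

theorem pf_GtA (hF : StFlow) : StGtA := by
  intro α hα σ hσ hκ
  set A := ∑ i, α i with hA
  set κ := 2 * A - max (α 0 + α 2) (α 1 + α 3) with hκd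
  have hκ0 : 0 < κ := hσ.trans hκ
  obtain ⟨j₀, -, hj₀⟩ := Finset.exists_min_image univ α univ_nonempty
  have hq : σ / κ < 1 := (div_lt_one hκ0).2 hκ
  set η := (1 - σ / κ) * α j₀ / 2 with hη
  have hη0 : 0 < η := div_pos (mul_pos (sub_pos.2 hq) (hα j₀)) two_pos
  obtain ⟨CF, hCF⟩ := hF (η / (2 * σ)) (by positivity)
  set k := ⌈2 * σ / η⌉₊ + 1 with hk
  have hk0 : (0 : ℝ) < k := by rw [hk]; positivity
  have hkη : σ / k ≤ η / 2 := by
    have h1 : 2 * σ / η ≤ k := (Nat.le_ceil _).trans (by rw [hk]; push_cast; linarith)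
    rw [div_le_iff₀ hη0] at h1
    rw [div_le_iff₀ hk0]
    linarith
  refine ⟨η, k, 2 * CF + 1 + ⌈2 * σ ^ 2 * CF⌉₊, hη0, by omega, ?_⟩
  intro N _ m hm hN x i a b hab hb
  have hN2 : 2 ≤ N := le_trans (by nlinarith) hN
  have hN3 : CF * (2 * m) ≤ N := le_trans (by nlinarith) hN
  have hki : κ ≤ 2 * A - α i - α (i + 2) := by
    have := GtA_kap α i
    linarith
  have hki0 : 0 < 2 * A - α i - α (i + 2) := hκ0.trans_le hki
  set ρ := σ / (2 * A - α i - α (i + 2)) with hρ
  have hρ0 : 0 < ρ := div_pos hσ hki0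
  have hρκ : ρ ≤ σ / κ := div_le_div_of_nonneg_left hσ.le hκ0 hki
  let p : Bool → T N := fun u => if u then x + dr N i else x
  let i' : Bool → Fin 4 := fun u => if u then i + 2 else i
  let w : Bool × Fin 4 → ℝ := fun s => if s.2 = i' s.1 then 0 else ρ * α s.2
  have hw0 : ∀ s, 0 ≤ w s := fun s => by
    have := hα s.2
    simp only [w]
    split_ifs <;> positivity
  have hfl : ∀ s : (Bool × Fin 4) × Fin k, ∃ θ : E N → ℝ, (∀ e, 0 ≤ θ e) ∧
      ∑ e, θ e ^ 2 ≤ CF * Real.log ((2 * m : ℕ) : ℝ) ∧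
      (∀ z, dv θ z = ind {x + cz N (a s.2) (b s.2)} z - ind {p s.1.1} z) ∧
      ∀ e, θ e ≤ (if Line (p s.1.1) s.1.2 e then 1 else 0)
        + (if Line (x + cz N (a s.2) (b s.2)) 0 e then 1 else 0) + η / (2 * σ) := by
    rintro ⟨⟨u, j⟩, l⟩
    obtain ⟨h1, h2⟩ := hab l
    have hm' : (2 : ℤ) ≤ m := by exact_mod_cast hm
    cases u with
    | false =>
      exact hCF N (2 * m) (by omega) hN3 x (a l) (b l) (by push_cast; omega) (by push_cast; omega)
        j 0
    | true =>
      obtain ⟨h3, h4⟩ := GtA_dir i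
      have e : x + dr N i + cz N (a l - (dir i).1) (b l - (dir i).2) = x + cz N (a l) (b l) := by
        rw [← cz_dir, add_assoc, ← cz_add]
        simp
      have := hCF N (2 * m) (by omega) hN3 (x + dr N i) (a l - (dir i).1) (b l - (dir i).2)
        ((abs_sub _ _).trans (by push_cast; omega)) ((abs_sub _ _).trans (by push_cast; omega)) j 0
      rw [e] at this
      exact this
  choose f hf0 hfE hfd hfl using hfl
  have hg0 : ∑ j, w (false, j) = ρ * (A - α i) := GtA_erase α ρ i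
  have hg1 : ∑ j, w (true, j) = ρ * (A - α (i + 2)) := GtA_erase α ρ (i + 2)
  have hsum : ∑ j, w (false, j) + ∑ j, w (true, j) = σ := by
    rw [hg0, hg1, ← mul_add, hρ]
    field_simp
    ring
  have hw : ∑ s, w s = σ := by
    rw [Fintype.sum_prod_type, Fintype.sum_bool, add_comm, hsum]
  have hc : ∀ g : Bool × Fin 4 → ℝ,
      ∑ s : (Bool × Fin 4) × Fin k, w s.1 / k * g s.1 = ∑ s, w s * g s := fun g => by
    rw [Fintype.sum_prod_type]
    refine Finset.sum_congr rfl fun s _ => ?_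
    simp only [Finset.sum_const, card_univ, Fintype.card_fin, nsmul_eq_mul]
    field_simp
  have hc' : ∀ g : Fin k → ℝ,
      ∑ s : (Bool × Fin 4) × Fin k, w s.1 / k * g s.2 = ∑ l, σ / k * g l := fun g => by
    rw [Fintype.sum_prod_type_right]
    refine Finset.sum_congr rfl fun l _ => ?_
    simp only
    rw [← Finset.sum_mul, ← Finset.sum_div, hw]
  have hcw : ∀ s : (Bool × Fin 4) × Fin k, 0 ≤ w s.1 / k := fun s => div_nonneg (hw0 _) hk0.le
  refine ⟨fun e => ∑ s, w s.1 / k * f s e, ∑ j, w (false, j), ∑ j, w (true, j),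
    Finset.sum_nonneg fun j _ => hw0 _, Finset.sum_nonneg fun j _ => hw0 _, hsum,
    fun e => Finset.sum_nonneg fun s _ => mul_nonneg (hcw s) (hf0 s e), fun e => ?_, ?_,
    fun z => ?_⟩
  · have h1 : ∑ s, w s.1 / k * f s e ≤
        (∑ s, w s * if Line (p s.1) s.2 e then 1 else 0)
        + (∑ l, σ / k * if Line (x + cz N (a l) (b l)) 0 e then 1 else 0)
        + ∑ s, w s * (η / (2 * σ)) := by
      rw [← hc fun s => if Line (p s.1) s.2 e then 1 else 0,
        ← hc' fun l => if Line (x + cz N (a l) (b l)) 0 e then 1 else 0,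
        ← hc fun _ => η / (2 * σ), ← Finset.sum_add_distrib, ← Finset.sum_add_distrib]
      refine Finset.sum_le_sum fun s _ => ?_
      rw [← mul_add, ← mul_add]
      exact mul_le_mul_of_nonneg_left (hfl s e) (hcw s)
    have h2 : (∑ s, w s * if Line (p s.1) s.2 e then (1 : ℝ) else 0) ≤ ρ * α e.2 := by
      have h3 : ∀ u, (∑ j, w (u, j) * if Line (p u) j e then (1 : ℝ) else 0) =
          w (u, e.2) * if Line (p u) e.2 e then 1 else 0 := fun u => by
        refine Finset.sum_eq_single e.2 (fun j _ hj => ?_) (by simp)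
        rw [if_neg fun h => hj h.1.symm, mul_zero]
      have h4 : 0 ≤ ρ * α e.2 := (mul_pos hρ0 (hα _)).le
      rw [Fintype.sum_prod_type, Fintype.sum_bool, h3, h3]
      simp only [w, i', p, if_true, Bool.false_eq_true, if_false]
      split_ifs with c1 c2 c3 c4 c5 c6 c7 c8 <;> try linarith
      exact (GtA_disj hN2 x (by assumption) (by assumption) (by assumption) (by assumption)).elim
    have h3 : (∑ l, σ / k * if Line (x + cz N (a l) (b l)) 0 e then (1 : ℝ) else 0) ≤ η / 2 := by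
      rw [← Finset.mul_sum]
      exact (mul_le_of_le_one_right (div_nonneg hσ.le hk0.le) (GtA_sinks x a b hb e)).trans hkη
    have h4 : ∑ s, w s * (η / (2 * σ)) = η / 2 := by
      rw [← Finset.sum_mul, hw]
      field_simp
    have h5 : (1 - σ / κ) * α j₀ ≤ (1 - ρ) * α e.2 :=
      mul_le_mul (by linarith) (hj₀ _ (mem_univ _)) (hα _).le (by linarith)
    have h6 : 2 * η = (1 - σ / κ) * α j₀ := by rw [hη]; ring
    simp only
    linarith
  · refine (GtA_energy (fun s : (Bool × Fin 4) × Fin k => w s.1 / k) f _ hcw hfE).trans ?_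
    have h1 : ∑ s : (Bool × Fin 4) × Fin k, w s.1 / k = σ := by
      have := hc fun _ => 1
      simpa [hw] using this
    have hm' : (2 : ℝ) ≤ m := by exact_mod_cast hm
    have h2 : Real.log ((2 * m : ℕ) : ℝ) ≤ 2 * Real.log m := by
      push_cast
      rw [Real.log_mul two_ne_zero (by linarith)]
      have := Real.log_le_log two_pos hm'
      linarith
    have h3 : 0 ≤ Real.log (m : ℝ) := Real.log_nonneg (by linarith)
    have h4 : 2 * σ ^ 2 * CF ≤ ((2 * CF + 1 + ⌈2 * σ ^ 2 * CF⌉₊ : ℕ) : ℝ) := by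
      have := Nat.le_ceil (2 * σ ^ 2 * CF)
      push_cast
      have : (0 : ℝ) ≤ CF := Nat.cast_nonneg _
      linarith
    rw [h1]
    calc σ ^ 2 * (CF * Real.log ((2 * m : ℕ) : ℝ)) ≤ σ ^ 2 * (CF * (2 * Real.log m)) := by gcongr
      _ = 2 * σ ^ 2 * CF * Real.log m := by ring
      _ ≤ _ := mul_le_mul_of_nonneg_right h4 h3
  · rw [dv_sum]
    simp only [dv_mul, hfd, mul_sub, Finset.sum_sub_distrib]
    rw [hc' fun l => ind {x + cz N (a l) (b l)} z, hc fun s => ind {p s.1} z,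
      Fintype.sum_prod_type, Fintype.sum_bool]
    simp only [p, if_true, Bool.false_eq_true, if_false, ← Finset.sum_mul]
    ring

end DRW
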