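import Pool.Agent.P.MP_de05b4_pr.Basic

/-! The basic tail bound for the escape probability, and boosting of a likely edge. -/

namespace DRW

open MeasureTheory ProbabilityTheory Finset Filter
open scoped ENNReal Topology

variable {N : ℕ} [NeZero N]

theorem GtB_sum_ind (φ : T N → ℝ) (x : T N) : ∑ y, φ y * ind {x} y = φ x := by
  simp [ind]

theorem GtB_prod {K : ℕ} {x : T N} (hx : x ∈ Wd N 0 K) {β : E N → ℝ} (hβ : Pos β) {k : ℕ}
    {z : Fin k → T N} {g γ c₁ lam : ℝ} (hg : 0 ≤ g) (hc : 0 < c₁) (hl0 : 0 < lam) (hl1 : lam ≤ 1)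
    (hdv : ∀ y, dv β y ≤ (∑ l, g * ind {z l} y) - γ * ind {x} y) {G : E N → ℝ} (hG : Pos G)
    (hz : ∀ l, c₁ ≤ 1 - gx 0 K x G (z l)) :
    c₁ ^ (g * k) * lam ^ (-γ) ≤
      ∏ y, (1 + (lam - 1) * gx 0 K x G y) ^ dvA (outE (Wd N 0 K \ {x}) ∪ outE {x}) β y := by
  have h0 : ∀ y, 0 < 1 + (lam - 1) * gx 0 K x G y := fun y => by
    have h1 := gx_le_one hG 0 K x y
    nlinarith
  have h1 : ∀ y, 1 + (lam - 1) * gx 0 K x G y ≤ 1 := fun y => by
    have h1 := gx_nonneg hG 0 K x y
    nlinarith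
  have h2 : ∀ y, (1 + (lam - 1) * gx 0 K x G y) ^ ((∑ l, g * ind {z l} y) - γ * ind {x} y) ≤
      (1 + (lam - 1) * gx 0 K x G y) ^ dvA (outE (Wd N 0 K \ {x}) ∪ outE {x}) β y := by
    intro y
    by_cases hy : y ∈ Wd N 0 K
    · refine Real.rpow_le_rpow_of_exponent_ge (h0 y) (h1 y) (le_trans ?_ (hdv y))
      refine dvA_le_dv (fun e => (hβ e).le) fun i => ?_
      rw [mem_union, mem_outE, mem_outE, Finset.mem_sdiff, Finset.mem_singleton]
      by_cases hyx : y = x
      · exact Or.inr hyx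
      · exact Or.inl ⟨hy, hyx⟩
    · rw [gx_off hG hx hy]
      simp
  refine le_trans ?_ (Finset.prod_le_prod (fun y _ => (Real.rpow_pos_of_pos (h0 y) _).le)
    fun y _ => h2 y)
  simp only [Real.rpow_def_of_pos (h0 _)]
  rw [Real.rpow_def_of_pos hc, Real.rpow_def_of_pos hl0, ← Real.exp_add, ← Real.exp_sum,
    Real.exp_le_exp]
  set L : T N → ℝ := fun y => Real.log (1 + (lam - 1) * gx 0 K x G y) with hL
  have e1 : ∑ y, L y * ((∑ l, g * ind {z l} y) - γ * ind {x} y)
      = (∑ l, g * L (z l)) - γ * L x := by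
    simp only [mul_sub, Finset.sum_sub_distrib, Finset.mul_sum]
    rw [Finset.sum_comm]
    congr 1
    · refine Finset.sum_congr rfl fun l _ => ?_
      rw [← GtB_sum_ind (fun y => g * L y) (z l)]
      exact Finset.sum_congr rfl fun y _ => by ring
    · rw [← GtB_sum_ind (fun y => γ * L y) x]
      exact Finset.sum_congr rfl fun y _ => by ring
  have e2 : L x = Real.log lam := by
    simp only [hL]
    rw [gx_self hG]
    congr 1
    ring
  have e3 : ∀ l, g * Real.log c₁ ≤ g * L (z l) := fun l => by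
    refine mul_le_mul_of_nonneg_left (Real.log_le_log hc ?_) hg
    have a1 := hz l
    have a2 := gx_nonneg hG 0 K x (z l)
    nlinarith
  have e4 : ∑ _l : Fin k, g * Real.log c₁ ≤ ∑ l, g * L (z l) := Finset.sum_le_sum fun l _ => e3 l
  rw [Finset.sum_const, card_univ, Fintype.card_fin, nsmul_eq_mul] at e4
  change _ ≤ ∑ y, L y * ((∑ l, g * ind {z l} y) - γ * ind {x} y)
  rw [e1, e2]
  nlinarith

theorem GtB_flux {K : ℕ} (x : T N) {G : E N → ℝ} (hG : Pos G) :
    Fx G (outE {x}) (fun y => 1 - gx 0 K x G y) = Zs G x * esc 0 K x G := by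
  have hZ := Zs_pos hG x
  unfold Fx esc
  rw [sum_outE, Finset.sum_singleton, Finset.mul_sum]
  refine Finset.sum_congr rfl fun i _ => ?_
  change G (x, i) * (1 - gx 0 K x G (x + dr N i))
    = Zs G x * (G (x, i) / Zs G x * (1 - gx 0 K x G (x + dr N i)))
  field_simp

theorem pf_GtB (hI : StIF) (hS : StScale) : StGtB := by
  intro N _ K _ x hx β hβ k z g γ c₁ lam hg hc0 _ hl0 hl1 hdv
  set D : Set (E N → ℝ) := {G | esc 0 K x G ≤ lam ∧ ∀ l, c₁ ≤ 1 - gx 0 K x G (z l)} with hD
  have hDm : MeasurableSet D := by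
    have : D = {G | esc 0 K x G ≤ lam} ∩ ⋂ l, {G | c₁ ≤ 1 - gx 0 K x G (z l)} := by
      ext G
      simp [hD]
    rw [this]
    exact (measurableSet_le (measurable_esc 0 K x) measurable_const).inter
      (MeasurableSet.iInter fun l =>
        measurableSet_le measurable_const (measurable_const.sub (measurable_gx 0 K x _)))
  have hinv : ScaleInv x (D.indicator 1) := fun c hc G hG => by
    have : scl x c G ∈ D ↔ G ∈ D := by
      simp only [hD, Set.mem_ofPred_eq, esc_scl hG 0 K x x hc, gx_scl hG 0 K x x hc]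
    by_cases h : G ∈ D
    · rw [Set.indicator_of_mem h, Set.indicator_of_mem (this.2 h)]
      rfl
    · rw [Set.indicator_of_notMem h, Set.indicator_of_notMem fun h' => h (this.1 h')]
  have h1 := hI N β hβ (Wd N 0 K \ {x}) {x} (outE {x}) (Wd_sdiff_ne_univ 0 K _) sdiff_disjoint
    (fun e he => by
      rw [mem_outE] at he
      exact fun h => (Finset.mem_sdiff.1 h).2 he) (lam - 1) (by linarith)
  have f1 : ((outE {x} : Finset (E N)).filter fun e => e.1 ∉ ({x} : Finset (T N))) = ∅ :=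
    Finset.filter_eq_empty_iff.2 fun e he h => h (mem_outE.1 he)
  have f2 : ((outE {x} : Finset (E N)).filter fun e => e.1 ∈ ({x} : Finset (T N))) = outE {x} :=
    Finset.filter_true_of_mem fun e he => mem_outE.1 he
  rw [f1, f2] at h1
  have h2 := hS N β hβ x (D.indicator 1) (measurable_one.indicator hDm) hinv 1 (by norm_num)
  rw [lintegral_indicator_one hDm] at h2
  have hc : 0 < c₁ ^ (g * k) * lam ^ (-γ) := by positivity
  have h3 : ENNReal.ofReal (c₁ ^ (g * k) * lam ^ (-γ)) *
      ∫⁻ G, D.indicator 1 G * ENNReal.ofReal (Real.exp (-1 * Zs G x)) ∂mu β ≤ 1 := by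
    refine le_trans ?_ h1
    unfold Ex
    rw [← lintegral_const_mul' _ _ ENNReal.ofReal_ne_top]
    refine lintegral_mono_ae ((ae_pos hβ).mono fun G hG => ?_)
    by_cases h : G ∈ D
    · simp only [Set.indicator_of_mem h, Pi.one_apply, one_mul]
      rw [← ENNReal.ofReal_mul hc.le, mul_comm]
      refine ENNReal.ofReal_le_ofReal (mul_le_mul ?_ (GtB_prod hx hβ hg hc0 hl0 hl1 hdv hG h.2)
        hc.le (Real.exp_pos _).le)
      rw [Real.exp_le_exp]
      have e1 : Fx G ∅ (har (Wd N 0 K \ {x}) (ind {x}) G) = 0 := Finset.sum_empty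
      have e2 : Fx G (outE {x}) (fun y => 1 - har (Wd N 0 K \ {x}) (ind {x}) G y)
          = Zs G x * esc 0 K x G := GtB_flux x hG
      rw [e1, e2]
      have hZ := Zs_pos hG x
      have he0 := esc_nonneg hG 0 K x
      have he1 : esc 0 K x G / lam ≤ 1 := (div_le_one hl0).2 h.1
      have he2 : 0 ≤ esc 0 K x G / lam := div_nonneg he0 hl0.le
      have e3 : (lam - 1) / (1 + (lam - 1)) * (Zs G x * esc 0 K x G)
          = -(Zs G x * ((1 - lam) * (esc 0 K x G / lam))) := by
        have : 1 + (lam - 1) = lam := by ring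
        rw [this]
        field_simp
        ring
      rw [e3]
      have e4 : (1 - lam) * (esc 0 K x G / lam) ≤ 1 := by nlinarith
      nlinarith
    · simp only [Set.indicator_of_notMem h, zero_mul, mul_zero]
      exact zero_le
  rw [h2, ← mul_assoc, ← ENNReal.ofReal_mul hc.le] at h3
  have hp : 0 < c₁ ^ (g * k) * lam ^ (-γ) * (1 + 1 : ℝ) ^ (-Zs β x) := by positivity
  have e5 : (2 : ℝ) ^ Zs β x * c₁ ^ (-(g * k)) * lam ^ γ
      = (c₁ ^ (g * k) * lam ^ (-γ) * (1 + 1 : ℝ) ^ (-Zs β x))⁻¹ := by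
    rw [one_add_one_eq_two, Real.rpow_neg hc0.le, Real.rpow_neg hl0.le,
      Real.rpow_neg (by norm_num : (0 : ℝ) ≤ 2)]
    simp only [mul_inv, inv_inv]
    ring
  rw [e5, ENNReal.ofReal_inv_of_pos hp, ENNReal.le_inv_iff_mul_le, mul_comm]
  exact h3

theorem GtB_step (hO : StOm) {β : E N → ℝ} (hβ : Pos β) (e : E N) {D : Set (E N → ℝ)}
    (hD : MeasurableSet D) (hinv : ScaleInv e.1 (D.indicator 1)) :
    mu β (D ∩ {G | 1 / 4 ≤ om G e}) ≤ 4 * mu (bump β e) (D ∩ {G | 1 / 4 ≤ om G e}) := by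
  set D' : Set (E N → ℝ) := D ∩ {G | 1 / 4 ≤ om G e} with hD'
  have hm : MeasurableSet D' := hD.inter (measurableSet_le measurable_const (measurable_om e))
  have hinv' : ScaleInv e.1 (D'.indicator 1) := fun c hc G hG => by
    have h1 : scl e.1 c G ∈ D ↔ G ∈ D := by
      have := hinv c hc G hG
      by_cases a : scl e.1 c G ∈ D <;> by_cases b : G ∈ D <;> simp_all
    have : scl e.1 c G ∈ D' ↔ G ∈ D' := by
      simp only [hD', Set.mem_inter_iff, Set.mem_ofPred_eq, h1, om_scl e.1 hc]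
    by_cases h : G ∈ D'
    · rw [Set.indicator_of_mem h, Set.indicator_of_mem (this.2 h)]
      rfl
    · rw [Set.indicator_of_notMem h, Set.indicator_of_notMem fun h' => h (this.1 h')]
  have h1 := hO N β hβ e (D'.indicator 1) (measurable_one.indicator hm) hinv'
  rw [lintegral_indicator_one hm] at h1
  have h2 : mu β D' ≤ 4 * ∫⁻ G, ENNReal.ofReal (om G e) * D'.indicator 1 G ∂mu β := by
    rw [← lintegral_indicator_one hm, ← lintegral_const_mul' _ _ (by norm_num)]
    refine lintegral_mono fun G => ?_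
    by_cases h : G ∈ D'
    · simp only [Set.indicator_of_mem h, Pi.one_apply, mul_one]
      have h4 : (1 : ℝ) / 4 ≤ om G e := h.2
      rw [← ENNReal.ofReal_ofNat 4, ← ENNReal.ofReal_mul (by norm_num), ← ENNReal.ofReal_one]
      exact ENNReal.ofReal_le_ofReal (by linarith)
    · simp only [Set.indicator_of_notMem h]
      exact zero_le
  rw [h1] at h2
  refine h2.trans ?_
  gcongr
  refine mul_le_of_le_one_left' ?_
  rw [← ENNReal.ofReal_one]
  exact ENNReal.ofReal_le_ofReal (om_le_one hβ e)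

theorem pf_Boost (hO : StOm) : StBoost := by
  intro N _ β hβ e n D hD hinv
  induction n generalizing β with
  | zero =>
    have : (fun e' => β e' + if e' = e then ((0 : ℕ) : ℝ) else 0) = β := by
      funext e'
      simp
    rw [this, pow_zero, one_mul]
    exact measure_mono Set.inter_subset_left
  | succ n ih =>
    have : (fun e' => β e' + if e' = e then ((n + 1 : ℕ) : ℝ) else 0)
        = fun e' => bump β e e' + if e' = e then (n : ℝ) else 0 := by
      funext e'
      unfold bump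
      split_ifs
      · push_cast
        ring
      · ring
    rw [this, pow_succ', mul_assoc]
    refine (GtB_step hO hβ e hD hinv).trans ?_
    gcongr
    exact ih (bump β e) (pos_bump hβ e)

end DRW
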