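import Pool.Agent.P.MP_de05b4_pr.Basic

/-! Lower tail of the flux that hits a site of the strip. -/

namespace DRW

open MeasureTheory ProbabilityTheory Finset Filter
open scoped ENNReal Topology

variable {N : ℕ} [NeZero N]

theorem Hlow_markov {β : E N → ℝ} (hβ : Pos β) {X : (E N → ℝ) → ℝ} {D : Set (E N → ℝ)}
    (hD : MeasurableSet D) {c : ℝ} (hc : 0 < c) (h : ∀ G, Pos G → G ∈ D → c ≤ X G)
    (hX : Ex β X ≤ 1) : mu β D ≤ ENNReal.ofReal c⁻¹ := by
  have h1 : ENNReal.ofReal c * mu β D ≤ 1 := by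
    rw [← lintegral_indicator_const hD]
    refine le_trans (lintegral_mono_ae ((ae_pos hβ).mono fun G hG => ?_)) hX
    by_cases hGD : G ∈ D
    · rw [Set.indicator_of_mem hGD]; exact ENNReal.ofReal_le_ofReal (h G hG hGD)
    · rw [Set.indicator_of_notMem hGD]; exact zero_le
  have hc' : ENNReal.ofReal c ≠ 0 := by simpa using hc
  rw [ENNReal.ofReal_inv_of_pos hc]
  calc mu β D = (ENNReal.ofReal c)⁻¹ * (ENNReal.ofReal c * mu β D) := by
        rw [← mul_assoc, ENNReal.inv_mul_cancel hc' ENNReal.ofReal_ne_top, one_mul]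
    _ ≤ (ENNReal.ofReal c)⁻¹ * 1 := by gcongr
    _ = _ := mul_one _

theorem Hlow_sum_dvA (B : Finset (E N)) (β : E N → ℝ) (L : T N → ℝ) :
    ∑ z, L z * dvA B β z = ∑ e ∈ B, β e * (L (tg e) - L e.1) := by
  unfold dvA
  simp only [mul_sub, Finset.sum_sub_distrib, Finset.mul_sum]
  rw [Finset.sum_comm, Finset.sum_comm (s := univ)]
  congr 1
  · refine Finset.sum_congr rfl fun e _ => ?_
    simp only [mul_ite, mul_zero]
    rw [Finset.sum_ite_eq, if_pos (mem_univ _), mul_comm]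
  · refine Finset.sum_congr rfl fun e _ => ?_
    simp only [mul_ite, mul_zero]
    rw [Finset.sum_ite_eq, if_pos (mem_univ _), mul_comm]

theorem Hlow_exp {K : ℕ} (hK : K < N) {x : T N} (hx : x ∈ Wd N 0 K) {β : E N → ℝ} (hβ : Pos β)
    (hdv : ∀ z ∈ Wd N 0 K, 0 ≤ dv β z) {γ u : ℝ} (hγ : γ ≤ dv β x) (hu : 0 ≤ u)
    {L : T N → ℝ} (h0 : ∀ z, 0 ≤ L z) (h1 : ∀ z, L z ≤ u) (hLx : L x = u)
    (hoff : ∀ z, z ∉ Wd N 0 K → L z = 0) :
    γ * u ≤ ∑ z, L z * dvA (outE (Wd N 0 K \ {x}) ∪ Src N 0 K) β z := by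
  have hx' := mem_Wd.mp hx
  have hU : outE (Wd N 0 K) ∪ Src N 0 K =
      (outE (Wd N 0 K \ {x}) ∪ Src N 0 K) ∪ outE {x} := by
    ext e
    simp only [mem_union, mem_outE, Finset.mem_sdiff, mem_singleton]
    constructor
    · rintro (h | h)
      · by_cases he : e.1 = x
        · exact Or.inr he
        · exact Or.inl (Or.inl ⟨h, he⟩)
      · exact Or.inl (Or.inr h)
    · rintro ((h | h) | h)
      · exact Or.inl h.1
      · exact Or.inr h
      · exact Or.inl (h ▸ hx)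
  have hdis : Disjoint (outE (Wd N 0 K \ {x}) ∪ Src N 0 K) (outE {x}) := by
    refine Finset.disjoint_left.mpr fun e h1 h2 => ?_
    rw [mem_outE, mem_singleton] at h2
    rw [mem_union, mem_outE, Finset.mem_sdiff, mem_singleton, mem_Src, h2] at h1
    rcases h1 with h | h | h
    · exact h.2 rfl
    · omega
    · omega
  have h2 : γ * u ≤ ∑ z, L z * dvA (outE (Wd N 0 K) ∪ Src N 0 K) β z := by
    have h3 : ∀ z ∈ (univ : Finset (T N)),
        0 ≤ L z * dvA (outE (Wd N 0 K) ∪ Src N 0 K) β z := by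
      intro z _
      by_cases hz : z ∈ Wd N 0 K
      · rw [dvA_Src_in hK β hz]; exact mul_nonneg (h0 z) (hdv z hz)
      · rw [hoff z hz, zero_mul]
    refine le_trans ?_ (Finset.single_le_sum h3 (mem_univ x))
    rw [dvA_Src_in hK β hx, hLx, mul_comm]
    exact mul_le_mul_of_nonneg_left hγ hu
  rw [Hlow_sum_dvA, hU, Finset.sum_union hdis] at h2
  rw [Hlow_sum_dvA]
  have h4 : ∑ e ∈ outE {x}, β e * (L (tg e) - L e.1) ≤ 0 := by
    refine Finset.sum_nonpos fun e he => ?_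
    rw [mem_outE, mem_singleton] at he
    refine mul_nonpos_of_nonneg_of_nonpos (hβ e).le ?_
    rw [he, hLx]
    exact sub_nonpos.mpr (h1 _)
  linarith

theorem Hlow_core (hI : StIF) {K : ℕ} (hK : K < N) {x : T N} (hx : x ∈ Wd N 0 K)
    {β : E N → ℝ} (hβ : Pos β) (hdv : ∀ z ∈ Wd N 0 K, 0 ≤ dv β z) {γ u : ℝ}
    (hγ : γ ≤ dv β x) (hu : 0 ≤ u) :
    mu β {G | HH 0 K x G ≤ Real.exp (-u)} ≤ ENNReal.ofReal (Real.exp (1 - γ * u)) := by
  have hx' := mem_Wd.mp hx
  have hlam : 1 ≤ Real.exp u := Real.one_le_exp hu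
  have hS : ∀ e ∈ Src N 0 K, e.1 ∉ Wd N 0 K := fun e he h => by
    rw [mem_Src] at he; rw [mem_Wd] at h; omega
  have h1 := hI N β hβ (Wd N 0 K \ {x}) {x} (Src N 0 K) (Wd_sdiff_ne_univ 0 K _)
    Finset.sdiff_disjoint (fun e he h => hS e he (Finset.mem_sdiff.mp h).1) (Real.exp u - 1)
    (by linarith)
  have hf1 : ((Src N 0 K).filter fun e => e.1 ∉ ({x} : Finset (T N))) = Src N 0 K :=
    Finset.filter_true_of_mem fun e he h => hS e he (by rw [mem_singleton.mp h]; exact hx)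
  have hf2 : ((Src N 0 K).filter fun e => e.1 ∈ ({x} : Finset (T N))) = ∅ :=
    Finset.filter_false_of_mem fun e he h => hS e he (by rw [mem_singleton.mp h]; exact hx)
  rw [hf1, hf2] at h1
  have h2 := Hlow_markov hβ (D := {G | HH 0 K x G ≤ Real.exp (-u)})
    (measurableSet_le (measurable_HH 0 K x) measurable_const)
    (Real.exp_pos (γ * u - 1)) ?_ h1
  · rwa [← Real.exp_neg, neg_sub] at h2
  · intro G hG hD
    have hD' : HH 0 K x G ≤ Real.exp (-u) := hD
    have hg0 := gx_nonneg hG 0 K x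
    have hg1 := gx_le_one hG 0 K x
    have hp : ∀ z, 1 ≤ 1 + (Real.exp u - 1) * gx 0 K x G z := fun z => by
      have := mul_nonneg (sub_nonneg.mpr hlam) (hg0 z)
      linarith
    have hq : ∀ z, 1 + (Real.exp u - 1) * gx 0 K x G z ≤ Real.exp u := fun z => by
      have := mul_le_of_le_one_right (sub_nonneg.mpr hlam) (hg1 z)
      linarith
    have h3 := Hlow_exp hK hx hβ hdv hγ hu
      (L := fun z => Real.log (1 + (Real.exp u - 1) * gx 0 K x G z))
      (fun z => Real.log_nonneg (hp z))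
      (fun z => (Real.log_le_iff_le_exp (lt_of_lt_of_le one_pos (hp z))).mpr (hq z))
      (by simp only [gx_self hG]; rw [mul_one, add_sub_cancel, Real.log_exp])
      (fun z hz => by simp only [gx_off hG hx hz]; rw [mul_zero, add_zero, Real.log_one])
    have h4 : (∏ z, (1 + (Real.exp u - 1) * gx 0 K x G z) ^
        dvA (outE (Wd N 0 K \ {x}) ∪ Src N 0 K) β z) =
        Real.exp (∑ z, Real.log (1 + (Real.exp u - 1) * gx 0 K x G z) *
          dvA (outE (Wd N 0 K \ {x}) ∪ Src N 0 K) β z) := by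
      rw [Real.exp_sum]
      exact Finset.prod_congr rfl fun z _ =>
        Real.rpow_def_of_pos (lt_of_lt_of_le one_pos (hp z)) _
    change Real.exp (γ * u - 1) ≤ Real.exp (-(Real.exp u - 1) * HH 0 K x G +
      (Real.exp u - 1) / (1 + (Real.exp u - 1)) * Fx G ∅ fun z => 1 - gx 0 K x G z) *
      ∏ z, (1 + (Real.exp u - 1) * gx 0 K x G z) ^ dvA (outE (Wd N 0 K \ {x}) ∪ Src N 0 K) β z
    rw [h4, ← Real.exp_add, Real.exp_le_exp]
    have h5 : Fx G ∅ (fun z => 1 - gx 0 K x G z) = 0 := Finset.sum_empty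
    rw [h5, mul_zero, add_zero]
    have h6 : (Real.exp u - 1) * HH 0 K x G ≤ (Real.exp u - 1) * Real.exp (-u) :=
      mul_le_mul_of_nonneg_left hD' (sub_nonneg.mpr hlam)
    have h7 : Real.exp u * Real.exp (-u) = 1 := by rw [← Real.exp_add]; simp
    have h8 := Real.exp_pos (-u)
    nlinarith

theorem pf_Hlow (hI : StIF) (hF : StFlow) (hH : StHold) : StHlow := by
  intro α hα
  obtain ⟨i₀, -, hi₀⟩ := Finset.exists_min_image univ α univ_nonempty
  have ha : 0 < α i₀ := hα.1 i₀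
  obtain ⟨CH, hCH0, hCH⟩ := hH (α i₀ / 2) (by positivity)
  obtain ⟨CF, hCF⟩ := hF 1 one_pos
  have hd : 0 < 16 * CH * CF + 1 := by positivity
  obtain ⟨γ, hγ0, hγ1, hγ2⟩ : ∃ γ : ℝ, 0 < γ ∧ γ ≤ α i₀ / 6 ∧ γ ≤ 1 / (16 * CH * CF + 1) :=
    ⟨min (α i₀ / 6) (1 / (16 * CH * CF + 1)), lt_min (by positivity) (by positivity),
      min_le_left _ _, min_le_right _ _⟩
  have hγ3 : CH * CF * γ ≤ 1 / 16 := by
    rw [le_div_iff₀ hd] at hγ2
    nlinarith
  refine ⟨γ / 32, CF, max 2 ⌈Real.exp (16 / γ)⌉₊, by positivity, ?_⟩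
  intro N _ K hK₀ hCK hKN x hx β hβα hdv
  have hK2 : 2 ≤ K := le_trans (le_max_left _ _) hK₀
  have hKpos : (0 : ℝ) < K := by exact_mod_cast (by omega : 0 < K)
  have hKe : Real.exp (16 / γ) ≤ K :=
    le_trans (Nat.le_ceil _) (by exact_mod_cast le_trans (le_max_right _ _) hK₀)
  have hl : 16 / γ ≤ Real.log K := (Real.le_log_iff_exp_le hKpos).mpr hKe
  have hl0 : 0 ≤ Real.log K := le_trans (by positivity) hl
  have hl1 : 16 ≤ γ * Real.log K := by
    rw [div_le_iff₀ hγ0] at hl; linarith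
  have hx' := mem_Wd.mp hx
  obtain ⟨θ, hθ0, hθE, hθd, hθb⟩ := hCF N K hK2 hCK ((0 : ZMod N), x.2) (col x : ℕ) 0
    (by rw [abs_of_nonneg (by positivity)]; exact_mod_cast hx'.2.le) (by simp) 0 0
  have hpx : ((0 : ZMod N), x.2) + cz N (col x : ℕ) 0 = x := by
    ext <;> simp [cz, col]
  rw [hpx] at hθd hθb
  have hθ3 : ∀ e, θ e ≤ 3 := fun e => by
    have := hθb e
    split_ifs at this <;> linarith
  have hβ : Pos β := fun e => lt_of_lt_of_le (hα.1 _) (hβα e)
  have hD : MeasurableSet {G : E N → ℝ | HH 0 K x G ≤ (K : ℝ) ^ (-(1 / 4 : ℝ))} :=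
    measurableSet_le (measurable_HH 0 K x) measurable_const
  have h1 := hCH N β (fun e => γ * θ e) 1 one_pos le_rfl
    (fun e => mul_nonneg hγ0.le (hθ0 e))
    (fun e => by
      have h2 := hi₀ e.2 (mem_univ _)
      have h3 := hβα e
      have h4 := mul_le_mul_of_nonneg_left (hθ3 e) hγ0.le
      linarith) _ hD
  have hβ' : Pos (β + fun e => γ * θ e) := fun e => by
    have := mul_nonneg hγ0.le (hθ0 e)
    have := hβ e
    simp only [Pi.add_apply]
    linarith
  have hdv' : ∀ z ∈ Wd N 0 K, dv (β + fun e => γ * θ e) z = dv β z + γ * ind {x} z := by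
    intro z hz
    have hzp : z ∉ ({((0 : ZMod N), x.2)} : Finset (T N)) := by
      rw [mem_singleton]
      rintro rfl
      have := (mem_Wd.mp hz).1
      simp [col] at this
    rw [dv_add, dv_mul, hθd, ind_of_notMem hzp, sub_zero]
  have h2 := Hlow_core hI hKN hx hβ' (γ := γ) (u := Real.log K / 4)
    (fun z hz => by
      rw [hdv' z hz]
      exact add_nonneg (hdv z hz) (mul_nonneg hγ0.le (ind_nonneg _ _)))
    (by
      rw [hdv' x hx, ind_of_mem (mem_singleton_self x), mul_one]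
      have := hdv x hx
      linarith) (by positivity)
  have h3 : (K : ℝ) ^ (-(1 / 4 : ℝ)) = Real.exp (-(Real.log K / 4)) := by
    rw [Real.rpow_def_of_pos hKpos]; congr 1; ring
  rw [h3] at h1 ⊢
  refine h1.trans ?_
  have h4 : ∑ e, (γ * θ e) ^ 2 ≤ γ ^ 2 * (CF * Real.log K) := by
    simp only [mul_pow, ← Finset.mul_sum]
    exact mul_le_mul_of_nonneg_left hθE (by positivity)
  calc ENNReal.ofReal (Real.exp (CH * ∑ e, (γ * θ e) ^ 2)) *
        mu (β + fun e => γ * θ e) {G | HH 0 K x G ≤ Real.exp (-(Real.log K / 4))} ^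
          ((1 : ℝ) / (1 + 1))
      ≤ ENNReal.ofReal (Real.exp (CH * (γ ^ 2 * (CF * Real.log K)))) *
        ENNReal.ofReal (Real.exp (1 - γ * (Real.log K / 4))) ^ ((1 : ℝ) / (1 + 1)) := by
        gcongr
    _ = ENNReal.ofReal (Real.exp (CH * (γ ^ 2 * (CF * Real.log K)) +
          (1 - γ * (Real.log K / 4)) * (1 / (1 + 1)))) := by
        rw [ENNReal.ofReal_rpow_of_pos (Real.exp_pos _), ← Real.exp_mul,
          ← ENNReal.ofReal_mul (Real.exp_pos _).le, ← Real.exp_add]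
    _ ≤ _ := by
        refine ENNReal.ofReal_le_ofReal ?_
        rw [Real.rpow_def_of_pos hKpos, Real.exp_le_exp]
        have h5 : CH * CF * γ * (γ * Real.log K) ≤ 1 / 16 * (γ * Real.log K) :=
          mul_le_mul_of_nonneg_right hγ3 (by linarith)
        nlinarith

end DRW
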