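import Pool.Agent.P.MP_de05b4_pr.Basic

namespace DRW

open MeasureTheory ProbabilityTheory Finset Filter
open scoped ENNReal Topology

theorem Hold_prod {ι : Type*} [Fintype ι] (a b : ι → ℝ) (ha : ∀ e, 0 < a e) (hb : ∀ e, 0 < b e) :
    ∏ e, Real.Gamma (a e) / Real.Gamma (b e) =
      Real.exp (∑ e, (Real.log (Real.Gamma (a e)) - Real.log (Real.Gamma (b e)))) := by
  rw [Real.exp_sum]
  refine Finset.prod_congr rfl fun e _ => ?_
  rw [Real.exp_sub, Real.exp_log (Real.Gamma_pos_of_pos (ha e)),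
    Real.exp_log (Real.Gamma_pos_of_pos (hb e))]

theorem Hold_pt {ι : Type*} [Fintype ι] (G θ : ι → ℝ) (hG : ∀ e, 0 < G e) (τ : ℝ) :
    ENNReal.ofReal (∏ e, G e ^ θ e) ^ (τ / (1 + τ)) *
      ENNReal.ofReal (∏ e, G e ^ (-τ * θ e)) ^ (1 / (1 + τ)) = 1 := by
  have hP : 0 < ∏ e, G e ^ θ e := Finset.prod_pos fun e _ => Real.rpow_pos_of_pos (hG e) _
  have h1 : ∏ e, G e ^ (-τ * θ e) = (∏ e, G e ^ θ e) ^ (-τ) := by
    rw [← Real.finsetProd_rpow _ _ fun e _ => (Real.rpow_pos_of_pos (hG e) _).le]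
    refine Finset.prod_congr rfl fun e _ => ?_
    rw [mul_comm, Real.rpow_mul (hG e).le]
  rw [h1, ENNReal.ofReal_rpow_of_pos hP, ENNReal.ofReal_rpow_of_pos (Real.rpow_pos_of_pos hP _),
    ← ENNReal.ofReal_mul (Real.rpow_pos_of_pos hP _).le, ← Real.rpow_mul hP.le,
    ← Real.rpow_add hP]
  have : τ / (1 + τ) + -τ * (1 / (1 + τ)) = 0 := by ring
  rw [this, Real.rpow_zero, ENNReal.ofReal_one]

theorem pf_Hold (hT : StTilt) (hC : StCost) : StHold := by
  intro η hη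
  obtain ⟨C, hC0, hCb⟩ := hC η hη
  refine ⟨C, hC0, ?_⟩
  intro N _ β θ τ hτ hτ1 hθ hβθ D hD
  have hτθ : ∀ e, 0 ≤ τ * θ e := fun e => mul_nonneg hτ.le (hθ e)
  have hβ : Pos β := fun e => by have := hβθ e; have := hτθ e; linarith
  have hβp : Pos (β + θ) := fun e => by
    have := hβ e; have := hθ e; simp only [Pi.add_apply]; linarith
  have hβm : Pos (β + fun e => -τ * θ e) := fun e => by
    have := hβθ e; simp only [Pi.add_apply]; linarith
  have h1τ : 0 < 1 + τ := by linarith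
  have hp : 0 ≤ τ / (1 + τ) := by positivity
  have hq : 0 ≤ 1 / (1 + τ) := by positivity
  have hpq : τ / (1 + τ) + 1 / (1 + τ) = 1 := by field_simp; ring
  have hI : Measurable (D.indicator (1 : (E N → ℝ) → ℝ≥0∞)) := measurable_one.indicator hD
  have hm : ∀ φ : E N → ℝ, Measurable fun G : E N → ℝ => ENNReal.ofReal (∏ e, G e ^ φ e) :=
    fun φ => (Finset.measurable_prod _ fun e _ =>
      (measurable_pi_apply e).pow_const _).ennreal_ofReal
  have e1 := hT N β θ hβ hβp (D.indicator 1) hI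
  have e2 := hT N β (fun e => -τ * θ e) hβ hβm (fun _ => 1) measurable_const
  have := prob_mu hβm
  rw [lintegral_indicator_one hD] at e1
  simp only [mul_one, lintegral_const, measure_univ] at e2
  have hH := ENNReal.lintegral_mul_norm_pow_le (μ := mu β)
    (f := fun G => ENNReal.ofReal (∏ e, G e ^ θ e) * D.indicator 1 G)
    (g := fun G => ENNReal.ofReal (∏ e, G e ^ (-τ * θ e)))
    ((hm θ).mul hI).aemeasurable (hm _).aemeasurable hp hq hpq
  rw [e1, e2] at hH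
  have h0 : mu β D ≤ ∫⁻ G, (ENNReal.ofReal (∏ e, G e ^ θ e) * D.indicator 1 G) ^ (τ / (1 + τ)) *
      ENNReal.ofReal (∏ e, G e ^ (-τ * θ e)) ^ (1 / (1 + τ)) ∂mu β := by
    rw [← lintegral_indicator_one hD]
    refine lintegral_mono_ae ((ae_pos hβ).mono fun G hG => ?_)
    by_cases hGD : G ∈ D
    · simp only [Set.indicator_of_mem hGD, Pi.one_apply, mul_one]
      exact (Hold_pt G θ hG τ).ge
    · simp [Set.indicator_of_notMem hGD]
  refine h0.trans (hH.trans ?_)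
  rw [ENNReal.mul_rpow_of_nonneg _ _ hp, mul_right_comm]
  gcongr
  rw [Hold_prod (fun e => β e + θ e) β hβp hβ, Hold_prod (fun e => β e + -τ * θ e) β hβm hβ,
    ENNReal.ofReal_rpow_of_pos (Real.exp_pos _), ENNReal.ofReal_rpow_of_pos (Real.exp_pos _),
    ← ENNReal.ofReal_mul (Real.rpow_pos_of_pos (Real.exp_pos _) _).le, ← Real.exp_mul,
    ← Real.exp_mul, ← Real.exp_add]
  refine ENNReal.ofReal_le_ofReal (Real.exp_le_exp.mpr ?_)
  have hS : τ * (∑ e, (Real.log (Real.Gamma (β e + θ e)) - Real.log (Real.Gamma (β e)))) +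
      ∑ e, (Real.log (Real.Gamma (β e + -τ * θ e)) - Real.log (Real.Gamma (β e))) ≤
      C * ∑ e, θ e ^ 2 := by
    rw [Finset.mul_sum, Finset.mul_sum, ← Finset.sum_add_distrib]
    refine Finset.sum_le_sum fun e _ => ?_
    have h := hCb (β e) (θ e) τ hτ hτ1 (hθ e) (hβθ e)
    have : β e + -τ * θ e = β e - τ * θ e := by ring
    rw [this]; linarith
  have hX : 0 ≤ C * ∑ e, θ e ^ 2 := mul_nonneg hC0 (Finset.sum_nonneg fun e _ => sq_nonneg _)
  have hq1 : 1 / (1 + τ) ≤ 1 := by rw [div_le_one h1τ]; linarith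
  calc _ = 1 / (1 + τ) * (τ * (∑ e, (Real.log (Real.Gamma (β e + θ e))
          - Real.log (Real.Gamma (β e)))) +
        ∑ e, (Real.log (Real.Gamma (β e + -τ * θ e)) - Real.log (Real.Gamma (β e)))) := by ring
    _ ≤ 1 / (1 + τ) * (C * ∑ e, θ e ^ 2) := mul_le_mul_of_nonneg_left hS hq
    _ ≤ 1 * (C * ∑ e, θ e ^ 2) := mul_le_mul_of_nonneg_right hq1 hX
    _ = _ := one_mul _

end DRW
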