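import Pool.Agent.P.MP_de05b4_pr.Basic

/-! The Jacobian determinant of the Doob transform of the weights. -/

namespace DRW

open MeasureTheory ProbabilityTheory Finset Filter
open scoped ENNReal Topology

variable {N : ℕ} [NeZero N]

/-- weighted gradient along the edges of `A` -/
noncomputable def I2_U (A : Finset (E N)) (G : E N → ℝ) : (T N → ℝ) →ₗ[ℝ] (E N → ℝ) where
  toFun φ := fun e => if e ∈ A then G e * (φ (tg e) - φ e.1) else 0
  map_add' φ ψ := by
    funext e
    simp only [Pi.add_apply]
    split_ifs <;> ring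
  map_smul' c φ := by
    funext e
    simp only [Pi.smul_apply, smul_eq_mul, RingHom.id_apply]
    split_ifs <;> ring

omit [NeZero N] in
theorem I2_U_apply (A : Finset (E N)) (G : E N → ℝ) (φ : T N → ℝ) (e : E N) :
    I2_U A G φ e = if e ∈ A then G e * (φ (tg e) - φ e.1) else 0 := rfl

theorem I2_det_comm (U : (T N → ℝ) →ₗ[ℝ] (E N → ℝ)) (P : (E N → ℝ) →ₗ[ℝ] (T N → ℝ)) :
    LinearMap.det (LinearMap.id + U ∘ₗ P) = LinearMap.det (LinearMap.id + P ∘ₗ U) := by
  rw [← LinearMap.det_toMatrix', ← LinearMap.det_toMatrix', map_add, map_add,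
    LinearMap.toMatrix'_id, LinearMap.toMatrix'_id, LinearMap.toMatrix'_comp,
    LinearMap.toMatrix'_comp, Matrix.det_one_add_mul_comm]

theorem I2_det_one {W : Finset (T N)} {A : Finset (E N)} (hW : W ≠ univ) (hA : outE W ⊆ A)
    {G : E N → ℝ} (hG : Pos G) {h : T N → ℝ} (hh : ∀ x, 0 < h x)
    (hlap : ∀ x ∈ W, lap G h x = 0) (D : (E N → ℝ) →ₗ[ℝ] (T N → ℝ))
    (hD : ∀ d : E N → ℝ, (∀ x ∈ W, lap G (D d) x + lap d h x = 0) ∧ ∀ x, x ∉ W → D d x = 0) :
    LinearMap.det (LinearMap.id +
      (Matrix.toLin' (Matrix.diagonal fun x => (h x)⁻¹) ∘ₗ D) ∘ₗ I2_U A G) = 1 := by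
  set Q : (T N → ℝ) →ₗ[ℝ] (T N → ℝ) := LinearMap.id +
      (Matrix.toLin' (Matrix.diagonal fun x => (h x)⁻¹) ∘ₗ D) ∘ₗ I2_U A G with hQ
  have key : Matrix.toLin' (hmat W G) ∘ₗ (Matrix.toLin' (Matrix.diagonal h) ∘ₗ Q) =
      Matrix.toLin' (Matrix.diagonal h) ∘ₗ Matrix.toLin' (hmat W G) := by
    refine LinearMap.ext fun φ => ?_
    have h1 : Matrix.toLin' (Matrix.diagonal h) (Q φ) =
        fun x => D (I2_U A G φ) x + h x * φ x := by
      funext x
      have := (hh x).ne'
      simp only [hQ, Matrix.toLin'_apply, Matrix.mulVec_diagonal, LinearMap.add_apply,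
        LinearMap.id_apply, LinearMap.comp_apply, Pi.add_apply]
      field_simp
      ring
    funext x
    simp only [LinearMap.comp_apply]
    rw [h1]
    simp only [Matrix.toLin'_apply, Matrix.mulVec_diagonal, hmat_mulVec]
    by_cases hx : x ∈ W
    · rw [if_pos hx, if_pos hx, lap_add]
      have h2 := (hD (I2_U A G φ)).1 x hx
      have h3 := hlap x hx
      have h4 : lap (I2_U A G φ) h x =
          ∑ i, G (x, i) * (φ (x + dr N i) - φ x) * (h (x + dr N i) - h x) := by
        unfold lap
        refine Finset.sum_congr rfl fun i _ => ?_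
        rw [I2_U_apply, if_pos (hA (mem_outE.mpr hx))]
        rfl
      have h5 : lap G (fun z => h z * φ z) x - lap (I2_U A G φ) h x =
          h x * lap G φ x + φ x * lap G h x := by
        rw [h4]
        unfold lap
        rw [Finset.mul_sum, Finset.mul_sum, ← Finset.sum_sub_distrib, ← Finset.sum_add_distrib]
        exact Finset.sum_congr rfl fun i _ => by ring
      rw [h3] at h5
      linarith
    · rw [if_neg hx, if_neg hx, (hD _).2 x hx, zero_add]
  have h6 := congrArg LinearMap.det key
  simp only [LinearMap.det_comp, LinearMap.det_toLin'] at h6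
  have h7 := hmat_det_ne hG hW
  have h8 : (Matrix.diagonal h).det ≠ 0 := by
    rw [Matrix.det_diagonal]
    exact Finset.prod_ne_zero_iff.mpr fun x _ => (hh x).ne'
  have h9 : (hmat W G).det * (Matrix.diagonal h).det * (LinearMap.det Q - 1) = 0 := by
    linear_combination h6
  rcases mul_eq_zero.mp h9 with h10 | h10
  · exact absurd h10 (mul_ne_zero h7 h8)
  · linarith

theorem pf_I2 (h : StI1) : StI2 := by
  intro N _ W A hW hA f hf G hG
  obtain ⟨D, hD1, hD2⟩ := h N W hW f G hG
  have hh : ∀ x, 0 < har W f G x := har_pos hG hW hf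
  let r : E N → ℝ := fun e => if e ∈ A then har W f G (tg e) / har W f G e.1 else 1
  let P : (E N → ℝ) →ₗ[ℝ] (T N → ℝ) :=
    Matrix.toLin' (Matrix.diagonal fun x => (har W f G x)⁻¹) ∘ₗ (D : (E N → ℝ) →ₗ[ℝ] (T N → ℝ))
  let L : (E N → ℝ) →ₗ[ℝ] (E N → ℝ) :=
    Matrix.toLin' (Matrix.diagonal r) ∘ₗ (LinearMap.id + I2_U A G ∘ₗ P)
  have hL : ∀ d e, L d e = r e * (d e + if e ∈ A then G e * ((har W f G (tg e))⁻¹ * D d (tg e) -
      (har W f G e.1)⁻¹ * D d e.1) else 0) := by
    intro d e
    simp only [L, P, LinearMap.comp_apply, Matrix.toLin'_apply, Matrix.mulVec_diagonal,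
      LinearMap.add_apply, LinearMap.id_apply, Pi.add_apply, I2_U_apply,
      ContinuousLinearMap.coe_coe]
  refine ⟨LinearMap.toContinuousLinearMap L, ?_, ?_⟩
  · rw [hasFDerivAt_pi']
    intro e
    have hx : ∀ x, HasFDerivAt (fun G' => har W f G' x)
        ((ContinuousLinearMap.proj x).comp D) G := fun x => (hasFDerivAt_pi'.mp hD1) x
    have he : HasFDerivAt (fun G' : E N → ℝ => G' e)
        (ContinuousLinearMap.proj (R := ℝ) (φ := fun _ : E N => ℝ) e) G := hasFDerivAt_apply e G
    by_cases heA : e ∈ A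
    · have hi := (hasDerivAt_inv (hh e.1).ne').comp_hasFDerivAt G (hx e.1)
      have h1 := he.mul ((hx (tg e)).mul hi)
      have h2 : (fun G' => Tm W A f G' e) = (fun G' : E N → ℝ => G' e) *
          ((fun G' => har W f G' (tg e)) * ((fun y : ℝ => y⁻¹) ∘ fun G' => har W f G' e.1)) := by
        funext G'
        simp only [Tm, if_pos heA, Pi.mul_apply, Function.comp_apply, div_eq_mul_inv]
      rw [h2]
      refine h1.congr_fderiv ?_
      ext d
      have h3 := (hh e.1).ne'
      have h4 := (hh (tg e)).ne'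
      simp only [ContinuousLinearMap.comp_apply, ContinuousLinearMap.proj_apply,
        LinearMap.coe_toContinuousLinearMap', hL, r, if_pos heA, _root_.add_apply,
        _root_.smul_apply, Pi.mul_apply, Function.comp_apply, smul_eq_mul]
      field_simp
      ring
    · have h2 : (fun G' => Tm W A f G' e) = fun G' : E N → ℝ => G' e := by
        funext G'
        simp only [Tm, if_neg heA]
      rw [h2]
      refine he.congr_fderiv ?_
      ext d
      simp only [ContinuousLinearMap.comp_apply, ContinuousLinearMap.proj_apply,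
        LinearMap.coe_toContinuousLinearMap', hL, r, if_neg heA]
      ring
  · have h1 : (LinearMap.toContinuousLinearMap L).det = LinearMap.det L := rfl
    rw [h1]
    simp only [L]
    rw [LinearMap.det_comp, I2_det_comm, I2_det_one hW hA hG hh
      (fun x hx => har_lap hG hW f hx) _ hD2, mul_one, LinearMap.det_toLin', Matrix.det_diagonal]
    simp only [r]
    rw [Finset.prod_ite_mem, Finset.univ_inter]

end DRW
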