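import Pool.Agent.P.MP_de05b4_pr.Basic

/-! The change of variables given by the Doob transform. -/

namespace DRW

open MeasureTheory ProbabilityTheory Finset
open scoped ENNReal

variable {N : ℕ} [NeZero N]

/-- The joint density of the weights. -/
noncomputable def I3_rho (β G : E N → ℝ) : ℝ := ∏ e, gammaPDFReal (β e) 1 (G e)

theorem I3_measurable_rho (β : E N → ℝ) : Measurable (I3_rho β) :=
  Finset.measurable_prod _ fun e _ => (measurable_gammaPDFReal _ _).comp (measurable_pi_apply e)

theorem I3_mu_eq {β : E N → ℝ} (hβ : Pos β) :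
    mu β = volume.withDensity fun G => ENNReal.ofReal (I3_rho β G) := by
  have : ∀ e, IsProbabilityMeasure (gammaMeasure (β e) 1) := fun e =>
    isProbabilityMeasure_gammaMeasure (hβ e) one_pos
  have h0 : ∀ e x, 0 ≤ gammaPDFReal (β e) 1 x := fun e x => gammaPDFReal_nonneg (hβ e) one_pos x
  have h1 : ∀ e, Integrable (gammaPDFReal (β e) 1) := fun e =>
    (lintegral_ofReal_ne_top_iff_integrable (measurable_gammaPDFReal _ _).aestronglyMeasurable
      (ae_of_all _ (h0 e))).1 ((lintegral_gammaPDF_eq_one (hβ e) one_pos).trans_ne ENNReal.one_ne_top)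
  refine Measure.pi_eq fun s hs => ?_
  rw [withDensity_apply _ (MeasurableSet.univ_pi hs), volume_pi, Measure.restrict_pi_pi]
  unfold I3_rho
  rw [← ofReal_integral_eq_lintegral_ofReal (Integrable.fintype_prod fun e => (h1 e).restrict)
      (ae_of_all _ fun G => prod_nonneg fun e _ => h0 e _),
    integral_fintype_prod_eq_prod (fun e => gammaPDFReal (β e) 1),
    ENNReal.ofReal_prod_of_nonneg fun e _ => integral_nonneg (h0 e)]
  refine prod_congr rfl fun e _ => ?_
  rw [gammaMeasure, withDensity_apply _ (hs e),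
    ofReal_integral_eq_lintegral_ofReal (h1 e).restrict (ae_of_all _ (h0 e))]
  rfl

theorem I3_inj {W : Finset (T N)} {A : Finset (E N)} (hW : W ≠ univ) (hA : outE W ⊆ A)
    {f : T N → ℝ} (hf : ∀ x, 0 < f x) : Set.InjOn (Tm W A f) {G | Pos G} := by
  have key : ∀ G, Pos G → (fun x => (har W f G x)⁻¹) = har W (fun x => (f x)⁻¹) (Tm W A f G) := by
    intro G hG
    have h := har_pos hG hW hf
    refine har_unique (fun e => ?_) hW (fun x hx => ?_) fun x hx => by rw [har_off hG hW f hx]
    · unfold Tm
      split_ifs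
      · exact mul_pos (hG e) (div_pos (h _) (h _))
      · exact hG e
    · have h1 : lap (Tm W A f G) (fun x => (har W f G x)⁻¹) x =
          -(har W f G x ^ 2)⁻¹ * lap G (har W f G) x := by
        unfold lap
        rw [mul_sum]
        refine sum_congr rfl fun i _ => ?_
        have h2 := (h x).ne'
        have h3 := (h (x + dr N i)).ne'
        rw [Tm, if_pos (hA (mem_outE.2 hx))]
        simp only [tg]
        field_simp
        ring
      rw [h1, har_lap hG hW f hx, mul_zero]
  intro G hG G' hG' h
  have h1 : har W f G = har W f G' := by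
    funext x
    exact inv_injective (congrFun ((key G hG).trans (h ▸ (key G' hG').symm)) x)
  funext e
  have h2 := congrFun h e
  unfold Tm at h2
  split_ifs at h2
  · rw [h1] at h2
    exact mul_right_cancel₀ (div_pos (har_pos hG' hW hf _) (har_pos hG' hW hf _)).ne' h2
  · exact h2

theorem I3_edge {b g r : ℝ} (hg : 0 < g) (hr : 0 < r) :
    gammaPDFReal b 1 g * (Real.exp (-(g * (r - 1))) * r ^ b) = r * gammaPDFReal b 1 (g * r) := by
  rw [gammaPDFReal, gammaPDFReal, if_pos hg.le, if_pos (mul_pos hg hr).le,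
    Real.mul_rpow hg.le hr.le, Real.rpow_sub_one hr.ne',
    show -(1 * (g * r)) = -(1 * g) + -(g * (r - 1)) by ring, Real.exp_add]
  field_simp

theorem pf_I (h : StI2) : StI := by
  intro N _ β hβ W A hW hA f hf
  have hS : MeasurableSet {G : E N → ℝ | Pos G} := by
    unfold Pos
    rw [Set.ofPred_forall]
    exact MeasurableSet.iInter fun e => measurableSet_lt measurable_const (measurable_pi_apply e)
  choose! D hD hdet using h N W A hW hA f hf
  have h1 := lintegral_image_eq_lintegral_abs_det_fderiv_mul volume hS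
    (fun G hG => (hD G hG).hasFDerivWithinAt) (I3_inj hW hA hf)
    fun G => ENNReal.ofReal (I3_rho β G)
  have h2 : ∫⁻ G, ENNReal.ofReal (I3_rho β G) = 1 := by
    have := prob_mu hβ
    rw [← measure_univ (μ := mu β), I3_mu_eq hβ, withDensity_apply _ MeasurableSet.univ,
      Measure.restrict_univ]
  rw [Ex, ← Measure.restrict_eq_self_of_ae_mem (s := {G | Pos G}) (ae_pos hβ), I3_mu_eq hβ,
    setLIntegral_withDensity_eq_setLIntegral_mul_non_measurable _
      (I3_measurable_rho β).ennreal_ofReal _ hS (ae_of_all _ fun _ => ENNReal.ofReal_lt_top), ← h2]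
  refine le_trans (le_of_eq ?_) (h1.symm.trans_le (setLIntegral_le_lintegral _ _))
  refine setLIntegral_congr_fun hS fun G hG => ?_
  have hr : ∀ e, 0 < har W f G (tg e) / har W f G e.1 := fun e =>
    div_pos (har_pos hG hW hf _) (har_pos hG hW hf _)
  have h3 : 0 ≤ I3_rho β G := prod_nonneg fun e _ => gammaPDFReal_nonneg (hβ e) one_pos _
  simp only [Pi.mul_apply]
  rw [← ENNReal.ofReal_mul h3, ← ENNReal.ofReal_mul (abs_nonneg _), hdet G hG,
    abs_of_pos (prod_pos fun e _ => hr e), I3_rho, I3_rho, ← prod_mul_prod_compl A,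
    ← prod_mul_prod_compl A, ← sum_neg_distrib, Real.exp_sum, ← prod_mul_distrib, mul_right_comm,
    ← prod_mul_distrib, ← mul_assoc, ← prod_mul_distrib]
  congr 2
  · refine prod_congr rfl fun e he => ?_
    rw [Tm, if_pos he]
    exact I3_edge (hG e) (hr e)
  · refine prod_congr rfl fun e he => ?_
    rw [Tm, if_neg (mem_compl.1 he)]

end DRW
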