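import Pool.Agent.P.MP_de05b4_pr.Basic

/-! Flux inequalities from the change of variables. -/

namespace DRW

open MeasureTheory ProbabilityTheory Finset Filter
open scoped ENNReal Topology

variable {N : ℕ} [NeZero N]

theorem IF_prod (A : Finset (E N)) (β : E N → ℝ) {h : T N → ℝ} (hh : ∀ z, 0 < h z) :
    ∏ e ∈ A, (h (tg e) / h e.1) ^ β e = ∏ z, h z ^ dvA A β z := by
  have h1 : ∀ e ∈ A, (h (tg e) / h e.1) ^ β e =
      Real.exp (Real.log (h (tg e)) * β e - Real.log (h e.1) * β e) := fun e _ => by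
    rw [Real.rpow_def_of_pos (div_pos (hh _) (hh _)), Real.log_div (hh _).ne' (hh _).ne', sub_mul]
  have h2 : ∀ z ∈ (univ : Finset (T N)), h z ^ dvA A β z =
      Real.exp (Real.log (h z) * dvA A β z) := fun z _ => Real.rpow_def_of_pos (hh z) _
  rw [Finset.prod_congr rfl h1, Finset.prod_congr rfl h2, ← Real.exp_sum, ← Real.exp_sum]
  congr 1
  unfold dvA
  simp only [mul_sub, Finset.mul_sum, Finset.sum_sub_distrib]
  rw [Finset.sum_comm, Finset.sum_comm (s := univ)]
  congr 1
  · refine Finset.sum_congr rfl fun e _ => ?_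
    simp only [mul_ite, mul_zero, Finset.sum_ite_eq, mem_univ, if_true]
  · refine Finset.sum_congr rfl fun e _ => ?_
    simp only [mul_ite, mul_zero, Finset.sum_ite_eq, mem_univ, if_true]

theorem IF_har {G : E N → ℝ} (hG : Pos G) {W : Finset (T N)} (hW : W ≠ univ) (Sg : Finset (T N))
    (t : ℝ) (z : T N) :
    har W (fun z => 1 + t * ind Sg z) G z = 1 + t * har W (ind Sg) G z := by
  rw [har_add G W (fun _ => 1) (fun z => t * ind Sg z), har_mul, har_const hG hW]

omit [NeZero N] in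
theorem IF_pos (Sg : Finset (T N)) {t : ℝ} (ht : -1 < t) (z : T N) : 0 < 1 + t * ind Sg z := by
  unfold ind; split_ifs <;> linarith

theorem IF_base {G : E N → ℝ} (hG : Pos G) {W : Finset (T N)} (hW : W ≠ univ) (Sg : Finset (T N))
    {t : ℝ} (ht : -1 < t) (z : T N) : 0 < 1 + t * har W (ind Sg) G z := by
  rw [← IF_har hG hW]; exact har_pos hG hW (IF_pos Sg ht) z

theorem IF_out {G : E N → ℝ} (hG : Pos G) {W : Finset (T N)} (hW : W ≠ univ) {f : T N → ℝ}
    (hf : ∀ x, 0 < f x) :
    ∑ e ∈ outE W, G e * (har W f G (tg e) / har W f G e.1 - 1) = 0 := by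
  rw [sum_outE]
  refine Finset.sum_eq_zero fun x hx => ?_
  have h0 := har_lap hG hW f hx
  have hp := har_pos hG hW hf x
  unfold lap at h0
  have : ∀ i ∈ (univ : Finset (Fin 4)),
      G (x, i) * (har W f G (tg (x, i)) / har W f G (x, i).1 - 1) =
      G (x, i) * (har W f G (x + dr N i) - har W f G x) * (har W f G x)⁻¹ := fun i _ => by
    change G (x, i) * (har W f G (x + dr N i) / har W f G x - 1) = _
    field_simp
  rw [Finset.sum_congr rfl this, ← Finset.sum_mul, h0, zero_mul]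

theorem pf_IF (h : StI) : StIF := by
  intro N _ β hβ W Sg S hW hd hS t ht
  have hdis : Disjoint (outE W) S :=
    Finset.disjoint_left.mpr fun e h1 h2 => hS e h2 (mem_outE.mp h1)
  have key := h N β hβ W (outE W ∪ S) hW subset_union_left (fun z => 1 + t * ind Sg z)
    (IF_pos Sg ht)
  refine le_trans (le_of_eq (Ex_congr hβ fun G hG => ?_)) key
  have hp : ∀ z, 0 < har W (fun z => 1 + t * ind Sg z) G z := har_pos hG hW (IF_pos Sg ht)
  rw [IF_prod _ _ hp, Finset.sum_union hdis, IF_out hG hW (IF_pos Sg ht), zero_add]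
  simp only [IF_har hG hW]
  congr 2
  rw [← Finset.sum_filter_add_sum_filter_not S (fun e => e.1 ∈ Sg), neg_add, add_comm]
  unfold Fx
  rw [Finset.mul_sum, Finset.mul_sum, ← Finset.sum_neg_distrib, ← Finset.sum_neg_distrib]
  have h1t : (1 + t) ≠ 0 := by linarith
  congr 1
  · refine Finset.sum_congr rfl fun e he => ?_
    obtain ⟨he1, he2⟩ := mem_filter.mp he
    rw [har_off hG hW _ (hS e he1), ind_of_mem he2]
    field_simp
    ring
  · refine Finset.sum_congr rfl fun e he => ?_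
    obtain ⟨he1, he2⟩ := mem_filter.mp he
    rw [har_off hG hW _ (hS e he1), ind_of_notMem he2]
    ring

theorem IF_lower {G : E N → ℝ} (hG : Pos G) {W Sg : Finset (T N)} (hW : W ≠ univ)
    (hd : Disjoint W Sg) {t : ℝ} (ht : -1 < t) (d : T N → ℝ) (hd0 : ∀ z ∈ W, 0 ≤ t * d z) :
    (1 + t) ^ (∑ z ∈ Sg, d z) ≤ ∏ z, (1 + t * har W (ind Sg) G z) ^ d z := by
  have h1t : 0 < 1 + t := by linarith
  have e1 : (1 + t) ^ (∑ z ∈ Sg, d z) = ∏ z, if z ∈ Sg then (1 + t) ^ d z else 1 := by
    rw [Real.rpow_sum_of_pos h1t, Finset.prod_ite_mem, univ_inter]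
  rw [e1]
  refine Finset.prod_le_prod (fun z _ => ?_) fun z _ => ?_
  · split_ifs
    · exact Real.rpow_nonneg h1t.le _
    · exact zero_le_one
  · by_cases hz : z ∈ W
    · rw [if_neg (Finset.disjoint_left.mp hd hz)]
      have g0 := har_ind_nonneg hG hW Sg z
      have hb := IF_base hG hW Sg ht z
      have hz0 := hd0 z hz
      rcases lt_trichotomy t 0 with h | h | h
      · have : d z ≤ 0 := by
          by_contra hc
          push Not at hc
          nlinarith [mul_neg_of_neg_of_pos h hc]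
        exact Real.one_le_rpow_of_pos_of_le_one_of_nonpos hb (by nlinarith) this
      · simp [h]
      · have : 0 ≤ d z := by
          by_contra hc
          push Not at hc
          nlinarith [mul_neg_of_pos_of_neg h hc]
        exact Real.one_le_rpow (by nlinarith) this
    · rw [har_off hG hW _ hz]
      split_ifs with hs
      · rw [ind_of_mem hs, mul_one]
      · rw [ind_of_notMem hs]; simp

theorem pf_IF1 (h : StIF) : StIF1 := by
  intro N _ β hβ W Sg S hW hd hS t ht hsg
  have key := h N β hβ W Sg S hW hd hS t ht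
  have h1t : 0 < 1 + t := by linarith
  set c := (1 + t) ^ (-∑ z ∈ Sg, dvA (outE W ∪ S) β z) with hc
  have hc0 : 0 < c := Real.rpow_pos_of_pos h1t _
  refine le_trans (Ex_mono hβ (Y := fun G => c * (Real.exp (-t * Fx G (S.filter fun e => e.1 ∉ Sg)
      (har W (ind Sg) G) + t / (1 + t) * Fx G (S.filter fun e => e.1 ∈ Sg)
      fun z => 1 - har W (ind Sg) G z) *
      ∏ z, (1 + t * har W (ind Sg) G z) ^ dvA (outE W ∪ S) β z)) fun G hG => ?_) ?_
  · have hl := IF_lower hG hW hd ht (dvA (outE W ∪ S) β) hsg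
    have hcc : c * (1 + t) ^ (∑ z ∈ Sg, dvA (outE W ∪ S) β z) = 1 := by
      rw [hc, ← Real.rpow_add h1t, neg_add_cancel, Real.rpow_zero]
    have h1 : 1 ≤ c * ∏ z, (1 + t * har W (ind Sg) G z) ^ dvA (outE W ∪ S) β z :=
      hcc.ge.trans (mul_le_mul_of_nonneg_left hl hc0.le)
    rw [mul_left_comm]
    exact le_mul_of_one_le_right (Real.exp_pos _).le h1
  · rw [Ex_const_mul β hc0.le]
    calc _ ≤ ENNReal.ofReal c * 1 := by gcongr
      _ = _ := mul_one _

theorem pf_HB (h : StIF1) : StHB := by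
  intro N _ β hβ W Sg S hW hd hS hdv
  have hβ0 : ∀ e, 0 ≤ β e := fun e => (hβ e).le
  have key := h N β hβ W Sg S hW hd (fun e he => (hS e he).1) (-1 / 2) (by norm_num)
    (fun z hz => by
      have := dvA_le_dv (A := outE W ∪ S) hβ0 (z := z)
        (fun i => mem_union_left _ (mem_outE.mpr hz))
      have := hdv z hz
      linarith)
  have f1 : (S.filter fun e => e.1 ∉ Sg) = S := Finset.filter_true_of_mem fun e he => (hS e he).2
  have f2 : (S.filter fun e => e.1 ∈ Sg) = ∅ :=
    Finset.filter_false_of_mem fun e he => (hS e he).2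
  rw [f1, f2] at key
  have hle : (1 + -1 / 2 : ℝ) ^ (-∑ z ∈ Sg, dvA (outE W ∪ S) β z) ≤
      (2 : ℝ) ^ (∑ z ∈ Sg, inw β z) := by
    rw [show (1 + -1 / 2 : ℝ) = 2⁻¹ by norm_num, Real.inv_rpow (by norm_num),
      ← Real.rpow_neg (by norm_num), neg_neg]
    exact Real.rpow_le_rpow_of_exponent_le (by norm_num)
      (Finset.sum_le_sum fun z _ => dvA_le_inw _ hβ0 z)
  have k1 : Ex β (fun G => Real.exp (Fx G S (har W (ind Sg) G) / 2))
      ≤ ENNReal.ofReal ((2 : ℝ) ^ (∑ z ∈ Sg, inw β z)) := by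
    refine le_trans (le_of_eq (Ex_congr hβ fun G _ => ?_)) (key.trans (ENNReal.ofReal_le_ofReal hle))
    congr 1
    simp only [Fx, Finset.sum_empty]
    ring
  refine ⟨k1, ?_⟩
  set I := ∑ z ∈ Sg, inw β z with hI
  have hI0 : 0 ≤ I := Finset.sum_nonneg fun z _ => Finset.sum_nonneg fun i _ => hβ0 _
  have hl2 : Real.log 2 ≤ 1 := by
    have := Real.log_le_sub_one_of_pos (show (0 : ℝ) < 2 by norm_num); linarith
  have hl0 : 0 ≤ Real.log 2 := Real.log_nonneg (by norm_num)
  have h2I : (0 : ℝ) < 2 ^ I := Real.rpow_pos_of_pos (by norm_num) _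
  -- X + 2 ≤ 2 c + 2 · 2^{-I} exp (X / 2)
  have step : Ex β (fun G => Fx G S (har W (ind Sg) G) + 2) ≤
      Ex β (fun G => 2 * I + 2 * ((2 : ℝ) ^ I)⁻¹ * Real.exp (Fx G S (har W (ind Sg) G) / 2)) := by
    refine Ex_mono hβ fun G _ => ?_
    have e1 := Real.add_one_le_exp (Fx G S (har W (ind Sg) G) / 2 - Real.log 2 * I)
    rw [Real.exp_sub, ← Real.rpow_def_of_pos (by norm_num : (0 : ℝ) < 2), div_eq_mul_inv
      (Real.exp _)] at e1
    have : Real.log 2 * I ≤ I := mul_le_of_le_one_left hI0 hl2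
    nlinarith
  have hm := measurable_Fx_har S W (ind Sg)
  rw [Ex_add hβ hm (fun G hG => Fx_nonneg hG fun _ _ => har_ind_nonneg hG hW _ _)
    (fun _ _ => by norm_num), Ex_const hβ] at step
  have step2 := step.trans (Ex_add_le β measurable_const)
  rw [Ex_const hβ, Ex_const_mul β (by positivity)] at step2
  have h3 : ENNReal.ofReal (2 * ((2 : ℝ) ^ I)⁻¹) *
      Ex β (fun G => Real.exp (Fx G S (har W (ind Sg) G) / 2)) ≤ ENNReal.ofReal 2 := by
    calc _ ≤ ENNReal.ofReal (2 * ((2 : ℝ) ^ I)⁻¹) * ENNReal.ofReal ((2 : ℝ) ^ I) := by gcongr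
      _ = ENNReal.ofReal 2 := by
        rw [← ENNReal.ofReal_mul (by positivity), mul_assoc, inv_mul_cancel₀ h2I.ne', mul_one]
  have step3 := step2.trans (add_le_add le_rfl h3)
  exact (ENNReal.add_le_add_iff_right ENNReal.ofReal_ne_top).mp step3

end DRW
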