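import Pool.Agent.P.MP_de05b4_pr.Basic

/-! The flux inequalities on a strip and the mean flux identity. -/

namespace DRW

open MeasureTheory ProbabilityTheory Finset Filter
open scoped ENNReal Topology

section
variable {N : ℕ} [NeZero N]

theorem IFL_disj {s t c : ℕ} (hc : c = s ∨ c = t) {I : Finset (T N)} (hI : I ⊆ Col N c) :
    Disjoint (Wd N s t) I := by
  rw [Finset.disjoint_left]
  intro x hx hxI
  have h1 := mem_Wd.mp hx
  have h2 := mem_Col.mp (hI hxI)
  omega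

theorem IFL_src {s t : ℕ} : ∀ e ∈ Src N s t, e.1 ∉ Wd N s t := by
  intro e he h
  have h1 := mem_Wd.mp h
  have h2 := mem_Src.mp he
  omega

theorem IFL_dv {s t : ℕ} (ht : t < N) (α : Fin 4 → ℝ) (τ : ℝ) :
    ∀ z ∈ Wd N s t, 0 ≤ τ * dvA (outE (Wd N s t) ∪ Src N s t) (al N α) z := by
  intro z hz
  rw [dvA_Src_in ht _ hz, dv_al, mul_zero]

theorem IFL_cmp {β : E N → ℝ} (hβ : Pos β) {U V Z : (E N → ℝ) → ℝ} (hU : Measurable U)
    (hZ : Measurable Z) (hU0 : ∀ G, Pos G → 0 ≤ U G) (hV0 : ∀ G, Pos G → 0 ≤ V G)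
    {u v k₁ k₂ p q : ℝ} (hu : 0 ≤ u) (hv : 0 ≤ v) (eU : Ex β U = ENNReal.ofReal u)
    (eV : Ex β V = ENNReal.ofReal v) (eZ : Ex β Z ≤ 1) (h1 : 0 ≤ k₁) (h2 : 0 ≤ k₂) (hp : 0 ≤ p)
    (hq : 0 ≤ q) (h : ∀ G, Pos G → p * U G + k₁ ≤ Z G + (k₂ + q * V G)) :
    p * u + k₁ ≤ 1 + (k₂ + q * v) := by
  have a1 : Ex β (fun G => p * U G + k₁) = ENNReal.ofReal (p * u + k₁) := by
    rw [Ex_add hβ (X := fun G => p * U G) (Y := fun _ => k₁) (measurable_const.mul hU)
      (fun G hG => mul_nonneg hp (hU0 G hG)) (fun _ _ => h1), Ex_const_mul β hp, eU, Ex_const hβ,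
      ← ENNReal.ofReal_mul hp, ← ENNReal.ofReal_add (mul_nonneg hp hu) h1]
  have a2 : Ex β (fun G => k₂ + q * V G) = ENNReal.ofReal (k₂ + q * v) := by
    rw [Ex_add hβ (X := fun _ => k₂) (Y := fun G => q * V G) measurable_const
      (fun _ _ => h2) (fun G hG => mul_nonneg hq (hV0 G hG)), Ex_const_mul β hq, eV, Ex_const hβ,
      ← ENNReal.ofReal_mul hq, ← ENNReal.ofReal_add h2 (mul_nonneg hq hv)]
  have a3 : Ex β (fun G => Z G + (k₂ + q * V G)) ≤ ENNReal.ofReal (1 + (k₂ + q * v)) := by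
    refine (Ex_add_le β (X := Z) (Y := fun G => k₂ + q * V G) hZ).trans ?_
    rw [a2, ENNReal.ofReal_add zero_le_one (by positivity), ENNReal.ofReal_one]
    gcongr
  have a4 := (Ex_mono hβ h).trans a3
  rw [a1] at a4
  exact (ENNReal.ofReal_le_ofReal_iff (by positivity)).mp a4

theorem IFL_key {β : E N → ℝ} (hβ : Pos β) {F B : (E N → ℝ) → ℝ} (hF : Measurable F)
    (hB : Measurable B) (hF0 : ∀ G, Pos G → 0 ≤ F G) (hB0 : ∀ G, Pos G → 0 ≤ B G)
    (fF : Ex β F ≠ ⊤) (fB : Ex β B ≠ ⊤) {c : ℝ} (hc : 0 ≤ c)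
    (h : ∀ τ : ℝ, -1 < τ → Ex β (fun G => Real.exp (-τ * F G + τ / (1 + τ) * B G)) ≤
      ENNReal.ofReal ((1 + τ) ^ (-c))) :
    Ex β F = ENNReal.ofReal c + Ex β B := by
  obtain ⟨a, ha, eF⟩ : ∃ a : ℝ, 0 ≤ a ∧ Ex β F = ENNReal.ofReal a :=
    ⟨_, ENNReal.toReal_nonneg, (ENNReal.ofReal_toReal fF).symm⟩
  obtain ⟨b, hb, eB⟩ : ∃ b : ℝ, 0 ≤ b ∧ Ex β B = ENNReal.ofReal b :=
    ⟨_, ENNReal.toReal_nonneg, (ENNReal.ofReal_toReal fB).symm⟩
  have hZ : ∀ τ : ℝ, -1 < τ →
      Ex β (fun G => (1 + τ) ^ c * Real.exp (-τ * F G + τ / (1 + τ) * B G)) ≤ 1 := by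
    intro τ hτ
    have h1 : 0 < 1 + τ := by linarith
    have h2 : 0 < (1 + τ) ^ c := Real.rpow_pos_of_pos h1 c
    rw [Ex_const_mul β h2.le]
    refine (mul_le_mul_right (h τ hτ) _).trans ?_
    rw [← ENNReal.ofReal_mul h2.le, Real.rpow_neg h1.le, mul_inv_cancel₀ h2.ne',
      ENNReal.ofReal_one]
  have hP : ∀ τ : ℝ, -1 < τ → ∀ X : ℝ, 1 + X + c * (τ / (1 + τ)) ≤ (1 + τ) ^ c * Real.exp X := by
    intro τ hτ X
    have h1 : 0 < 1 + τ := by linarith
    have h2 : τ / (1 + τ) ≤ Real.log (1 + τ) := by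
      have h3 := Real.one_sub_inv_le_log_of_pos h1
      have h4 : τ / (1 + τ) = 1 - (1 + τ)⁻¹ := by field_simp; ring
      rwa [h4]
    rw [Real.rpow_def_of_pos h1, ← Real.exp_add]
    have h5 := Real.add_one_le_exp (Real.log (1 + τ) * c + X)
    nlinarith [mul_le_mul_of_nonneg_left h2 hc]
  have hM : ∀ τ : ℝ, Measurable
      fun G => (1 + τ) ^ c * Real.exp (-τ * F G + τ / (1 + τ) * B G) := fun τ =>
    measurable_const.mul ((measurable_const.mul hF).add (measurable_const.mul hB)).exp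
  have up : ∀ τ : ℝ, 0 < τ → b + c ≤ (1 + τ) * a := by
    intro τ hτ
    have h1 : 0 < 1 + τ := by linarith
    have hp : 0 < τ / (1 + τ) := div_pos hτ h1
    have h2 := IFL_cmp hβ hB (hM τ) hB0 hF0 hb ha eB eF (hZ τ (by linarith))
      (k₁ := 1 + c * (τ / (1 + τ))) (k₂ := 0) (by positivity) le_rfl hp.le hτ.le
      (fun G _ => by have := hP τ (by linarith) (-τ * F G + τ / (1 + τ) * B G); linarith)
    have h3 : τ / (1 + τ) * (b + c) ≤ τ / (1 + τ) * ((1 + τ) * a) := by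
      have : τ / (1 + τ) * ((1 + τ) * a) = τ * a := by field_simp
      rw [this]; linarith
    exact le_of_mul_le_mul_left h3 hp
  have lo : ∀ σ : ℝ, 0 < σ → σ < 1 → (1 - σ) * a ≤ b + c := by
    intro σ h0 hσ
    have h1 : 0 < 1 - σ := by linarith
    have hp : 0 < σ / (1 - σ) := div_pos h0 h1
    have e1 : -σ / (1 + -σ) = -(σ / (1 - σ)) := by rw [neg_div]; rfl
    have h2 := IFL_cmp hβ hF (hM (-σ)) hF0 hB0 ha hb eF eB (hZ (-σ) (by linarith))
      (k₁ := 1) (k₂ := c * (σ / (1 - σ))) zero_le_one (by positivity) h0.le hp.le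
      (fun G _ => by
        have := hP (-σ) (by linarith) (- -σ * F G + -σ / (1 + -σ) * B G)
        rw [e1] at this ⊢
        linarith)
    have h3 : σ / (1 - σ) * ((1 - σ) * a) ≤ σ / (1 - σ) * (b + c) := by
      have : σ / (1 - σ) * ((1 - σ) * a) = σ * a := by field_simp
      rw [this]; linarith
    exact le_of_mul_le_mul_left h3 hp
  have e : a = c + b := by
    apply le_antisymm
    · refine le_of_forall_pos_le_add fun ε hε => ?_
      have h1 : 0 < a + ε + 1 := by linarith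
      have h2 := lo (ε / (a + ε + 1)) (div_pos hε h1) (by rw [div_lt_one h1]; linarith)
      have h3 : ε / (a + ε + 1) * a ≤ ε := by
        rw [div_mul_eq_mul_div, div_le_iff₀ h1]; nlinarith
      linarith
    · refine le_of_forall_pos_le_add fun ε hε => ?_
      have h1 : 0 < a + 1 := by linarith
      have h2 := up (ε / (a + 1)) (div_pos hε h1)
      have h3 : ε / (a + 1) * a ≤ ε := by
        rw [div_mul_eq_mul_div, div_le_iff₀ h1]; nlinarith
      linarith
  rw [eF, eB, e, ENNReal.ofReal_add hc hb]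

end

theorem pf_IFL (h : StIF1) : StIFL := by
  intro α hα N _ s t hst ht I hI ε h0 h1
  have hβ : Pos (al N α) := pos_al hα.1
  have H := h N (al N α) hβ (Wd N s t) I (Src N s t) (Wd_ne_univ s t) (IFL_disj (Or.inl rfl) hI)
    IFL_src (-ε) (by linarith) (IFL_dv ht α _)
  have e1 : -∑ z ∈ I, dvA (outE (Wd N s t) ∪ Src N s t) (al N α) z = (α 0 - α 2) * I.card := by
    rw [Finset.sum_congr rfl fun z hz => dvA_Src_left hst ht α (hI hz), Finset.sum_const,
      nsmul_eq_mul]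
    ring
  rw [e1, ← sub_eq_add_neg] at H
  refine le_trans (Ex_mono hβ fun G hG => Real.exp_le_exp.mpr ?_) H
  have e2 : (Src N s t).filter (fun e => e.1 ∈ I) = SE I 0 := by
    ext e
    rw [Finset.mem_filter, mem_SE, mem_Src]
    constructor
    · rintro ⟨h2 | h2, h3⟩
      · exact ⟨h3, h2.2⟩
      · have := mem_Col.mp (hI h3); omega
    · rintro ⟨h2, h3⟩
      exact ⟨Or.inl ⟨mem_Col.mp (hI h2), h3⟩, h2⟩
  have e3 : FR s t I G ≤ Fx G ((Src N s t).filter fun e => e.1 ∉ I) (har (Wd N s t) (ind I) G) := by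
    refine Fx_subset hG (fun e he => ?_) fun e _ => har_ind_nonneg hG (Wd_ne_univ s t) _ _
    obtain ⟨h2, h3⟩ := mem_SE.mp he
    have h4 := mem_Col.mp h2
    refine Finset.mem_filter.mpr ⟨mem_Src.mpr (Or.inr ⟨h4, h3⟩), fun h5 => ?_⟩
    have := mem_Col.mp (hI h5)
    omega
  rw [e2, neg_neg, neg_div, neg_mul, ← sub_eq_add_neg]
  unfold Esc
  have := mul_le_mul_of_nonneg_left e3 h0.le
  linarith

theorem pf_IFR (h : StIF1) : StIFR := by
  intro α hα N _ s t hst ht I hI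
  have hβ : Pos (al N α) := pos_al hα.1
  have H := h N (al N α) hβ (Wd N s t) I (Src N s t) (Wd_ne_univ s t) (IFL_disj (Or.inr rfl) hI)
    IFL_src 1 (by linarith) (IFL_dv ht α _)
  have e1 : ∑ z ∈ I, dvA (outE (Wd N s t) ∪ Src N s t) (al N α) z = (α 0 - α 2) * I.card := by
    rw [Finset.sum_congr rfl fun z hz => dvA_Src_right hst ht α (hI hz), Finset.sum_const,
      nsmul_eq_mul]
    ring
  rw [e1, one_add_one_eq_two] at H
  refine le_trans (Ex_mono hβ fun G hG => Real.exp_le_exp.mpr ?_) H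
  have e2 : (Src N s t).filter (fun e => e.1 ∉ I) = SE (Col N s) 0 ∪ SE (Col N t \ I) 2 := by
    ext e
    rw [Finset.mem_filter, Finset.mem_union, mem_SE, mem_SE, mem_Src, Finset.mem_sdiff, mem_Col,
      mem_Col]
    constructor
    · rintro ⟨h2 | h2, h3⟩
      · exact Or.inl h2
      · exact Or.inr ⟨⟨h2.1, h3⟩, h2.2⟩
    · rintro (h2 | h2)
      · refine ⟨Or.inl h2, fun h5 => ?_⟩
        have := mem_Col.mp (hI h5)
        omega
      · exact ⟨Or.inr ⟨h2.1.1, h2.2⟩, h2.1.2⟩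
  have e3 : Disjoint (SE (Col N s) 0) (SE (Col N t \ I) 2) := by
    rw [Finset.disjoint_left]
    intro e h2 h3
    have h4 := (mem_SE.mp h2).2
    rw [(mem_SE.mp h3).2] at h4
    exact absurd h4 (by decide)
  have e4 : 0 ≤ Fx G ((Src N s t).filter fun e => e.1 ∈ I)
      fun z => 1 - har (Wd N s t) (ind I) G z :=
    Fx_nonneg hG fun e _ => sub_nonneg.mpr (har_ind_le_one hG (Wd_ne_univ s t) _ _)
  rw [e2, Fx_union G e3]
  unfold FL
  linarith

theorem pf_M (h : StIF1) (hM : StMgf) : StM := by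
  intro α hα N _ s t hst ht
  have hβ : Pos (al N α) := pos_al hα.1
  have fin : ∀ (S : Finset (E N)) (Sg : Finset (T N)),
      Ex (al N α) (fun G => Fx G S (har (Wd N s t) (ind Sg) G)) ≠ ⊤ := by
    intro S Sg
    refine ne_top_of_le_ne_top (b := Ex (al N α) fun G => ∑ e ∈ S, G e) ?_ ?_
    · rw [(hM N (al N α) hβ S).2]; exact ENNReal.ofReal_ne_top
    · exact Ex_mono hβ fun G hG =>
        Fx_le_sum hG fun e _ => har_ind_le_one hG (Wd_ne_univ s t) _ _
  refine IFL_key hβ (measurable_FL s t _) (measurable_FR s t _) (fun G hG => FL_nonneg hG s t _)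
    (fun G hG => FR_nonneg hG s t _) (fin _ _) (fin _ _)
    (mul_nonneg (Nat.cast_nonneg N) (sub_nonneg.mpr hα.2.le)) fun τ hτ => ?_
  have H := h N (al N α) hβ (Wd N s t) (Col N t) (Src N s t) (Wd_ne_univ s t)
    (IFL_disj (Or.inr rfl) subset_rfl) IFL_src τ hτ (IFL_dv ht α _)
  have e1 : ∑ z ∈ Col N t, dvA (outE (Wd N s t) ∪ Src N s t) (al N α) z = N * (α 0 - α 2) := by
    rw [Finset.sum_congr rfl fun z hz => dvA_Src_right hst ht α hz, Finset.sum_const,
      nsmul_eq_mul, card_Col ht]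
  rw [e1] at H
  refine le_trans (Ex_congr hβ fun G hG => ?_).le H
  have e2 : (Src N s t).filter (fun e => e.1 ∉ Col N t) = SE (Col N s) 0 := by
    ext e
    rw [Finset.mem_filter, mem_SE, mem_Src, mem_Col, mem_Col]
    constructor
    · rintro ⟨h2 | h2, h3⟩
      · exact h2
      · exact absurd h2.1 h3
    · rintro h2
      exact ⟨Or.inl h2, by omega⟩
  have e3 : (Src N s t).filter (fun e => e.1 ∈ Col N t) = SE (Col N t) 2 := by
    ext e
    rw [Finset.mem_filter, mem_SE, mem_Src, mem_Col]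
    constructor
    · rintro ⟨h2 | h2, h3⟩
      · omega
      · exact h2
    · rintro h2
      exact ⟨Or.inr h2, h2.1⟩
  have e4 : FR s t (Col N s) G =
      Fx G (SE (Col N t) 2) fun z => 1 - har (Wd N s t) (ind (Col N t)) G z := by
    refine Fx_congr G fun e he => ?_
    have h2 := col_tg_right (by omega) subset_rfl he
    have h3 := uu_add_vv hG hst ht (x := tg e) (by omega) (by omega)
    unfold uu vv at h3
    linarith
  rw [e2, e3, e4]
  rfl

end DRW
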