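import Pool.Agent.P.MP_de05b4_pr.Basic

/-! Independence of functions of disjoint sets of edges. -/

namespace DRW

open MeasureTheory ProbabilityTheory Finset
open scoped ENNReal

theorem Ind_fac {ι : Type} [DecidableEq ι] (A : Finset ι) {S : Set ι} (hA : ∀ e ∈ S, e ∈ A)
    {Φ : (ι → ℝ) → ℝ≥0∞} (hΦ : Measurable Φ) (hd : DependsOn Φ S) :
    ∃ Φ' : (A → ℝ) → ℝ≥0∞, Measurable Φ' ∧ Φ = Φ' ∘ fun G (e : A) => G e := by
  refine ⟨fun y => Φ fun e => if h : e ∈ A then y ⟨e, h⟩ else 0, hΦ.comp ?_, ?_⟩
  · refine measurable_pi_lambda _ fun e => ?_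
    by_cases h : e ∈ A
    · simp only [h, dif_pos]
      exact measurable_pi_apply _
    · simp only [h, dif_neg, not_false_eq_true]
      exact measurable_const
  · funext G
    refine hd fun e he => ?_
    simp [hA e he]

theorem pf_Ind : StInd := by
  classical
  intro N _ β hβ S Φ Ψ hΦ hΨ dΦ dΨ
  have : ∀ e, IsProbabilityMeasure (gammaMeasure (β e) 1) := fun e =>
    isProbabilityMeasure_gammaMeasure (hβ e) one_pos
  have hi : iIndepFun (fun (e : E N) (G : E N → ℝ) => G e) (mu β) :=
    iIndepFun_pi (X := fun _ => id) fun _ => aemeasurable_id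
  obtain ⟨Φ', m1, e1⟩ := Ind_fac (univ.filter (· ∈ S)) (fun e he => by simpa using he) hΦ dΦ
  obtain ⟨Ψ', m2, e2⟩ := Ind_fac (univ.filter (· ∉ S)) (fun e he => by simpa using he) hΨ dΨ
  have h := (hi.indepFun_finset (univ.filter (· ∈ S)) (univ.filter (· ∉ S))
    (disjoint_filter_filter_not _ _ _) fun e => measurable_pi_apply e).comp m1 m2
  rw [← e1, ← e2] at h
  exact lintegral_mul_eq_lintegral_mul_lintegral_of_indepFun'' hΦ.aemeasurable hΨ.aemeasurable h

theorem pf_IndN (h : StInd) : StIndN := by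
  intro N _ β hβ n S Φ hΦ hd
  induction n with
  | zero =>
    intro _
    have := prob_mu hβ
    simp
  | succ n ih =>
    intro hS
    simp only [prod_range_succ_comm]
    rw [← ih fun k hk l hl => hS k (by omega) l (by omega)]
    refine h N β hβ (S n) (Φ n) _ (hΦ n) (Finset.measurable_prod _ fun k _ => hΦ k) (hd n) ?_
    intro x y hxy
    refine prod_congr rfl fun k hk => hd k fun e he => hxy e ?_
    have hk := mem_range.mp hk
    exact Set.disjoint_left.mp (hS k (by omega) n (by omega) (by omega)) he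

end DRW
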