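import Pool.Agent.P.MP_de05b4_pr.Basic

/-! Reading torus weights off the lattice, and normalising the Gamma weights. -/

namespace DRW

open MeasureTheory ProbabilityTheory Finset Filter
open scoped ENNReal Topology

theorem pf_MP : StMP := by
  intro α hα N _ x
  have h0 : ∀ i, IsProbabilityMeasure (gammaMeasure (α i) 1) := fun i =>
    isProbabilityMeasure_gammaMeasure (hα i) one_pos
  have h1 := prob_gam hα
  have h2 : ∀ e : E N, IsProbabilityMeasure (gammaMeasure (al N α e) 1) := fun e => h0 e.2
  let vm : T N → ℤ × ℤ := fun z => ((z - x).1.valMinAbs, (z - x).2.valMinAbs)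
  have hvm : Function.Injective vm := fun z z' h => by
    have h3 := ZMod.injective_valMinAbs (congrArg Prod.fst h)
    have h4 := ZMod.injective_valMinAbs (congrArg Prod.snd h)
    exact sub_left_injective (Prod.ext h3 h4)
  have h3 : Measurable fun (γ : Env) (z : T N) => γ (vm z) := by fun_prop
  have h4 : resE x = (MeasurableEquiv.curry (T N) (Fin 4) ℝ).symm ∘
      fun (γ : Env) (z : T N) => γ (vm z) := rfl
  refine ⟨h4 ▸ (MeasurableEquiv.measurable _).comp h3, ?_⟩
  rw [h4, ← Measure.map_map (MeasurableEquiv.measurable _) h3, lawG,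
    Measure.map_infinitePi_infinitePi_of_inj hvm, gam, ← Measure.infinitePi_eq_pi,
    Measure.infinitePi_map_curry_symm (fun (_ : T N) (i : Fin 4) => gammaMeasure (α i) 1),
    Measure.infinitePi_eq_pi]
  rfl

theorem pf_TR3 : StTR3 := by
  rintro α hα ⟨Q, hQ, hac, hinv⟩
  have h1 := prob_gam hα
  have hm : Measurable fun (γ : Env) (w : ℤ × ℤ) => nrm (γ w) :=
    measurable_pi_lambda _ fun w => measurable_nrm.comp (measurable_pi_apply w)
  have hlaw : law α = (lawG α).map fun (γ : Env) (w : ℤ × ℤ) => nrm (γ w) := by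
    rw [lawG, Measure.infinitePi_map_pi (f := fun _ => nrm) _ fun _ => measurable_nrm]
    rfl
  refine ⟨Q.map fun γ w => nrm (γ w), Measure.isProbabilityMeasure_map hm.aemeasurable,
    hlaw ▸ hac.map hm, fun A hA => ?_⟩
  rw [Measure.map_apply hm hA, hinv _ (hm hA), lintegral_map _ hm]
  · rfl
  · refine Finset.measurable_sum _ fun i _ => Measurable.mul ?_ ?_
    · exact ((measurable_pi_apply i).comp (measurable_pi_apply (0 : ℤ × ℤ))).ennreal_ofReal
    · exact (measurable_one.indicator hA).comp (measurable_shift _)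

end DRW
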