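import Pool.Agent.P.MP_de05b4_pr.Basic

/-! Exponential moments and means of sums of Gamma weights; lower tail of a Dirichlet weight. -/

namespace DRW

open MeasureTheory ProbabilityTheory Finset Filter
open scoped ENNReal Topology

theorem Mgf_meas (a r : ℝ) : Measurable (gammaPDF a r) :=
  (measurable_gammaPDFReal a r).ennreal_ofReal

theorem Mgf_one {b s : ℝ} (hb : 0 < b) (hs : s < 1) :
    ∫⁻ x, ENNReal.ofReal (Real.exp (s * x)) ∂gammaMeasure b 1 =
      ENNReal.ofReal ((1 - s) ^ (-b)) := by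
  have h1 : 0 < 1 - s := by linarith
  rw [gammaMeasure, lintegral_withDensity_eq_lintegral_mul _ (Mgf_meas b 1) (by fun_prop)]
  have : ∀ x, (gammaPDF b 1 * fun x => ENNReal.ofReal (Real.exp (s * x))) x =
      ENNReal.ofReal ((1 - s) ^ (-b)) * gammaPDF b (1 - s) x := by
    intro x
    simp only [Pi.mul_apply]
    rcases lt_or_ge x 0 with hx | hx
    · rw [gammaPDF_of_neg hx, gammaPDF_of_neg hx, zero_mul, mul_zero]
    · have hG := Real.Gamma_pos_of_pos hb
      rw [gammaPDF_of_nonneg hx, gammaPDF_of_nonneg hx,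
        ← ENNReal.ofReal_mul (by positivity), ← ENNReal.ofReal_mul (by positivity)]
      congr 1
      have h2 : Real.exp (-((1 - s) * x)) = Real.exp (-(1 * x)) * Real.exp (s * x) := by
        rw [← Real.exp_add]; congr 1; ring
      have h3 : (1 - s) ^ b ≠ 0 := (Real.rpow_pos_of_pos h1 b).ne'
      rw [h2, Real.rpow_neg h1.le, Real.one_rpow]
      field_simp
  rw [lintegral_congr this, lintegral_const_mul _ (Mgf_meas _ _),
    lintegral_gammaPDF_eq_one hb h1, mul_one]

theorem Mgf_mean {b : ℝ} (hb : 0 < b) :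
    ∫⁻ x, ENNReal.ofReal x ∂gammaMeasure b 1 = ENNReal.ofReal b := by
  rw [gammaMeasure, lintegral_withDensity_eq_lintegral_mul _ (Mgf_meas b 1) (by fun_prop)]
  have : ∀ x, (gammaPDF b 1 * fun x => ENNReal.ofReal x) x =
      ENNReal.ofReal b * gammaPDF (b + 1) 1 x := by
    intro x
    simp only [Pi.mul_apply]
    rcases lt_or_ge x 0 with hx | hx
    · rw [gammaPDF_of_neg hx, gammaPDF_of_neg hx, zero_mul, mul_zero]
    · have hG := Real.Gamma_pos_of_pos hb
      rw [gammaPDF_of_nonneg hx, gammaPDF_of_nonneg hx,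
        ← ENNReal.ofReal_mul (by positivity), ← ENNReal.ofReal_mul hb.le]
      congr 1
      have h2 : x ^ (b + 1 - 1) = x ^ (b - 1) * x := by
        rw [← Real.rpow_add_one' hx (by simpa using hb.ne')]; congr 1; ring
      rw [h2, Real.Gamma_add_one hb.ne', Real.one_rpow, Real.one_rpow]
      field_simp
  rw [lintegral_congr this, lintegral_const_mul _ (Mgf_meas _ _),
    lintegral_gammaPDF_eq_one (by linarith) one_pos, mul_one]

theorem Mgf_eval {N : ℕ} [NeZero N] {β : E N → ℝ} (hβ : Pos β) (e : E N) {φ : ℝ → ℝ≥0∞}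
    (hφ : Measurable φ) : ∫⁻ G, φ (G e) ∂mu β = ∫⁻ x, φ x ∂gammaMeasure (β e) 1 := by
  have : ∀ e, IsProbabilityMeasure (gammaMeasure (β e) 1) := fun e =>
    isProbabilityMeasure_gammaMeasure (hβ e) one_pos
  exact (measurePreserving_eval (fun e => gammaMeasure (β e) 1) e).lintegral_comp hφ

theorem pf_Mgf : StMgf := by
  intro N _ β hβ S
  have hp : ∀ e, IsProbabilityMeasure (gammaMeasure (β e) 1) := fun e =>
    isProbabilityMeasure_gammaMeasure (hβ e) one_pos
  refine ⟨fun s hs => ?_, ?_⟩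
  · have h1 : 0 < 1 - s := by linarith
    have hm : Measurable fun x : ℝ => ENNReal.ofReal (Real.exp (s * x)) := by fun_prop
    have hi : iIndepFun (fun (e : E N) (G : E N → ℝ) => ENNReal.ofReal (Real.exp (s * G e)))
        (mu β) :=
      iIndepFun_pi (μ := fun e => gammaMeasure (β e) 1)
        (X := fun _ x => ENNReal.ofReal (Real.exp (s * x))) fun _ => hm.aemeasurable
    have h2 := lintegral_prod_eq_prod_lintegral_of_indepFun S _ hi
      fun e => hm.comp (measurable_pi_apply e)
    unfold Ex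
    have h3 : ∀ G : E N → ℝ, ENNReal.ofReal (Real.exp (s * ∑ e ∈ S, G e)) =
        ∏ e ∈ S, ENNReal.ofReal (Real.exp (s * G e)) := by
      intro G
      rw [Finset.mul_sum, Real.exp_sum,
        ENNReal.ofReal_prod_of_nonneg fun e _ => (Real.exp_pos _).le]
    rw [lintegral_congr h3, h2, ← Finset.sum_neg_distrib, Real.rpow_sum_of_pos h1,
      ENNReal.ofReal_prod_of_nonneg fun e _ => (Real.rpow_pos_of_pos h1 _).le]
    refine Finset.prod_congr rfl fun e _ => ?_
    rw [Mgf_eval hβ e hm, Mgf_one (hβ e) hs]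
  · rw [Ex_sum hβ S (X := fun e G => G e) (fun e _ => measurable_pi_apply e)
      (fun e _ G hG => (hG e).le), ENNReal.ofReal_sum_of_nonneg fun e _ => (hβ e).le]
    refine Finset.sum_congr rfl fun e _ => ?_
    unfold Ex
    rw [Mgf_eval hβ e ENNReal.measurable_ofReal, Mgf_mean (hβ e)]

theorem Mgf_neg (hT : StTilt) {N : ℕ} [NeZero N] {β : E N → ℝ} (hβ : Pos β) (e : E N) {a : ℝ}
    (ha : a < β e) :
    Ex β (fun G => G e ^ (-a)) = ENNReal.ofReal (Real.Gamma (β e - a) / Real.Gamma (β e)) := by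
  classical
  set θ : E N → ℝ := fun e' => if e' = e then -a else 0 with hθ
  have hp : Pos (β + θ) := by
    intro e'
    simp only [Pi.add_apply, hθ]
    split_ifs with h
    · subst h; linarith
    · have := hβ e'; linarith
  have h := hT N β θ hβ hp (fun _ => 1) measurable_const
  have := prob_mu hp
  simp only [mul_one, lintegral_const, measure_univ] at h
  have h1 : ∀ G : E N → ℝ, ∏ e', G e' ^ θ e' = G e ^ (-a) := by
    intro G
    rw [Finset.prod_eq_single e (fun e' _ h' => by simp [hθ, h']) (by simp)]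
    simp [hθ]
  have h2 : ∏ e', Real.Gamma (β e' + θ e') / Real.Gamma (β e') =
      Real.Gamma (β e - a) / Real.Gamma (β e) := by
    rw [Finset.prod_eq_single e (fun e' _ h' => by
      have := (Real.Gamma_pos_of_pos (hβ e')).ne'
      simp [hθ, h', this]) (by simp)]
    simp [hθ, sub_eq_add_neg]
  simp only [h1, h2] at h
  exact h

theorem pf_OmT (hT : StTilt) (hM : StMgf) : StOmT := by
  intro α hα
  obtain ⟨j, -, hj⟩ := Finset.exists_min_image univ α univ_nonempty
  set a : ℝ := min 1 (α j / 2) with ha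
  have ha0 : 0 < a := lt_min one_pos (by have := hα j; linarith)
  have ha1 : a ≤ 1 := min_le_left _ _
  have ha2 : ∀ i, a < α i := fun i => by
    have h1 : a ≤ α j / 2 := min_le_right _ _
    have := hj i (mem_univ i); have := hα j; linarith
  have hg : ∀ i, 0 < Real.Gamma (α i - a) / Real.Gamma (α i) := fun i =>
    div_pos (Real.Gamma_pos_of_pos (by have := ha2 i; linarith)) (Real.Gamma_pos_of_pos (hα i))
  set A : ℝ := ∑ i, Real.Gamma (α i - a) / Real.Gamma (α i) with hA
  set B : ℝ := ∑ i, α i with hB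
  have hA0 : 0 ≤ A := Finset.sum_nonneg fun i _ => (hg i).le
  have hB0 : 0 ≤ B := Finset.sum_nonneg fun i _ => (hα i).le
  refine ⟨1 + A + B, a / 2, by linarith, by linarith, fun N _ e t ht => ?_⟩
  have hβ : Pos (al N α) := pos_al hα
  have := prob_mu hβ
  rcases le_or_gt 1 t with h1 | h1
  · refine prob_le_one.trans ?_
    rw [← ENNReal.ofReal_one]
    refine ENNReal.ofReal_le_ofReal ?_
    have : 1 ≤ t ^ (a / 2) := Real.one_le_rpow h1 (by linarith)
    nlinarith
  set v : ℝ := t ^ (1 / 2 : ℝ) with hv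
  have hv0 : 0 < v := Real.rpow_pos_of_pos ht _
  have hvv : v * v = t := by rw [hv, ← Real.rpow_add ht]; norm_num
  have hva : (v ^ (-a))⁻¹ = t ^ (a / 2) := by
    rw [Real.rpow_neg hv0.le, inv_inv, hv, ← Real.rpow_mul ht.le]; congr 1; ring
  have hvb : v ≤ t ^ (a / 2) := Real.rpow_le_rpow_of_exponent_ge ht h1.le (by linarith)
  have htc : 0 < t ^ (a / 2) := Real.rpow_pos_of_pos ht _
  have e1 : mu (al N α) {G | G e < v} ≤ ENNReal.ofReal (t ^ (a / 2) * A) := by
    refine (mu_le_Ex hβ (X := fun G => G e ^ (-a)) (by fun_prop) (c := v ^ (-a))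
      (Real.rpow_pos_of_pos hv0 _) fun G hG hD =>
        Real.rpow_le_rpow_of_nonpos (hG e) (le_of_lt hD) (by linarith)).trans ?_
    rw [Mgf_neg hT hβ e (ha2 e.2), hva, ← ENNReal.ofReal_mul htc.le]
    refine ENNReal.ofReal_le_ofReal (mul_le_mul_of_nonneg_left ?_ htc.le)
    exact Finset.single_le_sum (f := fun i => Real.Gamma (α i - a) / Real.Gamma (α i))
      (fun i _ => (hg i).le) (mem_univ e.2)
  have e2 : mu (al N α) {G | v⁻¹ ≤ Zs G e.1} ≤ ENNReal.ofReal (t ^ (a / 2) * B) := by
    refine (mu_le_Ex hβ (X := fun G => ∑ e' ∈ outE {e.1}, G e') (by fun_prop) (c := v⁻¹)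
      (inv_pos.mpr hv0) fun G _ hD => ?_).trans ?_
    · rw [sum_outE, Finset.sum_singleton]; exact hD
    · rw [(hM N _ hβ _).2, inv_inv, ← ENNReal.ofReal_mul hv0.le, sum_outE, Finset.sum_singleton]
      exact ENNReal.ofReal_le_ofReal (mul_le_mul_of_nonneg_right hvb hB0)
  calc mu (al N α) {G | om G e < t}
      ≤ mu (al N α) ({G | G e < v} ∪ {G | v⁻¹ ≤ Zs G e.1}) := by
        refine mu_mono hβ fun G hG hD => ?_
        by_cases h : G e < v
        · exact Or.inl h
        · refine Or.inr ?_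
          have hZ := Zs_pos hG e.1
          have h2 : G e < t * Zs G e.1 := (div_lt_iff₀ hZ).mp hD
          change v⁻¹ ≤ Zs G e.1
          rw [inv_le_iff_one_le_mul₀ hv0]
          have h3 : v * 1 < v * (Zs G e.1 * v) := by nlinarith
          exact (lt_of_mul_lt_mul_left h3 hv0.le).le
    _ ≤ ENNReal.ofReal (t ^ (a / 2) * A) + ENNReal.ofReal (t ^ (a / 2) * B) :=
        (measure_union_le _ _).trans (add_le_add e1 e2)
    _ ≤ _ := by
        rw [← ENNReal.ofReal_add (by positivity) (by positivity)]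
        exact ENNReal.ofReal_le_ofReal (by nlinarith)

end DRW
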