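import Pool.Agent.P.MP_de05b4_pr.Basic

/-! A moment bound for the occupation density, and the approximately invariant densities. -/

namespace DRW

open MeasureTheory ProbabilityTheory Finset Filter
open scoped ENNReal Topology

/-- a negative moment from a polynomial lower tail -/
theorem Pi_tail {s r C : ℝ} (hr : 0 < r) (hrs : r < s) (hC : 0 ≤ C) : ∃ D : ℝ, 0 ≤ D ∧
    ∀ (N : ℕ) [NeZero N] (β : E N → ℝ) (f : (E N → ℝ) → ℝ), Pos β → Measurable f →
      (∀ G, Pos G → 0 < f G ∧ f G ≤ 1) →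
      (∀ lam : ℝ, 0 < lam → mu β {G | f G ≤ lam} ≤ ENNReal.ofReal (C * lam ^ s)) →
      Ex β (fun G => f G ^ (-r)) ≤ ENNReal.ofReal D := by
  obtain ⟨a, ha, ha0⟩ : ∃ a : ℝ, a = (1 / 2 : ℝ) ^ (-r) ∧ 0 < a := ⟨_, rfl, by positivity⟩
  obtain ⟨b, hb, hb0⟩ : ∃ b : ℝ, b = (1 / 2 : ℝ) ^ s ∧ 0 < b := ⟨_, rfl, by positivity⟩
  have hab : a * b < 1 := by
    rw [ha, hb, ← Real.rpow_add (by norm_num)]
    exact Real.rpow_lt_one (by norm_num) (by norm_num) (by linarith)
  have h0 : ∀ n : ℕ, 0 ≤ a * C * (a * b) ^ n := fun n => by positivity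
  have hsum : Summable fun n : ℕ => a * C * (a * b) ^ n :=
    (summable_geometric_of_lt_one (by positivity) hab).mul_left _
  refine ⟨∑' n : ℕ, a * C * (a * b) ^ n, tsum_nonneg h0, fun N _ β f hβ hf h1 h2 => ?_⟩
  have hm : ∀ n : ℕ, MeasurableSet {G | f G ≤ (1 / 2 : ℝ) ^ n} := fun n =>
    measurableSet_le hf measurable_const
  calc Ex β (fun G => f G ^ (-r))
      ≤ ∫⁻ G, ∑' n : ℕ, {G | f G ≤ (1 / 2 : ℝ) ^ n}.indicator
          (fun _ => ENNReal.ofReal (a ^ (n + 1))) G ∂mu β := by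
        refine lintegral_mono_ae ((ae_pos hβ).mono fun G hG => ?_)
        obtain ⟨n, h3, h4⟩ := exists_nat_pow_near_of_lt_one (h1 G hG).1 (h1 G hG).2
          (show (0 : ℝ) < 1 / 2 by norm_num) (by norm_num)
        refine le_trans ?_ (ENNReal.le_tsum n)
        rw [Set.indicator_of_mem (show G ∈ {G | f G ≤ (1 / 2 : ℝ) ^ n} from h4), ha,
          Real.rpow_pow_comm (by norm_num)]
        exact ENNReal.ofReal_le_ofReal
          (Real.rpow_le_rpow_of_nonpos (by positivity) h3.le (by linarith))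
    _ = ∑' n : ℕ, ENNReal.ofReal (a ^ (n + 1)) * mu β {G | f G ≤ (1 / 2 : ℝ) ^ n} := by
        rw [lintegral_tsum fun n => (measurable_const.indicator (hm n)).aemeasurable]
        exact tsum_congr fun n => lintegral_indicator_const (hm n) _
    _ ≤ ∑' n : ℕ, ENNReal.ofReal (a * C * (a * b) ^ n) := by
        refine ENNReal.tsum_le_tsum fun n => ?_
        refine (mul_le_mul_right (h2 _ (by positivity)) _).trans (le_of_eq ?_)
        rw [← ENNReal.ofReal_mul (by positivity), ← Real.rpow_pow_comm (by norm_num), ← hb]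
        congr 1
        ring
    _ = _ := (ENNReal.ofReal_tsum_of_nonneg h0 hsum).symm

theorem Pi_pow_le_exp (a : ℝ) (ha : 0 ≤ a) :
    ∃ D : ℝ, 0 < D ∧ ∀ H : ℝ, 0 ≤ H → H ^ a ≤ D * Real.exp (H / 2) := by
  obtain ⟨n, hn⟩ := exists_nat_ge a
  have hf : (0 : ℝ) < n.factorial := by exact_mod_cast n.factorial_pos
  refine ⟨1 + 2 ^ n * n.factorial, by positivity, fun H hH => ?_⟩
  have h1 : 1 ≤ Real.exp (H / 2) := Real.one_le_exp (by linarith)
  have h2 := Real.pow_div_factorial_le_exp (H / 2) (by linarith) n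
  rw [div_le_iff₀ hf, div_pow, div_le_iff₀ (by positivity)] at h2
  have h3 : 0 ≤ H ^ n := by positivity
  rcases le_total H 1 with h | h
  · have h4 := Real.rpow_le_one hH h ha
    linarith
  · have h4 := Real.rpow_le_rpow_of_exponent_le h hn
    rw [Real.rpow_natCast] at h4
    linarith

theorem Pi_young {r t : ℝ} (ht : 0 < t) (htr : t < r) : ∃ a : ℝ, 0 ≤ a ∧
    ∀ H e : ℝ, 0 ≤ H → 0 < e → (H / e) ^ t ≤ H ^ a + e ^ (-r) := by
  have hp : 1 < r / t := (one_lt_div ht).2 htr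
  have hpq := Real.HolderConjugate.conjExponent hp
  have hq := hpq.symm.lt
  refine ⟨t * (r / t).conjExponent, by positivity, fun H e hH he => ?_⟩
  have h1 := Real.young_inequality_of_nonneg (a := e ^ (-t)) (b := H ^ t) (by positivity)
    (by positivity) hpq
  rw [← Real.rpow_mul he.le, ← Real.rpow_mul hH, show -t * (r / t) = -r by field_simp] at h1
  have h2 : e ^ (-r) / (r / t) ≤ e ^ (-r) := div_le_self (by positivity) hp.le
  have h3 : H ^ (t * (r / t).conjExponent) / (r / t).conjExponent ≤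
      H ^ (t * (r / t).conjExponent) := div_le_self (by positivity) hq.le
  rw [Real.div_rpow hH he.le, div_eq_inv_mul, ← Real.rpow_neg he.le]
  linarith

theorem pf_Pi (hG : StGt) (hH : StHB) (hS : StStat) : StPi := by
  intro α hα hκ
  obtain ⟨s, C, C₀, K₀, hs, hC, h⟩ := hG α hα hκ
  obtain ⟨D, hD, h1⟩ := Pi_tail (r := (1 + s) / 2) (s := s) (by linarith) (by linarith) hC.le
  obtain ⟨a, ha, h2⟩ := Pi_young (r := (1 + s) / 2) (t := (3 + s) / 4) (by linarith) (by linarith)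
  obtain ⟨D', hD', h3⟩ := Pi_pow_le_exp a ha
  refine ⟨(3 + s) / 4, D' * 2 ^ (∑ i, α i) + D, max C₀ 2, K₀, by linarith, by positivity,
    fun N _ K hK hN x hx => ?_⟩
  have hβ : Pos (al N α) := pos_al hα.1
  have hx' := mem_Wd.1 hx
  have hN1 : C₀ * K ≤ N := (Nat.mul_le_mul_right K (le_max_left _ _)).trans hN
  have hN2 : 2 * K ≤ N := (Nat.mul_le_mul_right K (le_max_right _ _)).trans hN
  have hst := fun G hG => (hS N K (by omega) G hG).1 x hx
  have h4 := h1 N _ (esc 0 K x) hβ (measurable_esc 0 K x)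
    (fun G hG => ⟨(hst G hG).1, (hst G hG).2.1⟩) (h N K hK hN1 x hx)
  have h5 := (hH N _ hβ (Wd N 0 K \ {x}) {x} (Src N 0 K) (Wd_sdiff_ne_univ 0 K _) sdiff_disjoint
    (fun e he => by
      rw [mem_Src] at he
      refine ⟨fun h6 => ?_, fun h6 => ?_⟩
      · have h7 := mem_Wd.1 (Finset.mem_sdiff.1 h6).1
        omega
      · rw [Finset.mem_singleton.1 h6] at he
        omega) fun z _ => (dv_al α z).le).1
  rw [sum_singleton, inw_al] at h5
  calc Ex (al N α) (fun G => pii 0 K x G ^ ((3 + s) / 4))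
      ≤ Ex (al N α) (fun G => D' * Real.exp (HH 0 K x G / 2) + esc 0 K x G ^ (-((1 + s) / 2))) :=
        Ex_mono hβ fun G hG => (h2 _ _ (hst G hG).2.2.1 (hst G hG).1).trans
          (add_le_add_left (h3 _ (hst G hG).2.2.1) _)
    _ ≤ ENNReal.ofReal D' * ENNReal.ofReal (2 ^ (∑ i, α i)) + ENNReal.ofReal D := by
        refine (Ex_add_le _ (((measurable_HH 0 K x).div_const 2).exp.const_mul D')).trans
          (add_le_add ?_ h4)
        rw [Ex_const_mul _ hD'.le]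
        exact mul_le_mul_right h5 _
    _ = _ := by
        rw [← ENNReal.ofReal_mul hD'.le, ← ENNReal.ofReal_add (by positivity) hD]

theorem pf_Fin (hP : StPi) (hT : StTest) (hS : StStat) (hA : StA) : StFin := by
  intro α hα hκ
  obtain ⟨s, C, C₀, K₀, hs, hC, h⟩ := hP α hα hκ
  obtain ⟨δ, hδ, hδ0⟩ : ∃ δ, δ = α 0 - α 2 ∧ 0 < δ := ⟨_, rfl, sub_pos.2 hα.2⟩
  refine ⟨s, max C δ⁻¹, hs, lt_max_of_lt_left hC, fun ε hε R => ?_⟩
  obtain ⟨k, hk⟩ := exists_nat_ge (4 * (1 + C) / (ε * δ))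
  obtain ⟨K, hK0, hKk⟩ : ∃ K, K₀ ≤ K ∧ 4 + k ≤ K := ⟨max _ _, le_max_left _ _, le_max_right _ _⟩
  obtain ⟨N, hN0, hNR, hNK⟩ : ∃ N, C₀ * K ≤ N ∧ R ≤ N ∧ K < N :=
    ⟨C₀ * K + R + K + 1, by omega, by omega, by omega⟩
  have hNe : NeZero N := ⟨by omega⟩
  have hβ : Pos (al N α) := pos_al hα.1
  have hpos : ∀ x ∈ Wd N 0 K, ∀ G, Pos G → 0 ≤ pii 0 K x G := fun x hx G hG =>
    div_nonneg (HH_nonneg hG 0 K x) (esc_nonneg hG 0 K x)
  have hsub : ∀ x ∈ Wd N 1 (K - 1), x ∈ Wd N 0 K := fun x hx => by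
    rw [mem_Wd] at hx ⊢; omega
  have hup : ∀ x ∈ Wd N 0 K, Ex (al N α) (pii 0 K x) ≤ ENNReal.ofReal (1 + C) := fun x hx => by
    have h1 : Ex (al N α) (pii 0 K x) ≤ Ex (al N α) (fun G => 1 + pii 0 K x G ^ s) :=
      Ex_mono hβ fun G hG => by
        have h2 := hpos x hx G hG
        have h3 := Real.rpow_nonneg h2 s
        rcases le_total (pii 0 K x G) 1 with h4 | h4
        · linarith
        · have h5 := Real.rpow_le_rpow_of_exponent_le h4 hs.le
          rw [Real.rpow_one] at h5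
          linarith
    refine h1.trans ((Ex_add_le _ measurable_const).trans ?_)
    rw [Ex_const hβ, ENNReal.ofReal_add zero_le_one hC.le]
    exact add_le_add_right (h N K hK0 hN0 x hx) _
  have hsum : ∀ U : Finset (T N), (∀ x ∈ U, x ∈ Wd N 0 K) →
      ∑ x ∈ U, Ex (al N α) (pii 0 K x) ≤ ENNReal.ofReal (U.card * (1 + C)) := fun U hU => by
    refine (sum_le_card_nsmul _ _ _ fun x hx => hup x (hU x hx)).trans (le_of_eq ?_)
    rw [nsmul_eq_mul, ENNReal.ofReal_mul (Nat.cast_nonneg _), ENNReal.ofReal_natCast]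
  have hlow : ∀ x ∈ Wd N 0 K, ENNReal.ofReal δ ≤ Ex (al N α) (pii 0 K x) := fun x hx => by
    have h1 := ((hA α hα N).1 0 (col x) (mem_Wd.1 hx).1 (col_lt x)).2.1 {x}
      (singleton_subset_iff.2 (mem_Col.2 rfl))
    have h2 := (hA α hα N).2.1 (col x - 0)
    refine le_trans ?_ (Ex_mono hβ fun G hG => ((hS N K hNK G hG).1 x hx).2.2.2)
    rw [h1, card_singleton, Nat.cast_one, one_mul]
    exact ENNReal.ofReal_le_ofReal (by linarith)
  have hfin : ∑ x ∈ Wd N 1 (K - 1), Ex (al N α) (pii 0 K x) ≠ ⊤ :=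
    ne_top_of_le_ne_top ENNReal.ofReal_ne_top (hsum _ hsub)
  obtain ⟨Z, hZ⟩ : ∃ Z, Z = (∑ x ∈ Wd N 1 (K - 1), Ex (al N α) (pii 0 K x)).toReal := ⟨_, rfl⟩
  have hZ1 : ((Wd N 1 (K - 1)).card : ℝ) * δ ≤ Z := by
    rw [hZ, ← ENNReal.ofReal_le_iff_le_toReal hfin, ENNReal.ofReal_mul (Nat.cast_nonneg _),
      ENNReal.ofReal_natCast, ← nsmul_eq_mul]
    exact card_nsmul_le_sum _ _ _ fun x hx => hlow x (hsub x hx)
  have hN' : (0 : ℝ) < N := by exact_mod_cast (by omega : 0 < N)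
  have hcard : ((k : ℝ) + 1) * N ≤ (Wd N 1 (K - 1)).card := by
    rw [card_Wd (by omega)]
    exact_mod_cast Nat.mul_le_mul_right N (by omega)
  have hZ2 : ((k : ℝ) + 1) * N * δ ≤ Z := (mul_le_mul_of_nonneg_right hcard hδ0.le).trans hZ1
  have hZ0 : 0 < Z := lt_of_lt_of_le (by positivity) hZ2
  have hU : ∀ x ∈ Col N 1 ∪ Col N 2 ∪ Col N (K - 2) ∪ Col N (K - 1), x ∈ Wd N 0 K := fun x hx => by
    simp only [mem_union, mem_Col] at hx
    rw [mem_Wd]; omega
  refine ⟨N, hNe, hNR, Wd N 1 (K - 1), pii 0 K, Z, hZ0, measurable_pii 0 K,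
    fun x hx => hpos x (hsub x hx), by rw [hZ, ENNReal.ofReal_toReal hfin], ?_,
    fun x hx => (h N K hK0 hN0 x (hsub x hx)).trans (ENNReal.ofReal_le_ofReal (le_max_left _ _)),
    fun G => ∑ x ∈ Col N 1 ∪ Col N 2 ∪ Col N (K - 2) ∪ Col N (K - 1), pii 0 K x G,
    Finset.measurable_sum _ fun x _ => measurable_pii 0 K x, ?_, hT N K (by omega) hNK⟩
  · refine le_trans ?_ (mul_le_mul_of_nonneg_right (le_max_right _ _) hZ0.le)
    rwa [← div_eq_inv_mul, le_div_iff₀ hδ0]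
  · rw [Ex_sum hβ _ (fun x _ => measurable_pii 0 K x) fun x hx => hpos x (hU x hx)]
    refine (hsum _ hU).trans (ENNReal.ofReal_le_ofReal ?_)
    have h1 : (Col N 1 ∪ Col N 2 ∪ Col N (K - 2) ∪ Col N (K - 1)).card ≤ 4 * N := by
      have a1 := card_union_le (Col N 1 ∪ Col N 2 ∪ Col N (K - 2)) (Col N (K - 1))
      have a2 := card_union_le (Col N 1 ∪ Col N 2) (Col N (K - 2))
      have a3 := card_union_le (Col N 1) (Col N 2)
      rw [card_Col (by omega : K - 1 < N)] at a1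
      rw [card_Col (by omega : K - 2 < N)] at a2
      rw [card_Col (by omega : 1 < N), card_Col (by omega : 2 < N)] at a3
      omega
    have h2 : ((Col N 1 ∪ Col N 2 ∪ Col N (K - 2) ∪ Col N (K - 1)).card : ℝ) ≤ 4 * N := by
      exact_mod_cast h1
    rw [div_le_iff₀ (by positivity)] at hk
    have h3 := mul_le_mul_of_nonneg_right h2 (show 0 ≤ 1 + C by linarith)
    have h4 := mul_le_mul_of_nonneg_left hZ2 hε.le
    have h5 := mul_le_mul_of_nonneg_left hk hN'.le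
    have h6 : 0 ≤ ε * N * δ := by positivity
    linarith

end DRW
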