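import Pool.Agent.P.MP_de05b4_pr.Basic

/-! The flux into a window of the right wall is rarely small. -/

namespace DRW

open MeasureTheory ProbabilityTheory Finset
open scoped ENNReal

variable {N : ℕ} [NeZero N]

/-- the two extreme rows of the window inside the strip -/
def Rho_Sg (s w l : ℕ) (p : ZMod N) : Finset (T N) :=
  (Wd N s (s + w)).filter fun x => x.2 = p ∨ x.2 = p + ((l - 1 : ℕ) : ZMod N)

noncomputable def Rho_g (r l : ℕ) (p : ZMod N) (G : E N → ℝ) : T N → ℝ :=
  har (Wd N 0 r) (ind (Win N r p l)) G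

noncomputable def Rho_phi (s w l : ℕ) (p : ZMod N) (G : E N → ℝ) : T N → ℝ :=
  har (Wd N s (s + w) \ Rho_Sg s w l p) (ind (Rho_Sg s w l p)) G

noncomputable def Rho_psi (s w l : ℕ) (p : ZMod N) (G : E N → ℝ) : T N → ℝ :=
  har (Wd N s (s + w)) (fun z => ind (Col N s) z * Rho_g (s + w) l p G z) G

theorem Rho_g_nonneg {G : E N → ℝ} (hG : Pos G) (r l : ℕ) (p : ZMod N) (x : T N) :
    0 ≤ Rho_g r l p G x := har_ind_nonneg hG (Wd_ne_univ _ _) _ x

theorem Rho_phi_nonneg {G : E N → ℝ} (hG : Pos G) (s w l : ℕ) (p : ZMod N) (x : T N) :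
    0 ≤ Rho_phi s w l p G x := har_ind_nonneg hG (Wd_sdiff_ne_univ _ _ _) _ x

theorem Rho_psi_nonneg {G : E N → ℝ} (hG : Pos G) (s w l : ℕ) (p : ZMod N) (x : T N) :
    0 ≤ Rho_psi s w l p G x :=
  har_nonneg hG (Wd_ne_univ _ _)
    (fun z => mul_nonneg (ind_nonneg _ z) (Rho_g_nonneg hG _ _ _ z)) x

theorem Rho_cmp {G : E N → ℝ} (hG : Pos G) {s w l : ℕ} (hr : s + w < N) (hl : 1 ≤ l)
    (hlN : l < N) (p : ZMod N) {x : T N} (h1 : s < col x) (h2 : col x < s + w)
    (h3 : l ≤ (x.2 - p).val) :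
    Rho_g (s + w) l p G x ≤ Rho_phi s w l p G x + Rho_psi s w l p G x := by
  set D : Finset (T N) := (Wd N s (s + w)).filter fun x => l ≤ (x.2 - p).val with hD
  have mD : ∀ y, y ∈ D ↔ (s < col y ∧ col y < s + w) ∧ l ≤ (y.2 - p).val := fun y => by
    rw [hD, mem_filter, mem_Wd]
  have hv : (((l - 1 : ℕ) : ZMod N)).val = l - 1 := ZMod.val_cast_of_lt (by omega)
  refine le_of_lap hG (D := D) (ne_univ_of_subset (filter_subset _ _))
    (f := Rho_g (s + w) l p G) (g := fun z => Rho_phi s w l p G z + Rho_psi s w l p G z)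
    ?_ ?_ x ((mD x).2 ⟨⟨h1, h2⟩, h3⟩)
  · intro y hy
    obtain ⟨⟨a1, a2⟩, a3⟩ := (mD y).1 hy
    have e1 : lap G (Rho_g (s + w) l p G) y = 0 := har_Wd_lap hG _ (by omega) a2
    have e2 : lap G (Rho_psi s w l p G) y = 0 := har_Wd_lap hG _ a1 a2
    have e3 : lap G (Rho_phi s w l p G) y = 0 := by
      refine har_lap hG (Wd_sdiff_ne_univ _ _ _) _ (mem_sdiff.2 ⟨mem_Wd.2 ⟨a1, a2⟩, ?_⟩)
      intro hy
      rcases (mem_filter.1 hy).2 with e | e
      · rw [e, sub_self, ZMod.val_zero] at a3; omega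
      · rw [e, add_sub_cancel_left, hv] at a3; omega
    rw [lap_add, e1, e2, e3, add_zero]
  · intro y hy i hi
    obtain ⟨⟨a1, a2⟩, a3⟩ := (mD y).1 hy
    have n1 := Rho_phi_nonneg hG s w l p (y + dr N i)
    have n2 := Rho_psi_nonneg hG s w l p (y + dr N i)
    show _ ≤ Rho_phi s w l p G (y + dr N i) + Rho_psi s w l p G (y + dr N i)
    rcases col_nbr (x := y) (by omega) (by omega) i with ⟨rfl, hc⟩ | ⟨rfl, hc⟩ | ⟨hi', hc⟩
    · have hcol : col (y + dr N 0) = s + w := by
        by_contra hne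
        exact hi ((mD _).2 ⟨⟨by omega, by omega⟩, by rw [row_add0]; exact a3⟩)
      have : Rho_g (s + w) l p G (y + dr N 0) = 0 := by
        unfold Rho_g
        rw [har_Wd_off hG _ (Or.inr hcol.ge)]
        refine ind_of_notMem fun h => ?_
        have := (mem_Win.1 h).2
        rw [row_add0] at this
        omega
      linarith
    · have hcol : col (y + dr N 2) = s := by
        by_contra hne
        exact hi ((mD _).2 ⟨⟨by omega, by omega⟩, by rw [row_add2]; exact a3⟩)
      have : Rho_psi s w l p G (y + dr N 2) = Rho_g (s + w) l p G (y + dr N 2) := by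
        unfold Rho_psi
        rw [har_Wd_off hG _ (Or.inl hcol.le), ind_of_mem (mem_Col.2 hcol), one_mul]
      linarith
    · have hlt : ((y + dr N i).2 - p).val < l := by
        by_contra hne
        exact hi ((mD _).2 ⟨⟨by omega, by omega⟩, not_lt.1 hne⟩)
      have hS : y + dr N i ∈ Rho_Sg s w l p := by
        refine mem_filter.2 ⟨mem_Wd.2 ⟨by omega, by omega⟩, ?_⟩
        rcases hi' with rfl | rfl
        · left
          rw [row_add1] at hlt ⊢
          have e : y.2 + 1 - p = (y.2 - p) + 1 := by ring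
          rw [e] at hlt
          by_cases hw : (y.2 - p).val + 1 < N
          · rw [val_add_one hw] at hlt; omega
          · have := add_one_eq_zero hw
            rw [← e] at this
            exact sub_eq_zero.1 this
        · right
          rw [row_add3] at hlt ⊢
          have e : y.2 - 1 - p = (y.2 - p) - 1 := by ring
          have h5 : (y.2 - 1 - p).val = l - 1 := by
            rw [e] at hlt ⊢
            rw [val_sub_one (by omega)] at hlt ⊢
            omega
          rw [← h5, ZMod.natCast_zmod_val]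
          ring
      have e1 : Rho_phi s w l p G (y + dr N i) = 1 := by
        unfold Rho_phi
        rw [har_off hG (Wd_sdiff_ne_univ _ _ _) _ (fun h => (mem_sdiff.1 h).2 hS), ind_of_mem hS]
      have e2 : Rho_g (s + w) l p G (y + dr N i) ≤ 1 := har_ind_le_one hG (Wd_ne_univ _ _) _ _
      linarith

theorem Rho_ret {G : E N → ℝ} (hG : Pos G) {s w l : ℕ} (hw : 2 ≤ w) (hr : s + w < N) (hl : 1 ≤ l)
    (hlN : l < N) (p : ZMod N) :
    Fx G (SE (Col N (s + w) \ Win N (s + w) p l) 2) (Rho_g (s + w) l p G) ≤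
      Fx G (SE (Col N (s + w)) 2) (Rho_phi s w l p G) +
        Fx G (SE (Col N (s + w)) 2) (Rho_psi s w l p G) := by
  rw [← Fx_add]
  refine le_trans (Fx_mono hG
    (g' := fun z => Rho_phi s w l p G z + Rho_psi s w l p G z) fun e he => ?_)
    (Fx_subset hG (fun e he => ?_) fun e _ =>
      add_nonneg (Rho_phi_nonneg hG _ _ _ _ _) (Rho_psi_nonneg hG _ _ _ _ _))
  · have hc := col_tg_right (t := s + w) (by omega) sdiff_subset he
    obtain ⟨h1, h2⟩ := mem_SE.1 he
    obtain ⟨h3, h4⟩ := mem_sdiff.1 h1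
    refine Rho_cmp hG hr hl hlN p (by omega) (by omega) ?_
    have e : (tg e).2 = e.1.2 := by unfold tg; rw [h2, row_add2]
    rw [e]
    by_contra hne
    exact h4 (mem_Win.2 ⟨mem_Col.1 h3, not_le.1 hne⟩)
  · obtain ⟨h1, h2⟩ := mem_SE.1 he
    exact mem_SE.2 ⟨(mem_sdiff.1 h1).1, h2⟩

theorem Rho_sum_g {G : E N → ℝ} (hG : Pos G) {r l : ℕ} (hr : r < N) (hlN : l < N) (z : T N) :
    ∑ p : ZMod N, Rho_g r l p G z ≤ l := by
  have e : ∀ p : ZMod N, Rho_g r l p G z =
      ∑ y ∈ Win N r p l, har (Wd N 0 r) (ind {y}) G z := fun p => har_ind_sum _ _ _ _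
  simp only [e]
  rw [sum_sum_Win hr hlN.le, ← har_ind_sum, nsmul_eq_mul]
  exact mul_le_of_le_one_right (Nat.cast_nonneg _) (har_ind_le_one hG (Wd_ne_univ _ _) _ _)

theorem Rho_sum_psi {G : E N → ℝ} (hG : Pos G) {s w l : ℕ} (hr : s + w < N) (hlN : l < N) :
    ∑ p : ZMod N, Fx G (SE (Col N (s + w)) 2) (Rho_psi s w l p G) ≤
      l * FR s (s + w) (Col N s) G := by
  unfold FR
  rw [← Fx_sum, ← Fx_mul]
  refine Fx_mono hG fun e _ => ?_
  unfold Rho_psi
  rw [← har_sum, ← har_mul]
  refine har_mono hG (Wd_ne_univ _ _) (fun z _ => ?_) _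
  rw [← mul_sum, mul_comm]
  exact mul_le_mul_of_nonneg_right (Rho_sum_g hG hr hlN z) (ind_nonneg _ _)

theorem Rho_meas_psi (s w l : ℕ) (p : ZMod N) :
    Measurable fun G => Fx G (SE (Col N (s + w)) 2) (Rho_psi s w l p G) :=
  measurable_Fx _ fun x => measurable_har' _
    (fun y => (measurable_har _ _ y).const_mul (ind (Col N s) y)) x

theorem Rho_exp {x : ℝ} (hx : 0 ≤ x) :
    (Real.exp (-(x / 2)))⁻¹ * (2 : ℝ) ^ (-x) ≤ Real.exp (-(x / 6)) := by
  rw [Real.rpow_def_of_pos two_pos, ← Real.exp_neg, ← Real.exp_add, Real.exp_le_exp]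
  have := Real.log_two_gt_d9
  nlinarith

theorem pf_Rho (hR : StIFR) (hH : StHB) (hA : StA) : StRho := by
  intro α hα N _ r w l hw hwr hr hl hlN
  obtain ⟨s, rfl⟩ : ∃ s, r = s + w := ⟨r - w, by omega⟩
  have hβ : Pos (al N α) := pos_al hα.1
  have hd : 0 < α 0 - α 2 := sub_pos.2 hα.2
  have hl0 : (0 : ℝ) < l := by exact_mod_cast hl
  have hx : 0 < (α 0 - α 2) * l := by positivity
  have hAs : 0 ≤ ∑ i, α i := sum_nonneg fun i _ => (hα.1 i).le
  have ha := (hA α hα N).2.1 w
  set x := (α 0 - α 2) * l with hxdef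
  have step1 : ∀ p : ZMod N, mu (al N α) {G | FL 0 (s + w) (Win N (s + w) p l) G < x / 4} ≤
      ENNReal.ofReal (Real.exp (-(x / 6))) + ENNReal.ofReal (x / 4)⁻¹ *
        (ENNReal.ofReal (4 * w * ∑ i, α i) +
          Ex (al N α) fun G => Fx G (SE (Col N (s + w)) 2) (Rho_psi s w l p G)) := by
    intro p
    set Ret : (E N → ℝ) → ℝ := fun G =>
      Fx G (SE (Col N (s + w) \ Win N (s + w) p l) 2) (Rho_g (s + w) l p G) with hRet
    have mRet : Measurable Ret := measurable_Fx_har _ _ _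
    have hsub : {G | FL 0 (s + w) (Win N (s + w) p l) G < x / 4} ⊆
        {G | FL 0 (s + w) (Win N (s + w) p l) G + Ret G ≤ x / 2} ∪ {G | x / 4 ≤ Ret G} := by
      intro G hG
      by_cases h : x / 4 ≤ Ret G
      · exact Or.inr h
      · left
        have h1 : FL 0 (s + w) (Win N (s + w) p l) G < x / 4 := hG
        show FL 0 (s + w) (Win N (s + w) p l) G + Ret G ≤ x / 2
        linarith
    refine (measure_mono hsub).trans ((measure_union_le _ _).trans (add_le_add ?_ ?_))
    · have h1 := hR α hα N 0 (s + w) (by omega) hr _ (Win_subset (s + w) l p)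
      rw [card_Win hr hlN.le] at h1
      refine (mu_le_Ex hβ (X := fun G => Real.exp (-(FL 0 (s + w) (Win N (s + w) p l) G + Ret G)))
        ((measurable_FL _ _ _).add mRet).neg.exp (c := Real.exp (-(x / 2))) (Real.exp_pos _)
        fun G _ hG => Real.exp_le_exp.2 (neg_le_neg hG)).trans ?_
      refine (mul_le_mul_right h1 _).trans ?_
      rw [← ENNReal.ofReal_mul (by positivity)]
      exact ENNReal.ofReal_le_ofReal (Rho_exp hx.le)
    · refine (mu_le_Ex hβ mRet (c := x / 4) (by positivity) fun G _ hG => hG).trans ?_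
      refine mul_le_mul_right ?_ _
      refine (Ex_mono hβ fun G hG => Rho_ret hG hw hr hl hlN p).trans ?_
      refine (Ex_add_le _ (measurable_Fx_har _ _ _)).trans (add_le_add ?_ le_rfl)
      refine (hH N _ hβ _ (Rho_Sg s w l p) _ (Wd_sdiff_ne_univ _ _ _) sdiff_disjoint
        (fun e he => ?_) fun z _ => (dv_al α z).le).2.trans (ENNReal.ofReal_le_ofReal ?_)
      · have h1 : e.1 ∉ Wd N s (s + w) := fun h => by
          have := mem_Col.1 (mem_SE.1 he).1
          have := (mem_Wd.1 h).2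
          omega
        exact ⟨fun h => h1 (mem_sdiff.1 h).1, fun h => h1 (mem_filter.1 h).1⟩
      · simp only [inw_al, sum_const, nsmul_eq_mul]
        have hc : ((Rho_Sg s w l p).card : ℝ) ≤ 2 * w := by
          exact_mod_cast card_two_rows s w p (p + ((l - 1 : ℕ) : ZMod N))
        nlinarith
  have step2 : ∑ p : ZMod N,
      (Ex (al N α) fun G => Fx G (SE (Col N (s + w)) 2) (Rho_psi s w l p G)) ≤
        ENNReal.ofReal (l * (N * aa α N w)) := by
    rw [← Ex_sum hβ univ (fun p _ => Rho_meas_psi s w l p)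
      fun p _ G hG => Fx_nonneg hG fun e _ => Rho_psi_nonneg hG _ _ _ _ _]
    refine (Ex_mono hβ fun G hG => Rho_sum_psi hG hr hlN).trans ?_
    rw [Ex_const_mul _ hl0.le, ((hA α hα N).1 s (s + w) (by omega) hr).1 _ Subset.rfl,
      card_Col (by omega), Nat.add_sub_cancel_left, ← ENNReal.ofReal_mul hl0.le]
  refine (sum_le_sum fun p _ => step1 p).trans ?_
  rw [sum_add_distrib, ← mul_sum, sum_add_distrib, sum_const, sum_const, card_univ, ZMod.card,
    nsmul_eq_mul, nsmul_eq_mul]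
  refine (add_le_add le_rfl (mul_le_mul_right (add_le_add le_rfl step2) _)).trans (le_of_eq ?_)
  rw [← ENNReal.ofReal_natCast N, ← ENNReal.ofReal_mul (by positivity),
    ← ENNReal.ofReal_mul (by positivity), ← ENNReal.ofReal_add (by positivity) (by positivity),
    ← ENNReal.ofReal_mul (by positivity), ← ENNReal.ofReal_add (by positivity) (by positivity)]
  congr 1
  field_simp

end DRW
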