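import Pool.Agent.P.MP_de05b4_pr.Basic

/-! Large deviation bounds for the fluxes through long windows. -/

namespace DRW

open MeasureTheory ProbabilityTheory Finset Filter
open scoped ENNReal Topology

theorem Riv_sum_range (φ : ℕ → ℝ) (l n : ℕ) :
    ∑ j ∈ range (n * l), φ j = ∑ k ∈ range n, ∑ i ∈ range l, φ (k * l + i) := by
  induction n with
  | zero => simp
  | succ n ih => rw [Nat.succ_mul, Finset.sum_range_add, ih, Finset.sum_range_succ]

theorem Riv_val {N : ℕ} [NeZero N] {n l k : ℕ} (hk : k < n) (hn : n * l < N) {p y : ZMod N}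
    (h : (y - (p + ((k * l : ℕ) : ZMod N))).val < l) :
    (y - p).val = k * l + (y - (p + ((k * l : ℕ) : ZMod N))).val := by
  have h1 : (k + 1) * l ≤ n * l := Nat.mul_le_mul_right l hk
  rw [Nat.succ_mul] at h1
  have h2 : y - p = ((k * l + (y - (p + ((k * l : ℕ) : ZMod N))).val : ℕ) : ZMod N) := by
    rw [Nat.cast_add, ZMod.natCast_zmod_val]; ring
  rw [h2, ZMod.val_natCast, Nat.mod_eq_of_lt (by omega)]

theorem Riv_sub {N : ℕ} [NeZero N] {n l k : ℕ} (hk : k < n) (hn : n * l < N) (r : ℕ)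
    (p : ZMod N) : Win N r (p + ((k * l : ℕ) : ZMod N)) l ⊆ Win N r p (n * l) := by
  intro x hx
  rw [mem_Win] at hx ⊢
  refine ⟨hx.1, ?_⟩
  have h1 : (k + 1) * l ≤ n * l := Nat.mul_le_mul_right l hk
  rw [Nat.succ_mul] at h1
  rw [Riv_val hk hn hx.2]; omega

theorem Riv_split {N : ℕ} [NeZero N] {n l r : ℕ} (h1 : 1 ≤ n) (hn : n * l < N) (hr : r < N)
    (p : ZMod N) (G : E N → ℝ) (g : T N → ℝ) :
    Fx G (SE (Win N r p (n * l)) 0) g =
      ∑ k ∈ range n, Fx G (SE (Win N r (p + ((k * l : ℕ) : ZMod N)) l) 0) g := by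
  have hl : l ≤ N := le_trans (Nat.le_mul_of_pos_left l h1) hn.le
  simp only [Fx_SE]
  rw [sum_Win hr hn.le, Riv_sum_range]
  refine Finset.sum_congr rfl fun k _ => ?_
  rw [sum_Win hr hl]
  refine Finset.sum_congr rfl fun i _ => ?_
  rw [Nat.cast_add, add_assoc]

theorem pf_EscU (hK : StBlk) (hX : StBox) (hN : StIndN) : StEscU := by
  intro α hα θ hθ
  obtain ⟨w, l, s, hw, hwl, hs, hB⟩ := hK α hα (θ / 2) (by positivity)
  have hl0 : (0 : ℝ) < l := by exact_mod_cast (by omega : 0 < l)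
  refine ⟨l, s * θ * l / 2, by omega, by positivity, ?_⟩
  intro N _ r t n p h1 hn hr ht
  have hβ : Pos (al N α) := pos_al hα.1
  have hl : l < N := lt_of_le_of_lt (Nat.le_mul_of_pos_left l h1) hn
  set q : ℕ → ZMod N := fun k => p + ((k * l : ℕ) : ZMod N) with hq
  have hm : Measurable fun G : E N → ℝ => Real.exp (s * ∑ k ∈ range n, Xb r w (q k) l G) :=
    Real.measurable_exp.comp (measurable_const.mul
      (Finset.measurable_sum _ fun k _ => measurable_Xb r w l (q k)))
  have hM := mu_le_Ex hβ hm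
    (D := {G | (α 0 - α 2 + θ) * (n * l : ℕ) < Esc r t (Win N r p (n * l)) G})
    (c := Real.exp (s * ((α 0 - α 2 + θ) * (n * l : ℕ)))) (Real.exp_pos _) (by
      intro G hG hD
      refine Real.exp_le_exp.mpr (mul_le_mul_of_nonneg_left (le_trans (le_of_lt hD) ?_) hs.le)
      unfold Esc
      rw [Riv_split h1 hn (by omega)]
      refine Finset.sum_le_sum fun k hk => ?_
      exact (hX N r w t l (q k) hw (by omega) ht hl G hG).1 _ (Win_subset _ _ _)
        (Riv_sub (mem_range.mp hk) hn r p))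
  refine hM.trans ?_
  have hI := hN N (al N α) hβ n (fun k => {e : E N | (e.1.2 - q k).val < l})
    (fun k G => ENNReal.ofReal (Real.exp (s * Xb r w (q k) l G)))
    (fun k => (Real.measurable_exp.comp (measurable_const.mul
      (measurable_Xb r w l (q k)))).ennreal_ofReal)
    (fun k G G' h => by
      have : Xb r w (q k) l G = Xb r w (q k) l G' :=
        Fx_har_dep _ (fun e he => h e (mem_Box.mp he).2.2)
          fun e he => h e (mem_Win.mp (mem_SE.mp he).1).2
      simp only [this])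
    (fun k hk k' hk' hne => by
      rw [Set.disjoint_left]
      intro e h h'
      have a1 := Riv_val hk hn h
      have a2 := Riv_val hk' hn h'
      have b1 : (e.1.2 - q k).val < l := h
      have b2 : (e.1.2 - q k').val < l := h'
      change _ = k * l + (e.1.2 - q k).val at a1
      change _ = k' * l + (e.1.2 - q k').val at a2
      rcases Nat.lt_or_gt_of_ne hne with hlt | hlt
      · have : (k + 1) * l ≤ k' * l := Nat.mul_le_mul_right l hlt
        rw [Nat.succ_mul] at this; omega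
      · have : (k' + 1) * l ≤ k * l := Nat.mul_le_mul_right l hlt
        rw [Nat.succ_mul] at this; omega)
  have hE : Ex (al N α) (fun G => Real.exp (s * ∑ k ∈ range n, Xb r w (q k) l G)) ≤
      ENNReal.ofReal (Real.exp (s * ((α 0 - α 2 + θ / 2) * l)) ^ n) := by
    unfold Ex
    have : ∀ G : E N → ℝ, ENNReal.ofReal (Real.exp (s * ∑ k ∈ range n, Xb r w (q k) l G)) =
        ∏ k ∈ range n, ENNReal.ofReal (Real.exp (s * Xb r w (q k) l G)) := fun G => by
      rw [Finset.mul_sum, Real.exp_sum, ENNReal.ofReal_prod_of_nonneg fun _ _ => (Real.exp_pos _).le]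
    simp only [this]
    rw [hI, ENNReal.ofReal_pow (Real.exp_pos _).le]
    calc ∏ k ∈ range n, ∫⁻ G, ENNReal.ofReal (Real.exp (s * Xb r w (q k) l G)) ∂mu (al N α)
        ≤ ∏ _k ∈ range n, ENNReal.ofReal (Real.exp (s * ((α 0 - α 2 + θ / 2) * l))) :=
          Finset.prod_le_prod' fun k _ => hB N r (q k) hl (by omega)
      _ = _ := by rw [Finset.prod_const, card_range]
  refine (mul_le_mul_right hE _).trans (le_of_eq ?_)
  rw [← ENNReal.ofReal_mul (by positivity), ← Real.exp_nat_mul, ← Real.exp_neg, ← Real.exp_add]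
  congr 2
  push_cast; ring

theorem pf_Riv (hE : StEscU) (hL : StIFL) : StRiv := by
  intro α hα θ hθ
  obtain ⟨l, c, hl, hc, hB⟩ := hE α hα (θ / 3) (by positivity)
  have hδ : 0 < α 0 - α 2 := sub_pos.mpr hα.2
  set δ := α 0 - α 2 with hδ'
  have hl0 : (0 : ℝ) < l := by exact_mod_cast (by omega : 0 < l)
  set ε : ℝ := (θ / 3) / (δ + 2 * θ / 3) with hε
  have hε0 : 0 < ε := by positivity
  have hd : 0 < δ + 2 * θ / 3 := by positivity
  have hε1 : ε < 1 := by rw [hε, div_lt_one hd]; linarith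
  have hε2 : 1 - ε = (δ + θ / 3) / (δ + 2 * θ / 3) := by rw [hε]; field_simp; ring
  have hε3 : ε / (1 - ε) * (δ + θ / 3) = ε * (δ + 2 * θ / 3) := by
    rw [hε2]; field_simp
  refine ⟨l, min c (ε * θ * l / 3), hl, lt_min hc (by positivity), ?_⟩
  intro N _ r t n p h1 hn hr ht
  have hβ : Pos (al N α) := pos_al hα.1
  set I := Win N r p (n * l) with hI
  set x : ℝ := ((n * l : ℕ) : ℝ) with hx
  have hx0 : 0 ≤ x := Nat.cast_nonneg _
  have hn0 : (0 : ℝ) ≤ n := Nat.cast_nonneg _
  have hm : Measurable fun G : E N → ℝ =>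
      Real.exp (ε * FR r t I G - ε / (1 - ε) * Esc r t I G) :=
    Real.measurable_exp.comp ((measurable_const.mul (measurable_FR r t I)).sub
      (measurable_const.mul (measurable_Esc r t I)))
  have hM := mu_le_Ex hβ hm
    (D := {G | θ * x < FR r t I G ∧ Esc r t I G ≤ (δ + θ / 3) * x})
    (c := Real.exp (ε * (θ / 3 - δ) * x)) (Real.exp_pos _) (by
      intro G _ hD
      refine Real.exp_le_exp.mpr ?_
      have a1 : ε * (θ * x) ≤ ε * FR r t I G := mul_le_mul_of_nonneg_left hD.1.le hε0.le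
      have a2 : ε / (1 - ε) * Esc r t I G ≤ ε / (1 - ε) * ((δ + θ / 3) * x) :=
        mul_le_mul_of_nonneg_left hD.2 (div_nonneg hε0.le (by linarith))
      rw [← mul_assoc, hε3] at a2
      nlinarith)
  have hF := hL α hα N r t (by omega) ht I (Win_subset _ _ _) ε hε0 hε1
  rw [hI, card_Win (by omega) hn.le, ← hI, ← hx, ← hδ'] at hF
  have h2 : mu (al N α) {G | θ * x < FR r t I G ∧ Esc r t I G ≤ (δ + θ / 3) * x} ≤
      ENNReal.ofReal (Real.exp (-min c (ε * θ * l / 3) * n)) := by
    refine hM.trans ((mul_le_mul_right hF _).trans ?_)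
    rw [← ENNReal.ofReal_mul (by positivity)]
    refine ENNReal.ofReal_le_ofReal ?_
    have a1 : (1 - ε) ^ (δ * x) ≤ Real.exp (-ε) ^ (δ * x) :=
      Real.rpow_le_rpow (by linarith) (by have := Real.add_one_le_exp (-ε); linarith)
        (by positivity)
    rw [← Real.exp_mul] at a1
    refine (mul_le_mul_of_nonneg_left a1 (by positivity)).trans ?_
    rw [← Real.exp_neg, ← Real.exp_add]
    refine Real.exp_le_exp.mpr ?_
    have a2 : min c (ε * θ * l / 3) * n ≤ ε * θ * l / 3 * n :=
      mul_le_mul_of_nonneg_right (min_le_right _ _) hn0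
    have a3 : x = n * l := by rw [hx]; push_cast; ring
    rw [a3]; nlinarith
  have h3 : mu (al N α) {G | (δ + θ / 3) * x < Esc r t I G} ≤
      ENNReal.ofReal (Real.exp (-min c (ε * θ * l / 3) * n)) := by
    refine (hB N r t n p h1 hn hr ht).trans (ENNReal.ofReal_le_ofReal (Real.exp_le_exp.mpr ?_))
    have a2 : min c (ε * θ * l / 3) * n ≤ c * n :=
      mul_le_mul_of_nonneg_right (min_le_left _ _) hn0
    linarith
  calc mu (al N α) {G | θ * x < FR r t I G}
      ≤ mu (al N α) ({G | θ * x < FR r t I G ∧ Esc r t I G ≤ (δ + θ / 3) * x} ∪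
          {G | (δ + θ / 3) * x < Esc r t I G}) := by
        refine measure_mono fun G hG => ?_
        rcases le_or_gt (Esc r t I G) ((δ + θ / 3) * x) with h | h
        · exact Or.inl ⟨hG, h⟩
        · exact Or.inr h
    _ ≤ _ := measure_union_le _ _
    _ ≤ _ := add_le_add h2 h3
    _ = _ := by rw [← ENNReal.ofReal_add (Real.exp_pos _).le (Real.exp_pos _).le, two_mul]

theorem pf_Rho2 (hR : StRiv) (hB : StB2) (hA : StA) : StRho2 := by
  intro α hα θ hθ
  obtain ⟨l, c, hl, hc, hV⟩ := hR α hα θ hθ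
  obtain ⟨C, hC, hS⟩ := hB α hα
  have h2 : 0 < α 2 := hα.1 2
  refine ⟨l, c / 2, 2 + (l : ℝ) ^ 2 * (C * α 2), hl, by positivity, by positivity, ?_⟩
  intro N _ r t n p h1 hn hr ht
  have hβ : Pos (al N α) := pos_al hα.1
  set I := Win N r p (n * l) with hI
  set x : ℝ := ((n * l : ℕ) : ℝ) with hx
  have hx0 : 0 ≤ x := Nat.cast_nonneg _
  have hn1 : (1 : ℝ) ≤ n := by exact_mod_cast h1
  have hcard : I.card = n * l := card_Win (by omega) hn.le p
  set L : ℝ := Real.exp (c / 2 * n) with hL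
  have hL0 : 0 < L := Real.exp_pos _
  set D : Set (E N → ℝ) := {G | θ * x < FR r t I G} with hD
  have hm : Measurable fun G : E N → ℝ => L⁻¹ * x * ∑ y ∈ I, FR r t {y} G ^ 2 :=
    measurable_const.mul (Finset.measurable_sum _ fun y _ => (measurable_FR r t {y}).pow_const 2)
  have a1 : Ex (al N α) (fun G => if θ * x < FR r t I G then FR r t I G else 0) ≤
      Ex (al N α) (fun G => L⁻¹ * x * (∑ y ∈ I, FR r t {y} G ^ 2) + D.indicator (fun _ => L) G) := by
    refine Ex_mono hβ fun G hG => ?_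
    have b0 : 0 ≤ ∑ y ∈ I, FR r t {y} G ^ 2 := Finset.sum_nonneg fun _ _ => sq_nonneg _
    split_ifs with h
    · rw [Set.indicator_of_mem (show G ∈ D from h)]
      have b1 : FR r t I G ^ 2 ≤ x * ∑ y ∈ I, FR r t {y} G ^ 2 := by
        rw [FR_eq_sum, hx, ← hcard]; exact sq_sum_le_card_mul_sum_sq
      have b2 : L⁻¹ * FR r t I G ^ 2 ≤ L⁻¹ * (x * ∑ y ∈ I, FR r t {y} G ^ 2) :=
        mul_le_mul_of_nonneg_left b1 (by positivity)
      have b3 : FR r t I G ≤ L⁻¹ * FR r t I G ^ 2 + L := by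
        have : L * FR r t I G ≤ FR r t I G ^ 2 + L * L := by
          nlinarith [sq_nonneg (FR r t I G - L), sq_nonneg (FR r t I G), mul_pos hL0 hL0]
        calc FR r t I G = L⁻¹ * (L * FR r t I G) := by field_simp
          _ ≤ L⁻¹ * (FR r t I G ^ 2 + L * L) := mul_le_mul_of_nonneg_left this (by positivity)
          _ = _ := by field_simp
      rw [mul_assoc]; linarith
    · rw [Set.indicator_of_notMem (show G ∉ D from h)]; positivity
  have a2 : Ex (al N α) (fun G => D.indicator (fun _ => L) G) ≤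
      ENNReal.ofReal (L * (2 * Real.exp (-c * n))) := by
    unfold Ex
    have : ∀ G : E N → ℝ, ENNReal.ofReal (D.indicator (fun _ => L) G) =
        D.indicator (fun _ => ENNReal.ofReal L) G := fun G => by
      by_cases h : G ∈ D <;> simp [h]
    simp only [this]
    refine (lintegral_indicator_const_le D _).trans ?_
    rw [ENNReal.ofReal_mul hL0.le]
    exact mul_le_mul_right (hV N r t n p h1 hn hr ht) _
  have a3 : Ex (al N α) (fun G => L⁻¹ * x * ∑ y ∈ I, FR r t {y} G ^ 2) ≤
      ENNReal.ofReal (L⁻¹ * x * (x * (C * α 2))) := by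
    rw [Ex_const_mul _ (by positivity), ENNReal.ofReal_mul (p := L⁻¹ * x) (by positivity)]
    refine mul_le_mul_right ?_ _
    rw [Ex_sum hβ I (X := fun y G => FR r t {y} G ^ 2)
      (fun y _ => (measurable_FR r t {y}).pow_const 2) (fun _ _ _ _ => sq_nonneg _)]
    calc ∑ y ∈ I, Ex (al N α) (fun G => FR r t {y} G ^ 2)
        ≤ ∑ _y ∈ I, ENNReal.ofReal (C * α 2) := by
          refine Finset.sum_le_sum fun y hy => ?_
          refine ((hS N r t (by omega) ht).1 y (Win_subset _ _ _ hy)).trans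
            (ENNReal.ofReal_le_ofReal (mul_le_mul_of_nonneg_left ?_ hC.le))
          exact (hA α hα N).2.2.1 (t - r) (by omega) (by omega)
      _ = _ := by
          rw [Finset.sum_const, hcard, nsmul_eq_mul, ENNReal.ofReal_mul hx0, hx,
            ENNReal.ofReal_natCast]
  refine a1.trans ((Ex_add_le _ hm).trans ((add_le_add a3 a2).trans ?_))
  rw [← ENNReal.ofReal_add (by positivity) (by positivity)]
  refine ENNReal.ofReal_le_ofReal ?_
  have e1 : L⁻¹ = Real.exp (-(c / 2) * n) := by rw [hL, ← Real.exp_neg]; congr 1; ring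
  have e2 : L * (2 * Real.exp (-c * n)) = 2 * Real.exp (-(c / 2) * n) := by
    rw [hL, mul_left_comm, ← Real.exp_add]; congr 2; ring
  have e3 : x = n * l := by rw [hx]; push_cast; ring
  rw [e2, e1, e3]
  have e4 : 0 < Real.exp (-(c / 2) * n) := Real.exp_pos _
  have e5 : (1 : ℝ) ≤ (n : ℝ) ^ 2 := by nlinarith
  nlinarith [mul_le_mul_of_nonneg_right e5 e4.le]

end DRW
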