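import Pool.Agent.P.MP_de05b4_pr.Basic

/-! Rotation of the lattice by a quarter turn. -/

namespace DRW

open MeasureTheory ProbabilityTheory Finset Filter
open scoped ENNReal Topology

/-- the quarter turn -/
def Rot_e : ℤ × ℤ ≃ ℤ × ℤ where
  toFun z := (-z.2, z.1)
  invFun z := (z.2, -z.1)
  left_inv z := by simp
  right_inv z := by simp

/-- the relabelling of the four directions -/
def Rot_s (g : Fin 4 → ℝ) : Fin 4 → ℝ := fun i => g (i - 1)

/-- the rotated environment -/
def Rot_P (w : Env) : Env := fun z => Rot_s (w (Rot_e.symm z))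

theorem Rot_meas_s : Measurable Rot_s := by unfold Rot_s; fun_prop

theorem Rot_meas_P : Measurable Rot_P := by unfold Rot_P Rot_s; fun_prop

theorem Rot_gam {α : Fin 4 → ℝ} (hα : ∀ i, 0 < α i) :
    (gam fun i => α (i + 1)).map Rot_s = gam α := by
  have : ∀ i, IsProbabilityMeasure (gammaMeasure (α i) 1) := fun i =>
    isProbabilityMeasure_gammaMeasure (hα i) one_pos
  have h := (measurePreserving_piCongrLeft (fun i : Fin 4 => gammaMeasure (α i) 1)
    (Equiv.addRight (1 : Fin 4))).map_eq
  have h2 : Rot_s = ⇑(MeasurableEquiv.piCongrLeft (fun _ : Fin 4 => ℝ)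
      (Equiv.addRight (1 : Fin 4))) := by
    funext g i
    have h3 := MeasurableEquiv.piCongrLeft_apply_apply (β := fun _ : Fin 4 => ℝ)
      (Equiv.addRight (1 : Fin 4)) g (i - 1)
    simp only [Equiv.coe_addRight, sub_add_cancel] at h3
    exact h3.symm
  rw [h2]
  exact h

theorem Rot_dirichlet {α : Fin 4 → ℝ} (hα : ∀ i, 0 < α i) :
    (dirichlet fun i => α (i + 1)).map Rot_s = dirichlet α := by
  rw [dirichlet_eq, dirichlet_eq, ← Rot_gam hα, Measure.map_map Rot_meas_s measurable_nrm,
    Measure.map_map measurable_nrm Rot_meas_s]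
  congr 1
  funext g i
  simp only [Function.comp, Rot_s, nrm]
  congr 1
  exact (Equiv.sum_comp (Equiv.subRight (1 : Fin 4)) g).symm

theorem Rot_law {α : Fin 4 → ℝ} (hα : ∀ i, 0 < α i) :
    (law fun i => α (i + 1)).map Rot_P = law α := by
  have := prob_dirichlet (α := fun i => α (i + 1)) fun i => hα _
  have h1 := Measure.infinitePi_map_piCongrLeft
    (fun _ : ℤ × ℤ => dirichlet fun i => α (i + 1)) Rot_e
  have h2 := Measure.infinitePi_map_pi (fun _ : ℤ × ℤ => dirichlet fun i => α (i + 1))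
    (f := fun _ => Rot_s) fun _ => Rot_meas_s
  have h3 : Rot_P = (fun (x : Env) z => Rot_s (x z)) ∘
      ⇑(MeasurableEquiv.piCongrLeft (fun _ : ℤ × ℤ => Fin 4 → ℝ) Rot_e) := by
    funext w z
    have h4 := MeasurableEquiv.piCongrLeft_apply_apply (β := fun _ : ℤ × ℤ => Fin 4 → ℝ)
      Rot_e w (Rot_e.symm z)
    rw [Equiv.apply_symm_apply] at h4
    simp only [Function.comp, Rot_P, h4]
  have h5 : Measurable fun (x : Env) z => Rot_s (x z) := by unfold Rot_s; fun_prop
  rw [h3, ← Measure.map_map h5 (MeasurableEquiv.measurable _)]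
  unfold law
  rw [h1, h2]
  simp only [Rot_dirichlet hα]

theorem Rot_shift (i : Fin 4) (w : Env) :
    shift (dir (i + 1)) (Rot_P w) = Rot_P (shift (dir i) w) := by
  funext y
  simp only [shift, Rot_P]
  congr 2
  fin_cases i <;> simp [Rot_e, dir, Prod.ext_iff] <;> ring

theorem pf_Rot : StRot := by
  rintro α hα ⟨Q, hQ, hac, hinv⟩
  refine ⟨Q.map Rot_P, Measure.isProbabilityMeasure_map Rot_meas_P.aemeasurable, ?_, ?_⟩
  · rw [← Rot_law hα]; exact hac.map Rot_meas_P
  · intro A hA
    have hm : Measurable fun ω : Env =>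
        ∑ i, ENNReal.ofReal (ω 0 i) * A.indicator (1 : Env → ℝ≥0∞) (shift (dir i) ω) :=
      Finset.measurable_sum _ fun i _ => (Measurable.ennreal_ofReal (by fun_prop)).mul
        ((measurable_one.indicator hA).comp (measurable_shift _))
    rw [Measure.map_apply Rot_meas_P hA, hinv _ (Rot_meas_P hA), lintegral_map hm Rot_meas_P]
    refine lintegral_congr fun w => ?_
    rw [← Equiv.sum_comp (Equiv.addRight (1 : Fin 4))
      fun i => ENNReal.ofReal (Rot_P w 0 i) * A.indicator (1 : Env → ℝ≥0∞) (shift (dir i) (Rot_P w))]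
    refine sum_congr rfl fun i _ => ?_
    simp only [Equiv.coe_addRight, Rot_shift]
    congr 1
    simp [Rot_P, Rot_s, Rot_e]
    rfl

end DRW
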