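import Pool.Agent.P.MP_de05b4_pr.Basic

/-! The contraction step for the mean backtracking flux. -/

namespace DRW

open MeasureTheory ProbabilityTheory Finset Filter
open scoped ENNReal Topology

theorem S2_eps {θ δ C l : ℝ} (hθ : 0 < θ) (hδ : 0 < δ) (hC : 0 < C) (hl : 0 < l) :
    ∃ ε : ℝ, 0 < ε ∧ ε * l ≤ θ / 5 ∧ ε * (2 * δ * l ^ 2) ≤ θ / 5 ∧ ε * C ≤ 1 ∧ ε * l ≤ 1 := by
  refine ⟨min (min (θ / 5 / l) (θ / 5 / (2 * δ * l ^ 2))) (min (1 / C) (1 / l)),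
    by positivity, ?_, ?_, ?_, ?_⟩
  · exact (le_div_iff₀ hl).1 ((min_le_left _ _).trans (min_le_left _ _))
  · exact (le_div_iff₀ (by positivity)).1 ((min_le_left _ _).trans (min_le_right _ _))
  · exact (le_div_iff₀ hC).1 ((min_le_right _ _).trans (min_le_left _ _))
  · exact (le_div_iff₀ hl).1 ((min_le_right _ _).trans (min_le_right _ _))

theorem S2_rho {θ δ A w L a : ℝ} (hθ : 0 < θ) (hδ : 0 < δ) (hA : 0 ≤ w * A)
    (hL : (90 + 240 * (w * A)) / (θ * δ) ≤ L) (ha : a ≤ θ * δ / 60) :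
    Real.exp (-(δ * L / 6)) + 4 * (4 * w * A + L * a) / (δ * L) ≤ θ / 5 := by
  rw [div_le_iff₀ (by positivity)] at hL
  have L0 : 0 < L := by
    by_contra h
    have := mul_nonpos_of_nonpos_of_nonneg (not_lt.1 h) (mul_pos hθ hδ).le
    linarith
  have h1 : Real.exp (-(δ * L / 6)) ≤ θ / 15 := by
    rw [Real.exp_neg, inv_le_iff_one_le_mul₀ (Real.exp_pos _)]
    have := mul_le_mul_of_nonneg_left (Real.add_one_le_exp (δ * L / 6)) hθ.le
    linarith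
  have h2 : 4 * (4 * w * A + L * a) / (δ * L) ≤ 2 * θ / 15 := by
    rw [div_le_iff₀ (by positivity)]
    have := mul_le_mul_of_nonneg_left ha L0.le
    linarith
  linarith

theorem pf_S2 (hC : StCore) (hR : StRho) (h2 : StRho2) (hD : StCond) (h0 : StA00) (hA : StA)
    (hY : StAsy) : StS2 := by
  intro α hα θ M hθ
  have δ0 : 0 < α 0 - α 2 := sub_pos.2 hα.2
  set δ := α 0 - α 2 with hδ
  have A0 : 0 ≤ ∑ i, α i := sum_nonneg fun i _ => (hα.1 i).le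
  obtain ⟨l, c, C, l1, c0, C0, hl⟩ := h2 α hα (θ * δ / 20) (by positivity)
  obtain ⟨w, w2, hw⟩ := h0 α hα (θ * δ / 60) (by positivity)
  obtain ⟨c₃, C₀, K₀, c30, hc⟩ := hD α hα
  have l1' : (1 : ℝ) ≤ l := by exact_mod_cast l1
  obtain ⟨ε, ε0, e1, e2, e3, e4⟩ := S2_eps (l := l) hθ δ0 C0 (by linarith)
  obtain ⟨n₀, hn₀⟩ := exists_nat_ge ((90 + 240 * (w * ∑ i, α i)) / (θ * δ))
  obtain ⟨K₁, hK₁⟩ := hY (min c (min c₃ (1 / 2))) ε M (n₀ + 1) (by positivity) ε0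
  refine ⟨C₀ + 2, K₀ + K₁ + 4 * w + 2 * l, fun N _ K hK hN => ?_⟩
  obtain ⟨n, n1, hn1, hn2⟩ := hK₁ K (by omega)
  have hN1 : C₀ * K ≤ N := by nlinarith
  have hN2 : K < N := by nlinarith
  have K1 : (1 : ℝ) ≤ K := by exact_mod_cast (by omega : 1 ≤ K)
  have K0 : (0 : ℝ) < K := by linarith
  have n1' : (1 : ℝ) ≤ n := by exact_mod_cast (by omega : 1 ≤ n)
  have nn : (n : ℝ) ≤ (n : ℝ) ^ 2 := by nlinarith
  have pw : ∀ d : ℝ, min c (min c₃ (1 / 2)) ≤ d → (n : ℝ) ^ 2 ≤ ε * (K : ℝ) ^ d := fun d hd =>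
    hn1.trans (mul_le_mul_of_nonneg_left (Real.rpow_le_rpow_of_exponent_le K1 hd) ε0.le)
  have p1 := pw 1 ((min_le_right _ _).trans ((min_le_right _ _).trans (by norm_num)))
  have p2 := pw (1 / 2) ((min_le_right _ _).trans (min_le_right _ _))
  have p3 := pw c₃ ((min_le_right _ _).trans (min_le_left _ _))
  rw [Real.rpow_one] at p1
  have eL : ((n * l : ℕ) : ℝ) = n * l := Nat.cast_mul _ _
  have L1 : (1 : ℝ) ≤ (n * l : ℕ) := by rw [eL]; nlinarith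
  have L1' : 1 ≤ n * l := by exact_mod_cast L1
  have LK : n * l ≤ K := by
    have : ((n * l : ℕ) : ℝ) ≤ K := by
      rw [eL]
      calc (n : ℝ) * l ≤ ε * K * l := by gcongr; exact nn.trans p1
        _ = ε * l * K := by ring
        _ ≤ 1 * K := by gcongr
        _ = K := one_mul _
    exact_mod_cast this
  obtain ⟨-, a0, -, am⟩ := hA α hα N
  have s0 : 0 < (K : ℝ) ^ (1 / 2 : ℝ) := Real.rpow_pos_of_pos K0 _
  have r0 : 0 < (K : ℝ) ^ c₃ := Real.rpow_pos_of_pos K0 _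
  have M0 : 0 ≤ ((K : ℝ) ^ M)⁻¹ := by positivity
  have core := hC α hα N (K / 4) (K / 2) K (n * l) (by omega) (by omega) (by omega) hN2 L1'
    (by omega) (θ * δ / 20 * (n * l : ℕ)) ((K : ℝ) ^ (1 / 2 : ℝ)) (θ / 5) (θ / 5)
    ((K : ℝ) ^ M)⁻¹ ((K : ℝ) ^ (-c₃)) (aa α N (K / 4)) (by positivity) s0 (by positivity)
    (by positivity) M0 (by positivity) le_rfl (am _ _ (by omega) (by omega) (by omega))
    (fun r h1 h2 => (hR α hα N r w (n * l) w2 (by omega) (by omega) L1' (by omega)).trans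
      (ENNReal.ofReal_le_ofReal (mul_le_mul_of_nonneg_left
        (S2_rho hθ δ0 (by positivity) (hn₀.trans (by
          have : (n₀ : ℝ) ≤ n := by exact_mod_cast (by omega : n₀ ≤ n)
          rw [eL]; nlinarith)) (hw N w le_rfl (by omega))) (Nat.cast_nonneg _))))
    (fun r h1 h2 p => (hl N r K n p (by omega) (by omega) (by omega) hN2).trans
      (ENNReal.ofReal_le_ofReal (by
        have h3 : Real.exp (-c * n) ≤ Real.exp (-min c (min c₃ (1 / 2)) * n) := by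
          gcongr; exact min_le_left _ _
        calc C * (n : ℝ) ^ 2 * Real.exp (-c * n)
            ≤ C * ((n : ℝ) ^ 2 * Real.exp (-min c (min c₃ (1 / 2)) * n)) := by
              rw [mul_assoc]; gcongr
          _ ≤ C * (ε * ((K : ℝ) ^ M)⁻¹) := by gcongr
          _ = ε * C * ((K : ℝ) ^ M)⁻¹ := by ring
          _ ≤ 1 * ((K : ℝ) ^ M)⁻¹ := by gcongr
          _ = _ := one_mul _)))
    (fun r h1 h2 y hy y' hy' => by
      rw [← Real.rpow_neg K0.le]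
      refine (hc N K r (by omega) hN1 hN2 (by omega) (by omega) y hy y' hy').trans
        (ENNReal.ofReal_le_ofReal (mul_le_mul_of_nonneg_left
          (am _ _ (by omega) (by omega) (by omega)) (by positivity))))
  have t1 : ((n * l : ℕ) : ℝ) * (K : ℝ) ^ (-c₃) ≤ θ / 5 := by
    rw [Real.rpow_neg K0.le, ← div_eq_mul_inv, div_le_iff₀ r0, eL]
    calc (n : ℝ) * l ≤ ε * (K : ℝ) ^ c₃ * l := by gcongr; exact nn.trans p3
      _ = ε * l * (K : ℝ) ^ c₃ := by ring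
      _ ≤ _ := by gcongr
  have t2 : 4 * (θ * δ / 20 * (n * l : ℕ)) / (δ * (n * l : ℕ)) = θ / 5 := by
    field_simp
    ring
  have t3 : 2 * (θ * δ / 20 * (n * l : ℕ)) * (n * l : ℕ) * (K : ℝ) ^ (1 / 2 : ℝ) /
      (θ / 5 * (K / 2 - K / 4 + 1 : ℕ)) ≤ θ / 5 := by
    have h1 : (K : ℝ) ≤ 4 * (K / 2 - K / 4 + 1 : ℕ) := by
      exact_mod_cast (by omega : K ≤ 4 * (K / 2 - K / 4 + 1))
    have h3 : (K : ℝ) ^ (1 / 2 : ℝ) * (K : ℝ) ^ (1 / 2 : ℝ) = K := by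
      rw [← Real.rpow_add K0]; norm_num
    rw [div_le_iff₀ (by positivity), eL]
    calc 2 * (θ * δ / 20 * (n * l)) * (n * l) * (K : ℝ) ^ (1 / 2 : ℝ)
        = θ / 20 * (2 * δ * l ^ 2) * (n : ℝ) ^ 2 * (K : ℝ) ^ (1 / 2 : ℝ) := by ring
      _ ≤ θ / 20 * (2 * δ * l ^ 2) * (ε * (K : ℝ) ^ (1 / 2 : ℝ)) * (K : ℝ) ^ (1 / 2 : ℝ) := by
          gcongr
      _ = θ / 20 * (ε * (2 * δ * l ^ 2)) * ((K : ℝ) ^ (1 / 2 : ℝ) * (K : ℝ) ^ (1 / 2 : ℝ)) := by
          ring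
      _ ≤ θ / 20 * (θ / 5) * (4 * (K / 2 - K / 4 + 1 : ℕ)) := by rw [h3]; gcongr
      _ = _ := by ring
  have t4 : ((K : ℝ) ^ M)⁻¹ / (n * l : ℕ) ≤ ((K : ℝ) ^ M)⁻¹ := div_le_self M0 L1
  rw [← hδ, t2] at core
  refine core.trans (add_le_add ?_ t4)
  exact (mul_le_mul_of_nonneg_left (by linarith) (a0 _)).trans (mul_comm _ θ).le

end DRW
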