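import Pool.Agent.P.MP_de05b4_pr.Basic

/-! Size-biasing by a flux. -/

namespace DRW

open MeasureTheory ProbabilityTheory Finset Filter
open scoped ENNReal Topology

variable {N : ℕ}

/-- the iterates that increase to the harmonic extension -/
noncomputable def SB_g (W : Finset (T N)) (f : T N → ℝ) : ℕ → (E N → ℝ) → T N → ℝ
  | 0 => fun _ x => if x ∈ W then 0 else f x
  | k + 1 => fun G x => if x ∈ W then ∑ i, om G (x, i) * SB_g W f k G (x + dr N i) else f x

theorem SB_g_zero (W : Finset (T N)) (f : T N → ℝ) (G : E N → ℝ) (x : T N) :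
    SB_g W f 0 G x = if x ∈ W then 0 else f x := rfl

theorem SB_g_succ (W : Finset (T N)) (f : T N → ℝ) (k : ℕ) (G : E N → ℝ) (x : T N) :
    SB_g W f (k + 1) G x =
      if x ∈ W then ∑ i, om G (x, i) * SB_g W f k G (x + dr N i) else f x := rfl

theorem SB_off {W : Finset (T N)} (f : T N → ℝ) (k : ℕ) (G : E N → ℝ) {x : T N} (hx : x ∉ W) :
    SB_g W f k G x = f x := by
  cases k with
  | zero => rw [SB_g_zero, if_neg hx]
  | succ k => rw [SB_g_succ, if_neg hx]

theorem SB_meas (W : Finset (T N)) (f : T N → ℝ) (k : ℕ) :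
    ∀ x, Measurable fun G => SB_g W f k G x := by
  induction k with
  | zero => intro x; simp only [SB_g_zero]; exact measurable_const
  | succ k ih =>
    intro x
    simp only [SB_g_succ]
    by_cases hx : x ∈ W
    · simp only [if_pos hx]
      exact Finset.measurable_sum _ fun i _ => (measurable_om _).mul (ih _)
    · simp only [if_neg hx]
      exact measurable_const

theorem SB_nonneg {W : Finset (T N)} {f : T N → ℝ} (hf : ∀ x, 0 ≤ f x) {G : E N → ℝ}
    (hG : Pos G) (k : ℕ) : ∀ x, 0 ≤ SB_g W f k G x := by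
  induction k with
  | zero =>
    intro x
    rw [SB_g_zero]
    split_ifs
    · exact le_rfl
    · exact hf x
  | succ k ih =>
    intro x
    rw [SB_g_succ]
    split_ifs
    · exact Finset.sum_nonneg fun i _ => mul_nonneg (om_pos hG _).le (ih _)
    · exact hf x

theorem SB_step {W : Finset (T N)} {f : T N → ℝ} (hf : ∀ x, 0 ≤ f x) {G : E N → ℝ}
    (hG : Pos G) (k : ℕ) : ∀ x, SB_g W f k G x ≤ SB_g W f (k + 1) G x := by
  induction k with
  | zero =>
    intro x
    by_cases hx : x ∈ W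
    · rw [SB_g_zero, if_pos hx]
      exact SB_nonneg hf hG _ _
    · rw [SB_off f _ G hx, SB_off f _ G hx]
  | succ k ih =>
    intro x
    by_cases hx : x ∈ W
    · rw [SB_g_succ W f k, SB_g_succ W f (k + 1), if_pos hx, if_pos hx]
      exact Finset.sum_le_sum fun i _ => mul_le_mul_of_nonneg_left (ih _) (om_pos hG _).le
    · rw [SB_off f _ G hx, SB_off f _ G hx]

theorem SB_mono {W : Finset (T N)} {f : T N → ℝ} (hf : ∀ x, 0 ≤ f x) {G : E N → ℝ}
    (hG : Pos G) (x : T N) : Monotone fun k => SB_g W f k G x :=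
  monotone_nat_of_le_succ fun k => SB_step hf hG k x

theorem SB_scl (W : Finset (T N)) (f : T N → ℝ) (G : E N → ℝ) (y : T N) {c : ℝ} (hc : 0 < c)
    (k : ℕ) : ∀ x, SB_g W f k (scl y c G) x = SB_g W f k G x := by
  induction k with
  | zero => intro x; rfl
  | succ k ih =>
    intro x
    rw [SB_g_succ, SB_g_succ]
    simp only [om_scl y hc, ih]

variable [NeZero N]

theorem SB_le_har {W : Finset (T N)} (hW : W ≠ univ) {f : T N → ℝ} (hf : ∀ x, 0 ≤ f x)
    {G : E N → ℝ} (hG : Pos G) (k : ℕ) : ∀ x, SB_g W f k G x ≤ har W f G x := by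
  induction k with
  | zero =>
    intro x
    by_cases hx : x ∈ W
    · rw [SB_g_zero, if_pos hx]
      exact har_nonneg hG hW hf x
    · rw [SB_off f _ G hx, har_off hG hW f hx]
  | succ k ih =>
    intro x
    by_cases hx : x ∈ W
    · rw [SB_g_succ, if_pos hx, har_mean hG hW f hx]
      exact Finset.sum_le_sum fun i _ => mul_le_mul_of_nonneg_left (ih _) (om_pos hG _).le
    · rw [SB_off f _ G hx, har_off hG hW f hx]

theorem SB_tendsto {W : Finset (T N)} (hW : W ≠ univ) {f : T N → ℝ} (hf : ∀ x, 0 ≤ f x)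
    {G : E N → ℝ} (hG : Pos G) (x : T N) :
    Tendsto (fun k => SB_g W f k G x) atTop (𝓝 (har W f G x)) := by
  have hb : ∀ y, BddAbove (Set.range fun k => SB_g W f k G y) := fun y =>
    ⟨har W f G y, by rintro _ ⟨k, rfl⟩; exact SB_le_har hW hf hG k y⟩
  set l : T N → ℝ := fun y => ⨆ k, SB_g W f k G y with hl
  have ht : ∀ y, Tendsto (fun k => SB_g W f k G y) atTop (𝓝 (l y)) := fun y =>
    tendsto_atTop_ciSup (SB_mono hf hG y) (hb y)
  have hoff : ∀ y, y ∉ W → l y = f y := by
    intro y hy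
    have h1 : Tendsto (fun k => SB_g W f k G y) atTop (𝓝 (f y)) := by
      simp only [SB_off f _ G hy]
      exact tendsto_const_nhds
    exact tendsto_nhds_unique (ht y) h1
  have hin : ∀ y ∈ W, l y = ∑ i, om G (y, i) * l (y + dr N i) := by
    intro y hy
    have h1 : Tendsto (fun k => SB_g W f (k + 1) G y) atTop (𝓝 (l y)) :=
      (ht y).comp (tendsto_add_atTop_nat 1)
    have h2 : Tendsto (fun k => SB_g W f (k + 1) G y) atTop
        (𝓝 (∑ i, om G (y, i) * l (y + dr N i))) := by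
      simp only [SB_g_succ, if_pos hy]
      exact tendsto_finsetSum _ fun i _ => (ht _).const_mul _
    exact tendsto_nhds_unique h1 h2
  have hlap : ∀ y ∈ W, lap G l y = 0 := by
    intro y hy
    have hZ := (Zs_pos hG y).ne'
    rw [lap_eq, hin y hy, Finset.mul_sum, sub_eq_zero]
    refine Finset.sum_congr rfl fun i _ => ?_
    simp only [om]
    field_simp
  have := har_unique hG hW hlap hoff
  rw [← this]
  exact ht x

theorem SB_lim {W : Finset (T N)} (hW : W ≠ univ) {f : T N → ℝ} (hf : ∀ x, 0 ≤ f x)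
    {β : E N → ℝ} (hβ : Pos β) (x : T N) {Φ : (E N → ℝ) → ℝ≥0∞} (hΦ : Measurable Φ) :
    ∫⁻ G, ENNReal.ofReal (har W f G x) * Φ G ∂mu β =
      ⨆ k, ∫⁻ G, ENNReal.ofReal (SB_g W f k G x) * Φ G ∂mu β := by
  rw [← lintegral_iSup_ae (fun k => ((SB_meas W f k x).ennreal_ofReal).fun_mul hΦ)]
  · refine lintegral_congr_ae ?_
    filter_upwards [ae_pos hβ] with G hG
    rw [← ENNReal.iSup_mul]
    congr 1
    have hm : Monotone fun k => ENNReal.ofReal (SB_g W f k G x) := fun a b hab =>
      ENNReal.ofReal_le_ofReal (SB_mono hf hG x hab)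
    exact tendsto_nhds_unique
      (ENNReal.tendsto_ofReal (SB_tendsto hW hf hG x)) (tendsto_atTop_iSup hm)
  · intro k
    filter_upwards [ae_pos hβ] with G hG
    exact mul_le_mul_left (ENNReal.ofReal_le_ofReal (SB_step hf hG k x)) _

theorem SB_split (hO : StOm) {W : Finset (T N)} {f : T N → ℝ} (hf : ∀ x, 0 ≤ f x)
    {β : E N → ℝ} (hβ : Pos β) {x : T N} (hx : x ∈ W) {Φ : (E N → ℝ) → ℝ≥0∞}
    (hΦ : Measurable Φ) (hs : ScaleInv x Φ) (k : ℕ) :
    ∫⁻ G, ENNReal.ofReal (SB_g W f (k + 1) G x) * Φ G ∂mu β =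
      ∑ i, ENNReal.ofReal (β (x, i) / Zs β x) *
        ∫⁻ G, ENNReal.ofReal (SB_g W f k G (x + dr N i)) * Φ G ∂mu (bump β (x, i)) := by
  have hm : ∀ i : Fin 4,
      Measurable fun G => ENNReal.ofReal (SB_g W f k G (x + dr N i)) * Φ G := fun i =>
    ((SB_meas W f k _).ennreal_ofReal).mul hΦ
  have h1 : ∫⁻ G, ENNReal.ofReal (SB_g W f (k + 1) G x) * Φ G ∂mu β =
      ∫⁻ G, ∑ i, ENNReal.ofReal (om G (x, i)) *
        (ENNReal.ofReal (SB_g W f k G (x + dr N i)) * Φ G) ∂mu β := by
    refine lintegral_congr_ae ?_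
    filter_upwards [ae_pos hβ] with G hG
    rw [SB_g_succ, if_pos hx, ENNReal.ofReal_sum_of_nonneg
      (fun i _ => mul_nonneg (om_pos hG _).le (SB_nonneg hf hG k _)), Finset.sum_mul]
    refine Finset.sum_congr rfl fun i _ => ?_
    rw [ENNReal.ofReal_mul (om_pos hG _).le, mul_assoc]
  rw [h1, lintegral_finsetSum _ fun i _ => ((measurable_om _).ennreal_ofReal).fun_mul (hm i)]
  refine Finset.sum_congr rfl fun i _ => ?_
  refine hO N β hβ (x, i) _ (hm i) ?_
  intro c hc G hG
  simp only [SB_scl W f G x hc, hs c hc G hG]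

theorem pf_SB (hO : StOm) (hB : StBump) : StSB := by
  intro N _ W hW f hf Φ hΦ hs η Cc hpos hstep hout β hβ S hS
  have h1s : ∀ x : T N, ScaleInv x fun _ : E N → ℝ => (1 : ℝ≥0∞) := fun _ _ _ _ _ => rfl
  have claim : ∀ k β x, Cc β x →
      ∫⁻ G, ENNReal.ofReal (SB_g W f k G x) * Φ G ∂mu β ≤
        η * ∫⁻ G, ENNReal.ofReal (SB_g W f k G x) * 1 ∂mu β := by
    have hoff : ∀ k β x, Cc β x → x ∉ W →
        ∫⁻ G, ENNReal.ofReal (SB_g W f k G x) * Φ G ∂mu β ≤
          η * ∫⁻ G, ENNReal.ofReal (SB_g W f k G x) * 1 ∂mu β := by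
      intro k β x hc hx
      have := prob_mu (hpos β x hc)
      simp only [SB_off f k _ hx]
      by_cases h0 : f x = 0
      · simp [h0]
      · rw [lintegral_const_mul _ hΦ, lintegral_const, measure_univ, mul_one, mul_one, mul_comm η]
        exact mul_le_mul_right (hout β x hc hx h0) _
    intro k
    induction k with
    | zero =>
      intro β x hc
      by_cases hx : x ∈ W
      · simp [SB_g_zero, hx]
      · exact hoff 0 β x hc hx
    | succ k ih =>
      intro β x hc
      by_cases hx : x ∈ W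
      · rw [SB_split hO hf (hpos β x hc) hx hΦ (hs x hx) k,
          SB_split hO hf (hpos β x hc) hx measurable_const (h1s x) k, Finset.mul_sum]
        refine Finset.sum_le_sum fun i _ => ?_
        rw [mul_left_comm]
        exact mul_le_mul_right (ih _ _ (hstep β x hc hx i)) _
      · exact hoff _ β x hc hx
  have claim2 : ∀ β x, Cc β x →
      ∫⁻ G, ENNReal.ofReal (har W f G x) * Φ G ∂mu β ≤
        η * ∫⁻ G, ENNReal.ofReal (har W f G x) * 1 ∂mu β := by
    intro β x hc
    rw [SB_lim hW hf (hpos β x hc) x hΦ, SB_lim hW hf (hpos β x hc) x measurable_const]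
    refine iSup_le fun k => (claim k β x hc).trans ?_
    exact mul_le_mul_right (le_iSup (fun k =>
      ∫⁻ G, ENNReal.ofReal (SB_g W f k G x) * 1 ∂mu β) k) _
  have hsplit : ∀ Ψ : (E N → ℝ) → ℝ≥0∞, Measurable Ψ →
      ∫⁻ G, ENNReal.ofReal (Fx G S (har W f G)) * Ψ G ∂mu β =
        ∑ e ∈ S, ENNReal.ofReal (β e) *
          ∫⁻ G, ENNReal.ofReal (har W f G (tg e)) * Ψ G ∂mu (bump β e) := by
    intro Ψ hΨ
    have hm : ∀ e : E N, Measurable fun G => ENNReal.ofReal (har W f G (tg e)) * Ψ G := fun e =>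
      ((measurable_har W f _).ennreal_ofReal).mul hΨ
    have h1 : ∫⁻ G, ENNReal.ofReal (Fx G S (har W f G)) * Ψ G ∂mu β =
        ∫⁻ G, ∑ e ∈ S, ENNReal.ofReal (G e) *
          (ENNReal.ofReal (har W f G (tg e)) * Ψ G) ∂mu β := by
      refine lintegral_congr_ae ?_
      filter_upwards [ae_pos hβ] with G hG
      rw [Fx, ENNReal.ofReal_sum_of_nonneg
        (fun e _ => mul_nonneg (hG e).le (har_nonneg hG hW hf _)), Finset.sum_mul]
      refine Finset.sum_congr rfl fun e _ => ?_
      rw [ENNReal.ofReal_mul (hG e).le, mul_assoc]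
    rw [h1, lintegral_finsetSum _ fun e _ =>
      ((measurable_pi_apply e).ennreal_ofReal).fun_mul (hm e)]
    exact Finset.sum_congr rfl fun e _ => hB N β hβ e _ (hm e)
  have h2 : (Ex β fun G => Fx G S (har W f G)) =
      ∫⁻ G, ENNReal.ofReal (Fx G S (har W f G)) * 1 ∂mu β := by
    simp only [Ex, mul_one]
  rw [h2, hsplit Φ hΦ, hsplit _ measurable_const, Finset.mul_sum]
  refine Finset.sum_le_sum fun e he => ?_
  rw [mul_left_comm]
  exact mul_le_mul_right (claim2 _ _ (hS e he)) _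

end DRW
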