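import Pool.Agent.P.MP_de05b4_pr.Basic

/-! Size-biasing by the backtracking flux, and second moments. -/

namespace DRW

open MeasureTheory ProbabilityTheory Finset Filter
open scoped ENNReal Topology

theorem SBB_le_bump {N : ℕ} (β : E N → ℝ) (e e' : E N) : β e' ≤ bump β e e' := by
  unfold bump; split_ifs <;> linarith

theorem SBB_bump_ne {N : ℕ} (β : E N → ℝ) {e e' : E N} (h : e' ≠ e) : bump β e e' = β e' := by
  unfold bump; rw [if_neg h, add_zero]

theorem pf_SBB (hS : StSB) (hA : StA) : StSBB := by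
  intro α hα N _ r t hrt htN Φ hΦ hinv η hη y hy
  have h := hS N (Wd N r t) (Wd_ne_univ r t) (ind {y}) (ind_nonneg _) Φ hΦ hinv η
    (fun β x => (∀ e, α e.2 ≤ β e) ∧ (∀ e, col e.1 ≤ r → β e = α e.2) ∧
      ∃ z₀ ∈ Col N t, ∀ z, dv β z = ind {x} z - ind {z₀} z)
    (fun β x h e => (hα.1 e.2).trans_le (h.1 e)) ?_ ?_ (al N α) (pos_al hα.1) (SE (Col N t) 2) ?_
  · have h1 := (((hA α hα N).1 r t hrt htN).1 {y} (singleton_subset_iff.2 hy))
    rw [card_singleton, Nat.cast_one, one_mul] at h1
    rw [← h1]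
    exact h
  · rintro β x ⟨h1, h2, z₀, hz, h3⟩ hx i
    refine ⟨fun e => (h1 e).trans (SBB_le_bump β _ e), fun e he => ?_, z₀, hz, fun z => ?_⟩
    · rw [SBB_bump_ne β, h2 e he]
      rintro rfl
      exact absurd (mem_Wd.1 hx).1 (not_lt.2 he)
    · rw [dv_bump, h3]
      simp only [tg]
      ring
  · rintro β x ⟨h1, h2, z₀, hz, h3⟩ - hx
    have hxy : x = y := by
      by_contra hne
      exact hx (ind_of_notMem (by simpa using hne))
    exact hη β ⟨h1, h2, z₀, hz, y, hy, hxy ▸ h3⟩
  · intro e he
    have he1 := (mem_SE.1 he).1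
    refine ⟨fun e' => SBB_le_bump (al N α) e e', fun e' he' => ?_, e.1, he1, fun z => ?_⟩
    · rw [SBB_bump_ne]
      · rfl
      · rintro rfl
        rw [mem_Col.1 he1] at he'
        omega
    · rw [dv_bump, dv_al, zero_add]

theorem pf_B2 (hS : StSBB) (hH : StHB) : StB2 := by
  intro α hα
  have hA : 0 < ∑ i, α i := sum_pos (fun i _ => hα.1 i) univ_nonempty
  have hp : (0 : ℝ) < 2 ^ ∑ i, α i := by positivity
  refine ⟨2 * (1 + ∑ i, α i) + 8 * 2 ^ ∑ i, α i, by positivity, fun N _ r t hrt htN =>
    ⟨fun y hy => ?_, fun y hy => ?_⟩⟩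
  · have hyr := mem_Col.1 hy
    have h := hS α hα N r t hrt htN (fun G => ENNReal.ofReal (FR r t {y} G))
      (measurable_FR r t _).ennreal_ofReal
      (fun x hx c hc G hG => by
        simp only
        rw [FR_scl hG _ (mem_Wd.1 hx).2.ne hc])
      (ENNReal.ofReal (2 * (1 + ∑ i, α i))) ?_ y hy
    · have e : Ex (al N α) (fun G => FR r t {y} G ^ 2) =
          ∫⁻ G, ENNReal.ofReal (FR r t {y} G) * ENNReal.ofReal (FR r t {y} G) ∂mu (al N α) :=
        lintegral_congr_ae ((ae_pos (pos_al hα.1)).mono fun G hG => by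
          simp only
          rw [sq, ENNReal.ofReal_mul (FR_nonneg hG r t _)])
      rw [e, ENNReal.ofReal_mul (by positivity)]
      refine h.trans (mul_le_mul_left (ENNReal.ofReal_le_ofReal ?_) _)
      linarith
    · rintro β ⟨h1, h2, z₀, hz, y', hy', h3⟩
      have hβ : Pos β := fun e => (hα.1 e.2).trans_le (h1 e)
      refine (hH N β hβ (Wd N r t) {y} (SE (Col N t) 2) (Wd_ne_univ r t) ?_ ?_ ?_).2.trans
        (ENNReal.ofReal_le_ofReal ?_)
      · rw [disjoint_singleton_right, mem_Wd]; omega
      · intro e he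
        have := mem_Col.1 (mem_SE.1 he).1
        refine ⟨by rw [mem_Wd]; omega, fun h => ?_⟩
        rw [mem_singleton.1 h] at this
        omega
      · intro z hz
        have hzy : z ∉ ({y'} : Finset (T N)) := fun h => by
          have h4 := (mem_Wd.1 hz).1
          rw [mem_singleton.1 h, mem_Col.1 hy'] at h4
          omega
        rw [h3, ind_of_notMem hzy]
        linarith [ind_nonneg {z₀} z]
      · have h4 : Zs β y = ∑ i, α i := sum_congr rfl fun i _ => h2 (y, i) hyr.le
        have h5 := h3 y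
        unfold dv at h5
        rw [sum_singleton]
        linarith [ind_nonneg {z₀} y, ind_le_one {y'} y]
  · have hyt := mem_Col.1 hy
    have h := (hH N (al N α) (pos_al hα.1) (Wd N r t) {y} (SE (Col N r) 0) (Wd_ne_univ r t)
      (by rw [disjoint_singleton_right, mem_Wd]; omega) (fun e he => ?_)
      (fun z _ => (dv_al α z).le)).1
    · rw [sum_singleton, inw_al] at h
      calc Ex (al N α) (fun G => FL r t {y} G ^ 2)
          ≤ Ex (al N α) (fun G => 8 * Real.exp (FL r t {y} G / 2)) :=
            Ex_mono (pos_al hα.1) fun G hG => by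
              have h0 := FL_nonneg hG r t {y}
              have := Real.quadratic_le_exp_of_nonneg (x := FL r t {y} G / 2) (by linarith)
              nlinarith
        _ ≤ ENNReal.ofReal 8 * ENNReal.ofReal (2 ^ ∑ i, α i) := by
            rw [Ex_const_mul _ (by norm_num)]
            exact mul_le_mul_right h _
        _ ≤ _ := by
            rw [← ENNReal.ofReal_mul (by norm_num)]
            exact ENNReal.ofReal_le_ofReal (by linarith)
    · have := mem_Col.1 (mem_SE.1 he).1
      refine ⟨by rw [mem_Wd]; omega, fun h => ?_⟩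
      rw [mem_singleton.1 h] at this
      omega

end DRW
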