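import Pool.Agent.P.MP_de05b4_pr.Basic

/-! Scaling of the Gamma weights at one site. -/

namespace DRW

open MeasureTheory ProbabilityTheory Finset Filter
open scoped ENNReal Topology

theorem Scale_one {b c : ℝ} (hc : 0 < c) {f : ℝ → ℝ≥0∞} (hf : Measurable f) :
    ∫⁻ y, ENNReal.ofReal (c ^ b * Real.exp (-(c - 1) * y)) * f y ∂gammaMeasure b 1 =
      ∫⁻ y, f (c⁻¹ * y) ∂gammaMeasure b 1 := by
  have hp : Measurable (gammaPDF b 1) := (measurable_gammaPDFReal b 1).ennreal_ofReal
  have hg : Measurable fun y => gammaPDF b 1 y * f (c⁻¹ * y) :=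
    hp.mul (hf.comp (measurable_const_mul _))
  unfold gammaMeasure
  rw [lintegral_withDensity_eq_lintegral_mul _ hp (by fun_prop),
    lintegral_withDensity_eq_lintegral_mul _ hp (g := fun y => f (c⁻¹ * y))
      (hf.comp (measurable_const_mul _))]
  have h1 := lintegral_map (μ := volume) hg (measurable_const_mul c)
  rw [Real.map_volume_mul_left hc.ne', lintegral_smul_measure, smul_eq_mul,
    abs_of_pos (inv_pos.2 hc)] at h1
  have h2 : ∫⁻ y, gammaPDF b 1 y * f (c⁻¹ * y) =
      ENNReal.ofReal c * ∫⁻ y, gammaPDF b 1 (c * y) * f (c⁻¹ * (c * y)) := by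
    rw [← h1, ← mul_assoc, ← ENNReal.ofReal_mul hc.le, mul_inv_cancel₀ hc.ne', ENNReal.ofReal_one,
      one_mul]
  refine Eq.trans ?_ h2.symm
  rw [← lintegral_const_mul' _ _ ENNReal.ofReal_ne_top]
  refine lintegral_congr fun y => ?_
  simp only [Pi.mul_apply]
  rw [inv_mul_cancel_left₀ hc.ne', ← mul_assoc, ← mul_assoc]
  congr 1
  rcases lt_or_ge y 0 with hy | hy
  · rw [gammaPDF_of_neg hy, gammaPDF_of_neg (mul_neg_of_pos_of_neg hc hy), zero_mul, mul_zero]
  · rw [gammaPDF_of_nonneg hy, gammaPDF_of_nonneg (mul_nonneg hc.le hy), mul_comm,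
      ← ENNReal.ofReal_mul (by positivity), ← ENNReal.ofReal_mul hc.le]
    congr 1
    have e1 : Real.exp (-(1 * (c * y))) = Real.exp (-(c - 1) * y) * Real.exp (-(1 * y)) := by
      rw [← Real.exp_add]; congr 1; ring
    rw [Real.mul_rpow hc.le hy, Real.rpow_sub_one hc.ne', e1]
    field_simp

theorem Scale_pi {ι : Type} [Fintype ι] {β k : ι → ℝ} (hβ : ∀ e, 0 < β e) (hk : ∀ e, 0 < k e) :
    (Measure.pi fun e => gammaMeasure (β e) 1).withDensity
        (fun G => ∏ e, ENNReal.ofReal (k e ^ β e * Real.exp (-(k e - 1) * G e))) =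
      (Measure.pi fun e => gammaMeasure (β e) 1).map fun G e => (k e)⁻¹ * G e := by
  have : ∀ e, IsProbabilityMeasure (gammaMeasure (β e) 1) := fun e =>
    isProbabilityMeasure_gammaMeasure (hβ e) one_pos
  rw [Measure.pi_map_pi (f := fun e y => (k e)⁻¹ * y)
    fun e => (measurable_const_mul _).aemeasurable]
  refine (Measure.pi_eq fun s hs => ?_).symm
  have hm : ∀ e, Measurable fun y : ℝ =>
      ENNReal.ofReal (k e ^ β e * Real.exp (-(k e - 1) * y)) * (s e).indicator 1 y := fun e =>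
    Measurable.mul (by fun_prop) (measurable_one.indicator (hs e))
  rw [withDensity_apply _ (MeasurableSet.univ_pi hs),
    ← lintegral_indicator (MeasurableSet.univ_pi hs)]
  have h1 : ∀ G : ι → ℝ, (Set.univ.pi s).indicator
      (fun G => ∏ e, ENNReal.ofReal (k e ^ β e * Real.exp (-(k e - 1) * G e))) G =
      ∏ e, ENNReal.ofReal (k e ^ β e * Real.exp (-(k e - 1) * G e)) *
        (s e).indicator 1 (G e) := fun G => by
    by_cases hG : G ∈ Set.univ.pi s
    · rw [Set.indicator_of_mem hG]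
      exact prod_congr rfl fun e _ => by
        rw [Set.indicator_of_mem (hG e (Set.mem_univ e)), Pi.one_apply, mul_one]
    · rw [Set.indicator_of_notMem hG]
      rw [Set.mem_univ_pi, not_forall] at hG
      obtain ⟨e, he⟩ := hG
      exact (prod_eq_zero (mem_univ e) (by rw [Set.indicator_of_notMem he, mul_zero])).symm
  rw [lintegral_congr h1, lintegral_prod_eq_prod_lintegral_of_indepFun univ
    (fun e (G : ι → ℝ) => ENNReal.ofReal (k e ^ β e * Real.exp (-(k e - 1) * G e)) *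
      (s e).indicator 1 (G e))
    (iIndepFun_pi fun e => (hm e).aemeasurable) fun e => (hm e).comp (measurable_pi_apply e)]
  refine prod_congr rfl fun e _ => ?_
  rw [(measurePreserving_eval (fun e => gammaMeasure (β e) 1) e).lintegral_comp (hm e),
    Scale_one (hk e) (measurable_one.indicator (hs e)),
    ← lintegral_map (measurable_one.indicator (hs e)) (measurable_const_mul _),
    lintegral_indicator_one (hs e)]

theorem pf_Scale : StScale := by
  intro N _ β hβ x Φ hΦ hinv u hu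
  have hc : 0 < 1 + u := by linarith
  have hk : ∀ e : E N, 0 < (if e.1 = x then 1 + u else 1) := fun e => by
    split_ifs <;> positivity
  have h := congrArg (fun m => ∫⁻ G, Φ G ∂m) (Scale_pi hβ hk)
  rw [lintegral_withDensity_eq_lintegral_mul _ (by fun_prop) hΦ,
    lintegral_map hΦ (by fun_prop)] at h
  have h1 : ∫⁻ G, Φ (fun e => (if e.1 = x then 1 + u else 1)⁻¹ * G e) ∂mu β =
      ∫⁻ G, Φ G ∂mu β := by
    refine lintegral_congr_ae ((ae_pos hβ).mono fun G hG => ?_)
    rw [← hinv (1 + u)⁻¹ (inv_pos.2 hc) G hG]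
    simp only
    congr 1
    funext e
    unfold scl
    split_ifs <;> simp
  have h2 : ∀ G : E N → ℝ, ∏ e : E N, ENNReal.ofReal ((if e.1 = x then 1 + u else 1) ^ β e *
      Real.exp (-((if e.1 = x then 1 + u else 1) - 1) * G e)) =
      ENNReal.ofReal ((1 + u) ^ Zs β x * Real.exp (-u * Zs G x)) := fun G => by
    rw [Fintype.prod_prod_type, prod_eq_single x (fun y _ hy => by simp [hy]) (by simp),
      ← ENNReal.ofReal_prod_of_nonneg fun i _ => mul_nonneg (Real.rpow_nonneg (hk _).le _)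
        (Real.exp_pos _).le]
    congr 1
    simp only [if_true, add_sub_cancel_left, prod_mul_distrib, Zs, Real.rpow_sum_of_pos hc,
      mul_sum, Real.exp_sum]
  have h3 := h.trans h1
  rw [← h3, ← lintegral_const_mul' _ _ ENNReal.ofReal_ne_top]
  refine lintegral_congr fun G => ?_
  simp only [Pi.mul_apply]
  rw [h2, ← mul_assoc, ← ENNReal.ofReal_mul (Real.rpow_nonneg hc.le _), ← mul_assoc,
    ← Real.rpow_add hc, neg_add_cancel, Real.rpow_zero, one_mul, mul_comm]

theorem Scale_inv {Z : ℝ} (hZ : 0 < Z) :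
    ∫⁻ u in Set.Ioi (0 : ℝ), ENNReal.ofReal (Real.exp (-u * Z)) = ENNReal.ofReal Z⁻¹ := by
  have e : ∀ u : ℝ, -u * Z = -Z * u := fun u => by ring
  simp only [e]
  rw [← ofReal_integral_eq_lintegral_ofReal (exp_neg_integrableOn_Ioi 0 hZ)
    (ae_of_all _ fun u => (Real.exp_pos _).le), integral_exp_mul_Ioi (neg_lt_zero.2 hZ)]
  congr 1
  simp

theorem Scale_pow {b : ℝ} (hb : 0 < b) :
    ∫⁻ u in Set.Ioi (0 : ℝ), ENNReal.ofReal ((1 + u) ^ (-(b + 1))) = ENNReal.ofReal b⁻¹ := by
  have e : ∀ u : ℝ, 1 + u = u + 1 := fun u => add_comm _ _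
  simp only [e]
  have hi := integrableOn_add_rpow_Ioi_of_lt (a := -(b + 1)) (c := 0) (m := 1) (by linarith)
    (by norm_num)
  rw [← ofReal_integral_eq_lintegral_ofReal hi
    (ae_restrict_of_forall_mem measurableSet_Ioi fun u (hu : 0 < u) =>
      Real.rpow_nonneg (by linarith) _)]
  congr 1
  have hd : ∀ u ∈ Set.Ici (0 : ℝ),
      HasDerivAt (fun t : ℝ => (t + 1) ^ (-b) / (-b)) ((u + 1) ^ (-(b + 1))) u := fun u hu => by
    have hu' : u + 1 ≠ 0 := by have : 0 ≤ u := hu; positivity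
    have := (((hasDerivAt_id u).add_const 1).rpow_const (p := -b) (Or.inl hu')).div_const (-b)
    refine this.congr_deriv ?_
    rw [show -(b + 1) = -b - 1 by ring]
    simp only [id]
    field_simp
  have ht : Tendsto (fun t : ℝ => (t + 1) ^ (-b) / (-b)) atTop (𝓝 (0 / (-b))) :=
    ((tendsto_rpow_neg_atTop hb).comp (tendsto_atTop_add_const_right _ 1 tendsto_id)).div_const _
  rw [integral_Ioi_of_hasDerivAt_of_tendsto' hd hi ht]
  simp [div_neg]

theorem pf_Om (hS : StScale) (hB : StBump) : StOm := by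
  intro N _ β hβ e Φ hΦ hinv
  have hβ' := pos_bump hβ e
  have := prob_mu hβ'
  have hZ := Zs_pos hβ e.1
  have hz : Zs (bump β e) e.1 = Zs β e.1 + 1 := by
    unfold Zs bump
    rw [sum_add_distrib]
    congr 1
    rw [sum_eq_single e.2 (fun i _ hi => if_neg fun h => hi (congrArg Prod.snd h)) (by simp)]
    simp
  have hm : Measurable fun G : E N → ℝ => ENNReal.ofReal (Zs G e.1)⁻¹ * Φ G :=
    (measurable_Zs e.1).inv.ennreal_ofReal.mul hΦ
  have h1 : ∫⁻ G, ENNReal.ofReal (om G e) * Φ G ∂mu β =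
      ∫⁻ G, ENNReal.ofReal (G e) * (ENNReal.ofReal (Zs G e.1)⁻¹ * Φ G) ∂mu β := by
    refine lintegral_congr_ae ((ae_pos hβ).mono fun G hG => ?_)
    simp only
    rw [← mul_assoc, ← ENNReal.ofReal_mul (hG e).le, om, div_eq_mul_inv]
  have h2 : ∫⁻ G, ENNReal.ofReal (Zs G e.1)⁻¹ * Φ G ∂mu (bump β e) =
      ∫⁻ G, ∫⁻ u in Set.Ioi (0 : ℝ), Φ G * ENNReal.ofReal (Real.exp (-u * Zs G e.1)) ∂volume
        ∂mu (bump β e) := by
    refine lintegral_congr_ae ((ae_pos hβ').mono fun G hG => ?_)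
    simp only
    rw [lintegral_const_mul _ (by fun_prop), Scale_inv (Zs_pos hG _), mul_comm]
  have hZm := measurable_Zs (N := N) e.1
  have h3 : ∫⁻ u in Set.Ioi (0 : ℝ), ∫⁻ G, Φ G * ENNReal.ofReal (Real.exp (-u * Zs G e.1))
      ∂mu (bump β e) ∂volume = ∫⁻ u in Set.Ioi (0 : ℝ),
        ENNReal.ofReal ((1 + u) ^ (-(Zs β e.1 + 1))) * ∫⁻ G, Φ G ∂mu (bump β e) ∂volume := by
    refine setLIntegral_congr_fun measurableSet_Ioi fun u (hu : 0 < u) => ?_
    rw [hS N _ hβ' e.1 Φ hΦ hinv u (by linarith), hz]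
  rw [h1, hB N β hβ e _ hm, h2, lintegral_lintegral_swap, h3,
    lintegral_mul_const _ (by fun_prop), Scale_pow hZ, ← mul_assoc,
    ← ENNReal.ofReal_mul (hβ e).le, div_eq_mul_inv]
  exact ((hΦ.comp measurable_fst).mul (Real.measurable_exp.comp
    (measurable_snd.neg.mul (hZm.comp measurable_fst))).ennreal_ofReal).aemeasurable

end DRW
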