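import Pool.Agent.P.MP_de05b4_pr.Basic

namespace DRW

open MeasureTheory ProbabilityTheory Finset Filter
open scoped ENNReal Topology

theorem Sink_markov {N : ℕ} [NeZero N] {β : E N → ℝ} (hβ : Pos β) {X : (E N → ℝ) → ℝ}
    (hX : Measurable X) {D : Set (E N → ℝ)} {c b r : ℝ} (hc : 0 < c)
    (h : ∀ G, Pos G → G ∈ D → c ≤ X G) (hE : Ex β X ≤ ENNReal.ofReal b) (hr : c⁻¹ * b ≤ r) :
    mu β D ≤ ENNReal.ofReal r := by
  refine (mu_le_Ex hβ hX hc h).trans ?_
  refine (mul_le_mul' le_rfl hE).trans ?_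
  rw [← ENNReal.ofReal_mul (inv_pos.mpr hc).le]
  exact ENNReal.ofReal_le_ofReal hr

theorem Sink_two (x : ℝ) (hx : 0 ≤ x) : (2 : ℝ) ^ x ≤ Real.exp x := by
  rw [Real.rpow_def_of_pos two_pos]
  refine Real.exp_le_exp.mpr ?_
  have := Real.log_two_lt_d9
  nlinarith

theorem Sink_half (x : ℝ) : (1 - 1 / 2 : ℝ) ^ x = Real.exp (-(Real.log 2 * x)) := by
  rw [Real.rpow_def_of_pos (by norm_num)]
  have : (1 - 1 / 2 : ℝ) = 2⁻¹ := by norm_num
  rw [this, Real.log_inv, neg_mul]

theorem pf_Sink0 (hL : StIFL) (hH : StHB) (hX : StBox) (hA : StA) (hG : StMgf) : StSink0 := by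
  intro α hα N _ s w K m p hw hK hKN hm hmN
  have hpos : Pos (al N α) := pos_al hα.1
  have hδ : 0 < α 0 - α 2 := sub_pos.mpr hα.2
  have hm0 : (0 : ℝ) < m := by exact_mod_cast hm
  have hα0 := hα.1 0
  have hAs : 0 ≤ ∑ i, α i := Finset.sum_nonneg fun i _ => (hα.1 i).le
  have hcard : (Win N s p m).card = m := card_Win (by omega) hmN.le p
  have hSC : Win N s p m ⊆ Col N s := Win_subset s m p
  set S := Win N s p m with hS
  set d := (α 0 - α 2) * m with hd
  have hd0 : 0 < d := mul_pos hδ hm0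
  obtain ⟨hA1, hA2, -, -⟩ := hA α hα N
  -- first event
  have b1 : mu (al N α) {G | Esc s K S G ≤ d / 2} ≤ ENNReal.ofReal (Real.exp (-(d / 6))) := by
    have h := hL α hα N s K (by omega) hKN S hSC (1 / 2) (by norm_num) (by norm_num)
    rw [hcard, ← hd] at h
    refine Sink_markov hpos ?_ (Real.exp_pos (-(d / 2))) ?_ h ?_
    · exact ((measurable_const.mul (measurable_FR s K S)).sub
        (measurable_const.mul (measurable_Esc s K S))).exp
    · intro G hG' hGD
      have h1 := FR_nonneg hG' s K S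
      have h2 : Esc s K S G ≤ d / 2 := hGD
      refine Real.exp_le_exp.mpr ?_
      have : (1 / 2 : ℝ) / (1 - 1 / 2) = 1 := by norm_num
      rw [this]; linarith
    · rw [Sink_half, ← Real.exp_neg, ← Real.exp_add]
      refine Real.exp_le_exp.mpr ?_
      have := Real.log_two_gt_d9
      nlinarith
  -- second event
  have b2 : mu (al N α) {G | d / 8 ≤ Fx G (SE S 0)
      (har (Wd N s (s + w) \ Sep s (s + w) p m) (ind (Sep s (s + w) p m)) G)} ≤
      ENNReal.ofReal (Real.exp (2 * w * (∑ i, α i) - d / 16)) := by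
    have h := (hH N (al N α) hpos (Wd N s (s + w) \ Sep s (s + w) p m) (Sep s (s + w) p m)
      (SE S 0) (Wd_sdiff_ne_univ _ _ _) sdiff_disjoint (fun e he => by
        have h1 := mem_Col.mp (hSC (mem_SE.mp he).1)
        rw [Finset.mem_sdiff, mem_Wd, mem_Sep]
        omega) (fun z _ => (dv_al α z).le)).1
    refine Sink_markov hpos ?_ (Real.exp_pos (d / 16)) ?_ h ?_
    · exact ((measurable_Fx_har _ _ _).div_const _).exp
    · intro G _ hGD
      have h2 : d / 8 ≤ Fx G (SE S 0)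
        (har (Wd N s (s + w) \ Sep s (s + w) p m) (ind (Sep s (s + w) p m)) G) := hGD
      exact Real.exp_le_exp.mpr (by linarith)
    · simp only [inw_al, Finset.sum_const, nsmul_eq_mul]
      have h1 : ((Sep s (s + w) p m).card : ℝ) ≤ 2 * w := by
        exact_mod_cast card_two_rows s w (p - 1) (p + (m : ZMod N))
      have h2 := Sink_two (((Sep s (s + w) p m).card : ℝ) * ∑ i, α i)
        (mul_nonneg (Nat.cast_nonneg _) hAs)
      refine (mul_le_mul_of_nonneg_left h2 (inv_pos.mpr (Real.exp_pos _)).le).trans ?_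
      rw [← Real.exp_neg, ← Real.exp_add]
      refine Real.exp_le_exp.mpr ?_
      have := mul_le_mul_of_nonneg_right h1 hAs
      linarith
  -- third event
  have hlong : ∀ G : E N → ℝ, Pos G →
      Fx G (SE S 0) (uu s K G) ≤ Fx G (SE S 0) (uu s (s + w) G) := by
    intro G hG'
    refine Fx_mono hG' fun e he => ?_
    have h1 := col_tg_left (s := s) (by omega) hSC he
    refine le_on_strip hG' (s := s) (t := s + w) (by omega) (fun x hx => ?_) (fun x hx => ?_)
      (fun x hx => ?_) (by omega) (by omega)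
    · rw [mem_Wd] at hx
      rw [uu_lap hG' hx.1 hx.2, uu_lap hG' hx.1 (by omega)]
    · rw [uu_left hG' (by omega) hx, uu_left hG' (by omega) hx]
    · rw [uu_right hG' hx]; exact uu_le_one hG' s K x
  have mF : ∀ t, Measurable fun G : E N → ℝ => Fx G (SE S 0) (uu s t G) := fun t =>
    measurable_Fx _ (measurable_uu s t)
  have b3 : mu (al N α) {G | d / 8 ≤ Fx G (SE S 0) (uu s (s + w) G) - Fx G (SE S 0) (uu s K G)} ≤
      ENNReal.ofReal (8 * aa α N w / (α 0 - α 2)) := by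
    have e1 := (hA1 s (s + w) (by omega) (by omega)).2.2 S hSC
    have e2 := (hA1 s K (by omega) hKN).2.2 S hSC
    rw [hcard, Nat.add_sub_cancel_left] at e1
    rw [hcard] at e2
    have e3 := Ex_add hpos
      (X := fun G => Fx G (SE S 0) (uu s (s + w) G) - Fx G (SE S 0) (uu s K G))
      (Y := fun G => Fx G (SE S 0) (uu s K G)) ((mF _).sub (mF _))
      (fun G hG' => sub_nonneg.mpr (hlong G hG'))
      (fun G hG' => Fx_nonneg hG' fun e _ => uu_nonneg hG' s K _)
    simp only [sub_add_cancel] at e3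
    rw [e1, e2] at e3
    have h : Ex (al N α) (fun G => Fx G (SE S 0) (uu s (s + w) G) - Fx G (SE S 0) (uu s K G)) ≤
        ENNReal.ofReal (m * aa α N w) := by
      rw [← ENNReal.add_le_add_iff_right (a := ENNReal.ofReal (m * (α 0 - α 2 + aa α N (K - s))))
        ENNReal.ofReal_ne_top, ← e3]
      have h1 := hA2 w
      have h2 := hA2 (K - s)
      rw [← ENNReal.ofReal_add (by positivity) (by positivity)]
      refine ENNReal.ofReal_le_ofReal ?_
      nlinarith
    refine Sink_markov hpos ((mF _).sub (mF _)) (c := d / 8) (by positivity)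
      (fun G _ hGD => hGD) h (le_of_eq ?_)
    rw [hd]; field_simp
  -- fourth event
  have b4 : mu (al N α) {G | (2 * α 0 + 2) * m ≤ ∑ e ∈ SE S 0, G e} ≤
      ENNReal.ofReal (Real.exp (-(m : ℝ))) := by
    have h := ((hG N (al N α) hpos (SE S 0)).1 (1 / 2) (by norm_num)).le
    have h0 : ∑ e ∈ SE S 0, al N α e = m * α 0 := by
      rw [sum_SE]; simp only [al, Finset.sum_const, nsmul_eq_mul, hcard]
    rw [h0] at h
    refine Sink_markov hpos ?_ (Real.exp_pos ((α 0 + 1) * m)) ?_ h ?_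
    · exact (measurable_const.mul
        (Finset.measurable_sum _ fun e _ => measurable_pi_apply e)).exp
    · intro G _ hGD
      have h2 : (2 * α 0 + 2) * m ≤ ∑ e ∈ SE S 0, G e := hGD
      exact Real.exp_le_exp.mpr (by linarith)
    · rw [Sink_half, ← Real.exp_neg, ← Real.exp_add]
      refine Real.exp_le_exp.mpr ?_
      have := Real.log_two_lt_d9
      have := mul_pos hm0 hα0
      nlinarith
  -- union bound
  have hsub : mu (al N α) {G | ∀ y ∈ S, uu s K G (y + dr N 0) < (α 0 - α 2) / (8 * (α 0 + 1))} ≤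
      mu (al N α) ({G | Esc s K S G ≤ d / 2} ∪ {G | d / 8 ≤ Fx G (SE S 0)
        (har (Wd N s (s + w) \ Sep s (s + w) p m) (ind (Sep s (s + w) p m)) G)} ∪
        {G | d / 8 ≤ Fx G (SE S 0) (uu s (s + w) G) - Fx G (SE S 0) (uu s K G)} ∪
        {G | (2 * α 0 + 2) * m ≤ ∑ e ∈ SE S 0, G e}) := by
    refine mu_mono hpos fun G hG' hGD => ?_
    by_contra hcon
    simp only [Set.mem_union, Set.mem_ofPred_eq, not_or, not_le] at hcon
    obtain ⟨⟨⟨h1, h2⟩, h3⟩, h4⟩ := hcon
    obtain ⟨x1, x2, -, -⟩ := hX N s w K m p hw hK hKN hmN G hG'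
    have x3 : Esc s K S G ≤ Xb s w p m G := x1 S hSC Subset.rfl
    have hc : 0 < (α 0 - α 2) / (8 * (α 0 + 1)) := by positivity
    have x4 : Fx G (SE S 0) (uu s K G) ≤
        (α 0 - α 2) / (8 * (α 0 + 1)) * ∑ e ∈ SE S 0, G e := by
      unfold Fx
      rw [Finset.mul_sum]
      refine Finset.sum_le_sum fun e he => ?_
      obtain ⟨he1, he2⟩ := mem_SE.mp he
      have h5 : uu s K G (e.1 + dr N 0) < (α 0 - α 2) / (8 * (α 0 + 1)) := hGD e.1 he1
      unfold tg
      rw [he2, mul_comm]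
      exact mul_le_mul_of_nonneg_right h5.le (hG' e).le
    have x5 := mul_le_mul_of_nonneg_left h4.le hc.le
    have x6 : (α 0 - α 2) / (8 * (α 0 + 1)) * ((2 * α 0 + 2) * m) = d / 4 := by
      rw [hd]; field_simp; ring
    rw [← hS] at x2
    linarith
  refine hsub.trans ?_
  have h3 : 0 ≤ 8 * aa α N w / (α 0 - α 2) := by have := hA2 w; positivity
  rw [ENNReal.ofReal_add (by positivity) (by positivity),
    ENNReal.ofReal_add (by positivity) h3, ENNReal.ofReal_add (by positivity) (by positivity)]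
  refine (measure_union_le _ _).trans (add_le_add ?_ b4)
  refine (measure_union_le _ _).trans (add_le_add ?_ b3)
  exact (measure_union_le _ _).trans (add_le_add b1 b2)

theorem Sink_exp (k x : ℝ) (hk : 0 < k) (hx : 0 < x) (M : ℕ) :
    Real.exp (-(k * x)) ≤ (M.factorial : ℝ) / k ^ M * (x ^ M)⁻¹ := by
  have h := Real.pow_div_factorial_le_exp (k * x) (by positivity) M
  have h1 : 0 < (k * x) ^ M / (M.factorial : ℝ) := by positivity
  rw [Real.exp_neg]
  refine (inv_anti₀ h1 h).trans (le_of_eq ?_)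
  rw [mul_pow]; field_simp

theorem pf_Sink (h0 : StSink0) (h3 : StS3) : StSink := by
  intro α hα
  have hδ : 0 < α 0 - α 2 := sub_pos.mpr hα.2
  have hα0 := hα.1 0
  have hα2 := hα.1 2
  have hAs : 0 ≤ ∑ i, α i := Finset.sum_nonneg fun i _ => (hα.1 i).le
  refine ⟨(α 0 - α 2) / (8 * (α 0 + 1)), by positivity, ?_, fun M => ?_⟩
  · rw [div_le_one (by positivity)]; linarith
  obtain ⟨C, C₀, hC, hCb⟩ := h3 α hα M
  obtain ⟨q', hq'⟩ := exists_nat_ge (64 * (∑ i, α i) / (α 0 - α 2))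
  obtain ⟨q, hq1, hq⟩ : ∃ q : ℕ, 1 ≤ q ∧ 64 * (∑ i, α i) ≤ q * (α 0 - α 2) := by
    refine ⟨q' + 1, by omega, ?_⟩
    rw [div_le_iff₀ hδ] at hq'
    push_cast; linarith
  have hq0 : (0 : ℝ) < q := by exact_mod_cast hq1
  refine ⟨(M.factorial : ℝ) / ((α 0 - α 2) / 6) ^ M + (M.factorial : ℝ) / ((α 0 - α 2) / 32) ^ M
    + 8 * C * (2 * q) ^ M / (α 0 - α 2) + (M.factorial : ℝ) / 1 ^ M + (2 * q) ^ M,
    max C₀ 2, by positivity, ?_⟩
  intro N _ s K m p hm hK hN
  have hm0 : (0 : ℝ) < m := by exact_mod_cast hm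
  have hmM : 0 < ((m : ℝ) ^ M)⁻¹ := by positivity
  have hpos : Pos (al N α) := pos_al hα.1
  have hN2 : 2 * K ≤ N := le_trans (Nat.mul_le_mul_right K (le_max_right _ _)) hN
  have hN0 : C₀ * K ≤ N := le_trans (Nat.mul_le_mul_right K (le_max_left _ _)) hN
  have t1 : 0 ≤ (M.factorial : ℝ) / ((α 0 - α 2) / 6) ^ M * ((m : ℝ) ^ M)⁻¹ := by positivity
  have t2 : 0 ≤ (M.factorial : ℝ) / ((α 0 - α 2) / 32) ^ M * ((m : ℝ) ^ M)⁻¹ := by positivity
  have t3 : 0 ≤ 8 * C * (2 * q) ^ M / (α 0 - α 2) * ((m : ℝ) ^ M)⁻¹ := by positivity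
  have t4 : 0 ≤ (M.factorial : ℝ) / 1 ^ M * ((m : ℝ) ^ M)⁻¹ := by positivity
  have t5 : 0 ≤ (2 * (q : ℝ)) ^ M * ((m : ℝ) ^ M)⁻¹ := by positivity
  by_cases hsm : m < 2 * q
  · have := prob_mu hpos
    refine prob_le_one.trans ?_
    rw [← ENNReal.ofReal_one]
    refine ENNReal.ofReal_le_ofReal ?_
    have h1 : (m : ℝ) ≤ 2 * q := by exact_mod_cast hsm.le
    have h2 : 1 ≤ (2 * (q : ℝ)) ^ M * ((m : ℝ) ^ M)⁻¹ := by
      rw [← div_eq_mul_inv, one_le_div (by positivity)]
      exact pow_le_pow_left₀ hm0.le h1 M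
    simp only [add_mul]
    linarith
  have hw2 : 2 ≤ m / q := (Nat.le_div_iff_mul_le (by omega)).mpr (by omega)
  have hwm : m / q ≤ m := Nat.div_le_self _ _
  have hwq : m / q * q ≤ m := Nat.div_mul_le_self _ _
  have hwq' : m < (m / q + 1) * q := by
    rw [add_mul, one_mul]; exact Nat.lt_div_mul_add (by omega)
  set w := m / q with hw
  have hw0 : (2 : ℝ) ≤ w := by exact_mod_cast hw2
  have r1 : (w : ℝ) * q ≤ m := by exact_mod_cast hwq
  have r2 : (m : ℝ) < (w + 1) * q := by exact_mod_cast hwq'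
  refine (h0 α hα N s w K m p hw2 (by omega) (by omega) hm (by omega)).trans
    (ENNReal.ofReal_le_ofReal ?_)
  have u1 := Sink_exp ((α 0 - α 2) / 6) m (by positivity) hm0 M
  have u2 := Sink_exp ((α 0 - α 2) / 32) m (by positivity) hm0 M
  have u4 := Sink_exp 1 m one_pos hm0 M
  have v1 : Real.exp (-((α 0 - α 2) * m / 6)) = Real.exp (-((α 0 - α 2) / 6 * m)) := by
    congr 1; ring
  have v2 : Real.exp (2 * w * (∑ i, α i) - (α 0 - α 2) * m / 16) ≤
      Real.exp (-((α 0 - α 2) / 32 * m)) := by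
    refine Real.exp_le_exp.mpr ?_
    have h1 := mul_le_mul_of_nonneg_left hq (show (0 : ℝ) ≤ w by linarith)
    have h2 := mul_le_mul_of_nonneg_right r1 hδ.le
    nlinarith
  have v3 : 8 * aa α N w / (α 0 - α 2) ≤
      8 * C * (2 * q) ^ M / (α 0 - α 2) * ((m : ℝ) ^ M)⁻¹ := by
    have h1 := hCb N w (by omega) (le_trans (Nat.mul_le_mul_left _ (by omega)) hN0)
    have h2 : ((w : ℝ) ^ M)⁻¹ ≤ (2 * (q : ℝ)) ^ M * ((m : ℝ) ^ M)⁻¹ := by
      rw [← div_eq_mul_inv, inv_eq_one_div, div_le_div_iff₀ (by positivity) (by positivity),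
        one_mul, ← mul_pow]
      exact pow_le_pow_left₀ hm0.le (by nlinarith) M
    have h4 := h1.trans (mul_le_mul_of_nonneg_left h2 hC.le)
    rw [div_mul_eq_mul_div]
    refine div_le_div_of_nonneg_right ?_ hδ.le
    linarith
  rw [one_mul] at u4
  simp only [add_mul]
  linarith

end DRW
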