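import Pool.Agent.P.MP_de05b4_pr.Basic

/-! The stationary weights on a strip. -/

namespace DRW

open MeasureTheory ProbabilityTheory Finset Filter
open scoped ENNReal Topology

variable {N : ℕ} [NeZero N]

theorem Stat_esc_pos {K : ℕ} (hK : K < N) {G : E N → ℝ} (hG : Pos G) {x : T N}
    (hx : x ∈ Wd N 0 K) : 0 < esc 0 K x G := by
  refine (esc_nonneg hG 0 K x).lt_of_ne fun h0 => ?_
  have hx' := mem_Wd.1 hx
  have h := eq_on_strip hG hK (s := 0) (f := gx 0 K x G) (g := fun _ => 0)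
    (fun y hy => by rw [gx_lap hG x hy, lap_const, ← h0]; simp)
    (fun y hy => gx_off hG hx (by rw [mem_Wd]; omega))
    (fun y hy => gx_off hG hx (by rw [mem_Wd]; omega)) (x := x) (by omega) (by omega)
  rw [gx_self hG] at h
  exact one_ne_zero h

theorem Stat_FL_le {K : ℕ} (hK : K < N) {G : E N → ℝ} (hG : Pos G) {x : T N}
    (hx : x ∈ Wd N 0 K) : FL 0 (col x) {x} G ≤ HH 0 K x G := by
  have hx' := mem_Wd.1 hx
  have h1 : FL 0 (col x) {x} G ≤ Fx G (SE (Col N 0) 0) (gx 0 K x G) := by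
    refine Fx_mono hG fun e he => ?_
    have hc := col_tg_left (s := 0) (by omega) Subset.rfl he
    refine le_on_strip hG (s := 0) (t := col x) (by omega) (fun y hy => ?_) (fun y hy => ?_)
      (fun y hy => ?_) (by omega) (by omega)
    · have hy' := mem_Wd.1 hy
      rw [gx_lap hG x (mem_Wd.2 ⟨hy'.1, by omega⟩), har_Wd_lap hG _ hy'.1 hy'.2,
        if_neg (by rintro rfl; omega)]
    · rw [har_Wd_off hG _ (Or.inl hy.le), ind_of_notMem (by
        rw [mem_singleton]; rintro rfl; omega)]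
      exact gx_nonneg hG 0 K x y
    · rw [har_Wd_off hG _ (Or.inr hy.ge)]
      by_cases h : y = x
      · rw [h, gx_self hG]; exact ind_le_one _ _
      · rw [ind_of_notMem (by rwa [mem_singleton])]
        exact gx_nonneg hG 0 K x y
  have h2 : 0 ≤ Fx G (SE (Col N K) 2) (gx 0 K x G) :=
    Fx_nonneg hG fun _ _ => gx_nonneg hG 0 K x _
  unfold HH
  rw [Fx_Src]
  linarith

theorem Stat_tg {K : ℕ} (h1 : 1 ≤ K) (hK : K < N) {e : E N} (he : e ∈ Src N 0 K) :
    col (tg e) = 1 ∨ col (tg e) = K - 1 := by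
  rcases mem_union.1 he with h | h
  · exact Or.inl (col_tg_left (s := 0) (by omega) Subset.rfl h)
  · exact Or.inr (col_tg_right h1 Subset.rfl h)

omit [NeZero N] in
theorem Stat_lap_ind (G : E N → ℝ) (x z : T N) :
    lap G (ind {x}) z = (∑ i, if z = x - dr N i then G (z, i) else 0) -
      if z = x then Zs G x else 0 := by
  rw [lap_eq]
  congr 1
  · refine sum_congr rfl fun i _ => ?_
    simp only [ind, mem_singleton, eq_sub_iff_add_eq, mul_ite, mul_one, mul_zero]
  · by_cases h : z = x <;> simp [ind, h]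

theorem Stat_balance {K : ℕ} (hK : K < N) {G : E N → ℝ} (hG : Pos G) {x : T N}
    (hx : x ∈ Wd N 1 (K - 1)) :
    pii 0 K x G = ∑ i, pii 0 K (x - dr N i) G * om G (x - dr N i, i) := by
  have hx' := mem_Wd.1 hx
  have hx0 : x ∈ Wd N 0 K := mem_Wd.2 ⟨by omega, by omega⟩
  have hy : ∀ i, x - dr N i ∈ Wd N 0 K := fun i => by
    rw [mem_Wd]
    rcases col_nbr_sub (x := x) (by omega) (by omega) i with h | h | h <;> omega
  have hoff : ∀ z, z ∉ Wd N 0 K → (esc 0 K x G)⁻¹ * gx 0 K x G z =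
      (∑ i, om G (x - dr N i, i) / esc 0 K (x - dr N i) G * gx 0 K (x - dr N i) G z) +
        ind {x} z := fun z hz => by
    rw [gx_off hG hx0 hz, ind_of_notMem (by rw [mem_singleton]; rintro rfl; exact hz hx0),
      sum_eq_zero fun i _ => by rw [gx_off hG (hy i) hz, mul_zero]]
    simp
  have key : ∀ z, col z ≤ K → (esc 0 K x G)⁻¹ * gx 0 K x G z =
      (∑ i, om G (x - dr N i, i) / esc 0 K (x - dr N i) G * gx 0 K (x - dr N i) G z) +
        ind {x} z := fun z hz => by
    refine eq_on_strip hG hK (s := 0) (f := fun z => (esc 0 K x G)⁻¹ * gx 0 K x G z)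
      (g := fun z => (∑ i, om G (x - dr N i, i) / esc 0 K (x - dr N i) G *
        gx 0 K (x - dr N i) G z) + ind {x} z) (fun y hy0 => ?_)
      (fun y h => hoff y (by rw [mem_Wd]; omega)) (fun y h => hoff y (by rw [mem_Wd]; omega))
      (Nat.zero_le _) hz
    have h1 : ∀ i, lap G (fun z => om G (x - dr N i, i) / esc 0 K (x - dr N i) G *
        gx 0 K (x - dr N i) G z) y = -if y = x - dr N i then G (y, i) else 0 := fun i => by
      rw [lap_mul, gx_lap hG _ hy0]
      split_ifs with h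
      · have := Stat_esc_pos hK hG (hy i)
        have hZ := Zs_pos hG (x - dr N i)
        rw [h]
        simp only [om]
        field_simp
      · simp
    rw [lap_add, lap_sum, lap_mul, gx_lap hG x hy0, Stat_lap_ind, sum_congr rfl fun i _ => h1 i,
      sum_neg_distrib]
    have := Stat_esc_pos hK hG hx0
    split_ifs
    · field_simp
      ring
    · ring
  have h2 : Fx G (Src N 0 K) (ind {x}) = 0 := by
    refine sum_eq_zero fun e he => ?_
    rw [ind_of_notMem, mul_zero]
    rw [mem_singleton]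
    intro h
    have := Stat_tg (by omega) hK he
    rw [h] at this
    omega
  have h3 := Fx_congr G (S := Src N 0 K) (g := fun z => (esc 0 K x G)⁻¹ * gx 0 K x G z)
    (g' := fun z => (∑ i, om G (x - dr N i, i) / esc 0 K (x - dr N i) G *
      gx 0 K (x - dr N i) G z) + ind {x} z) fun e he => key _ (by
        have := Stat_tg (by omega) hK he
        omega)
  rw [Fx_mul, Fx_add, h2, add_zero, Fx_sum] at h3
  unfold pii HH
  rw [div_eq_inv_mul, h3]
  refine sum_congr rfl fun i _ => ?_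
  rw [Fx_mul]
  ring

omit [NeZero N] in
theorem pf_Stat : StStat := by
  intro N _ K hK G hG
  refine ⟨fun x hx => ⟨Stat_esc_pos hK hG hx, esc_le_one hG 0 K x, HH_nonneg hG 0 K x, ?_⟩,
    fun x hx => Stat_balance hK hG hx⟩
  exact (Stat_FL_le hK hG hx).trans
    (le_div_self (HH_nonneg hG 0 K x) (Stat_esc_pos hK hG hx) (esc_le_one hG 0 K x))

omit [NeZero N] in
theorem pf_Test (hS : StStat) : StTest := by
  intro N _ K h4 hK G hG φ h0 h1
  have hp : ∀ x, 0 ≤ pii 0 K x G := fun x =>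
    div_nonneg (HH_nonneg hG 0 K x) (esc_nonneg hG 0 K x)
  have e1 : ∑ x ∈ Wd N 1 (K - 1), pii 0 K x G * ∑ i, om G (x, i) * φ (x + dr N i) =
      ∑ y, ∑ i, ind (Wd N 1 (K - 1)) y * (pii 0 K y G * om G (y, i) * φ (y + dr N i)) := by
    rw [← sum_subset (subset_univ (Wd N 1 (K - 1))) fun y _ hy => by simp [ind_of_notMem hy]]
    refine sum_congr rfl fun y hy => ?_
    simp only [ind_of_mem hy, one_mul, mul_sum, mul_assoc]
  have e2 : ∑ x ∈ Wd N 1 (K - 1), pii 0 K x G * φ x =
      ∑ y, ∑ i, ind (Wd N 1 (K - 1)) (y + dr N i) *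
        (pii 0 K y G * om G (y, i) * φ (y + dr N i)) := by
    have : ∀ i, ∑ y, ind (Wd N 1 (K - 1)) (y + dr N i) *
        (pii 0 K y G * om G (y, i) * φ (y + dr N i)) =
        ∑ x ∈ Wd N 1 (K - 1), pii 0 K (x - dr N i) G * om G (x - dr N i, i) * φ x := fun i => by
      rw [← Equiv.sum_comp (Equiv.subRight (dr N i)),
        ← sum_subset (subset_univ (Wd N 1 (K - 1))) fun y _ hy => by simp [ind_of_notMem hy]]
      refine sum_congr rfl fun y hy => ?_
      simp [ind_of_mem hy]
    rw [sum_comm, sum_congr rfl fun i _ => this i, sum_comm]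
    refine sum_congr rfl fun x hx => ?_
    rw [(hS N K hK G hG).2 x hx, sum_mul]
  have e3 : ∑ x ∈ Col N 1 ∪ Col N 2 ∪ Col N (K - 2) ∪ Col N (K - 1), pii 0 K x G =
      ∑ y, ∑ i, ind (Col N 1 ∪ Col N 2 ∪ Col N (K - 2) ∪ Col N (K - 1)) y *
        (pii 0 K y G * om G (y, i)) := by
    rw [← sum_subset (subset_univ (Col N 1 ∪ Col N 2 ∪ Col N (K - 2) ∪ Col N (K - 1)))
      fun y _ hy => by simp only [ind_of_notMem hy, zero_mul, sum_const_zero]]
    refine sum_congr rfl fun y hy => ?_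
    simp only [ind_of_mem hy, one_mul, ← mul_sum, sum_om hG, mul_one]
  rw [e1, e2, e3, ← sum_sub_distrib]
  refine (abs_sum_le_sum_abs _ _).trans (sum_le_sum fun y _ => ?_)
  rw [← sum_sub_distrib]
  refine (abs_sum_le_sum_abs _ _).trans (sum_le_sum fun i _ => ?_)
  have ha : 0 ≤ pii 0 K y G * om G (y, i) := mul_nonneg (hp y) (om_pos hG _).le
  have hb := mul_nonneg ha (h0 (y + dr N i))
  have hc := mul_le_of_le_one_right ha (h1 (y + dr N i))
  have hd := mul_nonneg (ind_nonneg (Col N 1 ∪ Col N 2 ∪ Col N (K - 2) ∪ Col N (K - 1)) y) ha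
  by_cases hy : y ∈ Wd N 1 (K - 1) <;> by_cases hz : y + dr N i ∈ Wd N 1 (K - 1)
  · rwa [ind_of_mem hy, ind_of_mem hz, sub_self, abs_zero]
  · have hB : y ∈ Col N 1 ∪ Col N 2 ∪ Col N (K - 2) ∪ Col N (K - 1) := by
      simp only [mem_union, mem_Col]
      rw [mem_Wd] at hy hz
      rcases col_nbr (x := y) (by omega) (by omega) i with h | h | h <;> omega
    rwa [ind_of_mem hy, ind_of_notMem hz, ind_of_mem hB, zero_mul, sub_zero, one_mul, one_mul,
      abs_of_nonneg hb]
  · have hB : y ∈ Col N 1 ∪ Col N 2 ∪ Col N (K - 2) ∪ Col N (K - 1) := by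
      simp only [mem_union, mem_Col]
      rw [mem_Wd] at hy hz
      have h := col_nbr_sub (x := y + dr N i) (by omega) (by omega) i
      rw [add_sub_cancel_right] at h
      omega
    rwa [ind_of_notMem hy, ind_of_mem hz, ind_of_mem hB, zero_mul, zero_sub, one_mul, one_mul,
      abs_neg, abs_of_nonneg hb]
  · rwa [ind_of_notMem hy, ind_of_notMem hz, sub_self, abs_zero]

end DRW
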