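import Pool.Agent.P.MP_de05b4_pr.Basic

/-! From the torus to approximately invariant densities on the lattice. -/

namespace DRW

open MeasureTheory ProbabilityTheory Finset Filter
open scoped ENNReal Topology

variable {N : ℕ} [NeZero N]

theorem TR1_res {R : ℕ} (hN : 2 * R + 4 ≤ N) (x : T N) (γ : Env) {a b : ℤ} (ha : |a| ≤ R + 1)
    (hb : |b| ≤ R + 1) (i : Fin 4) : resE x γ (x + cz N a b, i) = γ (a, b) i := by
  have key : ∀ c : ℤ, |c| ≤ R + 1 → (c : ZMod N).valMinAbs = c := fun c hc => by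
    rw [abs_le] at hc
    refine (ZMod.valMinAbs_spec _ _).2 ⟨rfl, ?_, ?_⟩ <;> omega
  simp only [resE, add_sub_cancel_left, cz, key a ha, key b hb]

theorem TR1_lift {R : ℕ} (hN : 2 * R + 4 ≤ N) (x : T N) (γ : Env) {A : Set Env} (hA : Loc R A) :
    liftE x (resE x γ) ∈ A ↔ γ ∈ A := by
  refine hA _ _ fun w h1 h2 => ?_
  funext i
  exact TR1_res hN x γ (by omega) (by omega) i

theorem TR1_lift' {R : ℕ} (hN : 2 * R + 4 ≤ N) (x : T N) (γ : Env) {A : Set Env} (hA : Loc R A)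
    (j : Fin 4) : liftE (x + dr N j) (resE x γ) ∈ A ↔ shift (dir j) γ ∈ A := by
  refine hA _ _ fun w h1 h2 => ?_
  funext i
  have d1 : |(dir j).1| ≤ 1 := by fin_cases j <;> simp [dir]
  have d2 : |(dir j).2| ≤ 1 := by fin_cases j <;> simp [dir]
  have e1 := abs_add_le (dir j).1 w.1
  have e2 := abs_add_le (dir j).2 w.2
  have := TR1_res hN x γ (a := (dir j).1 + w.1) (b := (dir j).2 + w.2) (by omega) (by omega) i
  rw [cz_add, cz_dir, ← add_assoc] at this
  exact this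

theorem TR1_om {R : ℕ} (hN : 2 * R + 4 ≤ N) (x : T N) (γ : Env) (i : Fin 4) :
    om (resE x γ) (x, i) = nrm (γ 0) i := by
  have h : ∀ j, resE x γ (x, j) = γ 0 j := fun j => by
    have := TR1_res hN x γ (a := 0) (b := 0) (by simp; positivity) (by simp; positivity) j
    rw [show cz N 0 0 = 0 by simp [cz, Prod.ext_iff], add_zero] at this
    exact this
  simp only [om, Zs, nrm, h]

theorem TR1_ae (hM : StMP) {α : Fin 4 → ℝ} (hα : ∀ i, 0 < α i) :
    ∀ᵐ γ ∂lawG α, ∀ x : T N, Pos (resE x γ) :=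
  ae_all_iff.2 fun x => (hM α hα N x).quasiMeasurePreserving.ae (ae_pos (pos_al hα))

theorem TR1_int (hM : StMP) {α : Fin 4 → ℝ} (hα : ∀ i, 0 < α i) (S : Finset (T N))
    {F : T N → (E N → ℝ) → ℝ} (hF : ∀ x, Measurable (F x))
    (h0 : ∀ x ∈ S, ∀ G, Pos G → 0 ≤ F x G) :
    ∫⁻ γ, ENNReal.ofReal (∑ x ∈ S, F x (resE x γ)) ∂lawG α = ∑ x ∈ S, Ex (al N α) (F x) := by
  have h1 : ∫⁻ γ, ENNReal.ofReal (∑ x ∈ S, F x (resE x γ)) ∂lawG α =
      ∫⁻ γ, ∑ x ∈ S, ENNReal.ofReal (F x (resE x γ)) ∂lawG α :=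
    lintegral_congr_ae ((TR1_ae hM hα).mono fun γ hγ =>
      ENNReal.ofReal_sum_of_nonneg fun x hx => h0 x hx _ (hγ x))
  rw [h1, lintegral_finsetSum (f := fun x γ => ENNReal.ofReal (F x (resE x γ))) _
    fun x _ => ((hF x).comp (hM α hα N x).measurable).ennreal_ofReal]
  exact sum_congr rfl fun x _ => (hM α hα N x).lintegral_comp (hF x).ennreal_ofReal

/-- the indicator of `A` seen from the site `y` -/
noncomputable def TR1_phi (A : Set Env) (G : E N → ℝ) (y : T N) : ℝ :=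
  A.indicator (fun _ => (1 : ℝ)) (liftE y G)

omit [NeZero N] in
theorem TR1_phi_nonneg (A : Set Env) (G : E N → ℝ) (y : T N) : 0 ≤ TR1_phi A G y := by
  unfold TR1_phi; by_cases h : liftE y G ∈ A <;> simp [h]

omit [NeZero N] in
theorem TR1_phi_le (A : Set Env) (G : E N → ℝ) (y : T N) : TR1_phi A G y ≤ 1 := by
  unfold TR1_phi; by_cases h : liftE y G ∈ A <;> simp [h]

omit [NeZero N] in
theorem TR1_phi_meas {A : Set Env} (hA : MeasurableSet A) (y : T N) :
    Measurable fun G => TR1_phi A G y :=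
  (measurable_const.indicator hA).comp (by unfold liftE; fun_prop)

theorem TR1_cmp {α : Fin 4 → ℝ} (hα : ∀ i, 0 < α i) {U V B : (E N → ℝ) → ℝ} {Z ε : ℝ}
    (hZ : 0 < Z) (hV : Measurable V) (hB : Ex (al N α) B ≤ ENNReal.ofReal (ε * Z))
    (h : ∀ G, Pos G → U G ≤ V G + Z⁻¹ * B G) :
    Ex (al N α) U ≤ Ex (al N α) V + ENNReal.ofReal ε := by
  refine (Ex_mono (pos_al hα) h).trans ((Ex_add_le _ hV).trans (add_le_add le_rfl ?_))
  rw [Ex_const_mul _ (inv_pos.2 hZ).le]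
  refine (mul_le_mul_right hB _).trans (le_of_eq ?_)
  rw [← ENNReal.ofReal_mul (inv_pos.2 hZ).le]
  congr 1
  field_simp

theorem pf_TR1 (hM : StMP) : StTR1 := by
  rintro α hα ⟨s, C, hs, hC, h⟩
  refine ⟨s, hs, ENNReal.ofReal (C ^ s * C), ENNReal.ofReal_ne_top, fun ε hε R => ?_⟩
  obtain ⟨N, inst, hN, S, π, Z, hZ, mπ, π0, hsum, hcard, hmom, B, mB, hB, hdev⟩ :=
    h ε hε (2 * R + 4)
  have iZ : 0 ≤ Z⁻¹ := (inv_pos.2 hZ).le
  have hae := TR1_ae (N := N) hM hα
  refine ⟨fun γ => ENNReal.ofReal (∑ x ∈ S, Z⁻¹ * π x (resE x γ)), ?_, ?_, ?_, ?_⟩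
  · exact (Finset.measurable_sum _ fun x _ =>
      ((mπ x).comp (hM α hα N x).measurable).const_mul _).ennreal_ofReal
  · rw [TR1_int hM hα S (F := fun x G => Z⁻¹ * π x G) (fun x => (mπ x).const_mul _)
      fun x hx G hG => mul_nonneg iZ (π0 x hx G hG)]
    simp only [Ex_const_mul _ iZ]
    rw [← mul_sum, hsum, ← ENNReal.ofReal_mul iZ, inv_mul_cancel₀ hZ.ne', ENNReal.ofReal_one]
  · set c : ℝ := (S.card : ℝ) ^ (s - 1) * Z⁻¹ ^ s with hc
    have c0 : 0 ≤ c := by positivity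
    have h1 : ∫⁻ γ, ENNReal.ofReal (∑ x ∈ S, Z⁻¹ * π x (resE x γ)) ^ s ∂lawG α ≤
        ∫⁻ γ, ENNReal.ofReal (∑ x ∈ S, c * π x (resE x γ) ^ s) ∂lawG α := by
      refine lintegral_mono_ae (hae.mono fun γ hγ => ?_)
      have p0 : ∀ x ∈ S, 0 ≤ Z⁻¹ * π x (resE x γ) := fun x hx =>
        mul_nonneg iZ (π0 x hx _ (hγ x))
      rw [ENNReal.ofReal_rpow_of_nonneg (sum_nonneg p0) (by linarith)]
      refine ENNReal.ofReal_le_ofReal
        ((Real.rpow_sum_le_const_mul_sum_rpow_of_nonneg S hs.le p0).trans (le_of_eq ?_))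
      rw [mul_sum]
      refine sum_congr rfl fun x hx => ?_
      rw [Real.mul_rpow iZ (π0 x hx _ (hγ x)), hc, mul_assoc]
    refine h1.trans ?_
    rw [TR1_int hM hα S (F := fun x G => c * π x G ^ s)
      (fun x => ((mπ x).pow_const s).const_mul _)
      fun x hx G hG => mul_nonneg c0 (Real.rpow_nonneg (π0 x hx G hG) _)]
    simp only [Ex_const_mul _ c0]
    rw [← mul_sum]
    refine (mul_le_mul_right (sum_le_sum hmom) _).trans ?_
    rw [sum_const, nsmul_eq_mul, ← ENNReal.ofReal_natCast, ← ENNReal.ofReal_mul (by positivity),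
      ← ENNReal.ofReal_mul c0]
    refine ENNReal.ofReal_le_ofReal ?_
    rw [← mul_assoc]
    refine mul_le_mul_of_nonneg_right ?_ hC.le
    have h2 : c * S.card = ((S.card : ℝ) * Z⁻¹) ^ s := by
      rw [hc, Real.mul_rpow (by positivity) iZ, mul_right_comm,
        ← Real.rpow_add_one' (by positivity) (by linarith), sub_add_cancel]
    rw [h2]
    refine Real.rpow_le_rpow (by positivity) ?_ (by linarith)
    rw [← div_eq_mul_inv, div_le_iff₀ hZ]
    exact hcard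
  · intro A mA hA
    have m1 : ∀ x, Measurable fun G => Z⁻¹ * (π x G * TR1_phi A G x) := fun x =>
      ((mπ x).mul (TR1_phi_meas mA x)).const_mul _
    have m2 : ∀ x, Measurable fun G =>
        Z⁻¹ * (π x G * ∑ i, om G (x, i) * TR1_phi A G (x + dr N i)) := fun x =>
      ((mπ x).mul (Finset.measurable_sum _ fun i _ =>
        (measurable_om _).mul (TR1_phi_meas mA _))).const_mul _
    have n1 : ∀ x ∈ S, ∀ G, Pos G → 0 ≤ Z⁻¹ * (π x G * TR1_phi A G x) := fun x hx G hG =>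
      mul_nonneg iZ (mul_nonneg (π0 x hx G hG) (TR1_phi_nonneg _ _ _))
    have n2 : ∀ x ∈ S, ∀ G, Pos G →
        0 ≤ Z⁻¹ * (π x G * ∑ i, om G (x, i) * TR1_phi A G (x + dr N i)) := fun x hx G hG =>
      mul_nonneg iZ (mul_nonneg (π0 x hx G hG)
        (sum_nonneg fun i _ => mul_nonneg (om_pos hG _).le (TR1_phi_nonneg _ _ _)))
    have e1 : ∫⁻ γ, ENNReal.ofReal (∑ x ∈ S, Z⁻¹ * π x (resE x γ)) * A.indicator 1 γ ∂lawG α =
        Ex (al N α) fun G => ∑ x ∈ S, Z⁻¹ * (π x G * TR1_phi A G x) := by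
      rw [Ex_sum (pos_al hα) S (fun x _ => m1 x) n1, ← TR1_int hM hα S m1 n1]
      refine lintegral_congr fun γ => ?_
      by_cases hγ : γ ∈ A <;> simp [TR1_phi, Set.indicator, TR1_lift hN _ γ hA, hγ]
    have e2 : ∫⁻ γ, ENNReal.ofReal (∑ x ∈ S, Z⁻¹ * π x (resE x γ)) *
        ∑ i, ENNReal.ofReal (nrm (γ 0) i) * A.indicator 1 (shift (dir i) γ) ∂lawG α =
        Ex (al N α) fun G =>
          ∑ x ∈ S, Z⁻¹ * (π x G * ∑ i, om G (x, i) * TR1_phi A G (x + dr N i)) := by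
      rw [Ex_sum (pos_al hα) S (fun x _ => m2 x) n2, ← TR1_int hM hα S m2 n2]
      refine lintegral_congr_ae (hae.mono fun γ hγ => ?_)
      have q0 : ∀ i, 0 ≤ nrm (γ 0) i := fun i => by
        rw [← TR1_om hN (0 : T N) γ i]; exact (om_pos (hγ 0) _).le
      have q1 : ∑ i, ENNReal.ofReal (nrm (γ 0) i) *
          A.indicator (1 : Env → ℝ≥0∞) (shift (dir i) γ) = ENNReal.ofReal
            (∑ i, nrm (γ 0) i * A.indicator (fun _ => (1 : ℝ)) (shift (dir i) γ)) := by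
        rw [ENNReal.ofReal_sum_of_nonneg fun i _ =>
          mul_nonneg (q0 i) (Set.indicator_nonneg (fun _ _ => zero_le_one) _)]
        refine sum_congr rfl fun i _ => ?_
        by_cases h1 : shift (dir i) γ ∈ A <;> simp [h1]
      have q2 : ∀ x : T N, ∑ i, om (resE x γ) (x, i) * TR1_phi A (resE x γ) (x + dr N i) =
          ∑ i, nrm (γ 0) i * A.indicator (fun _ => (1 : ℝ)) (shift (dir i) γ) := fun x => by
        refine sum_congr rfl fun i _ => ?_
        rw [TR1_om hN]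
        by_cases h1 : shift (dir i) γ ∈ A <;>
          simp [TR1_phi, Set.indicator, TR1_lift' hN x γ hA, h1]
      simp only [q1, q2]
      rw [← ENNReal.ofReal_mul (sum_nonneg fun x hx => mul_nonneg iZ (π0 x hx _ (hγ x))), sum_mul]
      simp only [mul_assoc]
    rw [e1, e2]
    refine ⟨TR1_cmp hα hZ (Finset.measurable_sum _ fun x _ => m2 x) hB fun G hG => ?_,
      TR1_cmp hα hZ (Finset.measurable_sum _ fun x _ => m1 x) hB fun G hG => ?_⟩
    all_goals
      have h1 := abs_le.1 (hdev G hG (TR1_phi A G) (TR1_phi_nonneg A G) (TR1_phi_le A G))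
      rw [← mul_sum, ← mul_sum, ← mul_add]
      exact mul_le_mul_of_nonneg_left (by linarith [h1.1, h1.2]) iZ

end DRW
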