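import Pool.Agent.P.MP_de05b4_pr.Basic

/-! From approximately invariant densities to an invariant measure for the Gamma environment. -/

namespace DRW

open MeasureTheory ProbabilityTheory Finset Filter
open scoped ENNReal Topology

/-- the transition kernel applied to the indicator of `A` -/
noncomputable def TR2_psi (A : Set Env) (γ : Env) : ℝ≥0∞ :=
  ∑ i, ENNReal.ofReal (nrm (γ 0) i) * A.indicator 1 (shift (dir i) γ)

theorem TR2_meas_nrm (i : Fin 4) : Measurable fun γ : Env => ENNReal.ofReal (nrm (γ 0) i) :=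
  Measurable.ennreal_ofReal ((measurable_pi_apply i).comp
    (measurable_nrm.comp (measurable_pi_apply 0)))

theorem TR2_meas_psi {A : Set Env} (hA : MeasurableSet A) : Measurable (TR2_psi A) :=
  Finset.measurable_sum _ fun i _ => (TR2_meas_nrm i).mul
    ((measurable_one.indicator hA).comp (measurable_shift _))

theorem TR2_ind_le (A : Set Env) (γ : Env) : A.indicator (1 : Env → ℝ≥0∞) γ ≤ 1 := by
  by_cases h : γ ∈ A <;> simp [h]

theorem TR2_psi_le {α : Fin 4 → ℝ} (hα : ∀ i, 0 < α i) (A : Set Env) :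
    ∀ᵐ γ ∂lawG α, TR2_psi A γ ≤ 1 := by
  have := prob_gam hα
  have h1 : ∀ᵐ γ ∂lawG α, ∀ i, 0 < γ 0 i :=
    (measurePreserving_eval_infinitePi (fun _ : ℤ × ℤ => gam α) 0).quasiMeasurePreserving.ae
      (gam_ae_pos hα)
  filter_upwards [h1] with γ hγ
  have hs : 0 < ∑ j, γ 0 j := Finset.sum_pos (fun j _ => hγ j) univ_nonempty
  calc TR2_psi A γ ≤ ∑ i, ENNReal.ofReal (nrm (γ 0) i) :=
        sum_le_sum fun i _ => mul_le_of_le_one_right' (TR2_ind_le A _)
    _ = ENNReal.ofReal (∑ i, nrm (γ 0) i) :=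
        (ENNReal.ofReal_sum_of_nonneg fun i _ => (div_pos (hγ i) hs).le).symm
    _ = 1 := by
        unfold nrm
        rw [← Finset.sum_div, div_self hs.ne', ENNReal.ofReal_one]

theorem TR2_loc {A : Set Env} (hA : A ∈ measurableCylinders fun _ : ℤ × ℤ => Fin 4 → ℝ) :
    ∃ R₀ : ℕ, ∀ R, R₀ ≤ R → Loc R A := by
  obtain ⟨s, S, -, rfl⟩ := (mem_measurableCylinders A).1 hA
  refine ⟨s.sup fun w => w.1.natAbs + w.2.natAbs, fun R hR γ γ' h => ?_⟩
  have : s.restrict γ = s.restrict γ' := by
    funext w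
    have h1 : w.1.1.natAbs + w.1.2.natAbs ≤ R :=
      (Finset.le_sup (f := fun w : ℤ × ℤ => w.1.natAbs + w.2.natAbs) w.2).trans hR
    refine h w.1 ?_ ?_
    · rw [Int.abs_eq_natAbs]; exact_mod_cast (by omega)
    · rw [Int.abs_eq_natAbs]; exact_mod_cast (by omega)
  rw [mem_cylinder, mem_cylinder, this]

theorem pf_TR2 (hE : StEX1) : StTR2 := by
  rintro α hα ⟨s, hs, C, hC, h⟩
  have := prob_lawG hα
  choose f hf h1 hm hA using fun k : ℕ => h (1 / ((k : ℝ) + 1)) (by positivity) k
  obtain ⟨Q, hQ, hac, hlim⟩ := hE (lawG α) f s C hs hC hf h1 hm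
  have heps : Tendsto (fun k : ℕ => ENNReal.ofReal (1 / ((k : ℝ) + 1)))
      (hyperfilter ℕ : Filter ℕ) (𝓝 0) := by
    have h2 := ENNReal.tendsto_ofReal (tendsto_one_div_add_atTop_nhds_zero_nat (𝕜 := ℝ))
    rw [ENNReal.ofReal_zero] at h2
    exact h2.mono_left Nat.hyperfilter_le_atTop
  have hcyl : ∀ A ∈ measurableCylinders fun _ : ℤ × ℤ => Fin 4 → ℝ,
      Q A = ∫⁻ γ, TR2_psi A γ ∂Q := by
    intro A hA'
    have mA := MeasurableSet.of_mem_measurableCylinders hA'
    obtain ⟨R₀, hR⟩ := TR2_loc hA'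
    have l1 := hlim (A.indicator 1) (measurable_one.indicator mA)
      (Eventually.of_forall (TR2_ind_le A))
    have l2 := hlim (TR2_psi A) (TR2_meas_psi mA) (TR2_psi_le hα A)
    rw [lintegral_indicator_one mA] at l1
    have ev : ∀ᶠ k in (hyperfilter ℕ : Filter ℕ), R₀ ≤ k :=
      Nat.hyperfilter_le_atTop (eventually_ge_atTop R₀)
    have l3 := l1.add heps
    have l4 := l2.add heps
    rw [add_zero] at l3 l4
    exact le_antisymm
      (le_of_tendsto_of_tendsto l1 l4 (ev.mono fun k hk => (hA k A mA (hR k hk)).1))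
      (le_of_tendsto_of_tendsto l2 l3 (ev.mono fun k hk => (hA k A mA (hR k hk)).2))
  set ν : Measure Env := ∑ i, (Q.withDensity fun γ => ENNReal.ofReal (nrm (γ 0) i)).map
    (shift (dir i)) with hν
  have hνA : ∀ A, MeasurableSet A → ν A = ∫⁻ γ, TR2_psi A γ ∂Q := by
    intro A mA
    rw [hν, Measure.finsetSum_apply]
    unfold TR2_psi
    rw [lintegral_finsetSum (f := fun i γ => ENNReal.ofReal (nrm (γ 0) i) *
      A.indicator (1 : Env → ℝ≥0∞) (shift (dir i) γ)) _ fun i _ => (TR2_meas_nrm i).mul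
      ((measurable_one.indicator mA).comp (measurable_shift _))]
    refine sum_congr rfl fun i _ => ?_
    rw [Measure.map_apply (measurable_shift _) mA, withDensity_apply _ (measurable_shift _ mA),
      ← lintegral_indicator (measurable_shift _ mA)]
    refine lintegral_congr fun γ => ?_
    by_cases hγ : shift (dir i) γ ∈ A
    · simp [hγ]
    · simp [hγ]
  have hQν : Q = ν := ext_of_generate_finite _ generateFrom_measurableCylinders.symm
    isPiSystem_measurableCylinders
    (fun A hA' => by rw [hcyl A hA', hνA A (MeasurableSet.of_mem_measurableCylinders hA')])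
    (by rw [hcyl _ (univ_mem_measurableCylinders _), hνA _ MeasurableSet.univ])
  refine ⟨Q, hQ, hac, fun A mA => ?_⟩
  have h3 := hνA A mA
  rw [← hQν] at h3
  exact h3

end DRW
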