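import Pool.Agent.P.MP_de05b4_pr.Basic

/-! Tilting the Gamma weights by powers. -/

namespace DRW

open MeasureTheory ProbabilityTheory Finset Filter
open scoped ENNReal Topology

theorem Tilt_one {b t : ℝ} (hb : 0 < b) (hbt : 0 < b + t) {f : ℝ → ℝ≥0∞} (hf : Measurable f) :
    ∫⁻ y, ENNReal.ofReal (y ^ t * (Real.Gamma b / Real.Gamma (b + t))) * f y ∂gammaMeasure b 1 =
      ∫⁻ y, f y ∂gammaMeasure (b + t) 1 := by
  have hp : ∀ a, Measurable (gammaPDF a 1) := fun a =>
    (measurable_gammaPDFReal a 1).ennreal_ofReal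
  unfold gammaMeasure
  rw [lintegral_withDensity_eq_lintegral_mul _ (hp _) (by fun_prop),
    lintegral_withDensity_eq_lintegral_mul _ (hp _) hf]
  have h0 : ∀ᵐ y : ℝ, y ≠ 0 := by
    rw [ae_iff]; simp
  refine lintegral_congr_ae (h0.mono fun y hy0 => ?_)
  simp only [Pi.mul_apply]
  rw [← mul_assoc]
  congr 1
  rcases lt_or_gt_of_ne hy0 with hy | hy
  · rw [gammaPDF_of_neg hy, gammaPDF_of_neg hy, zero_mul]
  · have g1 := Real.Gamma_pos_of_pos hb
    have g2 := Real.Gamma_pos_of_pos hbt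
    rw [gammaPDF_of_nonneg hy.le, gammaPDF_of_nonneg hy.le,
      ← ENNReal.ofReal_mul (by positivity)]
    congr 1
    have e1 : y ^ (b + t - 1) = y ^ (b - 1) * y ^ t := by
      rw [← Real.rpow_add hy]; congr 1; ring
    rw [e1, Real.one_rpow, Real.one_rpow]
    field_simp

theorem Tilt_pi {ι : Type} [Fintype ι] {β θ : ι → ℝ} (hβ : ∀ e, 0 < β e)
    (hθ : ∀ e, 0 < β e + θ e) :
    (Measure.pi fun e => gammaMeasure (β e) 1).withDensity
        (fun G => ∏ e, ENNReal.ofReal
          (G e ^ θ e * (Real.Gamma (β e) / Real.Gamma (β e + θ e)))) =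
      Measure.pi fun e => gammaMeasure (β e + θ e) 1 := by
  have : ∀ e, IsProbabilityMeasure (gammaMeasure (β e) 1) := fun e =>
    isProbabilityMeasure_gammaMeasure (hβ e) one_pos
  have : ∀ e, IsProbabilityMeasure (gammaMeasure (β e + θ e) 1) := fun e =>
    isProbabilityMeasure_gammaMeasure (hθ e) one_pos
  refine (Measure.pi_eq fun s hs => ?_).symm
  have hm : ∀ e, Measurable fun y : ℝ =>
      ENNReal.ofReal (y ^ θ e * (Real.Gamma (β e) / Real.Gamma (β e + θ e))) *
        (s e).indicator 1 y := fun e =>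
    Measurable.mul (by fun_prop) (measurable_one.indicator (hs e))
  rw [withDensity_apply _ (MeasurableSet.univ_pi hs),
    ← lintegral_indicator (MeasurableSet.univ_pi hs)]
  have h1 : ∀ G : ι → ℝ, (Set.univ.pi s).indicator
      (fun G => ∏ e, ENNReal.ofReal
          (G e ^ θ e * (Real.Gamma (β e) / Real.Gamma (β e + θ e)))) G =
      ∏ e, ENNReal.ofReal (G e ^ θ e * (Real.Gamma (β e) / Real.Gamma (β e + θ e))) *
        (s e).indicator 1 (G e) := fun G => by
    by_cases hG : G ∈ Set.univ.pi s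
    · rw [Set.indicator_of_mem hG]
      exact prod_congr rfl fun e _ => by
        rw [Set.indicator_of_mem (hG e (Set.mem_univ e)), Pi.one_apply, mul_one]
    · rw [Set.indicator_of_notMem hG]
      rw [Set.mem_univ_pi, not_forall] at hG
      obtain ⟨e, he⟩ := hG
      exact (prod_eq_zero (mem_univ e) (by rw [Set.indicator_of_notMem he, mul_zero])).symm
  rw [lintegral_congr h1, lintegral_prod_eq_prod_lintegral_of_indepFun univ
    (fun e (G : ι → ℝ) =>
      ENNReal.ofReal (G e ^ θ e * (Real.Gamma (β e) / Real.Gamma (β e + θ e))) *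
      (s e).indicator 1 (G e))
    (iIndepFun_pi fun e => (hm e).aemeasurable) fun e => (hm e).comp (measurable_pi_apply e)]
  refine prod_congr rfl fun e _ => ?_
  rw [(measurePreserving_eval (fun e => gammaMeasure (β e) 1) e).lintegral_comp (hm e),
    Tilt_one (hβ e) (hθ e) (measurable_one.indicator (hs e)), lintegral_indicator_one (hs e)]

theorem pf_Tilt : StTilt := by
  intro N _ β θ hβ hθ Φ hΦ
  have hθ' : ∀ e, 0 < β e + θ e := hθ
  have h := congrArg (fun m => ∫⁻ G, Φ G ∂m) (Tilt_pi hβ hθ')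
  rw [lintegral_withDensity_eq_lintegral_mul _ (by fun_prop) hΦ] at h
  have h2 : ∫⁻ G, Φ G ∂mu (β + θ) =
      ∫⁻ G, Φ G ∂Measure.pi fun e => gammaMeasure (β e + θ e) 1 := rfl
  rw [h2, ← h, ← lintegral_const_mul' _ _ ENNReal.ofReal_ne_top]
  refine lintegral_congr_ae ((ae_pos hβ).mono fun G hG => ?_)
  have g1 : ∀ e, 0 < Real.Gamma (β e) := fun e => Real.Gamma_pos_of_pos (hβ e)
  have g2 : ∀ e, 0 < Real.Gamma (β e + θ e) := fun e => Real.Gamma_pos_of_pos (hθ' e)
  simp only [Pi.mul_apply]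
  rw [← mul_assoc, ← ENNReal.ofReal_prod_of_nonneg fun e _ =>
      mul_nonneg (Real.rpow_nonneg (hG e).le _) (div_pos (g1 e) (g2 e)).le,
    ← ENNReal.ofReal_mul (prod_nonneg fun e _ => (div_pos (g2 e) (g1 e)).le), ← prod_mul_distrib]
  congr 2
  refine prod_congr rfl fun e _ => ?_
  have := (g1 e).ne'
  have := (g2 e).ne'
  field_simp

theorem pf_Bump (h : StTilt) : StBump := by
  intro N _ β hβ e Φ hΦ
  have h1 := h N β (fun e' => if e' = e then 1 else 0) hβ (pos_bump hβ e) Φ hΦ
  have h2 : ∀ G : E N → ℝ, ∏ e', G e' ^ (if e' = e then (1 : ℝ) else 0) = G e := fun G => by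
    rw [prod_eq_single e (fun e' _ he' => by rw [if_neg he', Real.rpow_zero]) (by simp),
      if_pos rfl, Real.rpow_one]
  have h3 : ∏ e', Real.Gamma (β e' + if e' = e then (1 : ℝ) else 0) / Real.Gamma (β e') =
      β e := by
    rw [prod_eq_single e (fun e' _ he' => by
        rw [if_neg he', add_zero, div_self (Real.Gamma_pos_of_pos (hβ e')).ne']) (by simp),
      if_pos rfl, Real.Gamma_add_one (hβ e).ne',
      mul_div_cancel_right₀ _ (Real.Gamma_pos_of_pos (hβ e)).ne']
  simp only [h2, h3] at h1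
  exact h1

end DRW
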