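import Pool.Agent.P.MP_de05b4_pr.Basic

/-! Uniqueness of the absolutely continuous invariant probability measure. -/

namespace DRW

open MeasureTheory ProbabilityTheory Finset Filter
open scoped ENNReal Topology

/-- the one step probability to jump into `A` -/
noncomputable def UQ_k (A : Set Env) (ω : Env) : ℝ≥0∞ :=
  ∑ i, ENNReal.ofReal (ω 0 i) * A.indicator 1 (shift (dir i) ω)

theorem UQ_meas {A : Set Env} (hA : MeasurableSet A) : Measurable (UQ_k A) := by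
  unfold UQ_k
  refine Finset.measurable_sum _ fun i _ => Measurable.mul ?_ ?_
  · exact ENNReal.measurable_ofReal.comp (by fun_prop)
  · exact (measurable_one.indicator hA).comp (measurable_shift _)

theorem UQ_le_one (A : Set Env) {ω : Env} (h0 : ∀ i, 0 < ω 0 i) (h1 : ∑ i, ω 0 i = 1) :
    UQ_k A ω ≤ 1 := by
  unfold UQ_k
  calc ∑ i, ENNReal.ofReal (ω 0 i) * A.indicator 1 (shift (dir i) ω)
      ≤ ∑ i, ENNReal.ofReal (ω 0 i) := by
        refine Finset.sum_le_sum fun i _ => ?_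
        by_cases h : shift (dir i) ω ∈ A
        · simp [Set.indicator_of_mem h]
        · simp [Set.indicator_of_notMem h]
    _ = 1 := by
        rw [← ENNReal.ofReal_sum_of_nonneg fun i _ => (h0 i).le, h1, ENNReal.ofReal_one]

theorem UQ_notMem {A : Set Env} {ω : Env} (h0 : ∀ i, 0 < ω 0 i) (h : UQ_k A ω = 0) :
    shift (dir 0) ω ∉ A := by
  intro hm
  unfold UQ_k at h
  rw [Finset.sum_eq_zero_iff] at h
  have h1 := h 0 (mem_univ _)
  rw [Set.indicator_of_mem hm] at h1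
  simp only [Pi.one_apply, mul_one, ENNReal.ofReal_eq_zero] at h1
  exact absurd (h0 0) (not_lt.2 h1)

theorem UQ_ae {α : Fin 4 → ℝ} (hα : ∀ i, 0 < α i) :
    ∀ᵐ ω ∂law α, (∀ i, 0 < ω 0 i) ∧ ∑ i, ω 0 i = 1 := by
  have := prob_dirichlet hα
  have h := (measurePreserving_eval_infinitePi (fun _ : ℤ × ℤ => dirichlet α) 0).quasiMeasurePreserving.ae
    (dirichlet_ae hα)
  exact h

theorem UQ_le (hE : StErg) {α : Fin 4 → ℝ} (hα : ∀ i, 0 < α i) {Q₁ Q₂ : Measure Env}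
    [IsProbabilityMeasure Q₁] (a1 : Q₁ ≪ law α) (i1 : Invariant Q₁)
    [IsProbabilityMeasure Q₂] (a2 : Q₂ ≪ law α) (i2 : Invariant Q₂) : Q₁ ≤ Q₂ := by
  have hP := prob_law hα
  have hd := prob_dirichlet hα
  set P := law α with hPdef
  obtain ⟨f1, m1, e1⟩ : ∃ f : Env → ℝ≥0∞, Measurable f ∧ P.withDensity f = Q₁ :=
    ⟨_, Measure.measurable_rnDeriv _ _, Measure.withDensity_rnDeriv_eq _ _ a1⟩
  obtain ⟨f2, m2, e2⟩ : ∃ f : Env → ℝ≥0∞, Measurable f ∧ P.withDensity f = Q₂ :=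
    ⟨_, Measure.measurable_rnDeriv _ _, Measure.withDensity_rnDeriv_eq _ _ a2⟩
  have t1 : ∫⁻ ω, f1 ω ∂P = 1 := by
    rw [← setLIntegral_univ, ← withDensity_apply _ MeasurableSet.univ, e1, measure_univ]
  have t2 : ∫⁻ ω, f2 ω ∂P = 1 := by
    rw [← setLIntegral_univ, ← withDensity_apply _ MeasurableSet.univ, e2, measure_univ]
  set D : Set Env := {ω | f1 ω ≤ f2 ω} with hD
  have hDm : MeasurableSet D := measurableSet_le m1 m2
  have hk := UQ_meas hDm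
  have hae : ∀ᵐ ω ∂P, (∀ i, 0 < ω 0 i) ∧ ∑ i, ω 0 i = 1 := UQ_ae hα
  have mm : Measurable fun ω => min (f1 ω) (f2 ω) := m1.min m2
  have mg : Measurable fun ω => f1 ω - f2 ω := m1.sub m2
  have mh : Measurable fun ω => f2 ω - f1 ω := m2.sub m1
  have mmk : Measurable fun ω => min (f1 ω) (f2 ω) * UQ_k D ω := mm.mul hk
  have mgk : Measurable fun ω => (f1 ω - f2 ω) * UQ_k D ω := mg.mul hk
  have d1 : ∀ ω, f1 ω = min (f1 ω) (f2 ω) + (f1 ω - f2 ω) := fun ω => by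
    rcases le_total (f1 ω) (f2 ω) with h | h
    · rw [min_eq_left h, tsub_eq_zero_of_le h, add_zero]
    · rw [min_eq_right h, add_tsub_cancel_of_le h]
  have d2 : ∀ ω, f2 ω = min (f1 ω) (f2 ω) + (f2 ω - f1 ω) := fun ω => by
    rcases le_total (f1 ω) (f2 ω) with h | h
    · rw [min_eq_left h, add_tsub_cancel_of_le h]
    · rw [min_eq_right h, tsub_eq_zero_of_le h, add_zero]
  have q1 : Q₁ D = ∫⁻ ω, min (f1 ω) (f2 ω) * UQ_k D ω ∂P +
      ∫⁻ ω, (f1 ω - f2 ω) * UQ_k D ω ∂P := by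
    rw [i1 D hDm, ← lintegral_add_left mmk]
    change ∫⁻ ω, UQ_k D ω ∂Q₁ = _
    rw [← e1, lintegral_withDensity_eq_lintegral_mul _ m1 hk]
    refine lintegral_congr fun ω => ?_
    rw [Pi.mul_apply, ← add_mul, ← d1]
  have q2 : Q₂ D = ∫⁻ ω, min (f1 ω) (f2 ω) * UQ_k D ω ∂P +
      ∫⁻ ω, (f2 ω - f1 ω) * UQ_k D ω ∂P := by
    rw [i2 D hDm, ← lintegral_add_left mmk]
    change ∫⁻ ω, UQ_k D ω ∂Q₂ = _
    rw [← e2, lintegral_withDensity_eq_lintegral_mul _ m2 hk]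
    refine lintegral_congr fun ω => ?_
    rw [Pi.mul_apply, ← add_mul, ← d2]
  have q3 : Q₂ D = Q₁ D + ∫⁻ ω, f2 ω - f1 ω ∂P := by
    rw [← e1, ← e2, withDensity_apply _ hDm, withDensity_apply _ hDm,
      ← lintegral_indicator hDm, ← lintegral_indicator hDm,
      ← lintegral_add_left (m1.indicator hDm)]
    refine lintegral_congr fun ω => ?_
    by_cases h : ω ∈ D
    · rw [Set.indicator_of_mem h, Set.indicator_of_mem h, add_tsub_cancel_of_le h]
    · rw [Set.indicator_of_notMem h, Set.indicator_of_notMem h, zero_add,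
        tsub_eq_zero_of_le (not_le.1 h).le]
  have hfin : ∫⁻ ω, f2 ω - f1 ω ∂P ≠ ∞ := by
    refine ne_top_of_le_ne_top (by rw [t2]; exact ENNReal.one_ne_top)
      (lintegral_mono fun ω => tsub_le_self)
  have hle : ∫⁻ ω, (f2 ω - f1 ω) * UQ_k D ω ∂P ≤ ∫⁻ ω, f2 ω - f1 ω ∂P := by
    refine lintegral_mono_ae (hae.mono fun ω hω => ?_)
    calc (f2 ω - f1 ω) * UQ_k D ω ≤ (f2 ω - f1 ω) * 1 := by
          gcongr; exact UQ_le_one D hω.1 hω.2
      _ = _ := mul_one _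
  have hM : Q₁ D ≤ ∫⁻ ω, min (f1 ω) (f2 ω) * UQ_k D ω ∂P := by
    have : Q₁ D + ∫⁻ ω, f2 ω - f1 ω ∂P ≤
        ∫⁻ ω, min (f1 ω) (f2 ω) * UQ_k D ω ∂P + ∫⁻ ω, f2 ω - f1 ω ∂P := by
      rw [← q3, q2]; gcongr
    exact ENNReal.le_of_add_le_add_right hfin this
  have hMfin : ∫⁻ ω, min (f1 ω) (f2 ω) * UQ_k D ω ∂P ≠ ∞ :=
    ne_top_of_le_ne_top (measure_ne_top Q₁ D) (by rw [q1]; exact le_self_add)
  have hz : ∫⁻ ω, (f1 ω - f2 ω) * UQ_k D ω ∂P = 0 := by
    rw [q1] at hM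
    have : ∫⁻ ω, min (f1 ω) (f2 ω) * UQ_k D ω ∂P + ∫⁻ ω, (f1 ω - f2 ω) * UQ_k D ω ∂P ≤
        ∫⁻ ω, min (f1 ω) (f2 ω) * UQ_k D ω ∂P + 0 := by rwa [add_zero]
    exact le_antisymm (ENNReal.le_of_add_le_add_left hMfin this) zero_le
  rw [lintegral_eq_zero_iff mgk] at hz
  have hsub : Dᶜ ≤ᵐ[P] shift (dir 0) ⁻¹' Dᶜ := by
    filter_upwards [hz, hae] with ω h0 hω hc
    have hlt : f2 ω < f1 ω := not_le.1 hc
    have hne : f1 ω - f2 ω ≠ 0 := (tsub_pos_of_lt hlt).ne'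
    have hk0 : UQ_k D ω = 0 := (mul_eq_zero.1 h0).resolve_left hne
    exact UQ_notMem hω.1 hk0
  have herg : Ergodic (shift (dir 0)) P := (hE (dirichlet α)).2
  rcases herg.ae_empty_or_univ_of_ae_le_preimage hDm.compl.nullMeasurableSet hsub with h | h
  · have hle' : f1 ≤ᵐ[P] f2 := by
      filter_upwards [h] with ω hω
      by_contra hc
      have : Dᶜ ω := hc
      rw [hω] at this
      exact this
    rw [← e1, ← e2]
    exact withDensity_mono hle'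
  · exfalso
    have hlt : ∀ᵐ ω ∂P, f2 ω < f1 ω := by
      filter_upwards [h] with ω hω
      have : Dᶜ ω := by rw [hω]; exact Set.mem_univ ω
      exact not_le.1 this
    have := lintegral_strict_mono (NeZero.ne P) m1.aemeasurable
      (by rw [t2]; exact ENNReal.one_ne_top) hlt
    rw [t1, t2] at this
    exact lt_irrefl _ this

theorem pf_UQ (hE : StErg) : StUQ := by
  intro α hα Q₁ Q₂ p1 a1 i1 p2 a2 i2
  exact le_antisymm (UQ_le hE hα a1 i1 a2 i2) (UQ_le hE hα a2 i2 a1 i1)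

end DRW
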