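import Pool.Agent.P.MP_de05b4_pr.Basic

/-! Mean fluxes across a strip. -/

namespace DRW

open MeasureTheory ProbabilityTheory Finset Filter
open scoped ENNReal Topology

variable {N : ℕ} [NeZero N]

omit [NeZero N] in
theorem A_sum_const {I : Finset (T N)} {F : T N → ℝ≥0∞} {c : ℝ}
    (h : ∀ y ∈ I, F y = ENNReal.ofReal c) :
    ∑ y ∈ I, F y = ENNReal.ofReal (I.card * c) := by
  rw [Finset.sum_congr rfl h, Finset.sum_const, nsmul_eq_mul,
    ENNReal.ofReal_mul (Nat.cast_nonneg _), ENNReal.ofReal_natCast]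

theorem A_avg {C : Finset (T N)} (hC : C.card = N) {F : T N → ℝ≥0∞} {c : ℝ}
    (h : ∀ y ∈ C, ∀ y' ∈ C, F y = F y') (hs : ∑ y ∈ C, F y = ENNReal.ofReal (N * c)) :
    ∀ y ∈ C, F y = ENNReal.ofReal c := by
  intro y hy
  rw [Finset.sum_congr rfl fun y' hy' => h y' hy' y hy, Finset.sum_const, nsmul_eq_mul, hC,
    ENNReal.ofReal_mul (Nat.cast_nonneg _), ENNReal.ofReal_natCast] at hs
  exact (ENNReal.mul_right_inj (Nat.cast_ne_zero.2 (NeZero.ne N)) (ENNReal.natCast_ne_top N)).1 hs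

theorem A_FR_le (hG : StMgf) {α : Fin 4 → ℝ} (hα : ∀ i, 0 < α i) (s t : ℕ) (I : Finset (T N)) :
    Ex (al N α) (FR s t I) ≤ ENNReal.ofReal ((Col N t).card * α 2) := by
  have h1 := (hG N (al N α) (pos_al hα) (SE (Col N t) 2)).2
  have h2 : ∑ e ∈ SE (Col N t) 2, al N α e = (Col N t).card * α 2 := by
    rw [sum_SE]
    simp [al]
  rw [h2] at h1
  rw [← h1]
  exact Ex_mono (pos_al hα) fun G hG' =>
    Fx_le_sum hG' fun e _ => har_ind_le_one hG' (Wd_ne_univ s t) _ _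

theorem A_aa (hG : StMgf) {α : Fin 4 → ℝ} (hα : ∀ i, 0 < α i) (j : ℕ) :
    Ex (al N α) (FR 0 j {0}) = ENNReal.ofReal (aa α N j) :=
  (ENNReal.ofReal_toReal (ne_top_of_le_ne_top ENNReal.ofReal_ne_top (A_FR_le hG hα 0 j _))).symm

theorem A_Ex_FR {α : Fin 4 → ℝ} (hα : ∀ i, 0 < α i) (s t : ℕ) (I : Finset (T N)) :
    Ex (al N α) (FR s t I) = ∑ y ∈ I, Ex (al N α) (FR s t {y}) := by
  rw [← Ex_sum (pos_al hα) I (fun y _ => measurable_FR s t {y})
    fun y _ G hG => FR_nonneg hG s t {y}]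
  exact Ex_congr (pos_al hα) fun G _ => FR_eq_sum G s t I

theorem A_Ex_FL {α : Fin 4 → ℝ} (hα : ∀ i, 0 < α i) (s t : ℕ) (I : Finset (T N)) :
    Ex (al N α) (FL s t I) = ∑ y ∈ I, Ex (al N α) (FL s t {y}) := by
  rw [← Ex_sum (pos_al hα) I (fun y _ => measurable_FL s t {y})
    fun y _ G hG => FL_nonneg hG s t {y}]
  exact Ex_congr (pos_al hα) fun G _ => FL_eq_sum G s t I

theorem A_Ex_uu {α : Fin 4 → ℝ} (hα : ∀ i, 0 < α i) (s t : ℕ) (I : Finset (T N)) :
    Ex (al N α) (fun G => Fx G (SE I 0) (uu s t G)) =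
      ∑ y ∈ I, Ex (al N α) fun G => Fx G (SE {y} 0) (uu s t G) := by
  rw [← Ex_sum (pos_al hα) I (X := fun y G => Fx G (SE {y} 0) (uu s t G))
    (fun y _ => measurable_Fx _ (measurable_uu s t))
    fun y _ G hG => Fx_nonneg hG fun _ _ => uu_nonneg hG s t _]
  refine Ex_congr (pos_al hα) fun G _ => ?_
  simp only [Fx_SE, Finset.sum_singleton]

theorem A_one (h0 : StA0) (hG : StMgf) {α : Fin 4 → ℝ} (hα : ∀ i, 0 < α i) {s t : ℕ}
    (hst : s < t) (ht : t < N) {I : Finset (T N)} (hI : I ⊆ Col N s) :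
    Ex (al N α) (FR s t I) = ENNReal.ofReal (I.card * aa α N (t - s)) := by
  obtain ⟨j, rfl⟩ := Nat.exists_eq_add_of_le hst.le
  rw [A_Ex_FR hα, Nat.add_sub_cancel_left]
  exact A_sum_const fun y hy => by rw [(h0 α hα N s j ht).1 y (hI hy), A_aa hG hα]

theorem A_FR_mono {G : E N → ℝ} (hG : Pos G) {r k : ℕ} (hr : r < k) (hk : k < N) :
    FR 0 k (Col N 0) G ≤ FR r k (Col N r) G := by
  refine Fx_mono hG fun e he => ?_
  have hc : col (tg e) = k - 1 := col_tg_right (by omega) Subset.rfl he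
  change vv 0 k G (tg e) ≤ vv r k G (tg e)
  refine le_on_strip hG (s := r) (t := k) hk (fun x hx => ?_) (fun x hx => ?_) (fun x hx => ?_)
    (by omega) (by omega)
  · rw [mem_Wd] at hx
    rw [vv_lap hG hx.1 hx.2, vv_lap hG (by omega) hx.2]
  · rw [vv_left hG hx]
    exact vv_le_one hG 0 k x
  · rw [vv_right hG hr hx, vv_right hG (by omega) hx]

theorem pf_A (h0 : StA0) (hM : StM) (hG : StMgf) : StA := by
  intro α hadm N _
  have hα := hadm.1
  have hδ : 0 ≤ α 0 - α 2 := sub_nonneg.2 hadm.2.le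
  have ha : ∀ j, 0 ≤ aa α N j := fun j => ENNReal.toReal_nonneg
  have hN : (0 : ℝ) < N := Nat.cast_pos.2 (NeZero.pos N)
  refine ⟨fun s t hst ht => ?_, ha, fun j h1 hj => ?_, fun j k h1 hjk hk => ?_⟩
  · have htot : Ex (al N α) (FL s t (Col N t)) =
        ENNReal.ofReal (N * (α 0 - α 2 + aa α N (t - s))) := by
      rw [hM α hadm N s t hst ht, A_one h0 hG hα hst ht Subset.rfl, card_Col (hst.trans ht),
        ← ENNReal.ofReal_add (mul_nonneg hN.le hδ) (mul_nonneg hN.le (ha _)), mul_add]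
    obtain ⟨j, rfl⟩ := Nat.exists_eq_add_of_le hst.le
    refine ⟨fun I hI => A_one h0 hG hα hst ht hI, fun I hI => ?_, fun I hI => ?_⟩
    · rw [A_Ex_FL hα]
      rw [A_Ex_FL hα] at htot
      exact A_sum_const fun y hy =>
        A_avg (card_Col ht) (h0 α hα N s j ht).2.1 htot y (hI hy)
    · rw [A_Ex_uu hα]
      have h2 : Ex (al N α) (fun G => Fx G (SE (Col N s) 0) (uu s (s + j) G)) =
          ENNReal.ofReal (N * (α 0 - α 2 + aa α N (s + j - s))) := htot
      rw [A_Ex_uu hα] at h2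
      exact A_sum_const fun y hy =>
        A_avg (card_Col (hst.trans ht)) (h0 α hα N s j ht).2.2 h2 y (hI hy)
  · have h2 := A_FR_le hG hα 0 j (Col N 0)
    rw [A_one h0 hG hα (s := 0) (by omega) hj Subset.rfl, card_Col hj, card_Col (NeZero.pos N),
      Nat.sub_zero, ENNReal.ofReal_le_ofReal_iff (mul_nonneg hN.le (hα 2).le)] at h2
    exact le_of_mul_le_mul_left h2 hN
  · have h2 : Ex (al N α) (FR 0 k (Col N 0)) ≤ Ex (al N α) (FR (k - j) k (Col N (k - j))) :=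
      Ex_mono (pos_al hα) fun G hG' => A_FR_mono hG' (by omega) hk
    have e : k - (k - j) = j := by omega
    rw [A_one h0 hG hα (s := 0) (by omega) hk Subset.rfl,
      A_one h0 hG hα (s := k - j) (by omega) hk Subset.rfl, card_Col (NeZero.pos N),
      card_Col (by omega), Nat.sub_zero, e,
      ENNReal.ofReal_le_ofReal_iff (mul_nonneg hN.le (ha j))] at h2
    exact le_of_mul_le_mul_left h2 hN

end DRW
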