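import Pool.Agent.P.MP_de05b4_pr.Basic

/-! The derivative of the harmonic extension with respect to the weights. -/

namespace DRW

open Finset Filter
open scoped Topology

theorem I1_det {X n : Type} [NormedAddCommGroup X] [NormedSpace ℝ X] [Fintype n] [DecidableEq n]
    {A : X → Matrix n n ℝ} {x : X} (h : ∀ i j, DifferentiableAt ℝ (fun y => A y i j) x) :
    DifferentiableAt ℝ (fun y => (A y).det) x := by
  simp only [Matrix.det_apply']
  refine DifferentiableAt.fun_sum fun σ _ => DifferentiableAt.const_mul ?_ _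
  exact (HasFDerivAt.finsetProd (g := fun i y => A y (σ i) i)
    fun i _ => (h _ _).hasFDerivAt).differentiableAt

variable {N : ℕ} [NeZero N]

theorem I1_hmat (W : Finset (T N)) (G : E N → ℝ) (x y : T N) :
    DifferentiableAt ℝ (fun G' => hmat W G' x y) G := by
  unfold hmat
  split_ifs <;> fun_prop

theorem I1_har_eq (W : Finset (T N)) (f : T N → ℝ) (G : E N → ℝ) (x : T N) :
    har W f G x = ((hmat W G).det)⁻¹ *
      ((hmat W G).updateCol x fun z => if z ∈ W then 0 else f z).det := by
  rw [har, Matrix.inv_def, Matrix.smul_mulVec, ← Matrix.cramer_eq_adjugate_mulVec, Pi.smul_apply,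
    Matrix.cramer_apply, Ring.inverse_eq_inv', smul_eq_mul]

theorem I1_diff {W : Finset (T N)} (hW : W ≠ univ) (f : T N → ℝ) {G : E N → ℝ} (hG : Pos G) :
    DifferentiableAt ℝ (fun G' => har W f G') G := by
  refine differentiableAt_pi.2 fun x => ?_
  simp only [I1_har_eq]
  refine ((I1_det (I1_hmat W G)).inv (hmat_det_ne hG hW)).mul (I1_det fun i j => ?_)
  simp only [Matrix.updateCol_apply]
  split_ifs
  · fun_prop
  · fun_prop
  · exact I1_hmat W G i j

theorem I1_pos {G : E N → ℝ} (hG : Pos G) : ∀ᶠ G' in 𝓝 G, Pos G' :=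
  eventually_all.2 fun e => (continuous_apply e).continuousAt.eventually (lt_mem_nhds (hG e))

theorem pf_I1 : StI1 := by
  intro N _ W hW f G hG
  have hD := (I1_diff hW f hG).hasFDerivAt
  set D := fderiv ℝ (fun G' => har W f G') G with hDdef
  have hx : ∀ x, HasFDerivAt (fun G' => har W f G' x)
      ((ContinuousLinearMap.proj x).comp D) G := fun x => hasFDerivAt_pi'.1 hD x
  refine ⟨D, hD, fun d => ⟨fun x hxW => ?_, fun x hxW => ?_⟩⟩
  · have h1 : HasFDerivAt (fun G' => lap G' (har W f G') x) _ G :=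
      HasFDerivAt.fun_sum (u := univ) fun i _ =>
        (hasFDerivAt_apply (𝕜 := ℝ) (x, i) G).mul ((hx (x + dr N i)).sub (hx x))
    have h2 : HasFDerivAt (fun G' => lap G' (har W f G') x) (0 : (E N → ℝ) →L[ℝ] ℝ) G :=
      (hasFDerivAt_const (0 : ℝ) G).congr_of_eventuallyEq
        ((I1_pos hG).mono fun G' h' => har_lap h' hW f hxW)
    have h3 := congrArg (fun L : (E N → ℝ) →L[ℝ] ℝ => L d) (h1.unique h2)
    simp only [_root_.sum_apply, _root_.add_apply, _root_.smul_apply, _root_.sub_apply,
      ContinuousLinearMap.comp_apply, ContinuousLinearMap.proj_apply, smul_eq_mul,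
      _root_.zero_apply] at h3
    rw [lap, lap, ← sum_add_distrib, ← h3]
    exact sum_congr rfl fun i _ => by ring
  · have h2 : HasFDerivAt (fun G' => har W f G' x) (0 : (E N → ℝ) →L[ℝ] ℝ) G :=
      (hasFDerivAt_const (f x) G).congr_of_eventuallyEq
        ((I1_pos hG).mono fun G' h' => har_off h' hW f hxW)
    exact congrArg (fun L : (E N → ℝ) →L[ℝ] ℝ => L d) ((hx x).unique h2)

end DRW
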