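import Pool.Agent.P.MP_de05b4_pr.Basic

/-! Geometric decay of the mean backtracking flux along doubling widths. -/

namespace DRW

open MeasureTheory ProbabilityTheory Finset Filter
open scoped ENNReal Topology

theorem S1_pt {F B v U : ℝ} (hF : 0 ≤ F) (hB : 0 ≤ B) (hv : 0 ≤ v) (hv1 : v ≤ 1) (hU : 0 < U) :
    F * B * v ≤ U * (F * v) + U⁻¹ * (F * B ^ 2) := by
  have h1 : B * v ≤ U * v + U⁻¹ * B ^ 2 := by
    rcases le_total B U with h | h
    · have := mul_le_mul_of_nonneg_right h hv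
      have h2 : 0 ≤ U⁻¹ * B ^ 2 := by positivity
      linarith
    · have h2 : B ≤ U⁻¹ * B ^ 2 := by
        rw [le_inv_mul_iff₀ hU]
        nlinarith
      have h3 : B * v ≤ B := mul_le_of_le_one_right hB hv1
      have h4 : 0 ≤ U * v := by positivity
      linarith
  have := mul_le_mul_of_nonneg_left h1 hF
  nlinarith

theorem S1_ind (hN : StInd) {N : ℕ} [NeZero N] {β : E N → ℝ} (hβ : Pos β) (j : ℕ)
    {X Y : (E N → ℝ) → ℝ} (hX : Measurable X) (hY : Measurable Y)
    (hX0 : ∀ G, Pos G → 0 ≤ X G)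
    (hXd : ∀ G G' : E N → ℝ, (∀ e : E N, col e.1 < j → G e = G' e) → X G = X G')
    (hYd : ∀ G G' : E N → ℝ, (∀ e : E N, j < col e.1 → G e = G' e) → Y G = Y G') :
    Ex β (fun G => X G * Y G) = Ex β X * Ex β Y := by
  have h := hN N β hβ {e | col e.1 < j} (fun G => ENNReal.ofReal (X G))
    (fun G => ENNReal.ofReal (Y G)) hX.ennreal_ofReal hY.ennreal_ofReal
    (fun G G' hG => by
      show ENNReal.ofReal (X G) = ENNReal.ofReal (X G')
      rw [hXd G G' fun e he => hG e he])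
    (fun G G' hG => by
      show ENNReal.ofReal (Y G) = ENNReal.ofReal (Y G')
      rw [hYd G G' fun e he => hG e (by
        simp only [Set.mem_compl_iff, Set.mem_ofPred_eq]; omega)])
  unfold Ex
  rw [← h]
  exact lintegral_congr_ae ((ae_pos hβ).mono fun G hG => ENNReal.ofReal_mul (hX0 G hG))

theorem S1_cancel {x : ℝ≥0∞} {p q : ℝ} (hp : 0 ≤ p)
    (h : x + ENNReal.ofReal p = ENNReal.ofReal q) : x ≤ ENNReal.ofReal (q - p) := by
  rw [ENNReal.ofReal_sub _ hp, ← h, ENNReal.add_sub_cancel_right ENNReal.ofReal_ne_top]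

theorem S1_key (hA : StA) (hI : StId) (hN : StInd) {α : Fin 4 → ℝ} (hα : Adm α) {C : ℝ}
    (hC : 0 < C) {N : ℕ} [NeZero N] {j : ℕ} (hj : 1 ≤ j) (hjN : 2 * j < N)
    (hB1 : ∀ y ∈ Col N j, Ex (al N α) (fun G => FR j (2 * j) {y} G ^ 2) ≤
      ENNReal.ofReal (C * aa α N j))
    (hB2 : ∀ y ∈ Col N j, Ex (al N α) (fun G => FL 0 j {y} G ^ 2) ≤ ENNReal.ofReal C)
    {U : ℝ} (hU : 0 < U) :
    (α 0 - α 2) * aa α N j ≤ 2 * U * (aa α N j - aa α N (2 * j))
      + U⁻¹ * ((α 0 + 1) * C * aa α N j) := by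
  obtain ⟨hA1, hA2, hA3, hA4⟩ := hA α hα N
  have hβ : Pos (al N α) := pos_al hα.1
  have hδ : 0 < α 0 - α 2 := sub_pos.mpr hα.2
  have ha0 := hA2 j
  have ha'0 := hA2 (2 * j)
  have ha2 := hA3 j hj (by omega)
  have haa : aa α N (2 * j) ≤ aa α N j := hA4 j (2 * j) hj (by omega) hjN
  have hjj : 2 * j - j = j := by omega
  have hNpos : (0 : ℝ) < N := by exact_mod_cast (by omega : 0 < N)
  have hα0 := hα.1 0
  set a := aa α N j with ha
  set a' := aa α N (2 * j) with ha'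
  set δ := α 0 - α 2 with hδd
  have hEF : ∀ y ∈ Col N j, Ex (al N α) (FL 0 j {y}) = ENNReal.ofReal (δ + a) := fun y hy => by
    have := (hA1 0 j (by omega) (by omega)).2.1 {y} (singleton_subset_iff.mpr hy)
    simpa using this
  have hEB : ∀ y ∈ Col N j, Ex (al N α) (FR j (2 * j) {y}) = ENNReal.ofReal a := fun y hy => by
    have := (hA1 j (2 * j) (by omega) hjN).1 {y} (singleton_subset_iff.mpr hy)
    rw [hjj] at this
    simpa using this
  have mF : ∀ y : T N, Measurable (FL 0 j {y}) := fun y => measurable_FL _ _ _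
  have mB : ∀ y : T N, Measurable (FR j (2 * j) {y}) := fun y => measurable_FR _ _ _
  have dF : ∀ y : T N, ∀ G G' : E N → ℝ, (∀ e : E N, col e.1 < j → G e = G' e) →
      FL 0 j {y} G = FL 0 j {y} G' := fun y G G' h => FL_dep (by omega) _ h
  have dB : ∀ y : T N, ∀ G G' : E N → ℝ, (∀ e : E N, j < col e.1 → G e = G' e) →
      FR j (2 * j) {y} G = FR j (2 * j) {y} G' := fun y G G' h => FR_dep (by omega) _ h
  have hcard : (Col N j).card = N := card_Col (by omega)
  -- the product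
  have h1 : Ex (al N α) (fun G => ∑ y ∈ Col N j, FL 0 j {y} G * FR j (2 * j) {y} G) =
      ENNReal.ofReal (N * ((δ + a) * a)) := by
    have m1 : ∀ y : T N, Measurable fun G => FL 0 j {y} G * FR j (2 * j) {y} G :=
      fun y => (mF y).mul (mB y)
    rw [Ex_sum hβ _ (fun y _ => m1 y)
      (fun y _ G hG => mul_nonneg (FL_nonneg hG _ _ _) (FR_nonneg hG _ _ _)),
      Finset.sum_congr rfl (g := fun _ => ENNReal.ofReal ((δ + a) * a)) fun y hy => by
        rw [S1_ind hN hβ j (mF y) (mB y) (fun G hG => FL_nonneg hG _ _ _) (dF y) (dB y),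
          hEF y hy, hEB y hy, ← ENNReal.ofReal_mul (by linarith)]]
    rw [Finset.sum_const, hcard, nsmul_eq_mul, ENNReal.ofReal_mul hNpos.le,
      ENNReal.ofReal_natCast]
  -- the two telescoping sums
  have mv : Measurable fun G => ∑ y ∈ Col N j, FL 0 j {y} G * vv 0 (2 * j) G y :=
    Finset.measurable_sum _ fun y _ => (mF y).mul (measurable_vv _ _ _)
  have mu' : Measurable fun G => ∑ y ∈ Col N j, FR j (2 * j) {y} G * uu 0 (2 * j) G y :=
    Finset.measurable_sum _ fun y _ => (mB y).mul (measurable_uu _ _ _)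
  have h2 : Ex (al N α) (fun G => ∑ y ∈ Col N j, FL 0 j {y} G * vv 0 (2 * j) G y) ≤
      ENNReal.ofReal (N * (a - a')) := by
    have e1 := Ex_add hβ mv (Y := FL 0 (2 * j) (Col N (2 * j)))
      (fun G hG => Finset.sum_nonneg fun y _ =>
        mul_nonneg (FL_nonneg hG _ _ _) (vv_nonneg hG _ _ _))
      (fun G hG => FL_nonneg hG _ _ _)
    rw [Ex_congr hβ (Y := FL 0 j (Col N j))
      (fun G hG => (hI N 0 j (2 * j) (by omega) (by omega) hjN G hG).1),
      (hA1 0 j (by omega) (by omega)).2.1 _ Subset.rfl,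
      (hA1 0 (2 * j) (by omega) hjN).2.1 _ Subset.rfl, hcard, card_Col hjN, Nat.sub_zero,
      Nat.sub_zero] at e1
    refine (S1_cancel (by positivity) e1.symm).trans (le_of_eq ?_)
    congr 1; ring
  have h3 : Ex (al N α) (fun G => ∑ y ∈ Col N j, FR j (2 * j) {y} G * uu 0 (2 * j) G y) ≤
      ENNReal.ofReal (N * (a - a')) := by
    have e1 := Ex_add hβ mu' (Y := FR 0 (2 * j) (Col N 0))
      (fun G hG => Finset.sum_nonneg fun y _ =>
        mul_nonneg (FR_nonneg hG _ _ _) (uu_nonneg hG _ _ _))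
      (fun G hG => FR_nonneg hG _ _ _)
    rw [Ex_congr hβ (Y := FR j (2 * j) (Col N j))
      (fun G hG => (hI N 0 j (2 * j) (by omega) (by omega) hjN G hG).2.2),
      (hA1 j (2 * j) (by omega) hjN).1 _ Subset.rfl,
      (hA1 0 (2 * j) (by omega) hjN).1 _ Subset.rfl, hcard, card_Col (by omega : 0 < N), hjj,
      Nat.sub_zero] at e1
    refine (S1_cancel (by positivity) e1.symm).trans (le_of_eq ?_)
    congr 1; ring
  -- the two cubic terms
  have m4 : ∀ y : T N, Measurable fun G => FL 0 j {y} G * FR j (2 * j) {y} G ^ 2 :=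
    fun y => (mF y).mul ((mB y).pow_const 2)
  have m5 : ∀ y : T N, Measurable fun G => FL 0 j {y} G ^ 2 * FR j (2 * j) {y} G :=
    fun y => ((mF y).pow_const 2).mul (mB y)
  have h4 : Ex (al N α) (fun G => ∑ y ∈ Col N j, FL 0 j {y} G * FR j (2 * j) {y} G ^ 2) ≤
      ENNReal.ofReal (N * (α 0 * (C * a))) := by
    rw [Ex_sum hβ _ (fun y _ => m4 y)
      (fun y _ G hG => mul_nonneg (FL_nonneg hG _ _ _) (sq_nonneg _))]
    refine (Finset.sum_le_sum (g := fun _ => ENNReal.ofReal (α 0 * (C * a)))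
      fun y hy => ?_).trans (le_of_eq ?_)
    · rw [S1_ind hN hβ j (mF y) ((mB y).pow_const 2) (fun G hG => FL_nonneg hG _ _ _) (dF y)
        (fun G G' h => by rw [dB y G G' h]), hEF y hy, ENNReal.ofReal_mul hα0.le]
      exact mul_le_mul' (ENNReal.ofReal_le_ofReal (by linarith)) (hB1 y hy)
    · rw [Finset.sum_const, hcard, nsmul_eq_mul, ENNReal.ofReal_mul hNpos.le,
        ENNReal.ofReal_natCast]
  have h5 : Ex (al N α) (fun G => ∑ y ∈ Col N j, FL 0 j {y} G ^ 2 * FR j (2 * j) {y} G) ≤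
      ENNReal.ofReal (N * (C * a)) := by
    rw [Ex_sum hβ _ (fun y _ => m5 y)
      (fun y _ G hG => mul_nonneg (sq_nonneg _) (FR_nonneg hG _ _ _))]
    refine (Finset.sum_le_sum (g := fun _ => ENNReal.ofReal (C * a))
      fun y hy => ?_).trans (le_of_eq ?_)
    · rw [S1_ind hN hβ j ((mF y).pow_const 2) (mB y) (fun G _ => sq_nonneg _)
        (fun G G' h => by rw [dF y G G' h]) (dB y), hEB y hy, ENNReal.ofReal_mul hC.le]
      exact mul_le_mul' (hB2 y hy) le_rfl
    · rw [Finset.sum_const, hcard, nsmul_eq_mul, ENNReal.ofReal_mul hNpos.le,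
        ENNReal.ofReal_natCast]
  -- the pointwise bound
  have hUi : 0 ≤ U⁻¹ := inv_nonneg.mpr hU.le
  have h6 : Ex (al N α) (fun G => ∑ y ∈ Col N j, FL 0 j {y} G * FR j (2 * j) {y} G) ≤
      Ex (al N α) (fun G =>
        U * (∑ y ∈ Col N j, FL 0 j {y} G * vv 0 (2 * j) G y) +
        (U * (∑ y ∈ Col N j, FR j (2 * j) {y} G * uu 0 (2 * j) G y) +
        (U⁻¹ * (∑ y ∈ Col N j, FL 0 j {y} G * FR j (2 * j) {y} G ^ 2) +
        U⁻¹ * (∑ y ∈ Col N j, FL 0 j {y} G ^ 2 * FR j (2 * j) {y} G)))) := by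
    refine Ex_mono hβ fun G hG => ?_
    simp only [Finset.mul_sum, ← Finset.sum_add_distrib]
    refine Finset.sum_le_sum fun y hy => ?_
    have hc := mem_Col.mp hy
    have huv := uu_add_vv hG (s := 0) (t := 2 * j) (by omega) hjN (x := y) (by omega) (by omega)
    have p1 := S1_pt (FL_nonneg hG 0 j {y}) (FR_nonneg hG j (2 * j) {y})
      (vv_nonneg hG 0 (2 * j) y) (vv_le_one hG 0 (2 * j) y) hU
    have p2 := S1_pt (FR_nonneg hG j (2 * j) {y}) (FL_nonneg hG 0 j {y})
      (uu_nonneg hG 0 (2 * j) y) (uu_le_one hG 0 (2 * j) y) hU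
    have p3 : FL 0 j {y} G * FR j (2 * j) {y} G =
        FL 0 j {y} G * FR j (2 * j) {y} G * vv 0 (2 * j) G y +
          FR j (2 * j) {y} G * FL 0 j {y} G * uu 0 (2 * j) G y := by
      linear_combination (-(FL 0 j {y} G * FR j (2 * j) {y} G)) * huv
    rw [mul_comm (FL 0 j {y} G ^ 2)]
    linarith
  have hd : 0 ≤ a - a' := by linarith
  have h7 : ENNReal.ofReal (N * ((δ + a) * a)) ≤ ENNReal.ofReal
      (U * (N * (a - a')) + (U * (N * (a - a')) + (U⁻¹ * (N * (α 0 * (C * a)))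
        + U⁻¹ * (N * (C * a))))) := by
    rw [← h1]
    refine h6.trans ((Ex_add_le _ (mv.const_mul U)).trans ?_)
    rw [ENNReal.ofReal_add (by positivity) (by positivity),
      ENNReal.ofReal_add (by positivity) (by positivity),
      ENNReal.ofReal_add (by positivity) (by positivity), ENNReal.ofReal_mul hU.le,
      ENNReal.ofReal_mul hUi, ENNReal.ofReal_mul hUi, Ex_const_mul _ hU.le]
    refine add_le_add (mul_le_mul' le_rfl h2) ((Ex_add_le _ (mu'.const_mul U)).trans ?_)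
    rw [Ex_const_mul _ hU.le]
    refine add_le_add (mul_le_mul' le_rfl h3) ((Ex_add_le _
      ((Finset.measurable_sum _ fun y _ => m4 y).const_mul U⁻¹)).trans ?_)
    rw [Ex_const_mul _ hUi, Ex_const_mul _ hUi]
    exact add_le_add (mul_le_mul' le_rfl h4) (mul_le_mul' le_rfl h5)
  rw [ENNReal.ofReal_le_ofReal_iff (by positivity)] at h7
  have h8 : (δ + a) * a ≤ 2 * U * (a - a') + U⁻¹ * ((α 0 + 1) * C * a) := by
    refine le_of_mul_le_mul_left (h7.trans (le_of_eq ?_)) hNpos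
    ring
  nlinarith [mul_nonneg ha0 ha0]

theorem pf_S1 (hA : StA) (hI : StId) (hB : StB2) (hN : StInd) : StS1 := by
  intro α hα
  obtain ⟨C, hC, hB⟩ := hB α hα
  have hδ : 0 < α 0 - α 2 := sub_pos.mpr hα.2
  have hα0 := hα.1 0
  obtain ⟨U, hUd⟩ : ∃ U : ℝ, U = 2 * ((α 0 + 1) * C) / (α 0 - α 2) := ⟨_, rfl⟩
  have hU : 0 < U := by rw [hUd]; positivity
  refine ⟨min ((α 0 - α 2) / (4 * U)) (1 / 2), lt_min (by positivity) (by norm_num),
    (min_le_right _ _).trans_lt (by norm_num), fun N _ j hj hjN => ?_⟩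
  have hjj : 2 * j - j = j := by omega
  have h1 := (hB N j (2 * j) (by omega) hjN).1
  rw [hjj] at h1
  have h2 := (hB N 0 j (by omega) (by omega)).2
  have h := S1_key hA hI hN hα hC hj hjN h1 h2 hU
  have ha0 := (hA α hα N).2.1 j
  have e1 : U⁻¹ * ((α 0 + 1) * C * aa α N j) = (α 0 - α 2) * aa α N j / 2 := by
    rw [hUd]; field_simp
  rw [e1] at h
  have h3 : (α 0 - α 2) / (4 * U) * aa α N j ≤ aa α N j - aa α N (2 * j) := by
    rw [div_mul_eq_mul_div, div_le_iff₀ (by positivity)]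
    linarith
  have h4 := mul_le_mul_of_nonneg_right
    (min_le_left ((α 0 - α 2) / (4 * U)) (1 / 2)) ha0
  linarith

theorem pf_A00 (h1 : StS1) (hA : StA) : StA00 := by
  intro α hα ε hε
  obtain ⟨c, hc0, hc1, h⟩ := h1 α hα
  have hα2 := hα.1 2
  obtain ⟨k, hk⟩ := exists_pow_lt_of_lt_one (div_pos hε hα2) (by linarith : 1 - c < 1)
  refine ⟨max (2 ^ k) 2, le_max_right _ _, fun N _ w hw hwN => ?_⟩
  obtain ⟨-, -, hA3, hA4⟩ := hA α hα N
  have key : ∀ i : ℕ, 2 ^ i < N → aa α N (2 ^ i) ≤ (1 - c) ^ i * α 2 := by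
    intro i
    induction i with
    | zero => intro hi; simpa using hA3 1 le_rfl (by simpa using hi)
    | succ i ih =>
      intro hi
      have hp : 1 ≤ 2 ^ i := Nat.one_le_two_pow
      rw [pow_succ'] at hi
      have e := h N (2 ^ i) hp hi
      have e2 := mul_le_mul_of_nonneg_left (ih (by omega)) (by linarith : 0 ≤ 1 - c)
      rw [pow_succ', pow_succ' (1 - c)]
      linarith
  have hw' : 2 ^ k ≤ w := (le_max_left _ _).trans hw
  have e1 := hA4 (2 ^ k) w Nat.one_le_two_pow hw' hwN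
  have e2 := key k (by omega)
  rw [lt_div_iff₀ hα2] at hk
  linarith

end DRW
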